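import Pool.Agent.GLFix.FoldBasic

/-!
# MP_ce340f_al, module F2

Rank and foldings.
-/

open scoped Classical
open Module Filter Asymptotics

noncomputable section

namespace Pool.Agent.GLFix

section F2

variable {ℓ : ℕ} [NeZero ℓ] {σ : ZMod ℓ → Bool} {π τ : Setoid (ZMod ℓ)}

/-! ### Merging two classes -/

/-- `r` with the classes of `a` and `b` merged. -/
def f2_merge {E : Type*} (r : Setoid E) (a b : E) : Setoid E :=
  Setoid.ker (fun x => if r x a then Quotient.mk r b else Quotient.mk r x)

theorem f2_merge_rel {E : Type*} {r : Setoid E} {a b x y : E} :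
    f2_merge r a b x y ↔ (if r x a then Quotient.mk r b else Quotient.mk r x) =
      (if r y a then Quotient.mk r b else Quotient.mk r y) := Iff.rfl

theorem f2_le_merge {E : Type*} (r : Setoid E) (a b : E) : r ≤ f2_merge r a b := by
  intro x y h
  rw [f2_merge_rel]
  have hxy : Quotient.mk r x = Quotient.mk r y := Quotient.sound h
  by_cases hx : r x a
  · rw [if_pos hx, if_pos (r.trans' (r.symm' h) hx)]
  · rw [if_neg hx, if_neg (fun hy => hx (r.trans' h hy)), hxy]

theorem f2_merge_ab {E : Type*} (r : Setoid E) (a b : E) : f2_merge r a b a b := by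
  rw [f2_merge_rel, if_pos (r.refl' a)]
  split_ifs <;> rfl

theorem f2_merge_cases {E : Type*} {r : Setoid E} {a b x y : E} (h : f2_merge r a b x y) :
    r x y ∨ (r x a ∧ r y b) ∨ (r x b ∧ r y a) := by
  rw [f2_merge_rel] at h
  by_cases hx : r x a <;> by_cases hy : r y a
  · exact Or.inl (r.trans' hx (r.symm' hy))
  · rw [if_pos hx, if_neg hy] at h
    exact Or.inr (Or.inl ⟨hx, r.symm' (Quotient.exact h)⟩)
  · rw [if_neg hx, if_pos hy] at h
    exact Or.inr (Or.inr ⟨Quotient.exact h, hy⟩)
  · rw [if_neg hx, if_neg hy] at h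
    exact Or.inl (Quotient.exact h)

theorem f2_merge_le {E : Type*} {r t : Setoid E} {a b : E} (h : r ≤ t) (hab : t a b) :
    f2_merge r a b ≤ t := by
  intro x y hxy
  rcases f2_merge_cases hxy with h1 | ⟨h1, h2⟩ | ⟨h1, h2⟩
  · exact h h1
  · exact t.trans' (t.trans' (h h1) hab) (t.symm' (h h2))
  · exact t.trans' (t.trans' (h h1) (t.symm' hab)) (t.symm' (h h2))

/-! ### Counting classes -/

theorem f2_card_anti {E : Type*} [Finite E] {r t : Setoid E} (h : r ≤ t) :
    Nat.card (Quotient t) ≤ Nat.card (Quotient r) := by
  refine Nat.card_le_card_of_surjective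
    (Quotient.lift (fun x => Quotient.mk t x) fun x y hxy => Quotient.sound (h hxy)) ?_
  intro c
  induction c using Quotient.inductionOn with
  | h x => exact ⟨Quotient.mk r x, rfl⟩

theorem f2_card_merge_lt {E : Type*} [Finite E] {r : Setoid E} {a b : E} (hab : ¬ r a b) :
    Nat.card (Quotient (f2_merge r a b)) + 1 ≤ Nat.card (Quotient r) := by
  -- the classes of the merged relation inject in the classes different from the class of `a`
  have h1 : Nat.card (Quotient (f2_merge r a b)) ≤
      Nat.card {c : Quotient r // c ≠ Quotient.mk r a} := by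
    refine Nat.card_le_card_of_injective
      (Quotient.lift (fun x => (⟨if r x a then Quotient.mk r b else Quotient.mk r x, ?_⟩ :
        {c : Quotient r // c ≠ Quotient.mk r a})) ?_) ?_
    · split_ifs with hx
      · exact fun h => hab (r.symm' (Quotient.exact h))
      · exact fun h => hx (Quotient.exact h)
    · intro x y hxy
      exact Subtype.ext hxy
    · intro c d
      induction c using Quotient.inductionOn with
      | h x =>
        induction d using Quotient.inductionOn with
        | h y =>
          intro h
          exact Quotient.sound (congrArg Subtype.val h)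
  have h2 : Nat.card {c : Quotient r // c ≠ Quotient.mk r a} + 1 = Nat.card (Quotient r) := by
    have h3 := Nat.card_congr (Equiv.sumCompl (fun c : Quotient r => c ≠ Quotient.mk r a))
    rw [Nat.card_sum] at h3
    have h4 : Nat.card {c : Quotient r // ¬ c ≠ Quotient.mk r a} = 1 := by
      rw [Nat.card_eq_one_iff_unique]
      refine ⟨⟨fun c d => Subtype.ext ((not_not.mp c.2).trans (not_not.mp d.2).symm)⟩,
        ⟨⟨Quotient.mk r a, not_not.mpr rfl⟩⟩⟩
    rw [h4] at h3
    exact h3
  omega

theorem f2_card_le_merge {E : Type*} [Finite E] (r : Setoid E) (a b : E) :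
    Nat.card (Quotient r) ≤ Nat.card (Quotient (f2_merge r a b)) + 1 := by
  have h1 : Nat.card (Quotient r) ≤ Nat.card (Option (Quotient (f2_merge r a b))) := by
    refine Nat.card_le_card_of_injective
      (Quotient.lift (fun x => if r x a then none else some (Quotient.mk (f2_merge r a b) x))
        ?_) ?_
    · intro x y hxy
      have hxy' : r x y := hxy
      show (if r x a then none else some (Quotient.mk (f2_merge r a b) x)) =
        (if r y a then none else some (Quotient.mk (f2_merge r a b) y))
      by_cases hx : r x a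
      · rw [if_pos hx, if_pos (r.trans' (r.symm' hxy') hx)]
      · rw [if_neg hx, if_neg (fun hy => hx (r.trans' hxy' hy))]
        exact congrArg some (Quotient.sound (f2_le_merge r a b hxy'))
    · intro c d
      induction c using Quotient.inductionOn with
      | h x =>
        induction d using Quotient.inductionOn with
        | h y =>
          intro h
          have h' : (if r x a then none else some (Quotient.mk (f2_merge r a b) x)) =
            (if r y a then none else some (Quotient.mk (f2_merge r a b) y)) := h
          by_cases hx : r x a <;> by_cases hy : r y a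
          · exact Quotient.sound (r.trans' hx (r.symm' hy))
          · rw [if_pos hx, if_neg hy] at h'
            exact absurd h' (by simp)
          · rw [if_neg hx, if_pos hy] at h'
            exact absurd h' (by simp)
          · rw [if_neg hx, if_neg hy] at h'
            have h2 : f2_merge r a b x y := Quotient.exact (Option.some.inj h')
            rcases f2_merge_cases h2 with h3 | ⟨h3, _⟩ | ⟨_, h3⟩
            · exact Quotient.sound h3
            · exact absurd h3 hx
            · exact absurd h3 hy
  rwa [Finite.card_option] at h1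

/-! ### One folding step -/

theorem f2_vert_merge_le {s : Bool} {ε ε' : ZMod ℓ}
    (hv : vert σ π (epos σ s ε) (epos σ s ε')) :
    vert σ (f2_merge π ε ε') ≤ f2_merge (vert σ π) (epos σ (!s) ε) (epos σ (!s) ε') := by
  refine sInf_le ?_
  intro s' η η' hη
  have h1 : f2_merge π ε ε' ≤ Setoid.comap (epos σ s')
      (f2_merge (vert σ π) (epos σ (!s) ε) (epos σ (!s) ε')) := by
    refine f2_merge_le ?_ ?_
    · intro x y hxy
      exact f2_le_merge _ _ _ (vert_rel σ π s' hxy)
    · show f2_merge (vert σ π) (epos σ (!s) ε) (epos σ (!s) ε') (epos σ s' ε) (epos σ s' ε')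
      by_cases hs : s' = s
      · subst hs
        exact f2_le_merge _ _ _ hv
      · have : s' = !s := by cases s <;> cases s' <;> simp_all
        subst this
        exact f2_merge_ab _ _ _
  exact h1 hη

/-- A folding step does not increase the rank. -/
theorem f2_rk_merge_le {s : Bool} {ε ε' : ZMod ℓ}
    (hv : vert σ π (epos σ s ε) (epos σ s ε')) (hne : ¬ π ε ε') :
    rk σ (f2_merge π ε ε') ≤ rk σ π := by
  have h1 := f2_card_merge_lt hne
  have h2 := f2_card_anti (f2_vert_merge_le hv)
  have h3 := f2_card_le_merge (vert σ π) (epos σ (!s) ε) (epos σ (!s) ε')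
  unfold rk
  omega

/-- A folding step whose other ends are already identified decreases the rank. -/
theorem f2_rk_merge_lt {s : Bool} {ε ε' : ZMod ℓ}
    (hv : vert σ π (epos σ s ε) (epos σ s ε')) (hne : ¬ π ε ε')
    (hv' : vert σ π (epos σ (!s) ε) (epos σ (!s) ε')) :
    rk σ (f2_merge π ε ε') < rk σ π := by
  have h1 := f2_card_merge_lt hne
  have h2 := f2_card_anti ((f2_vert_merge_le hv).trans (f2_merge_le le_rfl hv'))
  unfold rk
  omega

theorem f2_exists_step (h : π ≤ τ) (hnf : ¬ Folded σ τ π) :
    ∃ s ε ε', τ ε ε' ∧ vert σ π (epos σ s ε) (epos σ s ε') ∧ ¬ π ε ε' := by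
  by_contra hcon
  push Not at hcon
  exact hnf ⟨h, hcon⟩

theorem f2_merge_le_fold (h : π ≤ τ) {s : Bool} {ε ε' : ZMod ℓ} (hτ : τ ε ε')
    (hv : vert σ π (epos σ s ε) (epos σ s ε')) : f2_merge π ε ε' ≤ fold σ τ π := by
  refine f2_merge_le (le_fold σ τ π) ?_
  exact (folded_fold h).2 s ε ε' hτ (vert_mono (le_fold σ τ π) hv)

theorem f2_fold_merge (h : π ≤ τ) {s : Bool} {ε ε' : ZMod ℓ} (hτ : τ ε ε')
    (hv : vert σ π (epos σ s ε) (epos σ s ε')) :
    fold σ τ (f2_merge π ε ε') = fold σ τ π :=
  le_antisymm (fold_le (folded_fold h) (f2_merge_le_fold h hτ hv))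
    (fold_mono (f2_le_merge π ε ε'))

theorem f2_lt_merge {ε ε' : ZMod ℓ} (hne : ¬ π ε ε') : π < f2_merge π ε ε' := by
  refine lt_of_le_of_ne (f2_le_merge π ε ε') fun heq => hne ?_
  rw [heq]
  exact f2_merge_ab π ε ε'

theorem rk_fold_le (hred : Reduced σ τ) (h : π ≤ τ) : rk σ (fold σ τ π) ≤ rk σ π := by
  induction π using (wellFounded_gt (α := Setoid (ZMod ℓ))).induction with
  | _ π ih =>
    by_cases hf : Folded σ τ π
    · rw [fold_eq_self hf]
    · obtain ⟨s, ε, ε', hτ, hv, hne⟩ := f2_exists_step h hf
      have h1 := ih (f2_merge π ε ε') (f2_lt_merge hne) (f2_merge_le h hτ)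
      rw [f2_fold_merge h hτ hv] at h1
      exact h1.trans (f2_rk_merge_le hv hne)

/-- The cut datum produced by a folding step that does not change the rank. -/
theorem f2_cutDatum {s : Bool} {ε ε' : ZMod ℓ}
    (hv : vert σ π (epos σ s ε) (epos σ s ε'))
    (hv' : ¬ vert σ π (epos σ (!s) ε) (epos σ (!s) ε'))
    (h0 : ¬ vert σ π (epos σ s ε) (epos σ (!s) ε)) :
    CutDatum σ (f2_merge π ε ε') ε (!s) {p | vert σ π p (epos σ (!s) ε)} := by
  have hends : ∀ η, f2_merge π ε ε' η ε → vert σ π (epos σ s η) (epos σ s ε) := by
    intro η hη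
    rcases f2_merge_cases hη with h1 | ⟨h1, _⟩ | ⟨h1, _⟩
    · exact vert_rel σ π s h1
    · exact vert_rel σ π s h1
    · exact (vert σ π).trans' (vert_rel σ π s h1) ((vert σ π).symm' hv)
  refine ⟨?_, ?_, ⟨ε, (f2_merge π ε ε').refl' ε, (vert σ π).refl' _⟩,
    ⟨ε', (f2_merge π ε ε').symm' (f2_merge_ab π ε ε'), ?_⟩⟩
  · intro s' η η' hη hnot
    have main : vert σ π (epos σ s' η) (epos σ s' η') := by
      by_cases hηη : π η η'
      · exact vert_rel σ π s' hηη
      · -- both edges are in the merged class
        have hηε : f2_merge π ε ε' η ε := by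
          rcases f2_merge_cases hη with h1 | ⟨h1, _⟩ | ⟨h1, _⟩
          · exact absurd h1 hηη
          · exact f2_le_merge π ε ε' h1
          · exact (f2_merge π ε ε').trans' (f2_le_merge π ε ε' h1)
              ((f2_merge π ε ε').symm' (f2_merge_ab π ε ε'))
        have hs : s' = s := by
          by_contra hs
          refine hnot ⟨hηε, ?_⟩
          cases s <;> cases s' <;> simp_all
        subst hs
        exact (vert σ π).trans' (hends η hηε)
          ((vert σ π).symm' (hends η' ((f2_merge π ε ε').trans'
            ((f2_merge π ε ε').symm' hη) hηε)))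
    constructor
    · intro h1
      exact (vert σ π).trans' ((vert σ π).symm' main) h1
    · intro h1
      exact (vert σ π).trans' main h1
  · intro η hη h1
    rw [Bool.not_not] at h1
    exact h0 ((vert σ π).trans' ((vert σ π).symm' (hends η hη)) h1)
  · intro h1
    exact hv' ((vert σ π).symm' h1)

theorem f2_merge_comm (a b : ZMod ℓ) : f2_merge π a b = f2_merge π b a :=
  le_antisymm
    (f2_merge_le (f2_le_merge _ _ _) ((f2_merge π b a).symm' (f2_merge_ab π b a)))
    (f2_merge_le (f2_le_merge _ _ _) ((f2_merge π a b).symm' (f2_merge_ab π a b)))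

theorem rk_lt_of_noCut (hred : Reduced σ τ) (hnc : NoCut σ τ) (h : π < τ)
    (hf : fold σ τ π = τ) : rk σ τ < rk σ π := by
  induction π using (wellFounded_gt (α := Setoid (ZMod ℓ))).induction with
  | _ π ih =>
    have hnf : ¬ Folded σ τ π := by
      intro hfo
      rw [fold_eq_self hfo] at hf
      exact h.ne hf
    obtain ⟨s, ε, ε', hτ, hv, hne⟩ := f2_exists_step h.le hnf
    have hle : f2_merge π ε ε' ≤ τ := f2_merge_le h.le hτ
    rcases hle.lt_or_eq with hlt | heq
    · have h1 := ih (f2_merge π ε ε') (f2_lt_merge hne) hlt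
        (by rw [f2_fold_merge h.le hτ hv, hf])
      exact h1.trans_le (f2_rk_merge_le hv hne)
    · by_cases hv' : vert σ π (epos σ (!s) ε) (epos σ (!s) ε')
      · have := f2_rk_merge_lt hv hne hv'
        rwa [heq] at this
      · exfalso
        by_cases h0 : vert σ π (epos σ s ε) (epos σ (!s) ε)
        · -- use the other edge
          have h0' : ¬ vert σ π (epos σ s ε') (epos σ (!s) ε') := by
            intro h1
            exact hv' ((vert σ π).trans' ((vert σ π).symm' h0)
              ((vert σ π).trans' hv h1))
          have := f2_cutDatum (s := s) (ε := ε') (ε' := ε) ((vert σ π).symm' hv)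
            (fun h1 => hv' ((vert σ π).symm' h1)) h0'
          rw [f2_merge_comm, heq] at this
          exact hnc _ _ _ this
        · have := f2_cutDatum hv hv' h0
          rw [heq] at this
          exact hnc _ _ _ this

end F2

end Pool.Agent.GLFix
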