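import Pool.Agent.GLFix.Defs

/-!
# MP_ce340f_al, module D

Moebius function of the partition lattice.
-/

open scoped Classical
open Module Filter Asymptotics

noncomputable section

namespace Pool.Agent.GLFix

section D

variable {E : Type*} [Finite E]

theorem mob_top (top : Setoid E) : mob top top = 1 := by
  rw [mob]
  simp

theorem d_mob_of_lt (top π : Setoid E) (h : π ≤ top) (hne : π ≠ top) :
    mob top π = - ∑ ρ ∈ (Finset.univ : Finset (Setoid E)).filter (fun ρ => π < ρ ∧ ρ ≤ top),
      mob top ρ := by
  rw [mob, if_neg hne, if_pos h]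
  congr 1
  exact Finset.sum_attach _ (fun ρ => mob top ρ)

theorem mob_sum (top γ : Setoid E) (h : γ ≤ top) :
    ∑ π ∈ (Finset.univ : Finset (Setoid E)).filter (fun π => γ ≤ π ∧ π ≤ top), mob top π =
      if γ = top then 1 else 0 := by
  by_cases hg : γ = top
  · subst hg
    rw [if_pos rfl]
    have : (Finset.univ : Finset (Setoid E)).filter (fun π => γ ≤ π ∧ π ≤ γ) = {γ} := by
      ext π
      simp only [Finset.mem_filter, Finset.mem_univ, true_and, Finset.mem_singleton]
      constructor
      · rintro ⟨h1, h2⟩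
        exact le_antisymm h2 h1
      · rintro rfl
        exact ⟨le_rfl, le_rfl⟩
    rw [this, Finset.sum_singleton, mob_top]
  · rw [if_neg hg]
    have hins : (Finset.univ : Finset (Setoid E)).filter (fun π => γ ≤ π ∧ π ≤ top) =
        insert γ ((Finset.univ : Finset (Setoid E)).filter (fun ρ => γ < ρ ∧ ρ ≤ top)) := by
      ext π
      simp only [Finset.mem_filter, Finset.mem_univ, true_and, Finset.mem_insert]
      constructor
      · rintro ⟨h1, h2⟩
        rcases eq_or_lt_of_le h1 with h3 | h3
        · exact Or.inl h3.symm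
        · exact Or.inr ⟨h3, h2⟩
      · rintro (h1 | ⟨h1, h2⟩)
        · subst h1
          exact ⟨le_rfl, h⟩
        · exact ⟨h1.le, h2⟩
    rw [hins, Finset.sum_insert, d_mob_of_lt top γ h hg]
    · ring
    · simp

/-- Weisner's theorem. -/
theorem weisner (top β₀ : Setoid E) (h : β₀ ≤ top) (hne : β₀ ≠ top) (P : Setoid E → Prop)
    (hP : ∀ π ≤ top, (P π ↔ P (π ⊓ β₀))) :
    ∑ π ∈ (Finset.univ : Finset (Setoid E)).filter (fun π => π ≤ top ∧ P π), mob top π = 0 := by
  set N : Setoid E → ℤ := fun γ =>
    ∑ π ∈ (Finset.univ : Finset (Setoid E)).filter (fun π => π ≤ top ∧ π ⊓ β₀ = γ),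
      mob top π with hN
  have hsum : ∀ Q : Setoid E → Prop,
      ∑ π ∈ (Finset.univ : Finset (Setoid E)).filter (fun π => π ≤ top ∧ Q (π ⊓ β₀)),
        mob top π = ∑ γ ∈ (Finset.univ : Finset (Setoid E)).filter Q, N γ := by
    intro Q
    rw [hN]
    rw [← Finset.sum_fiberwise_of_maps_to
      (s := (Finset.univ : Finset (Setoid E)).filter (fun π => π ≤ top ∧ Q (π ⊓ β₀)))
      (t := (Finset.univ : Finset (Setoid E)).filter Q) (g := fun π => π ⊓ β₀)]
    · refine Finset.sum_congr rfl fun γ hγ => ?_
      refine Finset.sum_congr ?_ fun _ _ => rfl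
      ext π
      simp only [Finset.mem_filter, Finset.mem_univ, true_and] at hγ ⊢
      constructor
      · rintro ⟨⟨h1, h2⟩, h3⟩
        exact ⟨h1, h3⟩
      · rintro ⟨h1, h3⟩
        exact ⟨⟨h1, by rw [h3]; exact hγ⟩, h3⟩
    · intro π hπ
      simp only [Finset.mem_filter, Finset.mem_univ, true_and] at hπ ⊢
      exact hπ.2
  have hzero : ∀ γ, N γ = 0 := by
    intro γ
    induction γ using WellFoundedGT.induction with
    | ind γ ih =>
      have h1 := hsum (fun π => γ ≤ π)
      have h2 : ∑ π ∈ (Finset.univ : Finset (Setoid E)).filter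
          (fun π => π ≤ top ∧ γ ≤ π ⊓ β₀), mob top π = 0 := by
        by_cases hb : γ ≤ β₀
        · have h3 := mob_sum top γ (hb.trans h)
          rw [if_neg (fun e : γ = top => hne (le_antisymm h (by rw [← e]; exact hb)))] at h3
          rw [← h3]
          refine Finset.sum_congr ?_ fun _ _ => rfl
          ext π
          simp only [Finset.mem_filter, Finset.mem_univ, true_and, le_inf_iff]
          tauto
        · rw [Finset.filter_false_of_mem]
          · simp
          · intro π _ hπ
            exact hb (hπ.2.trans inf_le_right)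
      have h4 : (Finset.univ : Finset (Setoid E)).filter (fun π => γ ≤ π) =
          insert γ ((Finset.univ : Finset (Setoid E)).filter (fun ρ => γ < ρ)) := by
        ext π
        simp only [Finset.mem_filter, Finset.mem_univ, true_and, Finset.mem_insert]
        rw [le_iff_eq_or_lt, eq_comm]
      rw [h2, h4, Finset.sum_insert (by simp)] at h1
      have h5 : ∑ x ∈ (Finset.univ : Finset (Setoid E)).filter (fun ρ => γ < ρ), N x = 0 :=
        Finset.sum_eq_zero fun x hx => ih x (by simpa using hx)
      rw [h5, add_zero] at h1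
      exact h1.symm
  have h6 : (Finset.univ : Finset (Setoid E)).filter (fun π => π ≤ top ∧ P π) =
      (Finset.univ : Finset (Setoid E)).filter (fun π => π ≤ top ∧ P (π ⊓ β₀)) := by
    ext π
    simp only [Finset.mem_filter, Finset.mem_univ, true_and]
    constructor
    · rintro ⟨h1, h2⟩
      exact ⟨h1, (hP π h1).1 h2⟩
    · rintro ⟨h1, h2⟩
      exact ⟨h1, (hP π h1).2 h2⟩
  rw [h6, hsum P]
  exact Finset.sum_eq_zero fun x _ => hzero x

/-- Glueing partitions of the classes of `top`. -/
def d_glue (top : Setoid E) (ρ : ∀ b : Quotient top, Setoid {ε : E // Quotient.mk top ε = b}) :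
    Setoid E where
  r ε ε' := ∃ h : Quotient.mk top ε' = Quotient.mk top ε,
    (ρ (Quotient.mk top ε)) ⟨ε, rfl⟩ ⟨ε', h⟩
  iseqv := by
    refine ⟨fun ε => ⟨rfl, (ρ _).refl _⟩, ?_, ?_⟩
    · rintro ε ε' ⟨h, h'⟩
      refine ⟨h.symm, ?_⟩
      have key : ∀ (b : Quotient top) (h1 : Quotient.mk top ε = b) (h2 : Quotient.mk top ε' = b)
          (h3 : Quotient.mk top ε = Quotient.mk top ε'),
          (ρ b) ⟨ε, h1⟩ ⟨ε', h2⟩ → (ρ (Quotient.mk top ε')) ⟨ε', rfl⟩ ⟨ε, h3⟩ := by
        intro b h1 h2 h3 h4
        subst h2
        exact (ρ _).symm h4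
      exact key _ rfl h _ h'
    · rintro ε ε' ε'' ⟨h, h'⟩ ⟨k, k'⟩
      refine ⟨k.trans h, ?_⟩
      have key : ∀ (b : Quotient top) (h1 : Quotient.mk top ε = b) (h2 : Quotient.mk top ε' = b)
          (h3 : Quotient.mk top ε'' = b) (h4 : Quotient.mk top ε'' = Quotient.mk top ε'),
          (ρ (Quotient.mk top ε')) ⟨ε', rfl⟩ ⟨ε'', h4⟩ → (ρ b) ⟨ε, h1⟩ ⟨ε', h2⟩ →
          (ρ b) ⟨ε, h1⟩ ⟨ε'', h3⟩ := by
        intro b h1 h2 h3 h4 h5 h6
        subst h2
        exact (ρ _).trans h6 h5
      exact key _ rfl h _ k k' h'

theorem d_glue_iff (top : Setoid E)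
    (ρ : ∀ b : Quotient top, Setoid {ε : E // Quotient.mk top ε = b}) (b : Quotient top)
    (x y : {ε : E // Quotient.mk top ε = b}) : d_glue top ρ x.1 y.1 ↔ (ρ b) x y := by
  obtain ⟨x, hx⟩ := x
  obtain ⟨y, hy⟩ := y
  subst hx
  constructor
  · rintro ⟨h, h'⟩
    exact h'
  · intro h
    exact ⟨hy, h⟩

theorem d_glue_le (top : Setoid E)
    (ρ : ∀ b : Quotient top, Setoid {ε : E // Quotient.mk top ε = b}) : d_glue top ρ ≤ top := by
  rintro x y ⟨h, -⟩
  exact Quotient.exact h.symm

/-- Restriction of a partition to a class of `top`. -/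
def d_restr (top π : Setoid E) (b : Quotient top) : Setoid {ε : E // Quotient.mk top ε = b} :=
  Setoid.comap Subtype.val π

theorem d_restr_glue (top : Setoid E)
    (ρ : ∀ b : Quotient top, Setoid {ε : E // Quotient.mk top ε = b}) (b : Quotient top) :
    d_restr top (d_glue top ρ) b = ρ b := by
  ext x y
  exact d_glue_iff top ρ b x y

theorem d_glue_restr (top π : Setoid E) (h : π ≤ top) : d_glue top (d_restr top π) = π := by
  ext x y
  constructor
  · rintro ⟨_, h'⟩
    exact h'
  · intro hxy
    exact ⟨Quotient.sound (top.symm (h hxy)), hxy⟩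

theorem d_sum_glue {M : Type*} [AddCommMonoid M] (top : Setoid E) (f : Setoid E → M) :
    ∑ π ∈ (Finset.univ : Finset (Setoid E)).filter (fun π => π ≤ top), f π =
      ∑ ρ : (∀ b : Quotient top, Setoid {ε : E // Quotient.mk top ε = b}),
        f (d_glue top ρ) := by
  symm
  refine Finset.sum_bij' (fun ρ _ => d_glue top ρ) (fun π _ => d_restr top π) ?_ ?_ ?_ ?_ ?_
  · intro ρ _
    simpa using d_glue_le top ρ
  · intro π _
    exact Finset.mem_univ _
  · intro ρ _
    funext b
    exact d_restr_glue top ρ b
  · intro π hπ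
    exact d_glue_restr top π (by simpa using hπ)
  · intro ρ _
    rfl

theorem d_mob_glue (top π : Setoid E) (h : π ≤ top) :
    mob top π = ∏ b : Quotient top, mob ⊤ (d_restr top π b) := by
  induction π using WellFoundedGT.induction with
  | ind γ ih =>
    have h1 := mob_sum top γ h
    have h2 : ∑ π ∈ (Finset.univ : Finset (Setoid E)).filter (fun π => γ ≤ π ∧ π ≤ top),
        ∏ b : Quotient top, mob ⊤ (d_restr top π b) = if γ = top then 1 else 0 := by
      have h3 : ∑ π ∈ (Finset.univ : Finset (Setoid E)).filter (fun π => γ ≤ π ∧ π ≤ top),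
          ∏ b : Quotient top, mob ⊤ (d_restr top π b) =
          ∑ π ∈ (Finset.univ : Finset (Setoid E)).filter (fun π => π ≤ top),
            if γ ≤ π then ∏ b : Quotient top, mob ⊤ (d_restr top π b) else 0 := by
        rw [← Finset.sum_filter]
        refine Finset.sum_congr ?_ fun _ _ => rfl
        ext π
        simp only [Finset.mem_filter, Finset.mem_univ, true_and]
        tauto
      rw [h3, d_sum_glue top]
      have h4 : ∀ ρ : (∀ b : Quotient top, Setoid {ε : E // Quotient.mk top ε = b}),
          (if γ ≤ d_glue top ρ then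
            ∏ b : Quotient top, mob ⊤ (d_restr top (d_glue top ρ) b) else 0) =
          ∏ b : Quotient top, (if d_restr top γ b ≤ ρ b then mob ⊤ (ρ b) else 0) := by
        intro ρ
        by_cases hle : γ ≤ d_glue top ρ
        · rw [if_pos hle]
          refine Finset.prod_congr rfl fun b _ => ?_
          rw [d_restr_glue, if_pos]
          intro x y hxy
          exact (d_glue_iff top ρ b x y).1 (hle hxy)
        · rw [if_neg hle]
          symm
          have : ∃ b, ¬ d_restr top γ b ≤ ρ b := by
            by_contra hcon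
            push Not at hcon
            refine hle fun x y hxy => ?_
            refine ⟨Quotient.sound (top.symm (h hxy)), ?_⟩
            exact hcon (Quotient.mk top x)
              (show γ (⟨x, rfl⟩ : {ε : E // Quotient.mk top ε = Quotient.mk top x}).1
                (⟨y, Quotient.sound (top.symm (h hxy))⟩ :
                  {ε : E // Quotient.mk top ε = Quotient.mk top x}).1 from hxy)
          obtain ⟨b, hb⟩ := this
          exact Finset.prod_eq_zero (Finset.mem_univ b) (if_neg hb)
      rw [Finset.sum_congr rfl fun ρ _ => h4 ρ]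
      have h5 := Finset.prod_univ_sum (fun b : Quotient top =>
        (Finset.univ : Finset (Setoid {ε : E // Quotient.mk top ε = b})))
        (fun b r => if d_restr top γ b ≤ r then mob ⊤ r else 0)
      rw [Fintype.piFinset_univ] at h5
      rw [← h5]
      have h6 : ∀ b : Quotient top, (∑ r : Setoid {ε : E // Quotient.mk top ε = b},
          if d_restr top γ b ≤ r then mob ⊤ r else 0) =
            if d_restr top γ b = ⊤ then 1 else 0 := by
        intro b
        rw [← mob_sum ⊤ (d_restr top γ b) le_top, ← Finset.sum_filter]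
        refine Finset.sum_congr ?_ fun _ _ => rfl
        ext r
        simp
      rw [Finset.prod_congr rfl fun b _ => h6 b]
      by_cases hg : γ = top
      · rw [if_pos hg]
        refine Finset.prod_eq_one fun b _ => ?_
        rw [if_pos]
        rw [eq_top_iff]
        intro x y _
        change γ x.1 y.1
        rw [hg]
        exact Quotient.exact (x.2.trans y.2.symm)
      · rw [if_neg hg]
        have : ∃ b, d_restr top γ b ≠ ⊤ := by
          by_contra hcon
          push Not at hcon
          refine hg (le_antisymm h fun x y hxy => ?_)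
          have h7 := hcon (Quotient.mk top x)
          have h8 : (d_restr top γ (Quotient.mk top x)) ⟨x, rfl⟩
              ⟨y, Quotient.sound (top.symm hxy)⟩ := by
            rw [h7]
            trivial
          exact h8
        obtain ⟨b, hb⟩ := this
        exact Finset.prod_eq_zero (Finset.mem_univ b) (if_neg hb)
    have hins : (Finset.univ : Finset (Setoid E)).filter (fun π => γ ≤ π ∧ π ≤ top) =
        insert γ ((Finset.univ : Finset (Setoid E)).filter (fun ρ => γ < ρ ∧ ρ ≤ top)) := by
      ext π
      simp only [Finset.mem_filter, Finset.mem_univ, true_and, Finset.mem_insert]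
      constructor
      · rintro ⟨h1, h2⟩
        rcases eq_or_lt_of_le h1 with h3 | h3
        · exact Or.inl h3.symm
        · exact Or.inr ⟨h3, h2⟩
      · rintro (h1 | ⟨h1, h2⟩)
        · subst h1
          exact ⟨le_rfl, h⟩
        · exact ⟨h1.le, h2⟩
    rw [hins, Finset.sum_insert (by simp)] at h1 h2
    have h9 : ∑ x ∈ (Finset.univ : Finset (Setoid E)).filter (fun ρ => γ < ρ ∧ ρ ≤ top),
        mob top x = ∑ x ∈ (Finset.univ : Finset (Setoid E)).filter (fun ρ => γ < ρ ∧ ρ ≤ top),
          ∏ b : Quotient top, mob ⊤ (d_restr top x b) := by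
      refine Finset.sum_congr rfl fun x hx => ?_
      simp only [Finset.mem_filter, Finset.mem_univ, true_and] at hx
      exact ih x hx.1 hx.2
    rw [h9] at h1
    linarith

theorem d_prod_quot (top : Setoid E)
    (ρ : ∀ b : Quotient top, Setoid {ε : E // Quotient.mk top ε = b}) (φ : Set E → ℝ) :
    ∏ B : Quotient (d_glue top ρ), φ {ε | Quotient.mk (d_glue top ρ) ε = B} =
      ∏ b : Quotient top, ∏ B : Quotient (ρ b),
        φ (Subtype.val '' {x | Quotient.mk (ρ b) x = B}) := by
  let F : (Σ b : Quotient top, Quotient (ρ b)) → Quotient (d_glue top ρ) := fun p =>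
    Quotient.lift (fun x : {ε : E // Quotient.mk top ε = p.1} =>
      Quotient.mk (d_glue top ρ) x.1)
      (fun x y hxy => Quotient.sound ((d_glue_iff top ρ p.1 x y).2 hxy)) p.2
  have hF : Function.Bijective F := by
    constructor
    · rintro ⟨b, B⟩ ⟨b', B'⟩ h
      induction B using Quotient.inductionOn with
      | h x =>
        induction B' using Quotient.inductionOn with
        | h y =>
          have h1 : d_glue top ρ x.1 y.1 := Quotient.exact h
          have h2 : b = b' := by
            obtain ⟨h3, -⟩ := h1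
            rw [← x.2, ← y.2, h3]
          subst h2
          have h4 := (d_glue_iff top ρ b x y).1 h1
          have h5 : Quotient.mk (ρ b) x = Quotient.mk (ρ b) y := Quotient.sound h4
          rw [h5]
    · intro q
      induction q using Quotient.inductionOn with
      | h ε => exact ⟨⟨Quotient.mk top ε, Quotient.mk _ ⟨ε, rfl⟩⟩, rfl⟩
  rw [← Fintype.prod_sigma' (fun b B => φ (Subtype.val '' {x | Quotient.mk (ρ b) x = B}))]
  symm
  refine Fintype.prod_bijective F hF _ _ ?_
  rintro ⟨b, B⟩
  induction B using Quotient.inductionOn with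
  | h x =>
    congr 1
    ext ε
    simp only [Set.mem_image, Set.mem_ofPred_eq]
    constructor
    · rintro ⟨y, hy, rfl⟩
      exact Quotient.sound ((d_glue_iff top ρ b y x).2 (Quotient.exact hy))
    · intro hε
      have h1 : d_glue top ρ ε x.1 := Quotient.exact hε
      have h2 : Quotient.mk top ε = b := by
        obtain ⟨h3, -⟩ := h1
        rw [← h3, x.2]
      exact ⟨⟨ε, h2⟩, Quotient.sound ((d_glue_iff top ρ b ⟨ε, h2⟩ x).1 h1), rfl⟩

/-- The Moebius function and the interval below `top` are products over the classes of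
`top`. -/
theorem mob_prod (top : Setoid E) (φ : Set E → ℝ) :
    ∑ π ∈ (Finset.univ : Finset (Setoid E)).filter (fun π => π ≤ top),
      (mob top π : ℝ) * ∏ B : Quotient π, φ {ε | Quotient.mk π ε = B} =
    ∏ b : Quotient top, ∑ ρ : Setoid {ε : E // Quotient.mk top ε = b},
      (mob ⊤ ρ : ℝ) * ∏ B : Quotient ρ, φ (Subtype.val '' {x | Quotient.mk ρ x = B}) := by
  rw [d_sum_glue top]
  have h5 := Finset.prod_univ_sum (fun b : Quotient top =>
    (Finset.univ : Finset (Setoid {ε : E // Quotient.mk top ε = b})))
    (fun b r => (mob ⊤ r : ℝ) * ∏ B : Quotient r, φ (Subtype.val '' {x | Quotient.mk r x = B}))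
  rw [Fintype.piFinset_univ] at h5
  rw [h5]
  refine Finset.sum_congr rfl fun ρ _ => ?_
  rw [Finset.prod_mul_distrib, d_prod_quot top ρ φ, d_mob_glue top _ (d_glue_le top ρ)]
  congr 1
  rw [Int.cast_prod]
  refine Finset.prod_congr rfl fun b _ => ?_
  rw [d_restr_glue]

end D

end Pool.Agent.GLFix
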