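import Pool.Agent.GLFix.FoldBasic
import Pool.Agent.GLFix.Moebius

/-!
# MP_ce340f_al, module F3

The expansion of `alpha` in terms of `beta`.
-/

open scoped Classical
open Module Filter Asymptotics

noncomputable section

namespace Pool.Agent.GLFix

section F3

variable (K : Type*) [Field K] {ℓ : ℕ} [NeZero ℓ] {σ : ZMod ℓ → Bool} {top : Setoid (ZMod ℓ)}

theorem beta_sum (σ : ZMod ℓ → Bool) (π : Setoid (ZMod ℓ)) (N : ℕ) :
    gfun K σ π N = ∑ ρ ∈ (Finset.univ : Finset (Setoid (ZMod ℓ))).filter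
      (fun ρ => Folded σ π ρ), beta K σ ρ N := by
  have hπ : π ∈ (Finset.univ : Finset (Setoid (ZMod ℓ))).filter (fun ρ => Folded σ π ρ) := by
    simp only [Finset.mem_filter, Finset.mem_univ, true_and]
    exact folded_self σ π
  rw [← Finset.add_sum_erase _ _ hπ]
  have h1 : ((Finset.univ : Finset (Setoid (ZMod ℓ))).filter (fun ρ => Folded σ π ρ)).erase π =
      (Finset.univ : Finset (Setoid (ZMod ℓ))).filter (fun ρ => Folded σ π ρ ∧ ρ ≠ π) := by
    ext ρ
    simp only [Finset.mem_erase, Finset.mem_filter, Finset.mem_univ, true_and]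
    exact and_comm
  rw [h1]
  conv_rhs =>
    enter [1]
    rw [beta]
  rw [Finset.sum_attach _ (fun ρ => beta K σ ρ N)]
  ring

/-- The coefficient of `β(ρ)` in `α(top)`. -/
def f3_coef (σ : ZMod ℓ → Bool) (top ρ : Setoid (ZMod ℓ)) : ℤ :=
  ∑ π ∈ (Finset.univ : Finset (Setoid (ZMod ℓ))).filter
    (fun π => π ≤ top ∧ Folded σ π ρ), mob top π

theorem f3_coef_top (σ : ZMod ℓ → Bool) (top : Setoid (ZMod ℓ)) : f3_coef σ top top = 1 := by
  have h1 : (Finset.univ : Finset (Setoid (ZMod ℓ))).filter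
      (fun π => π ≤ top ∧ Folded σ π top) = {top} := by
    ext π
    simp only [Finset.mem_filter, Finset.mem_univ, true_and, Finset.mem_singleton]
    constructor
    · rintro ⟨h, h'⟩
      exact le_antisymm h h'.1
    · rintro rfl
      exact ⟨le_rfl, folded_self σ π⟩
  rw [f3_coef, h1, Finset.sum_singleton, mob_top]

theorem f3_coef_of_not_le {ρ : Setoid (ZMod ℓ)} (h : ¬ ρ ≤ top) : f3_coef σ top ρ = 0 := by
  rw [f3_coef]
  apply Finset.sum_eq_zero
  intro π hπ
  simp only [Finset.mem_filter, Finset.mem_univ, true_and] at hπ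
  exact absurd (hπ.2.1.trans hπ.1) h

theorem f3_coef_of_fold_ne {ρ : Setoid (ZMod ℓ)} (hle : ρ ≤ top) (h : fold σ top ρ ≠ top) :
    f3_coef σ top ρ = 0 := by
  rw [f3_coef]
  have hF : Folded σ top (fold σ top ρ) := folded_fold hle
  have hρ : ρ ≤ fold σ top ρ := le_fold σ top ρ
  apply weisner top (fold σ top ρ) hF.1 h (fun π => Folded σ π ρ)
  intro π hπ
  constructor
  · rintro ⟨h1, h2⟩
    exact ⟨le_inf h1 hρ, fun s ε ε' hε => h2 s ε ε' hε.1⟩
  · rintro ⟨h1, h2⟩
    refine ⟨h1.trans inf_le_left, fun s ε ε' hε hv => h2 s ε ε' ⟨hε, ?_⟩ hv⟩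
    exact hF.2 s ε ε' (hπ hε) (vert_mono hρ hv)

theorem alpha_eq (σ : ZMod ℓ → Bool) (top : Setoid (ZMod ℓ)) :
    ∃ c : Setoid (ZMod ℓ) → ℤ, ∀ N, alpha K σ top N = beta K σ top N +
      ∑ ρ ∈ (Finset.univ : Finset (Setoid (ZMod ℓ))).filter
        (fun ρ => ρ < top ∧ fold σ top ρ = top), (c ρ : ℝ) * beta K σ ρ N := by
  refine ⟨f3_coef σ top, fun N => ?_⟩
  have h1 : alpha K σ top N =
      ∑ ρ : Setoid (ZMod ℓ), (f3_coef σ top ρ : ℝ) * beta K σ ρ N := by
    rw [alpha]
    have e1 : ∀ π : Setoid (ZMod ℓ), (mob top π : ℝ) * gfun K σ π N =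
        ∑ ρ : Setoid (ZMod ℓ), if Folded σ π ρ then (mob top π : ℝ) * beta K σ ρ N else 0 := by
      intro π
      rw [beta_sum, Finset.mul_sum, Finset.sum_filter]
    simp only [e1]
    rw [Finset.sum_comm]
    refine Finset.sum_congr rfl fun ρ _ => ?_
    rw [f3_coef, Int.cast_sum, Finset.sum_mul, ← Finset.sum_filter, Finset.filter_filter]
  rw [h1]
  have h2 : ∀ ρ : Setoid (ZMod ℓ), (f3_coef σ top ρ : ℝ) * beta K σ ρ N =
      (if ρ = top then beta K σ ρ N else 0) +
      (if ρ < top ∧ fold σ top ρ = top then (f3_coef σ top ρ : ℝ) * beta K σ ρ N else 0) := by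
    intro ρ
    by_cases e : ρ = top
    · subst e
      simp [f3_coef_top]
    · rw [if_neg e, zero_add]
      by_cases hle : ρ ≤ top
      · have hlt : ρ < top := lt_of_le_of_ne hle e
        by_cases hf : fold σ top ρ = top
        · rw [if_pos ⟨hlt, hf⟩]
        · rw [if_neg (fun h => hf h.2), f3_coef_of_fold_ne hle hf]
          simp
      · rw [if_neg (fun h => hle h.1.le), f3_coef_of_not_le hle]
        simp
  rw [Finset.sum_congr rfl fun ρ _ => h2 ρ, Finset.sum_add_distrib, Finset.sum_ite_eq' Finset.univ top]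
  simp only [Finset.mem_univ, if_true]
  rw [← Finset.sum_filter]

end F3

end Pool.Agent.GLFix
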