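import Pool.Agent.GLFix.FoldBasic

/-!
# MP_ce340f_al, module G1

Gauge changes.
-/

open scoped Classical
open Module Filter Asymptotics

set_option linter.unusedSectionVars false

noncomputable section

namespace Pool.Agent.GLFix

section G1aux

variable (K : Type*) [Field K] [Finite K] {ℓ : ℕ} [NeZero ℓ]

/-- Number of nonzero trajectories for a labelling of the edges by matrices. -/
def g1_F (σ : ZMod ℓ → Bool) (N : ℕ) (γ : ZMod ℓ → GL (Fin N) K) : ℕ :=
  Nat.card {v : ZMod ℓ → Fin N → K // (∀ p, v p ≠ 0) ∧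
    ∀ ε, Matrix.vecMul (v (epos σ false ε)) (γ ε : Matrix (Fin N) (Fin N) K)
      = v (epos σ true ε)}

instance g1_fintype_GL (N : ℕ) : Fintype (GL (Fin N) K) := Fintype.ofFinite _

theorem g1_card_Sol (σ : ZMod ℓ → Bool) (π : Setoid (ZMod ℓ)) (N : ℕ) :
    Nat.card (Sol K σ π N) =
      ∑ g : Quotient π → GL (Fin N) K, g1_F K σ N (fun ε => g (Quotient.mk π ε)) := by
  have e : (Sol K σ π N) ≃ Σ g : Quotient π → GL (Fin N) K,
      {v : ZMod ℓ → Fin N → K // (∀ p, v p ≠ 0) ∧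
        ∀ ε, Matrix.vecMul (v (epos σ false ε))
          (g (Quotient.mk π ε) : Matrix (Fin N) (Fin N) K) = v (epos σ true ε)} :=
    { toFun := fun x => ⟨x.1.1, x.1.2, x.2⟩
      invFun := fun y => ⟨(y.1, y.2.1), y.2.2⟩
      left_inv := fun x => rfl
      right_inv := fun y => rfl }
  rw [Nat.card_congr e, Nat.card_sigma]
  rfl

theorem g1_gauge (σ : ZMod ℓ → Bool) (N : ℕ) (γ : ZMod ℓ → GL (Fin N) K)
    (h : ZMod ℓ → GL (Fin N) K) :
    g1_F K σ N (fun ε => (h (epos σ false ε))⁻¹ * γ ε * h (epos σ true ε)) =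
      g1_F K σ N γ := by
  have key : ∀ (v : Fin N → K) (a b : GL (Fin N) K),
      Matrix.vecMul (Matrix.vecMul v (a : Matrix (Fin N) (Fin N) K))
        (b : Matrix (Fin N) (Fin N) K) =
      Matrix.vecMul v ((a * b : GL (Fin N) K) : Matrix (Fin N) (Fin N) K) := by
    intro v a b
    rw [Matrix.vecMul_vecMul, Units.val_mul]
  have keyone : ∀ (v : Fin N → K),
      Matrix.vecMul v ((1 : GL (Fin N) K) : Matrix (Fin N) (Fin N) K) = v := by
    intro v
    rw [Units.val_one, Matrix.vecMul_one]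
  have hne : ∀ (v : Fin N → K) (a : GL (Fin N) K), v ≠ 0 →
      Matrix.vecMul v (a : Matrix (Fin N) (Fin N) K) ≠ 0 := by
    intro v a hv h0
    apply hv
    have := key v a a⁻¹
    rw [h0, Matrix.zero_vecMul, mul_inv_cancel, keyone] at this
    exact this.symm
  unfold g1_F
  refine Nat.card_congr
    { toFun := fun v => ⟨fun p => Matrix.vecMul (v.1 p)
          (((h p)⁻¹ : GL (Fin N) K) : Matrix (Fin N) (Fin N) K), ?_, ?_⟩
      invFun := fun v => ⟨fun p => Matrix.vecMul (v.1 p)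
          ((h p : GL (Fin N) K) : Matrix (Fin N) (Fin N) K), ?_, ?_⟩
      left_inv := ?_
      right_inv := ?_ }
  · intro p
    exact hne _ _ (v.2.1 p)
  · intro ε
    have := v.2.2 ε
    change Matrix.vecMul (Matrix.vecMul (v.1 (epos σ false ε)) _) _ =
      Matrix.vecMul (v.1 (epos σ true ε)) _
    rw [key, ← this, key]
    congr 2
    group
  · intro p
    exact hne _ _ (v.2.1 p)
  · intro ε
    have := v.2.2 ε
    change Matrix.vecMul (Matrix.vecMul (v.1 (epos σ false ε)) _) _ =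
      Matrix.vecMul (v.1 (epos σ true ε)) _
    rw [key, ← this, key]
    congr 2
    group
  · intro v
    apply Subtype.ext
    funext p
    change Matrix.vecMul (Matrix.vecMul (v.1 p)
      (((h p)⁻¹ : GL (Fin N) K) : Matrix (Fin N) (Fin N) K))
      ((h p : GL (Fin N) K) : Matrix (Fin N) (Fin N) K) = v.1 p
    rw [key, inv_mul_cancel, keyone]
  · intro v
    apply Subtype.ext
    funext p
    change Matrix.vecMul (Matrix.vecMul (v.1 p)
      ((h p : GL (Fin N) K) : Matrix (Fin N) (Fin N) K))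
      (((h p)⁻¹ : GL (Fin N) K) : Matrix (Fin N) (Fin N) K) = v.1 p
    rw [key, mul_inv_cancel, keyone]

/-- Summation along an injective change of index. -/
theorem g1_sum_comp {α β G : Type*} [Fintype α] [Fintype β] [Fintype G]
    [DecidableEq α] [DecidableEq β]
    (r : α → β) (hr : Function.Injective r) (Φ : (α → G) → ℕ) :
    ∑ g : β → G, Φ (g ∘ r) =
      Fintype.card G ^ (Fintype.card β - Fintype.card α) * ∑ g : α → G, Φ g := by
  have hfib : ∀ g₀ : α → G,
      ((Finset.univ : Finset (β → G)).filter (fun g => g ∘ r = g₀)).card =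
        Fintype.card G ^ (Fintype.card β - Fintype.card α) := by
    intro g₀
    have hc : Fintype.card {b : β // b ∉ Set.range r} =
        Fintype.card β - Fintype.card α := by
      rw [Fintype.card_subtype_compl]
      congr 1
      exact (Fintype.card_congr (Equiv.ofInjective r hr)).symm
    rw [← hc, ← Fintype.card_fun, ← Fintype.card_subtype]
    refine Fintype.card_congr
      { toFun := fun g b => g.1 b.1
        invFun := fun f => ⟨fun b => if hb : b ∈ Set.range r then g₀ hb.choose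
          else f ⟨b, hb⟩, ?_⟩
        left_inv := ?_
        right_inv := ?_ }
    · funext a
      have hb : r a ∈ Set.range r := ⟨a, rfl⟩
      simp only [Function.comp_apply]
      rw [dif_pos hb]
      congr 1
      exact hr hb.choose_spec
    · intro g
      apply Subtype.ext
      funext b
      change (if hb : b ∈ Set.range r then g₀ hb.choose else g.1 b) = g.1 b
      by_cases hb : b ∈ Set.range r
      · rw [dif_pos hb]
        have h1 : g₀ hb.choose = (g.1 ∘ r) hb.choose := congrFun g.2.symm _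
        rw [h1, Function.comp_apply, hb.choose_spec]
      · rw [dif_neg hb]
    · intro f
      funext b
      exact dif_neg b.2
  rw [← Finset.sum_fiberwise (s := (Finset.univ : Finset (β → G))) (g := fun g => g ∘ r),
    Finset.mul_sum]
  refine Finset.sum_congr rfl fun g₀ _ => ?_
  rw [← hfib g₀, Finset.sum_congr rfl (g := fun _ => Φ g₀), Finset.sum_const, smul_eq_mul]
  intro g hg
  rw [(Finset.mem_filter.mp hg).2]

end G1aux

section G1

variable (K : Type*) [Field K] [Finite K] {ℓ : ℕ} [NeZero ℓ] {σ : ZMod ℓ → Bool}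
  {top Γ : Setoid (ZMod ℓ)} {ε₀ : ZMod ℓ} {s : Bool} {A : Set (ZMod ℓ)}

/-- A representative of the class, outside `chi` if possible. -/
def g1_rep (Γ : Setoid (ZMod ℓ)) (X : Set (ZMod ℓ)) (c : Quotient Γ) : ZMod ℓ :=
  if h : ∃ ε, Quotient.mk Γ ε = c ∧ ε ∉ X then h.choose else c.out

theorem g1_rep_mk (Γ : Setoid (ZMod ℓ)) (X : Set (ZMod ℓ)) (c : Quotient Γ) :
    Quotient.mk Γ (g1_rep Γ X c) = c := by
  unfold g1_rep
  split_ifs with h
  · exact h.choose_spec.1
  · exact Quotient.out_eq c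

theorem g1_rep_notMem (Γ : Setoid (ZMod ℓ)) (X : Set (ZMod ℓ)) {ε : ZMod ℓ} (hε : ε ∉ X) :
    g1_rep Γ X (Quotient.mk Γ ε) ∉ X := by
  unfold g1_rep
  rw [dif_pos ⟨ε, rfl, hε⟩]
  exact (Exists.choose_spec (⟨ε, rfl, hε⟩ :
    ∃ ε', Quotient.mk Γ ε' = Quotient.mk Γ ε ∧ ε' ∉ X)).2

theorem gfun_folded_cut (h : CutDatum σ top ε₀ s A) (hΓ : Folded σ top Γ) (N : ℕ) :
    gfun K σ Γ N = gfun K σ (Γ ⊓ cut σ top ε₀ s A) N := by
  set X : Set (ZMod ℓ) := chi σ top ε₀ s A with hX
  set Γ' : Setoid (ZMod ℓ) := Γ ⊓ cut σ top ε₀ s A with hΓ'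
  -- the relation Γ'
  have hrel : ∀ ε ε', Γ' ε ε' ↔ Γ ε ε' ∧ (ε ∈ X ↔ ε' ∈ X) := by
    intro ε ε'
    constructor
    · intro h1
      exact ⟨h1.1, iff_of_eq h1.2.2⟩
    · intro h1
      exact ⟨h1.1, hΓ.1 h1.1, propext h1.2⟩
  -- the section
  let r : Quotient Γ → Quotient Γ' := fun c => Quotient.mk Γ' (g1_rep Γ X c)
  have hrinj : Function.Injective r := by
    intro c c' hcc
    have h1 : Γ' (g1_rep Γ X c) (g1_rep Γ X c') := Quotient.exact hcc
    rw [← g1_rep_mk Γ X c, ← g1_rep_mk Γ X c']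
    exact Quotient.sound ((hrel _ _).mp h1).1
  have hr_out : ∀ ε, ε ∉ X → r (Quotient.mk Γ ε) = Quotient.mk Γ' ε := by
    intro ε hε
    refine Quotient.sound ((hrel _ _).mpr ⟨Quotient.exact (g1_rep_mk Γ X (Quotient.mk Γ ε)), ?_⟩)
    exact iff_of_false (g1_rep_notMem Γ X hε) hε
  -- edge gauge
  let a : (Quotient Γ' → GL (Fin N) K) → ZMod ℓ → GL (Fin N) K := fun u ε =>
    if s then (u (r (Quotient.mk Γ ε)))⁻¹ * u (Quotient.mk Γ' ε)
    else u (r (Quotient.mk Γ ε)) * (u (Quotient.mk Γ' ε))⁻¹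
  -- position gauge
  let hh : (Quotient Γ' → GL (Fin N) K) → ZMod ℓ → GL (Fin N) K := fun u p =>
    if hp : p ∈ A ∧ ∃ ε ∈ X, vert σ Γ (epos σ s ε) p then a u hp.2.choose else 1
  have hh_out : ∀ u p, p ∉ A → hh u p = 1 := by
    intro u p hp
    exact dif_neg fun h1 => hp h1.1
  have hh_in : ∀ u p ε, p ∈ A → ε ∈ X → vert σ Γ (epos σ s ε) p → hh u p = a u ε := by
    intro u p ε hp hε hv
    have hex : p ∈ A ∧ ∃ ε ∈ X, vert σ Γ (epos σ s ε) p := ⟨hp, ε, hε, hv⟩
    have h1 : hh u p = a u hex.2.choose := dif_pos hex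
    rw [h1]
    obtain ⟨h2, h3⟩ := hex.2.choose_spec
    have h4 : Γ hex.2.choose ε :=
      hΓ.2 s _ _ (top.trans' h2.1 (top.symm' hε.1)) ((vert σ Γ).trans' h3 ((vert σ Γ).symm' hv))
    have h5 : Γ' hex.2.choose ε := (hrel _ _).mpr ⟨h4, iff_of_true h2 hε⟩
    have h6 : Quotient.mk Γ hex.2.choose = Quotient.mk Γ ε := Quotient.sound h4
    have h7 : Quotient.mk Γ' hex.2.choose = Quotient.mk Γ' ε := Quotient.sound h5
    simp only [a, h6, h7]
  have hvert : ∀ s' ε ε', Γ ε ε' → vert σ Γ (epos σ s' ε) (epos σ s' ε') :=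
    fun s' ε ε' h1 => vert_epos h1
  have hA : ∀ s' ε ε', Γ' ε ε' → (epos σ s' ε ∈ A ↔ epos σ s' ε' ∈ A) := by
    intro s' ε ε' h1
    obtain ⟨h2, h3⟩ := (hrel _ _).mp h1
    by_cases h4 : top ε ε₀ ∧ s' = s
    · have h5 : top ε' ε₀ := top.trans' (top.symm' (hΓ.1 h2)) h4.1
      rw [h4.2]
      constructor
      · intro h6
        exact (h3.mp ⟨h4.1, h6⟩).2
      · intro h6
        exact (h3.mpr ⟨h5, h6⟩).2
    · exact h.star s' ε ε' (hΓ.1 h2) h4
  have hh_congr : ∀ u s' ε ε', Γ' ε ε' → hh u (epos σ s' ε) = hh u (epos σ s' ε') := by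
    intro u s' ε ε' h1
    obtain ⟨h2, h3⟩ := (hrel _ _).mp h1
    by_cases h4 : epos σ s' ε ∈ A
    · have h5 := (hA s' ε ε' h1).mp h4
      by_cases h6 : ∃ ε₁ ∈ X, vert σ Γ (epos σ s ε₁) (epos σ s' ε)
      · obtain ⟨ε₁, h7, h8⟩ := h6
        rw [hh_in u _ ε₁ h4 h7 h8,
          hh_in u _ ε₁ h5 h7 ((vert σ Γ).trans' h8 (hvert s' ε ε' h2))]
      · have h9 : ¬ ∃ ε₁ ∈ X, vert σ Γ (epos σ s ε₁) (epos σ s' ε') := by
          rintro ⟨ε₁, h7, h8⟩
          exact h6 ⟨ε₁, h7, (vert σ Γ).trans' h8 ((vert σ Γ).symm' (hvert s' ε ε' h2))⟩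
        have e1 : hh u (epos σ s' ε) = 1 := dif_neg fun h1 => h6 h1.2
        have e2 : hh u (epos σ s' ε') = 1 := dif_neg fun h1 => h9 h1.2
        rw [e1, e2]
    · rw [hh_out u _ h4, hh_out u _ (fun h5 => h4 ((hA s' ε ε' h1).mpr h5))]
  -- the triangular change of variables
  let S : (Quotient Γ' → GL (Fin N) K) → (Quotient Γ' → GL (Fin N) K) := fun u c =>
    if top c.out ε₀ then u c
    else (hh u (epos σ false c.out))⁻¹ * u c * hh u (epos σ true c.out)
  have hS_in : ∀ u ε, top ε ε₀ → S u (Quotient.mk Γ' ε) = u (Quotient.mk Γ' ε) := by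
    intro u ε hε
    have h1 : Γ' (Quotient.mk Γ' ε).out ε := Quotient.mk_out (s := Γ') ε
    exact if_pos (top.trans' (hΓ.1 h1.1) hε)
  have hS_out : ∀ u ε, ¬ top ε ε₀ → S u (Quotient.mk Γ' ε) =
      (hh u (epos σ false ε))⁻¹ * u (Quotient.mk Γ' ε) * hh u (epos σ true ε) := by
    intro u ε hε
    have h1 : Γ' (Quotient.mk Γ' ε).out ε := Quotient.mk_out (s := Γ') ε
    have h2 : S u (Quotient.mk Γ' ε) = (hh u (epos σ false (Quotient.mk Γ' ε).out))⁻¹ *
        u (Quotient.mk Γ' ε) * hh u (epos σ true (Quotient.mk Γ' ε).out) :=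
      if_neg fun h3 => hε (top.trans' (top.symm' (hΓ.1 h1.1)) h3)
    rw [h2, hh_congr u false _ _ h1, hh_congr u true _ _ h1]
  have ha_out : ∀ u ε, ε ∉ X → a u ε = 1 := by
    intro u ε hε
    simp only [a, hr_out ε hε]
    cases s <;> simp
  have hS_eq : ∀ u ε, S u (Quotient.mk Γ' ε) =
      (hh u (epos σ false ε))⁻¹ * u (r (Quotient.mk Γ ε)) * hh u (epos σ true ε) := by
    intro u ε
    by_cases hb : top ε ε₀
    · rw [hS_in u ε hb]
      have hopp : hh u (epos σ (!s) ε) = 1 := hh_out u _ (h.opp ε hb)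
      have hs : hh u (epos σ s ε) = a u ε := by
        by_cases hx : ε ∈ X
        · exact hh_in u _ ε hx.2 hx ((vert σ Γ).refl' _)
        · rw [ha_out u ε hx]
          exact hh_out u _ fun h1 => hx ⟨hb, h1⟩
      cases s
      · simp only [Bool.not_false] at hopp
        rw [hopp, hs]
        simp only [a]
        simp
      · simp only [Bool.not_true] at hopp
        rw [hopp, hs]
        simp only [a]
        simp
    · rw [hS_out u ε hb, hr_out ε (fun hx => hb hx.1)]
  have hhh_congr : ∀ u u' : Quotient Γ' → GL (Fin N) K, (∀ ε, top ε ε₀ →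
      u (Quotient.mk Γ' ε) = u' (Quotient.mk Γ' ε)) → hh u = hh u' := by
    intro u u' huu
    funext p
    by_cases hp : p ∈ A ∧ ∃ ε ∈ X, vert σ Γ (epos σ s ε) p
    · obtain ⟨hp1, ε, hε, hv⟩ := hp
      rw [hh_in u p ε hp1 hε hv, hh_in u' p ε hp1 hε hv]
      have h1 : u (Quotient.mk Γ' ε) = u' (Quotient.mk Γ' ε) := huu ε hε.1
      have h2 : u (r (Quotient.mk Γ ε)) = u' (r (Quotient.mk Γ ε)) := by
        apply huu
        have h3 : Γ (g1_rep Γ X (Quotient.mk Γ ε)) ε :=
          Quotient.exact (g1_rep_mk Γ X (Quotient.mk Γ ε))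
        exact top.trans' (hΓ.1 h3) hε.1
      simp only [a, h1, h2]
    · have e1 : hh u p = 1 := dif_neg hp
      have e2 : hh u' p = 1 := dif_neg hp
      rw [e1, e2]
  have hSinj : Function.Injective S := by
    intro u u' huu
    have h1 : ∀ ε, top ε ε₀ → u (Quotient.mk Γ' ε) = u' (Quotient.mk Γ' ε) := by
      intro ε hε
      rw [← hS_in u ε hε, ← hS_in u' ε hε, huu]
    have h2 := hhh_congr u u' h1
    funext c
    induction c using Quotient.inductionOn with
    | h ε =>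
      by_cases hε : top ε ε₀
      · exact h1 ε hε
      · have h3 := hS_out u ε hε
        rw [huu, hS_out u' ε hε, h2] at h3
        exact (mul_left_cancel (mul_right_cancel h3)).symm
  have hSbij : Function.Bijective S := Finite.injective_iff_bijective.mp hSinj
  -- the count
  have hsum : (∑ g : Quotient Γ' → GL (Fin N) K, g1_F K σ N (fun ε => g (Quotient.mk Γ' ε))) =
      ∑ u : Quotient Γ' → GL (Fin N) K, g1_F K σ N (fun ε => (u ∘ r) (Quotient.mk Γ ε)) := by
    rw [← hSbij.sum_comp]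
    refine Finset.sum_congr rfl fun u _ => ?_
    rw [← g1_gauge K σ N (fun ε => (u ∘ r) (Quotient.mk Γ ε)) (hh u)]
    congr 1
    funext ε
    exact hS_eq u ε
  have hmain : Nat.card (Sol K σ Γ' N) =
      Fintype.card (GL (Fin N) K) ^ (Fintype.card (Quotient Γ') - Fintype.card (Quotient Γ)) *
        Nat.card (Sol K σ Γ N) := by
    rw [g1_card_Sol, g1_card_Sol, hsum]
    exact g1_sum_comp r hrinj
      (fun g : Quotient Γ → GL (Fin N) K => g1_F K σ N (fun ε => g (Quotient.mk Γ ε)))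
  have hle : Fintype.card (Quotient Γ) ≤ Fintype.card (Quotient Γ') :=
    Fintype.card_le_of_injective r hrinj
  have hG : (Fintype.card (GL (Fin N) K) : ℝ) ≠ 0 := by
    exact_mod_cast Fintype.card_ne_zero
  unfold gfun
  rw [hmain, Nat.card_eq_fintype_card (α := GL (Fin N) K),
    Nat.card_eq_fintype_card (α := Quotient Γ), Nat.card_eq_fintype_card (α := Quotient Γ')]
  push_cast
  obtain ⟨d, hd⟩ := Nat.exists_eq_add_of_le hle
  rw [hd, Nat.add_sub_cancel_left, pow_add]
  change _ = (Fintype.card (GL (Fin N) K) : ℝ) ^ d * _ / ((Fintype.card (GL (Fin N) K) : ℝ) ^ _ * (Fintype.card (GL (Fin N) K) : ℝ) ^ d)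
  rw [mul_comm ((Fintype.card (GL (Fin N) K) : ℝ) ^ d) _,
    mul_div_mul_right _ _ (pow_ne_zero d hG)]

/-- One gauge change. -/
theorem gfun_cut (h : CutDatum σ top ε₀ s A) (N : ℕ) :
    gfun K σ top N = gfun K σ (cut σ top ε₀ s A) N := by
  have h1 := gfun_folded_cut K h (folded_self σ top) N
  have h2 : top ⊓ cut σ top ε₀ s A = cut σ top ε₀ s A := inf_eq_right.mpr inf_le_left
  rwa [h2] at h1

end G1

end Pool.Agent.GLFix
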