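import Pool.Agent.GLFix.FoldBasic
import Pool.Agent.GLFix.AlphaBeta
import Pool.Agent.GLFix.Gauge

/-!
# MP_ce340f_al, module G2

Cut vertices: folded partitions and `beta`.
-/

open scoped Classical
open Module Filter Asymptotics

set_option linter.unusedSectionVars false

noncomputable section

namespace Pool.Agent.GLFix

section G2

variable (K : Type*) [Field K] [Finite K] {ℓ : ℕ} [NeZero ℓ] {σ : ZMod ℓ → Bool}
  {top Γ' : Setoid (ZMod ℓ)} {ε₀ : ZMod ℓ} {s : Bool} {A : Set (ZMod ℓ)}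

theorem g2_cut_le (σ : ZMod ℓ → Bool) (top : Setoid (ZMod ℓ)) (ε₀ : ZMod ℓ) (s : Bool)
    (A : Set (ZMod ℓ)) : cut σ top ε₀ s A ≤ top := inf_le_left

theorem g2_cut_iff {ε ε' : ZMod ℓ} : cut σ top ε₀ s A ε ε' ↔
    top ε ε' ∧ (ε ∈ chi σ top ε₀ s A ↔ ε' ∈ chi σ top ε₀ s A) := by
  constructor
  · rintro ⟨h1, h2⟩
    exact ⟨h1, iff_of_eq h2⟩
  · rintro ⟨h1, h2⟩
    exact ⟨h1, propext h2⟩

theorem g2_mem_chi_iff {ε : ZMod ℓ} (h : top ε ε₀) :
    ε ∈ chi σ top ε₀ s A ↔ epos σ s ε ∈ A :=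
  ⟨fun h' => h'.2, fun h' => ⟨h, h'⟩⟩

theorem cut_lt (h : CutDatum σ top ε₀ s A) : cut σ top ε₀ s A < top := by
  refine lt_of_le_of_ne (g2_cut_le σ top ε₀ s A) fun heq => ?_
  obtain ⟨ε₁, h1, h1'⟩ := h.inn
  obtain ⟨ε₂, h2, h2'⟩ := h.out
  have h3 : cut σ top ε₀ s A ε₁ ε₂ := by
    rw [heq]
    exact top.trans' h1 (top.symm' h2)
  have h4 := (g2_cut_iff.mp h3).2
  exact h2' (h4.mp ⟨h1, h1'⟩).2

/-- Classes of `vert Γ'` are inside `A` or outside `A`. -/
theorem g2_vert_mem (h : CutDatum σ top ε₀ s A) (hΓ' : Γ' ≤ cut σ top ε₀ s A)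
    {p q : ZMod ℓ} (hpq : vert σ Γ' p q) : p ∈ A ↔ q ∈ A := by
  have key : vert σ Γ' ≤ Setoid.ker (fun x => x ∈ A) := by
    refine sInf_le ?_
    intro s' ε ε' hε
    have h1 := g2_cut_iff.mp (hΓ' hε)
    refine propext ?_
    show epos σ s' ε ∈ A ↔ epos σ s' ε' ∈ A
    by_cases h2 : top ε ε₀ ∧ s' = s
    · obtain ⟨h2, rfl⟩ := h2
      have h3 : top ε' ε₀ := top.trans' (top.symm' h1.1) h2
      rw [← g2_mem_chi_iff (σ := σ) (A := A) h2, ← g2_mem_chi_iff (σ := σ) (A := A) h3]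
      exact h1.2
    · exact h.star s' ε ε' h1.1 h2
  exact iff_of_eq (key hpq)

/-- Mixed pairs. -/
def g2_mix (σ : ZMod ℓ → Bool) (top Γ' : Setoid (ZMod ℓ)) (ε₀ : ZMod ℓ) (s : Bool)
    (A : Set (ZMod ℓ)) (ε ε' : ZMod ℓ) : Prop :=
  top ε ε₀ ∧ top ε' ε₀ ∧ (ε ∈ chi σ top ε₀ s A ↔ ε' ∉ chi σ top ε₀ s A) ∧
    vert σ Γ' (epos σ (!s) ε) (epos σ (!s) ε')

theorem g2_mix_symm {ε ε' : ZMod ℓ} (h : g2_mix σ top Γ' ε₀ s A ε ε') :
    g2_mix σ top Γ' ε₀ s A ε' ε :=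
  ⟨h.2.1, h.1, by have := h.2.2.1; tauto, (vert σ Γ').symm' h.2.2.2⟩

theorem g2_mix_left (hΓ' : Γ' ≤ cut σ top ε₀ s A) {ε ε' ε'' : ZMod ℓ} (h1 : Γ' ε ε')
    (h : g2_mix σ top Γ' ε₀ s A ε' ε'') : g2_mix σ top Γ' ε₀ s A ε ε'' := by
  have h2 := g2_cut_iff.mp (hΓ' h1)
  refine ⟨top.trans' h2.1 h.1, h.2.1, ?_, ?_⟩
  · rw [h2.2]; exact h.2.2.1
  · exact (vert σ Γ').trans' (vert_epos h1) h.2.2.2

theorem g2_mix_mix (hΓ' : Folded σ (cut σ top ε₀ s A) Γ') {ε ε' ε'' : ZMod ℓ}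
    (h1 : g2_mix σ top Γ' ε₀ s A ε ε') (h2 : g2_mix σ top Γ' ε₀ s A ε' ε'') : Γ' ε ε'' := by
  refine hΓ'.2 (!s) ε ε'' ?_ ((vert σ Γ').trans' h1.2.2.2 h2.2.2.2)
  rw [g2_cut_iff]
  refine ⟨top.trans' h1.1 (top.symm' h2.2.1), ?_⟩
  have h3 := h1.2.2.1
  have h4 := h2.2.2.1
  tauto

/-- The folding of `Γ'` in `top`. -/
def g2_G (hΓ' : Folded σ (cut σ top ε₀ s A) Γ') : Setoid (ZMod ℓ) where
  r ε ε' := Γ' ε ε' ∨ g2_mix σ top Γ' ε₀ s A ε ε'
  iseqv := by
    refine ⟨fun ε => Or.inl (Γ'.refl' ε), ?_, ?_⟩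
    · rintro ε ε' (h | h)
      · exact Or.inl (Γ'.symm' h)
      · exact Or.inr (g2_mix_symm h)
    · rintro ε ε' ε'' (h1 | h1) (h2 | h2)
      · exact Or.inl (Γ'.trans' h1 h2)
      · exact Or.inr (g2_mix_left hΓ'.1 h1 h2)
      · exact Or.inr (g2_mix_symm (g2_mix_left hΓ'.1 (Γ'.symm' h2) (g2_mix_symm h1)))
      · exact Or.inl (g2_mix_mix hΓ' h1 h2)

theorem g2_G_iff (hΓ' : Folded σ (cut σ top ε₀ s A) Γ') {ε ε' : ZMod ℓ} :
    g2_G hΓ' ε ε' ↔ Γ' ε ε' ∨ g2_mix σ top Γ' ε₀ s A ε ε' := Iff.rfl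

/-- Glued positions. -/
def g2_glue (σ : ZMod ℓ → Bool) (top Γ' : Setoid (ZMod ℓ)) (ε₀ : ZMod ℓ) (s : Bool)
    (A : Set (ZMod ℓ)) (p q : ZMod ℓ) : Prop :=
  ∃ ε₁ ε₂, g2_mix σ top Γ' ε₀ s A ε₁ ε₂ ∧ vert σ Γ' p (epos σ s ε₁) ∧
    vert σ Γ' q (epos σ s ε₂)

theorem g2_glue_symm {p q : ZMod ℓ} (h : g2_glue σ top Γ' ε₀ s A p q) :
    g2_glue σ top Γ' ε₀ s A q p := by
  obtain ⟨ε₁, ε₂, h1, h2, h3⟩ := h
  exact ⟨ε₂, ε₁, g2_mix_symm h1, h3, h2⟩

theorem g2_glue_left {p q r : ZMod ℓ} (h1 : vert σ Γ' p q)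
    (h : g2_glue σ top Γ' ε₀ s A q r) : g2_glue σ top Γ' ε₀ s A p r := by
  obtain ⟨ε₁, ε₂, h2, h3, h4⟩ := h
  exact ⟨ε₁, ε₂, h2, (vert σ Γ').trans' h1 h3, h4⟩

theorem g2_glue_glue (h : CutDatum σ top ε₀ s A) (hΓ' : Folded σ (cut σ top ε₀ s A) Γ')
    {p q r : ZMod ℓ} (h1 : g2_glue σ top Γ' ε₀ s A p q) (h2 : g2_glue σ top Γ' ε₀ s A q r) :
    vert σ Γ' p r := by
  obtain ⟨ε₁, ε₂, m, hp, hq⟩ := h1
  obtain ⟨ε₃, ε₄, m', hq', hr⟩ := h2
  -- `ε₂` and `ε₃` are in the same class of `Γ'`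
  have h23 : vert σ Γ' (epos σ s ε₂) (epos σ s ε₃) := (vert σ Γ').trans' ((vert σ Γ').symm' hq) hq'
  have hA : epos σ s ε₂ ∈ A ↔ epos σ s ε₃ ∈ A := g2_vert_mem h hΓ'.1 h23
  have h23' : Γ' ε₂ ε₃ := by
    refine hΓ'.2 s ε₂ ε₃ ?_ h23
    rw [g2_cut_iff]
    refine ⟨top.trans' m.2.1 (top.symm' m'.1), ?_⟩
    rw [g2_mem_chi_iff m.2.1, g2_mem_chi_iff m'.1]
    exact hA
  have h14 : Γ' ε₁ ε₄ := g2_mix_mix hΓ' m (g2_mix_left hΓ'.1 h23' m')
  exact (vert σ Γ').trans' hp ((vert σ Γ').trans' (vert_epos h14) ((vert σ Γ').symm' hr))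

/-- The vertex partition of the folding. -/
def g2_R (h : CutDatum σ top ε₀ s A) (hΓ' : Folded σ (cut σ top ε₀ s A) Γ') :
    Setoid (ZMod ℓ) where
  r p q := vert σ Γ' p q ∨ g2_glue σ top Γ' ε₀ s A p q
  iseqv := by
    refine ⟨fun ε => Or.inl ((vert σ Γ').refl' ε), ?_, ?_⟩
    · rintro p q (h | h)
      · exact Or.inl ((vert σ Γ').symm' h)
      · exact Or.inr (g2_glue_symm h)
    · rintro p q r (h1 | h1) (h2 | h2)
      · exact Or.inl ((vert σ Γ').trans' h1 h2)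
      · exact Or.inr (g2_glue_left h1 h2)
      · exact Or.inr (g2_glue_symm (g2_glue_left ((vert σ Γ').symm' h2) (g2_glue_symm h1)))
      · exact Or.inl (g2_glue_glue h hΓ' h1 h2)

theorem g2_vert_G_le (h : CutDatum σ top ε₀ s A) (hΓ' : Folded σ (cut σ top ε₀ s A) Γ') :
    vert σ (g2_G hΓ') ≤ g2_R h hΓ' := by
  refine sInf_le ?_
  intro s' ε ε' hε
  rcases hε with hε | hε
  · exact Or.inl (vert_epos hε)
  · by_cases hs : s' = s
    · subst hs
      exact Or.inr ⟨ε, ε', hε, (vert σ Γ').refl' _, (vert σ Γ').refl' _⟩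
    · have hs' : s' = !s := by
        cases s' <;> cases s <;> simp_all
      subst hs'
      exact Or.inl hε.2.2.2

theorem g2_folded_G (h : CutDatum σ top ε₀ s A) (hΓ' : Folded σ (cut σ top ε₀ s A) Γ') :
    Folded σ top (g2_G hΓ') := by
  constructor
  · rintro ε ε' (hε | hε)
    · exact (g2_cut_iff.mp (hΓ'.1 hε)).1
    · exact top.trans' hε.1 (top.symm' hε.2.1)
  · intro s' ε ε' ht hv
    rcases g2_vert_G_le h hΓ' hv with hv | ⟨ε₁, ε₂, m, h1, h2⟩
    · have hA : epos σ s' ε ∈ A ↔ epos σ s' ε' ∈ A := g2_vert_mem h hΓ'.1 hv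
      by_cases hb : top ε ε₀
      · have hb' : top ε' ε₀ := top.trans' (top.symm' ht) hb
        by_cases hc : (ε ∈ chi σ top ε₀ s A ↔ ε' ∈ chi σ top ε₀ s A)
        · exact Or.inl (hΓ'.2 s' ε ε' (g2_cut_iff.mpr ⟨ht, hc⟩) hv)
        · by_cases hs : s' = s
          · subst hs
            rw [g2_mem_chi_iff hb, g2_mem_chi_iff hb'] at hc
            exact absurd hA hc
          · have hs' : s' = !s := by
              cases s' <;> cases s <;> simp_all
            subst hs'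
            refine Or.inr ⟨hb, hb', ?_, hv⟩
            tauto
      · have hb' : ¬ top ε' ε₀ := fun h' => hb (top.trans' ht h')
        refine Or.inl (hΓ'.2 s' ε ε' (g2_cut_iff.mpr ⟨ht, ?_⟩) hv)
        exact iff_of_false (fun h' => hb h'.1) (fun h' => hb' h'.1)
    · -- glued ends
      have hA1 : epos σ s' ε ∈ A ↔ epos σ s ε₁ ∈ A := g2_vert_mem h hΓ'.1 h1
      have hA2 : epos σ s' ε' ∈ A ↔ epos σ s ε₂ ∈ A := g2_vert_mem h hΓ'.1 h2
      have hm := m.2.2.1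
      rw [g2_mem_chi_iff m.1, g2_mem_chi_iff m.2.1] at hm
      have hb : top ε ε₀ ∧ s' = s := by
        by_contra hcon
        have := h.star s' ε ε' ht hcon
        tauto
      obtain ⟨hb, rfl⟩ := hb
      have hb' : top ε' ε₀ := top.trans' (top.symm' ht) hb
      have e1 : Γ' ε ε₁ := by
        refine hΓ'.2 s' ε ε₁ (g2_cut_iff.mpr ⟨top.trans' hb (top.symm' m.1), ?_⟩) h1
        rw [g2_mem_chi_iff hb, g2_mem_chi_iff m.1]
        exact hA1
      have e2 : Γ' ε' ε₂ := by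
        refine hΓ'.2 s' ε' ε₂ (g2_cut_iff.mpr ⟨top.trans' hb' (top.symm' m.2.1), ?_⟩) h2
        rw [g2_mem_chi_iff hb', g2_mem_chi_iff m.2.1]
        exact hA2
      exact Or.inr (g2_mix_left hΓ'.1 e1
        (g2_mix_symm (g2_mix_left hΓ'.1 e2 (g2_mix_symm m))))

theorem fold_inf_cut (h : CutDatum σ top ε₀ s A) (hΓ' : Folded σ (cut σ top ε₀ s A) Γ') :
    fold σ top Γ' ⊓ cut σ top ε₀ s A = Γ' := by
  refine le_antisymm ?_ (le_inf (le_fold σ top Γ') hΓ'.1)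
  intro ε ε' hε
  have h1 : fold σ top Γ' ≤ g2_G hΓ' := fold_le (g2_folded_G h hΓ') fun _ _ hx => Or.inl hx
  rcases h1 hε.1 with h2 | h2
  · exact h2
  · have h3 := (g2_cut_iff.mp hε.2).2
    have h4 := h2.2.2.1
    tauto

theorem eq_cut_of_fold_eq_top (h : CutDatum σ top ε₀ s A)
    (hΓ' : Folded σ (cut σ top ε₀ s A) Γ') (hf : fold σ top Γ' = top) :
    Γ' = cut σ top ε₀ s A := by
  have h1 := fold_inf_cut h hΓ'
  rw [hf, inf_eq_right.mpr (g2_cut_le σ top ε₀ s A)] at h1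
  exact h1.symm

/-- Gluing two classes. -/
theorem g2_card_glue {E : Type*} [Finite E] {r t : Setoid E} {x y : E} (hxy : ¬ r x y)
    (ht : ∀ a b, t a b ↔ r a b ∨ (r a x ∧ r b y) ∨ (r a y ∧ r b x)) :
    Nat.card (Quotient r) = Nat.card (Quotient t) + 1 := by
  have hle : ∀ a b, r a b → t a b := fun a b hab => (ht a b).mpr (Or.inl hab)
  let f : {q : Quotient r // q ≠ Quotient.mk r y} → Quotient t :=
    fun q => Quotient.map' (s₁ := r) (s₂ := t) id (fun a b hab => hle a b hab) q.1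
  have hf : Function.Bijective f := by
    constructor
    · rintro ⟨q, hq⟩ ⟨q', hq'⟩ hqq
      induction q using Quotient.inductionOn with
      | h a =>
        induction q' using Quotient.inductionOn with
        | h b =>
          have h1 : t a b := Quotient.exact hqq
          have ha : ¬ r a y := fun h => hq (Quotient.sound h)
          have hb : ¬ r b y := fun h => hq' (Quotient.sound h)
          refine Subtype.ext (Quotient.sound ?_)
          rcases (ht a b).mp h1 with h | h | h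
          · exact h
          · exact absurd h.2 hb
          · exact absurd h.1 ha
    · intro q
      induction q using Quotient.inductionOn with
      | h a =>
        by_cases ha : r a y
        · refine ⟨⟨Quotient.mk r x, fun h => hxy (Quotient.exact h)⟩, ?_⟩
          exact Quotient.sound ((ht x a).mpr (Or.inr (Or.inl ⟨r.refl' x, ha⟩)))
        · exact ⟨⟨Quotient.mk r a, fun h => ha (Quotient.exact h)⟩, rfl⟩
  rw [← Nat.card_congr (Equiv.ofBijective f hf),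
    ← Nat.card_congr (Equiv.optionSubtypeNe (Quotient.mk r y)), Finite.card_option]

theorem rk_cut (h : CutDatum σ top ε₀ s A) (hf : fold σ top (cut σ top ε₀ s A) = top) :
    rk σ (cut σ top ε₀ s A) = rk σ top := by
  have hΓ' := folded_self σ (cut σ top ε₀ s A)
  obtain ⟨ε₁, h1, h1'⟩ := h.inn
  obtain ⟨ε₂, h2, h2'⟩ := h.out
  have hG : g2_G hΓ' = top := by
    refine le_antisymm (g2_folded_G h hΓ').1 ?_
    calc top = fold σ top (cut σ top ε₀ s A) := hf.symm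
      _ ≤ _ := fold_le (g2_folded_G h hΓ') fun _ _ hx => Or.inl hx
  have hc1 : ε₁ ∈ chi σ top ε₀ s A := ⟨h1, h1'⟩
  have hc2 : ε₂ ∉ chi σ top ε₀ s A := fun h' => h2' h'.2
  have hcut1 : ∀ ε, ε ∈ chi σ top ε₀ s A → cut σ top ε₀ s A ε ε₁ := fun ε hε =>
    g2_cut_iff.mpr ⟨top.trans' hε.1 (top.symm' h1), iff_of_true hε hc1⟩
  have hcut2 : ∀ ε, top ε ε₀ → ε ∉ chi σ top ε₀ s A → cut σ top ε₀ s A ε ε₂ := fun ε hε hε' =>
    g2_cut_iff.mpr ⟨top.trans' hε (top.symm' h2), iff_of_false hε' hc2⟩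
  have hn : ¬ cut σ top ε₀ s A ε₁ ε₂ := fun h' => hc2 ((g2_cut_iff.mp h').2.mp hc1)
  have card1 : Nat.card (Quotient (cut σ top ε₀ s A)) = Nat.card (Quotient top) + 1 := by
    refine g2_card_glue (x := ε₁) (y := ε₂) hn fun a b => ?_
    constructor
    · intro hab
      by_cases hc : (a ∈ chi σ top ε₀ s A ↔ b ∈ chi σ top ε₀ s A)
      · exact Or.inl (g2_cut_iff.mpr ⟨hab, hc⟩)
      · by_cases ha : a ∈ chi σ top ε₀ s A
        · have hb : b ∉ chi σ top ε₀ s A := by tauto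
          exact Or.inr (Or.inl ⟨hcut1 a ha, hcut2 b (top.trans' (top.symm' hab) ha.1) hb⟩)
        · have hb : b ∈ chi σ top ε₀ s A := by tauto
          exact Or.inr (Or.inr ⟨hcut2 a (top.trans' hab hb.1) ha, hcut1 b hb⟩)
    · have hle := g2_cut_le σ top ε₀ s A
      have h12 : top ε₁ ε₂ := top.trans' h1 (top.symm' h2)
      rintro (h' | h' | h')
      · exact hle h'
      · exact top.trans' (hle h'.1) (top.trans' h12 (top.symm' (hle h'.2)))
      · exact top.trans' (hle h'.1) (top.trans' (top.symm' h12) (top.symm' (hle h'.2)))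
  have card2 : Nat.card (Quotient (vert σ (cut σ top ε₀ s A))) =
      Nat.card (Quotient (vert σ top)) + 1 := by
    refine g2_card_glue (x := epos σ s ε₁) (y := epos σ s ε₂) ?_ fun p q => ?_
    · intro h'
      exact h2' ((g2_vert_mem h le_rfl h').mp h1')
    · constructor
      · intro hpq
        have hpq' : vert σ (g2_G hΓ') p q := by rw [hG]; exact hpq
        rcases g2_vert_G_le h hΓ' hpq' with h' | ⟨ε₃, ε₄, m, h3, h4⟩
        · exact Or.inl h'
        · by_cases hc : ε₃ ∈ chi σ top ε₀ s A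
          · have hc' : ε₄ ∉ chi σ top ε₀ s A := m.2.2.1.mp hc
            refine Or.inr (Or.inl ⟨?_, ?_⟩)
            · exact Setoid.trans' _ h3 (vert_epos (hcut1 ε₃ hc))
            · exact Setoid.trans' _ h4 (vert_epos (hcut2 ε₄ m.2.1 hc'))
          · have hc' : ε₄ ∈ chi σ top ε₀ s A := by
              by_contra hcon
              exact hc (m.2.2.1.mpr hcon)
            refine Or.inr (Or.inr ⟨?_, ?_⟩)
            · exact Setoid.trans' _ h3 (vert_epos (hcut2 ε₃ m.1 hc))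
            · exact Setoid.trans' _ h4 (vert_epos (hcut1 ε₄ hc'))
      · have hle : vert σ (cut σ top ε₀ s A) ≤ vert σ top := vert_mono (g2_cut_le σ top ε₀ s A)
        have h12 : vert σ top (epos σ s ε₁) (epos σ s ε₂) :=
          vert_epos (top.trans' h1 (top.symm' h2))
        rintro (h' | h' | h')
        · exact hle h'
        · exact Setoid.trans' _ (hle h'.1) (Setoid.trans' _ h12 (Setoid.symm' _ (hle h'.2)))
        · exact Setoid.trans' _ (hle h'.1)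
            (Setoid.trans' _ (Setoid.symm' _ h12) (Setoid.symm' _ (hle h'.2)))
  unfold rk
  rw [card1, card2]
  push_cast
  ring

/-- `β` of a partition folded in `top` is the sum of the `β` of the partitions folded in the
cut partition whose folding it is. -/
theorem g2_beta (h : CutDatum σ top ε₀ s A) (N : ℕ) (Γ : Setoid (ZMod ℓ)) :
    Folded σ top Γ → beta K σ Γ N =
      ∑ ρ ∈ (Finset.univ : Finset (Setoid (ZMod ℓ))).filter
        (fun ρ => Folded σ (cut σ top ε₀ s A) ρ ∧ fold σ top ρ = Γ), beta K σ ρ N := by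
  induction Γ using WellFoundedLT.induction with
  | ind Γ ih =>
    intro hΓ
    have hcle := g2_cut_le σ top ε₀ s A
    -- the two expansions of `g(Γ)`
    have e1 := beta_sum K σ Γ N
    have e2 := beta_sum K σ (Γ ⊓ cut σ top ε₀ s A) N
    have e3 := gfun_folded_cut K h hΓ N
    have f1 : (Finset.univ : Finset (Setoid (ZMod ℓ))).filter (fun ρ => Folded σ Γ ρ) =
        (Finset.univ : Finset (Setoid (ZMod ℓ))).filter
          (fun ρ => Folded σ top ρ ∧ ρ ≤ Γ) := by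
      refine Finset.filter_congr fun ρ _ => ?_
      exact ⟨fun h' => ⟨hΓ.trans h', h'.1⟩, fun h' => h'.1.of_le h'.2 hΓ.1⟩
    have f2 : (Finset.univ : Finset (Setoid (ZMod ℓ))).filter
          (fun ρ => Folded σ (Γ ⊓ cut σ top ε₀ s A) ρ) =
        (Finset.univ : Finset (Setoid (ZMod ℓ))).filter
          (fun ρ => Folded σ (cut σ top ε₀ s A) ρ ∧ fold σ top ρ ≤ Γ) := by
      refine Finset.filter_congr fun ρ _ => ?_
      constructor
      · intro h'
        refine ⟨(hΓ.inf_right hcle).trans h', fold_le hΓ (h'.1.trans inf_le_left)⟩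
      · intro h'
        refine h'.1.of_le (le_inf ((le_fold σ top ρ).trans h'.2) h'.1.1) inf_le_right
    rw [f1] at e1
    rw [f2] at e2
    -- regroup the second sum
    have e4 : ∑ ρ ∈ (Finset.univ : Finset (Setoid (ZMod ℓ))).filter
          (fun ρ => Folded σ (cut σ top ε₀ s A) ρ ∧ fold σ top ρ ≤ Γ), beta K σ ρ N =
        ∑ τ ∈ (Finset.univ : Finset (Setoid (ZMod ℓ))).filter
          (fun τ => Folded σ top τ ∧ τ ≤ Γ),
          ∑ ρ ∈ (Finset.univ : Finset (Setoid (ZMod ℓ))).filter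
            (fun ρ => Folded σ (cut σ top ε₀ s A) ρ ∧ fold σ top ρ = τ), beta K σ ρ N := by
      rw [← Finset.sum_fiberwise_of_maps_to (g := fun ρ => fold σ top ρ)
        (t := (Finset.univ : Finset (Setoid (ZMod ℓ))).filter
          (fun τ => Folded σ top τ ∧ τ ≤ Γ))]
      · refine Finset.sum_congr rfl fun τ hτ => ?_
        refine Finset.sum_congr ?_ fun _ _ => rfl
        rw [Finset.mem_filter] at hτ
        ext ρ
        simp only [Finset.mem_filter, Finset.mem_univ, true_and]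
        constructor
        · rintro ⟨⟨h1, h2⟩, h3⟩
          exact ⟨h1, h3⟩
        · rintro ⟨h1, h3⟩
          exact ⟨⟨h1, h3 ▸ hτ.2.2⟩, h3⟩
      · intro ρ hρ
        rw [Finset.mem_filter] at hρ ⊢
        exact ⟨Finset.mem_univ _, folded_fold (hρ.2.1.1.trans hcle), hρ.2.2⟩
    have e5 : ∑ τ ∈ (Finset.univ : Finset (Setoid (ZMod ℓ))).filter
          (fun τ => Folded σ top τ ∧ τ ≤ Γ), beta K σ τ N =
        ∑ τ ∈ (Finset.univ : Finset (Setoid (ZMod ℓ))).filter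
          (fun τ => Folded σ top τ ∧ τ ≤ Γ),
          ∑ ρ ∈ (Finset.univ : Finset (Setoid (ZMod ℓ))).filter
            (fun ρ => Folded σ (cut σ top ε₀ s A) ρ ∧ fold σ top ρ = τ), beta K σ ρ N := by
      rw [← e1, e3, e2, e4]
    have hmem : Γ ∈ (Finset.univ : Finset (Setoid (ZMod ℓ))).filter
        (fun τ => Folded σ top τ ∧ τ ≤ Γ) := by
      rw [Finset.mem_filter]
      exact ⟨Finset.mem_univ _, hΓ, le_rfl⟩
    rw [← Finset.add_sum_erase _ _ hmem, ← Finset.add_sum_erase _ _ hmem] at e5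
    have e6 : ∑ τ ∈ ((Finset.univ : Finset (Setoid (ZMod ℓ))).filter
          (fun τ => Folded σ top τ ∧ τ ≤ Γ)).erase Γ, beta K σ τ N =
        ∑ τ ∈ ((Finset.univ : Finset (Setoid (ZMod ℓ))).filter
          (fun τ => Folded σ top τ ∧ τ ≤ Γ)).erase Γ,
          ∑ ρ ∈ (Finset.univ : Finset (Setoid (ZMod ℓ))).filter
            (fun ρ => Folded σ (cut σ top ε₀ s A) ρ ∧ fold σ top ρ = τ), beta K σ ρ N := by
      refine Finset.sum_congr rfl fun τ hτ => ?_
      rw [Finset.mem_erase, Finset.mem_filter] at hτ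
      exact ih τ (lt_of_le_of_ne hτ.2.2.2 hτ.1) hτ.2.2.1
    rw [e6] at e5
    exact add_right_cancel e5

theorem beta_cut_eq (h : CutDatum σ top ε₀ s A) (hf : fold σ top (cut σ top ε₀ s A) = top)
    (N : ℕ) : beta K σ top N = beta K σ (cut σ top ε₀ s A) N := by
  rw [g2_beta K h N top (folded_self σ top)]
  rw [Finset.sum_eq_single_of_mem (cut σ top ε₀ s A)]
  · rw [Finset.mem_filter]
    exact ⟨Finset.mem_univ _, folded_self σ _, hf⟩
  · intro ρ hρ hne
    rw [Finset.mem_filter] at hρ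
    exact absurd (eq_cut_of_fold_eq_top h hρ.2.1 hρ.2.2) hne

theorem beta_cut_zero (h : CutDatum σ top ε₀ s A)
    (hf : fold σ top (cut σ top ε₀ s A) ≠ top) (N : ℕ) : beta K σ top N = 0 := by
  rw [g2_beta K h N top (folded_self σ top)]
  refine Finset.sum_eq_zero fun ρ hρ => ?_
  rw [Finset.mem_filter] at hρ
  have h1 := eq_cut_of_fold_eq_top h hρ.2.1 hρ.2.2
  rw [h1] at hρ
  exact absurd hρ.2.2 hf

end G2

end Pool.Agent.GLFix
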