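import Mathlib

/-!
# MP_ce340f_al, module B1

Numberings of the vertices of graphs without cut vertices.
-/

open scoped Classical
open Module Filter Asymptotics

noncomputable section

namespace Pool.Agent.GLFix

section B1

/-! ### Lists -/

lemma b1_pred {α : Type*} {R : α → α → Prop} : ∀ (L : List α) (a : α), (a :: L).IsChain R →
    ∀ x ∈ L, ∃ y, R y x ∧ [y, x].Sublist (a :: L) := by
  intro L
  induction L with
  | nil => intro a _ x hx; simp at hx
  | cons b L ih =>
    intro a h x hx
    rw [List.isChain_cons_cons] at h
    rcases List.mem_cons.1 hx with rfl | hx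
    · exact ⟨a, h.1, by simp⟩
    · obtain ⟨y, hy, hs⟩ := ih b h.2 x hx
      exact ⟨y, hy, hs.cons _⟩

lemma b1_succ {α : Type*} {R : α → α → Prop} : ∀ (L : List α) (z : α), (L ++ [z]).IsChain R →
    ∀ x ∈ L, ∃ y, R x y ∧ [x, y].Sublist (L ++ [z]) := by
  intro L
  induction L with
  | nil => intro z _ x hx; simp at hx
  | cons b L ih =>
    intro z h x hx
    rcases List.mem_cons.1 hx with rfl | hx
    · cases L with
      | nil =>
        rw [List.singleton_append, List.isChain_cons_cons] at h
        exact ⟨z, h.1, by simp⟩
      | cons c L =>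
        rw [List.cons_append, List.cons_append, List.isChain_cons_cons] at h
        exact ⟨c, h.1, by simp⟩
    · have h' : (L ++ [z]).IsChain R := by
        rw [List.cons_append] at h
        exact h.tail
      obtain ⟨y, hy, hs⟩ := ih z h' x hx
      exact ⟨y, hy, hs.cons _⟩

lemma b1_reach {V : Type*} {G : SimpleGraph V} : ∀ (L : List V) (a : V),
    (a :: L).IsChain G.Adj → ∀ x ∈ L, G.Reachable a x := by
  intro L
  induction L with
  | nil => intro a _ x hx; simp at hx
  | cons b L ih =>
    intro a h x hx
    rw [List.isChain_cons_cons] at h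
    rcases List.mem_cons.1 hx with rfl | hx
    · exact h.1.reachable
    · exact h.1.reachable.trans (ih b h.2 x hx)

lemma b1_idx {α : Type*} {l : List α} (hl : l.Nodup) {x y : α} (h : [x, y].Sublist l) :
    l.idxOf x < l.idxOf y := by
  have hp : l.Pairwise (fun a b => l.idxOf a < l.idxOf b) := by
    rw [List.pairwise_iff_getElem]
    intro i j hi hj hij
    rw [hl.idxOf_getElem, hl.idxOf_getElem]
    exact hij
  have := hp.sublist h
  simpa using this

/-- first entry of a path into a set -/
lemma b1_ear {V : Type*} {H : SimpleGraph V} (P : V → Prop) : ∀ {b u : V} (w : H.Walk b u),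
    w.IsPath → ¬ P b → P u → ∃ (bs : List V) (a' z : V), P a' ∧ H.Adj z a' ∧
      (b :: bs).Nodup ∧ (∀ x ∈ b :: bs, ¬ P x ∧ x ∈ w.support) ∧
      (b :: bs ++ [a']).IsChain H.Adj := by
  intro b u w
  induction w with
  | nil => intro _ h1 h2; exact absurd h2 h1
  | @cons b c u h w ih =>
    intro hp hb hu
    rw [SimpleGraph.Walk.cons_isPath_iff] at hp
    by_cases hc : P c
    · refine ⟨[], c, b, hc, h, by simp, ?_, ?_⟩
      · intro x hx
        rw [List.mem_singleton] at hx
        subst hx
        exact ⟨hb, by simp⟩
      · simpa using h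
    · obtain ⟨bs, a', z, h1, h2, h3, h4, h5⟩ := ih hp.1 hc hu
      refine ⟨c :: bs, a', z, h1, h2, ?_, ?_, ?_⟩
      · rw [List.nodup_cons]
        exact ⟨fun hm => hp.2 (h4 b hm).2, h3⟩
      · intro x hx
        rcases List.mem_cons.1 hx with rfl | hx
        · exact ⟨hb, by simp⟩
        · exact ⟨(h4 x hx).1, by simp [(h4 x hx).2]⟩
      · rw [List.cons_append, List.cons_append, List.isChain_cons_cons]
        exact ⟨h, h5⟩

/-- partial numberings -/
structure B1Inv {V : Type*} (G : SimpleGraph V) (s t : G.ConnectedComponent → V) (l : List V) :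
    Prop where
  nodup : l.Nodup
  ends : ∀ x ∈ l, s (G.connectedComponentMk x) ∈ l ∧ t (G.connectedComponentMk x) ∈ l
  low : ∀ x ∈ l, x ≠ s (G.connectedComponentMk x) → ∃ y, G.Adj y x ∧ [y, x].Sublist l
  high : ∀ x ∈ l, x ≠ t (G.connectedComponentMk x) → ∃ y, G.Adj x y ∧ [x, y].Sublist l

lemma b1_insert {V : Type*} {G : SimpleGraph V} {s t : G.ConnectedComponent → V}
    {l1 l2 bs : List V} {a a' : V} (h : B1Inv G s t (l1 ++ a :: l2)) (ha' : a' ∈ l2)
    (hch : (a :: (bs ++ [a'])).IsChain G.Adj) (hnd : bs.Nodup)
    (hdis : ∀ x ∈ bs, x ∉ l1 ++ a :: l2) : B1Inv G s t (l1 ++ a :: (bs ++ l2)) := by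
  have hsub : (l1 ++ a :: l2).Sublist (l1 ++ a :: (bs ++ l2)) := by
    refine List.Sublist.append_left ?_ _
    exact (List.sublist_append_right bs l2).cons_cons a
  have hmem : ∀ x, x ∈ l1 ++ a :: (bs ++ l2) → x ∈ l1 ++ a :: l2 ∨ x ∈ bs := by
    intro x hx
    simp only [List.mem_append, List.mem_cons] at hx ⊢
    tauto
  have hcomp : ∀ x ∈ bs, G.connectedComponentMk x = G.connectedComponentMk a := by
    intro x hx
    have := b1_reach _ _ hch x (by simp [hx])
    exact (SimpleGraph.ConnectedComponent.sound this).symm
  have hpre : ∀ x ∈ bs, ∃ y, G.Adj y x ∧ [y, x].Sublist (l1 ++ a :: (bs ++ l2)) := by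
    intro x hx
    have h1 : (a :: bs).IsChain G.Adj := by
      have : (a :: bs ++ [a']).IsChain G.Adj := by simpa using hch
      exact this.left_of_append
    obtain ⟨y, hy, hs⟩ := b1_pred bs a h1 x hx
    refine ⟨y, hy, hs.trans ?_⟩
    refine List.Sublist.trans ?_ (List.sublist_append_right _ _)
    exact (List.sublist_append_left bs l2).cons_cons a
  have hpost : ∀ x ∈ bs, ∃ y, G.Adj x y ∧ [x, y].Sublist (l1 ++ a :: (bs ++ l2)) := by
    intro x hx
    have h1 : (bs ++ [a']).IsChain G.Adj := hch.tail
    obtain ⟨y, hy, hs⟩ := b1_succ bs a' h1 x hx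
    refine ⟨y, hy, hs.trans ?_⟩
    refine List.Sublist.trans ?_ (List.sublist_append_right _ _)
    refine List.Sublist.trans ?_ (List.sublist_cons_self _ _)
    exact List.Sublist.append_left (List.singleton_sublist.2 ha') _
  refine ⟨?_, ?_, ?_, ?_⟩
  · have h1 := h.nodup
    rw [List.nodup_append] at h1 ⊢
    obtain ⟨h2, h3, h4⟩ := h1
    rw [List.nodup_cons] at h3
    refine ⟨h2, ?_, ?_⟩
    · rw [List.nodup_cons, List.nodup_append]
      refine ⟨?_, hnd, h3.2, ?_⟩
      · intro hm
        rcases List.mem_append.1 hm with hm | hm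
        · exact hdis a hm (by simp)
        · exact h3.1 hm
      · intro x hx y hy hxy
        subst hxy
        exact hdis x hx (by simp [hy])
    · intro x hx y hy hxy
      subst hxy
      rcases List.mem_cons.1 hy with rfl | hy
      · exact h4 x hx x (by simp) rfl
      · rcases List.mem_append.1 hy with hy | hy
        · exact hdis x hy (by simp [hx])
        · exact h4 x hx x (by simp [hy]) rfl
  · intro x hx
    rcases hmem x hx with hx | hx
    · exact ⟨hsub.subset (h.ends x hx).1, hsub.subset (h.ends x hx).2⟩
    · rw [hcomp x hx]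
      have := h.ends a (by simp)
      exact ⟨hsub.subset this.1, hsub.subset this.2⟩
  · intro x hx hne
    rcases hmem x hx with hx | hx
    · obtain ⟨y, hy, hs⟩ := h.low x hx hne
      exact ⟨y, hy, hs.trans hsub⟩
    · exact hpre x hx
  · intro x hx hne
    rcases hmem x hx with hx | hx
    · obtain ⟨y, hy, hs⟩ := h.high x hx hne
      exact ⟨y, hy, hs.trans hsub⟩
    · exact hpost x hx

/-- A numbering of the vertices of a graph in which, in every component, all vertices other
than two prescribed ones have a lower and a higher neighbour. -/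
theorem exists_st_numbering {V : Type*} [Finite V] (G : SimpleGraph V)
    (hcut : ∀ x y z : V, y ≠ x → z ≠ x → G.Reachable y z →
      (G.deleteIncidenceSet x).Reachable y z)
    (s t : G.ConnectedComponent → V)
    (hs : ∀ c, G.connectedComponentMk (s c) = c) (ht : ∀ c, G.connectedComponentMk (t c) = c)
    (hst : ∀ c, s c ≠ t c) :
    ∃ f : V → ℕ, Function.Injective f ∧
      (∀ x, x ≠ s (G.connectedComponentMk x) → ∃ y, G.Adj x y ∧ f y < f x) ∧
      (∀ x, x ≠ t (G.connectedComponentMk x) → ∃ y, G.Adj x y ∧ f x < f y) := by
  have := Fintype.ofFinite V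
  -- a longest partial numbering
  obtain ⟨l, hl, hmax⟩ : ∃ l, B1Inv G s t l ∧ ∀ l', B1Inv G s t l' → l'.length ≤ l.length := by
    have hfin : ∀ l, B1Inv G s t l → l.length ≤ Fintype.card V := fun l h =>
      h.nodup.length_le_card
    have hne : ∃ n, ∃ l, B1Inv G s t l ∧ l.length = n := ⟨0, [], ⟨by simp, by simp, by simp,
      by simp⟩, rfl⟩
    have hbdd : BddAbove {n | ∃ l, B1Inv G s t l ∧ l.length = n} := by
      refine ⟨Fintype.card V, ?_⟩
      rintro n ⟨l, hl, rfl⟩
      exact hfin l hl
    obtain ⟨l, hl, hn⟩ := Nat.sSup_mem hne hbdd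
    refine ⟨l, hl, fun l' hl' => ?_⟩
    rw [hn]
    exact le_csSup hbdd ⟨l', hl', rfl⟩
  -- it is everything
  have hall : ∀ v, v ∈ l := by
    by_contra hcon
    push Not at hcon
    obtain ⟨v, hv⟩ := hcon
    by_cases hc : ∃ u ∈ l, G.connectedComponentMk u = G.connectedComponentMk v
    · -- an ear
      obtain ⟨u, hu, huv⟩ := hc
      obtain ⟨w⟩ := SimpleGraph.ConnectedComponent.exact huv
      obtain ⟨d, _, ha, hb⟩ := w.exists_boundary_dart {x | x ∈ l} hu hv
      set a := d.fst with had
      set b := d.snd with hbd
      have hab : G.Adj a b := d.adj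
      have ha : a ∈ l := ha
      have hb : b ∉ l := hb
      have hends := hl.ends a ha
      obtain ⟨u', hu', hu'a, hu'c⟩ : ∃ u' ∈ l, u' ≠ a ∧
          G.connectedComponentMk u' = G.connectedComponentMk a := by
        by_cases h : s (G.connectedComponentMk a) = a
        · refine ⟨t (G.connectedComponentMk a), hends.2, fun h' => ?_, ht _⟩
          exact hst _ (h.trans h'.symm)
        · exact ⟨_, hends.1, h, hs _⟩
      have hba : b ≠ a := fun h => hb (h ▸ ha)
      have hbu : G.Reachable b u' :=
        hab.symm.reachable.trans (SimpleGraph.ConnectedComponent.exact hu'c).symm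
      obtain ⟨w'⟩ := hcut a b u' hba hu'a hbu
      obtain ⟨bs, a', z, h1, h2, h3, h4, h5⟩ := b1_ear (fun x => x ∈ l) w'.bypass
        w'.bypass_isPath hb hu'
      have ha'a : a' ≠ a := (SimpleGraph.deleteIncidenceSet_adj.1 h2).2.2
      have hch0 : (b :: bs ++ [a']).IsChain G.Adj :=
        h5.imp fun x y hxy => SimpleGraph.deleteIncidenceSet_le G a hxy
      have hch : (a :: (b :: bs ++ [a'])).IsChain G.Adj := by
        rw [List.cons_append, List.isChain_cons_cons]
        exact ⟨hab, hch0⟩
      have hdis : ∀ x ∈ b :: bs, x ∉ l := fun x hx => (h4 x hx).1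
      obtain ⟨l1, l2, hl12⟩ := List.append_of_mem ha
      have h1' : a' ∈ l1 ++ a :: l2 := hl12 ▸ h1
      rcases List.mem_append.1 h1' with h6 | h6
      · -- a' before a
        obtain ⟨l3, l4, hl34⟩ := List.append_of_mem h6
        have hl' : l = l3 ++ a' :: (l4 ++ a :: l2) := by
          rw [hl12, hl34]; simp
        have hinv : B1Inv G s t (l3 ++ a' :: ((b :: bs).reverse ++ (l4 ++ a :: l2))) := by
          refine b1_insert (a' := a) (hl' ▸ hl) (by simp) ?_ ?_ ?_
          · have h7 : (a' :: ((b :: bs).reverse ++ [a])) = (a :: (b :: bs ++ [a'])).reverse := by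
              simp
            rw [h7, List.isChain_reverse]
            exact hch.imp fun x y hxy => hxy.symm
          · exact List.nodup_reverse.2 h3
          · intro x hx
            rw [← hl']
            exact hdis x (List.mem_reverse.1 hx)
        have := hmax _ hinv
        rw [hl'] at this
        simp at this
        omega
      · have h7 : a' ∈ l2 := by
          rcases List.mem_cons.1 h6 with h | h
          · exact absurd h ha'a
          · exact h
        have hinv := b1_insert (hl12 ▸ hl) h7 hch h3 (by rw [← hl12]; exact hdis)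
        have := hmax _ hinv
        rw [hl12] at this
        simp at this
    · -- a new component
      push Not at hc
      set c := G.connectedComponentMk v with hcv
      obtain ⟨w⟩ : G.Reachable (s c) (t c) :=
        SimpleGraph.ConnectedComponent.exact ((hs c).trans (ht c).symm)
      set p := w.bypass with hp
      have hpp : p.IsPath := w.bypass_isPath
      have hsup : ∀ x ∈ p.support, G.connectedComponentMk x = c := by
        intro x hx
        have : G.Reachable (s c) x := ⟨p.takeUntil x hx⟩
        rw [← hs c]
        exact (SimpleGraph.ConnectedComponent.sound this).symm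
      have hdis : ∀ x ∈ p.support, x ∉ l := fun x hx hxl => hc x hxl (hsup x hx)
      have hinv : B1Inv G s t (l ++ p.support) := by
        refine ⟨?_, ?_, ?_, ?_⟩
        · rw [List.nodup_append]
          refine ⟨hl.nodup, hpp.support_nodup, ?_⟩
          intro x hx y hy hxy
          subst hxy
          exact hdis x hy hx
        · intro x hx
          rcases List.mem_append.1 hx with hx | hx
          · exact ⟨List.mem_append_left _ (hl.ends x hx).1, List.mem_append_left _ (hl.ends x hx).2⟩
          · rw [hsup x hx]
            exact ⟨List.mem_append_right _ p.start_mem_support,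
              List.mem_append_right _ p.end_mem_support⟩
        · intro x hx hne
          rcases List.mem_append.1 hx with hx | hx
          · obtain ⟨y, hy, hs'⟩ := hl.low x hx hne
            exact ⟨y, hy, hs'.trans (List.sublist_append_left _ _)⟩
          · rw [hsup x hx] at hne
            have h1 : p.support = s c :: p.support.tail := p.cons_tail_support.symm
            have h2 : x ∈ p.support.tail := by
              rw [h1] at hx
              exact (List.mem_cons.1 hx).resolve_left hne
            obtain ⟨y, hy, hs'⟩ := b1_pred _ _ (h1 ▸ p.isChain_adj_support) x h2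
            rw [← h1] at hs'
            exact ⟨y, hy, hs'.trans (List.sublist_append_right _ _)⟩
        · intro x hx hne
          rcases List.mem_append.1 hx with hx | hx
          · obtain ⟨y, hy, hs'⟩ := hl.high x hx hne
            exact ⟨y, hy, hs'.trans (List.sublist_append_left _ _)⟩
          · rw [hsup x hx] at hne
            have h1 : p.support.dropLast ++ [t c] = p.support := by
              have := List.dropLast_append_getLast p.support_ne_nil
              rwa [p.getLast_support] at this
            have h2 : x ∈ p.support.dropLast := by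
              rw [← h1] at hx
              rcases List.mem_append.1 hx with h | h
              · exact h
              · exact absurd (List.mem_singleton.1 h) hne
            obtain ⟨y, hy, hs'⟩ := b1_succ p.support.dropLast (t c)
              (h1.symm ▸ p.isChain_adj_support) x h2
            rw [h1] at hs'
            exact ⟨y, hy, hs'.trans (List.sublist_append_right _ _)⟩
      have h8 := hmax _ hinv
      rw [List.length_append] at h8
      have h9 : 0 < p.support.length := List.length_pos_of_mem p.start_mem_support
      omega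
  refine ⟨fun x => l.idxOf x, ?_, ?_, ?_⟩
  · intro x y hxy
    exact (List.idxOf_inj (hall x)).1 hxy
  · intro x hx
    obtain ⟨y, hy, hs'⟩ := hl.low x (hall x) hx
    exact ⟨y, hy.symm, b1_idx hl.nodup hs'⟩
  · intro x hx
    obtain ⟨y, hy, hs'⟩ := hl.high x (hall x) hx
    exact ⟨y, hy, b1_idx hl.nodup hs'⟩

end B1

end Pool.Agent.GLFix
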