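import Pool.Agent.GLFix.Basic
import Pool.Agent.GLFix.StNumber

/-!
# MP_ce340f_al, module B2

The key inequality.
-/

open scoped Classical
open Module Filter Asymptotics

set_option linter.unusedSectionVars false

noncomputable section

namespace Pool.Agent.GLFix

section B2

variable {K : Type*} [Field K] {ℓ : ℕ} [NeZero ℓ] {σ : ZMod ℓ → Bool} {π : Setoid (ZMod ℓ)}

/-! ### Labels and positions -/

/-- the label `x` occurs at the position `p` -/
def b2_inc (σ : ZMod ℓ → Bool) (π : Setoid (ZMod ℓ)) (x : Quotient π × Bool) (p : ZMod ℓ) : Prop :=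
  ∃ ε, Quotient.mk π ε = x.1 ∧ epos σ x.2 ε = p

lemma b2_inc_iff (x : Quotient π × Bool) (p : ZMod ℓ) :
    b2_inc σ π x p ↔ x = (Quotient.mk π (p - 1), σ (p - 1)) ∨ x = (Quotient.mk π p, !(σ p)) := by
  obtain ⟨b, s⟩ := x
  constructor
  · rintro ⟨ε, h1, h2⟩
    simp only at h1 h2
    unfold epos at h2
    split_ifs at h2 with h
    · left
      have : ε = p - 1 := by rw [← h2]; ring
      subst this
      rw [← h1, ← h]
    · right
      subst h2
      rw [← h1]
      cases hs : σ ε <;> cases s <;> simp_all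
  · rintro (h | h)
    · rw [Prod.mk.injEq] at h
      refine ⟨p - 1, h.1.symm, ?_⟩
      unfold epos
      rw [if_pos h.2.symm]
      ring
    · rw [Prod.mk.injEq] at h
      refine ⟨p, h.1.symm, ?_⟩
      unfold epos
      rw [if_neg]
      rw [h.2]
      cases σ p <;> simp

lemma b2_lab_ne (hred : Reduced σ π) (p : ZMod ℓ) :
    ((Quotient.mk π (p - 1), σ (p - 1)) : Quotient π × Bool) ≠ (Quotient.mk π p, !(σ p)) := by
  intro h
  rw [Prod.mk.injEq] at h
  have h1 : π (p - 1) p := Quotient.exact h.1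
  have h2 := hred (p - 1) (by rwa [sub_add_cancel])
  rw [sub_add_cancel] at h2
  rw [h2] at h
  cases hs : σ p <;> simp [hs] at h

lemma b2_two {x y z : Quotient π × Bool} {p : ZMod ℓ} (hx : b2_inc σ π x p)
    (hy : b2_inc σ π y p) (hz : b2_inc σ π z p) (hxy : x ≠ y) : z = x ∨ z = y := by
  rw [b2_inc_iff] at hx hy hz
  rcases hx with rfl | rfl <;> rcases hy with rfl | rfl <;> rcases hz with rfl | rfl <;> simp_all

lemma b2_other (hred : Reduced σ π) {x : Quotient π × Bool} {p : ZMod ℓ}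
    (hx : b2_inc σ π x p) : ∃ y, y ≠ x ∧ b2_inc σ π y p := by
  have hx' := hx
  rw [b2_inc_iff] at hx
  rcases hx with rfl | rfl
  · exact ⟨_, (b2_lab_ne hred p).symm, (b2_inc_iff _ _).2 (Or.inr rfl)⟩
  · exact ⟨_, b2_lab_ne hred p, (b2_inc_iff _ _).2 (Or.inl rfl)⟩

lemma b2_inc_mk (s : Bool) (ε : ZMod ℓ) : b2_inc σ π (Quotient.mk π ε, s) (epos σ s ε) :=
  ⟨ε, rfl, rfl⟩

lemma b2_exists_inc (x : Quotient π × Bool) : ∃ p, b2_inc σ π x p := by
  obtain ⟨b, s⟩ := x
  induction b using Quotient.inductionOn with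
  | h ε => exact ⟨_, b2_inc_mk s ε⟩

/-- the Whitehead graph -/
def b2_W (σ : ZMod ℓ → Bool) (π : Setoid (ZMod ℓ)) : SimpleGraph (Quotient π × Bool) where
  Adj x y := x ≠ y ∧ ∃ p, b2_inc σ π x p ∧ b2_inc σ π y p
  symm := ⟨fun _ _ h => ⟨h.1.symm, h.2.imp fun _ hp => ⟨hp.2, hp.1⟩⟩⟩
  loopless := ⟨fun _ h => h.1 rfl⟩

lemma b2_same {x y : Quotient π × Bool} {p : ZMod ℓ} (hx : b2_inc σ π x p)
    (hy : b2_inc σ π y p) :
    (b2_W σ π).connectedComponentMk x = (b2_W σ π).connectedComponentMk y := by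
  by_cases h : x = y
  · rw [h]
  · exact SimpleGraph.ConnectedComponent.sound (SimpleGraph.Adj.reachable ⟨h, p, hx, hy⟩)

/-- the component of a position -/
def b2_comp (σ : ZMod ℓ → Bool) (π : Setoid (ZMod ℓ)) (p : ZMod ℓ) :
    (b2_W σ π).ConnectedComponent :=
  (b2_W σ π).connectedComponentMk (Quotient.mk π p, !(σ p))

lemma b2_comp_eq {x : Quotient π × Bool} {p : ZMod ℓ} (hx : b2_inc σ π x p) :
    b2_comp σ π p = (b2_W σ π).connectedComponentMk x :=
  b2_same ((b2_inc_iff _ _).2 (Or.inr rfl)) hx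

lemma b2_vert_le : vert σ π ≤ Setoid.ker (b2_comp σ π) := by
  refine sInf_le ?_
  intro s ε ε' h
  rw [Setoid.ker_def, b2_comp_eq (b2_inc_mk s ε), b2_comp_eq (b2_inc_mk s ε')]
  have : Quotient.mk π ε = Quotient.mk π ε' := Quotient.sound h
  rw [this]

lemma b2_inc_vert {x : Quotient π × Bool} {p p' : ZMod ℓ} (h : b2_inc σ π x p)
    (h' : b2_inc σ π x p') : vert σ π p p' := by
  obtain ⟨ε, h1, h2⟩ := h
  obtain ⟨ε', h3, h4⟩ := h'
  rw [← h2, ← h4]
  exact vert_rel σ π _ (Quotient.exact (h1.trans h3.symm))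

lemma b2_walk_vert {x y : Quotient π × Bool} (w : (b2_W σ π).Walk x y) :
    ∀ {p q : ZMod ℓ}, b2_inc σ π x p → b2_inc σ π y q → vert σ π p q := by
  induction w with
  | nil => intro p q hp hq; exact b2_inc_vert hp hq
  | cons h w ih =>
    intro p q hp hq
    obtain ⟨r, h1, h2⟩ := h.2
    exact (vert σ π).trans (b2_inc_vert hp h1) (ih h2 hq)

lemma b2_card : Nat.card (Quotient (vert σ π)) = Nat.card (b2_W σ π).ConnectedComponent := by
  refine Nat.card_congr (Equiv.ofBijective
    (Quotient.lift (b2_comp σ π) fun a b h => b2_vert_le h) ⟨?_, ?_⟩)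
  · intro a b
    induction a using Quotient.inductionOn with
    | h p =>
      induction b using Quotient.inductionOn with
      | h q =>
        intro h
        obtain ⟨w⟩ := SimpleGraph.ConnectedComponent.exact h
        exact Quotient.sound (b2_walk_vert w ((b2_inc_iff _ _).2 (Or.inr rfl))
          ((b2_inc_iff _ _).2 (Or.inr rfl)))
  · intro c
    induction c using SimpleGraph.ConnectedComponent.ind with
    | h x =>
      obtain ⟨p, hp⟩ := b2_exists_inc (σ := σ) x
      exact ⟨Quotient.mk _ p, b2_comp_eq hp⟩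

/-- no cut vertex -/
lemma b2_noCut_aux (hnc : NoCut σ π) {x y z : Quotient π × Bool} (hy : y ≠ x) (hz : z ≠ x)
    (hyz : (b2_W σ π).Reachable y z) (hn : ¬ ((b2_W σ π).deleteIncidenceSet x).Reachable y z)
    (hop : ¬ ((b2_W σ π).deleteIncidenceSet x).Reachable y (x.1, !x.2)) : False := by
  set H := (b2_W σ π).deleteIncidenceSet x with hH
  have hxiso : ∀ v, H.Reachable v x → v = x := by
    intro v hv
    by_contra hne
    obtain ⟨w⟩ := hv.symm
    cases w with
    | nil => exact hne rfl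
    | cons h _ =>
      rw [hH, SimpleGraph.deleteIncidenceSet_adj] at h
      exact h.2.1 rfl
  have hH1 : ∀ {a b}, a ≠ x → b ≠ x → ∀ p, b2_inc σ π a p → b2_inc σ π b p → H.Reachable a b := by
    intro a b ha hb p hap hbp
    by_cases hab : a = b
    · rw [hab]
    · refine SimpleGraph.Adj.reachable ?_
      rw [hH, SimpleGraph.deleteIncidenceSet_adj]
      exact ⟨⟨hab, p, hap, hbp⟩, ha, hb⟩
  -- an edge leaving the component of `v` ends in `x`
  have hleave : ∀ {v v'}, v ≠ x → (b2_W σ π).Reachable v v' → ¬ H.Reachable v v' →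
      ∃ p a, b2_inc σ π x p ∧ b2_inc σ π a p ∧ a ≠ x ∧ H.Reachable v a := by
    intro v v' hv ⟨w⟩ hvv'
    obtain ⟨d, _, h1, h2⟩ := w.exists_boundary_dart {a | H.Reachable v a}
      (SimpleGraph.Reachable.refl v) hvv'
    have hda := d.adj
    obtain ⟨hne, p, h3, h4⟩ := hda
    have h1' : H.Reachable v d.fst := h1
    have hfx : d.fst ≠ x := by
      intro h
      rw [h] at h1'
      exact hv (hxiso v h1')
    have hsx : d.snd = x := by
      by_contra hsx
      exact h2 (h1'.trans (hH1 hfx hsx p h3 h4))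
    rw [hsx] at h4
    exact ⟨p, d.fst, h4, h3, hfx, h1'⟩
  obtain ⟨b, s⟩ := x
  induction b using Quotient.inductionOn with
  | h ε₀ =>
    refine hnc ε₀ s {p | ∃ a, b2_inc σ π a p ∧ H.Reachable y a} ⟨?_, ?_, ?_, ?_⟩
    · intro s' ε ε' hεε' hne
      have hx' : (Quotient.mk π ε, s') ≠ ((Quotient.mk π ε₀, s) : Quotient π × Bool) := by
        intro h
        rw [Prod.mk.injEq] at h
        exact hne ⟨Quotient.exact h.1, h.2⟩
      have hmk : Quotient.mk π ε = Quotient.mk π ε' := Quotient.sound hεε'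
      have key : ∀ ε'', Quotient.mk π ε'' = Quotient.mk π ε →
          ((∃ a, b2_inc σ π a (epos σ s' ε'') ∧ H.Reachable y a) ↔
            H.Reachable y (Quotient.mk π ε, s')) := by
        intro ε'' h''
        have hi : b2_inc σ π (Quotient.mk π ε, s') (epos σ s' ε'') := ⟨ε'', h'', rfl⟩
        constructor
        · rintro ⟨a, ha, hya⟩
          have hax : a ≠ (Quotient.mk π ε₀, s) := by
            intro h
            rw [h] at hya
            exact hy (hxiso y hya)
          exact hya.trans (hH1 hax hx' _ ha hi)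
        · intro h
          exact ⟨_, hi, h⟩
      exact (key ε rfl).trans (key ε' hmk.symm).symm
    · rintro ε hε ⟨a, ha, hya⟩
      have hi : b2_inc σ π (Quotient.mk π ε₀, !s) (epos σ (!s) ε) :=
        ⟨ε, Quotient.sound hε, rfl⟩
      have hax : a ≠ (Quotient.mk π ε₀, s) := by
        intro h
        rw [h] at hya
        exact hy (hxiso y hya)
      have hox : (Quotient.mk π ε₀, !s) ≠ ((Quotient.mk π ε₀, s) : Quotient π × Bool) := by
        intro h
        rw [Prod.mk.injEq] at h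
        cases s <;> simp at h
      exact hop (hya.trans (hH1 hax hox _ ha hi))
    · obtain ⟨p, a, ⟨ε, h1, h2⟩, h3, h4, h5⟩ := hleave hy hyz hn
      exact ⟨ε, Quotient.exact h1, by rw [h2]; exact ⟨a, h3, h5⟩⟩
    · obtain ⟨p, a, ⟨ε, h1, h2⟩, h3, h4, h5⟩ := hleave hz hyz.symm (fun h => hn h.symm)
      refine ⟨ε, Quotient.exact h1, ?_⟩
      rw [h2]
      rintro ⟨a', h6, h7⟩
      have ha'x : a' ≠ (Quotient.mk π ε₀, s) := by
        intro h
        rw [h] at h7
        exact hy (hxiso y h7)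
      exact hn ((h7.trans (hH1 ha'x h4 p h6 h3)).trans h5.symm)

lemma b2_noCut (hnc : NoCut σ π) (x y z : Quotient π × Bool) (hy : y ≠ x) (hz : z ≠ x)
    (hyz : (b2_W σ π).Reachable y z) : ((b2_W σ π).deleteIncidenceSet x).Reachable y z := by
  by_contra hn
  by_cases h : ((b2_W σ π).deleteIncidenceSet x).Reachable y (x.1, !x.2)
  · refine b2_noCut_aux hnc hz hy hyz.symm (fun h' => hn h'.symm) fun h' => ?_
    exact hn (h.trans h'.symm)
  · exact b2_noCut_aux hnc hy hz hyz hn h

/-! ### Linear algebra -/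

lemma b2_push_epos (h : Reduced σ π) {s : Bool} {b : Quotient π} {w : ZMod ℓ → K}
    (hw : w ∈ On K {ε | Quotient.mk π ε = b}) {ε : ZMod ℓ} (hε : Quotient.mk π ε = b) :
    push σ s w (epos σ s ε) = w ε := by
  rw [push_def, Finset.sum_eq_single ε]
  · simp
  · intro ε' _ hne
    by_cases h' : Quotient.mk π ε' = b
    · rw [if_neg]
      intro heq
      exact hne (epos_inj h (Quotient.exact (h'.trans hε.symm)) heq)
    · rw [hw ε' h']; simp
  · simp

lemma b2_push_supp {s : Bool} {b : Quotient π} {w : ZMod ℓ → K}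
    (hw : w ∈ On K {ε | Quotient.mk π ε = b}) :
    push σ s w ∈ On K {p | b2_inc σ π (b, s) p} := by
  intro p hp
  rw [push_def]
  refine Finset.sum_eq_zero fun ε _ => ?_
  by_cases h1 : epos σ s ε = p
  · rw [if_pos h1]
    exact hw ε fun h2 => hp ⟨ε, h2, h1⟩
  · rw [if_neg h1]

lemma b2_finrank_map (h : Reduced σ π) {x : Quotient π × Bool} {W : Submodule K (ZMod ℓ → K)}
    (hW : W ≤ On K {ε | Quotient.mk π ε = x.1}) :
    finrank K (W.map (push σ x.2)) = finrank K W := by
  rw [← LinearMap.range_domRestrict]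
  refine LinearMap.finrank_range_of_inj ?_
  rintro ⟨u, hu⟩ ⟨v, hv⟩ huv
  simp only [LinearMap.domRestrict_apply] at huv
  have : u = v := by
    funext ε
    by_cases hε : Quotient.mk π ε = x.1
    · rw [← b2_push_epos (σ := σ) (s := x.2) h (hW hu) hε,
        ← b2_push_epos (σ := σ) (s := x.2) h (hW hv) hε, huv]
    · rw [hW hu ε hε, hW hv ε hε]
  exact Subtype.ext this

lemma b2_inf_le (h : Reduced σ π) {x : Quotient π × Bool} {W Q : Submodule K (ZMod ℓ → K)}
    (hW : W ≤ On K {ε | Quotient.mk π ε = x.1}) {A : Set (ZMod ℓ)} (hQ : Q ≤ On K A) :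
    W.map (push σ x.2) ⊓ Q ≤ (W ⊓ On K {ε | epos σ x.2 ε ∈ A}).map (push σ x.2) := by
  rintro _ ⟨⟨u, hu, rfl⟩, hq⟩
  refine ⟨u, ⟨hu, ?_⟩, rfl⟩
  intro ε hε
  by_cases h1 : Quotient.mk π ε = x.1
  · rw [← b2_push_epos (σ := σ) (s := x.2) h (hW hu) h1]
    exact hQ hq _ hε
  · exact hW hu ε h1

lemma b2_inf_finrank (h : Reduced σ π) {x : Quotient π × Bool} {W Q : Submodule K (ZMod ℓ → K)}
    (hW : W ≤ On K {ε | Quotient.mk π ε = x.1}) {A : Set (ZMod ℓ)} (hQ : Q ≤ On K A) :
    finrank K (W.map (push σ x.2) ⊓ Q : Submodule K (ZMod ℓ → K)) ≤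
      finrank K (W ⊓ On K {ε | epos σ x.2 ε ∈ A} : Submodule K (ZMod ℓ → K)) :=
  (Submodule.finrank_mono (b2_inf_le h hW hQ)).trans (Submodule.finrank_map_le _ _)

lemma b2_split {C D E : Set (ZMod ℓ)} {W : Submodule K (ZMod ℓ → K)} (hW : W ≤ On K C)
    (hDE : ∀ ε ∈ C, ε ∈ D → ε ∉ E) :
    finrank K (W ⊓ On K D : Submodule K (ZMod ℓ → K)) +
      finrank K (W ⊓ On K E : Submodule K (ZMod ℓ → K)) +
      (if ∀ u ∈ W, res D u ∈ W then 0 else 1) ≤ finrank K W := by
  have hbot : (W ⊓ On K D) ⊓ (W ⊓ On K E) = ⊥ := by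
    rw [eq_bot_iff]
    rintro u ⟨⟨h1, h2⟩, ⟨_, h4⟩⟩
    rw [Submodule.mem_bot]
    funext ε
    by_cases hC : ε ∈ C
    · by_cases hD : ε ∈ D
      · exact h4 ε (hDE ε hC hD)
      · exact h2 ε hD
    · exact hW h1 ε hC
  have hsum := Submodule.finrank_sup_add_finrank_inf_eq (W ⊓ On K D) (W ⊓ On K E)
  rw [hbot, finrank_bot, add_zero] at hsum
  have hle : (W ⊓ On K D) ⊔ (W ⊓ On K E) ≤ W := sup_le inf_le_left inf_le_left
  rw [← hsum]
  split_ifs with h
  · rw [add_zero]
    exact Submodule.finrank_mono hle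
  · refine Submodule.finrank_lt_finrank_of_lt (lt_of_le_of_ne hle fun heq => h fun u hu => ?_)
    rw [← heq] at hu
    obtain ⟨a, ha, b, hb, rfl⟩ := Submodule.mem_sup.mp hu
    have hb0 : res D b = 0 := by
      funext ε
      rw [res_apply]
      split_ifs with hD
      · by_cases hC : ε ∈ C
        · exact hb.2 ε (hDE ε hC hD)
        · exact hW hb.1 ε hC
      · rfl
    rw [map_add, hb0, add_zero, res_of_mem_On ha.2]
    exact ha.1

lemma b2_sum_le {V ι α : Type*} [AddCommGroup V] [Module K V] [FiniteDimensional K V] [Fintype ι]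
    [LinearOrder α] (P : ι → Submodule K V) (f : ι → α) (hf : Function.Injective f) :
    ∑ x, finrank K (P x) ≤ finrank K (⨆ x, P x : Submodule K V) +
      ∑ x, finrank K (P x ⊓ ⨆ y, ⨆ (_ : f y < f x), P y : Submodule K V) := by
  suffices h : ∀ T : Finset ι, ∑ x ∈ T, finrank K (P x) ≤
      finrank K (⨆ x ∈ T, P x : Submodule K V) +
      ∑ x ∈ T, finrank K (P x ⊓ ⨆ y, ⨆ (_ : f y < f x), P y : Submodule K V) by
    have h1 := h Finset.univ
    have h2 : (⨆ x ∈ (Finset.univ : Finset ι), P x) = ⨆ x, P x := by simp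
    rwa [h2] at h1
  intro T
  induction T using Finset.induction_on_max_value f with
  | empty => simp
  | insert a s ha hmax ih =>
    rw [Finset.sum_insert ha, Finset.sum_insert ha, Finset.iSup_insert]
    have h1 := Submodule.finrank_sup_add_finrank_inf_eq (P a) (⨆ x ∈ s, P x)
    have h2 : finrank K (P a ⊓ ⨆ x ∈ s, P x : Submodule K V) ≤
        finrank K (P a ⊓ ⨆ y, ⨆ (_ : f y < f a), P y : Submodule K V) := by
      refine Submodule.finrank_mono (inf_le_inf_left _ ?_)
      refine iSup₂_le fun x hx => ?_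
      refine le_iSup₂_of_le x ?_ le_rfl
      refine lt_of_le_of_ne (hmax x hx) fun heq => ?_
      rw [hf heq] at hx
      exact ha hx
    omega

/-- The key inequality. `F` is the set of end labels (two in each component of the Whitehead
graph, containing both labels of the letter `b₀`), `D x` the set of edges of the letter `x.1`
whose `x.2`-end has a lower other label. -/
theorem key_inequality (K : Type*) [Field K] (hred : Reduced σ π) (hnc : NoCut σ π)
    (b₀ : Quotient π) (s₀ : Bool) :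
    ∃ (F : Finset (Quotient π × Bool)) (D : Quotient π × Bool → Set (ZMod ℓ)),
      (b₀, true) ∈ F ∧ (b₀, false) ∈ F ∧ F.card = 2 * Nat.card (Quotient (vert σ π)) ∧
      (∀ x, x ∉ F → (∃ ε, Quotient.mk π ε = x.1 ∧ ε ∈ D x) ∧
        (∃ ε, Quotient.mk π ε = x.1 ∧ ε ∉ D x)) ∧
      ∀ W : Quotient π × Bool → Submodule K (ZMod ℓ → K),
        (∀ x, W x ≤ On K {ε | Quotient.mk π ε = x.1}) →
        (∑ x, finrank K (W x)) +
          (∑ x ∈ Finset.univ.filter (fun x => x ∉ F),
            if ∀ u ∈ W x, res (D x) u ∈ W x then 0 else 1) +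
          (if (W (b₀, s₀)).map (push σ s₀) ≤
            ⨆ x : {x : Quotient π × Bool // x ≠ (b₀, s₀)}, (W x.1).map (push σ x.1.2)
            then 0 else 1) ≤
        2 * finrank K (⨆ x, (W x).map (push σ x.2) : Submodule K (ZMod ℓ → K)) := by
  classical
  -- the ends
  have hother : ∀ x : Quotient π × Bool, ∃ y, y ≠ x ∧
      (b2_W σ π).connectedComponentMk y = (b2_W σ π).connectedComponentMk x := by
    intro x
    obtain ⟨p, hp⟩ := b2_exists_inc (σ := σ) x
    obtain ⟨y, hy, hyp⟩ := b2_other hred hp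
    exact ⟨y, hy, b2_same hyp hp⟩
  have hends : ∀ c : (b2_W σ π).ConnectedComponent, ∃ s t : Quotient π × Bool,
      (b2_W σ π).connectedComponentMk s = c ∧ (b2_W σ π).connectedComponentMk t = c ∧ s ≠ t ∧
      ((b2_W σ π).connectedComponentMk (b₀, s₀) = c → s = (b₀, s₀)) ∧
      ((b2_W σ π).connectedComponentMk (b₀, !s₀) = c → s = (b₀, !s₀) ∨ t = (b₀, !s₀)) := by
    intro c
    have hne : ((b₀, s₀) : Quotient π × Bool) ≠ (b₀, !s₀) := by
      intro h
      rw [Prod.mk.injEq] at h
      cases s₀ <;> simp at h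
    by_cases h0 : (b2_W σ π).connectedComponentMk (b₀, s₀) = c
    · by_cases h1 : (b2_W σ π).connectedComponentMk (b₀, !s₀) = c
      · exact ⟨_, _, h0, h1, hne, fun _ => rfl, fun _ => Or.inr rfl⟩
      · obtain ⟨y, hy, hyc⟩ := hother (b₀, s₀)
        exact ⟨_, y, h0, hyc.trans h0, hy.symm, fun _ => rfl, fun h => absurd h h1⟩
    · by_cases h1 : (b2_W σ π).connectedComponentMk (b₀, !s₀) = c
      · obtain ⟨y, hy, hyc⟩ := hother (b₀, !s₀)
        exact ⟨_, y, h1, hyc.trans h1, hy.symm, fun h => absurd h h0, fun _ => Or.inl rfl⟩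
      · induction c using SimpleGraph.ConnectedComponent.ind with
        | h x =>
          obtain ⟨y, hy, hyc⟩ := hother x
          exact ⟨x, y, rfl, hyc, hy.symm, fun h => absurd h h0, fun h => absurd h h1⟩
  choose s t hs ht hst hsx htx using hends
  obtain ⟨f, hf, hlow, hup⟩ := exists_st_numbering (b2_W σ π) (b2_noCut hnc) s t hs ht hst
  let _ : Fintype (b2_W σ π).ConnectedComponent := Fintype.ofFinite _
  have hinjs : Function.Injective s := fun a b h => by rw [← hs a, ← hs b, h]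
  have hinjt : Function.Injective t := fun a b h => by rw [← ht a, ← ht b, h]
  have hF0 : (b₀, s₀) ∈ Finset.univ.image s ∪ Finset.univ.image t :=
    Finset.mem_union_left _ (Finset.mem_image.2 ⟨_, Finset.mem_univ _, hsx _ rfl⟩)
  have hF1 : (b₀, !s₀) ∈ Finset.univ.image s ∪ Finset.univ.image t := by
    rcases htx _ rfl with h | h
    · exact Finset.mem_union_left _ (Finset.mem_image.2 ⟨_, Finset.mem_univ _, h⟩)
    · exact Finset.mem_union_right _ (Finset.mem_image.2 ⟨_, Finset.mem_univ _, h⟩)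
  -- the minimum
  have hmin : ∀ n, ∀ y, f y = n →
      f (s ((b2_W σ π).connectedComponentMk y)) ≤ f y := by
    intro n
    induction n using Nat.strong_induction_on with
    | _ n ih =>
      intro y hy
      by_cases h : y = s ((b2_W σ π).connectedComponentMk y)
      · exact h ▸ le_rfl
      · obtain ⟨z, hyz, hzy⟩ := hlow y h
        have h1 : (b2_W σ π).connectedComponentMk y = (b2_W σ π).connectedComponentMk z :=
          SimpleGraph.ConnectedComponent.sound hyz.reachable
        rw [h1]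
        exact (ih (f z) (hy ▸ hzy) z rfl).trans hzy.le
  set D : Quotient π × Bool → Set (ZMod ℓ) :=
    fun x => {ε | ∃ y, b2_inc σ π y (epos σ x.2 ε) ∧ f y < f x} with hD
  set E : Quotient π × Bool → Set (ZMod ℓ) :=
    fun x => {ε | ∃ y, b2_inc σ π y (epos σ x.2 ε) ∧ f x < f y} with hE
  have hDE : ∀ x, ∀ ε, Quotient.mk π ε = x.1 → ε ∈ D x → ε ∉ E x := by
    rintro x ε hε ⟨y, hy, hyx⟩ ⟨z, hz, hxz⟩
    have hx : b2_inc σ π x (epos σ x.2 ε) := ⟨ε, hε, rfl⟩
    have hxy : x ≠ y := by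
      rintro rfl
      exact lt_irrefl _ hyx
    rcases b2_two hx hy hz hxy with rfl | rfl
    · exact lt_irrefl _ hxz
    · exact lt_asymm hyx hxz
  refine ⟨Finset.univ.image s ∪ Finset.univ.image t, D, ?_, ?_, ?_, ?_, ?_⟩
  · cases s₀
    · exact hF1
    · exact hF0
  · cases s₀
    · exact hF0
    · exact hF1
  · rw [Finset.card_union_of_disjoint, Finset.card_image_of_injective _ hinjs,
      Finset.card_image_of_injective _ hinjt, b2_card, Nat.card_eq_fintype_card, Finset.card_univ]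
    · ring
    · rw [Finset.disjoint_left]
      intro x hx hx'
      obtain ⟨c, _, rfl⟩ := Finset.mem_image.1 hx
      obtain ⟨c', _, h⟩ := Finset.mem_image.1 hx'
      have hcc : c' = c := by rw [← ht c', ← hs c, h]
      subst hcc
      exact hst _ h.symm
  · intro x hx
    rw [Finset.mem_union, not_or] at hx
    have hxs : x ≠ s ((b2_W σ π).connectedComponentMk x) := fun h =>
      hx.1 (Finset.mem_image.2 ⟨_, Finset.mem_univ _, h.symm⟩)
    have hxt : x ≠ t ((b2_W σ π).connectedComponentMk x) := fun h =>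
      hx.2 (Finset.mem_image.2 ⟨_, Finset.mem_univ _, h.symm⟩)
    constructor
    · obtain ⟨y, ⟨_, p, ⟨ε, h1, h2⟩, hyp⟩, hyx⟩ := hlow x hxs
      exact ⟨ε, h1, y, by rw [h2]; exact hyp, hyx⟩
    · obtain ⟨y, ⟨_, p, ⟨ε, h1, h2⟩, hyp⟩, hyx⟩ := hup x hxt
      refine ⟨ε, h1, fun h => hDE x ε h1 h ⟨y, by rw [h2]; exact hyp, hyx⟩⟩
  · intro W hW
    set P : Quotient π × Bool → Submodule K (ZMod ℓ → K) := fun x => (W x).map (push σ x.2)
      with hP
    have hPfin : ∀ x, finrank K (P x) = finrank K (W x) := fun x => b2_finrank_map hred (hW x)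
    have hPsupp : ∀ x, P x ≤ On K {p | b2_inc σ π x p} := by
      rintro x _ ⟨u, hu, rfl⟩
      exact b2_push_supp (hW x hu)
    have hlo := b2_sum_le P f hf
    have hhi : ∑ x, finrank K (P x) ≤ finrank K (⨆ x, P x : Submodule K (ZMod ℓ → K)) +
        ∑ x, finrank K (P x ⊓ ⨆ y, ⨆ (_ : f x < f y), P y : Submodule K (ZMod ℓ → K)) :=
      b2_sum_le P (fun x => OrderDual.toDual (f x))
        (fun a b h => hf (OrderDual.toDual.injective h))
    -- each single label
    have hQ : ∀ x, finrank K (P x ⊓ ⨆ y, ⨆ (_ : f y < f x), P y : Submodule K (ZMod ℓ → K)) ≤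
        finrank K (W x ⊓ On K (D x) : Submodule K (ZMod ℓ → K)) := by
      intro x
      refine b2_inf_finrank (A := {p | ∃ y, b2_inc σ π y p ∧ f y < f x}) hred (hW x) ?_
      refine iSup₂_le fun y hy => (hPsupp y).trans (On_mono ?_)
      intro p hp
      exact ⟨y, hp, hy⟩
    have hR : ∀ x, finrank K (P x ⊓ ⨆ y, ⨆ (_ : f x < f y), P y : Submodule K (ZMod ℓ → K)) ≤
        finrank K (W x ⊓ On K (E x) : Submodule K (ZMod ℓ → K)) := by
      intro x
      refine b2_inf_finrank (A := {p | ∃ y, b2_inc σ π y p ∧ f x < f y}) hred (hW x) ?_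
      refine iSup₂_le fun y hy => (hPsupp y).trans (On_mono ?_)
      intro p hp
      exact ⟨y, hp, hy⟩
    have hone : ∀ x, finrank K (P x ⊓ ⨆ y, ⨆ (_ : f y < f x), P y : Submodule K (ZMod ℓ → K)) +
        finrank K (P x ⊓ ⨆ y, ⨆ (_ : f x < f y), P y : Submodule K (ZMod ℓ → K)) +
        (if x ∉ Finset.univ.image s ∪ Finset.univ.image t then
          (if ∀ u ∈ W x, res (D x) u ∈ W x then 0 else 1) else 0) +
        (if x = (b₀, s₀) then (if (W (b₀, s₀)).map (push σ s₀) ≤
            ⨆ x : {x : Quotient π × Bool // x ≠ (b₀, s₀)}, (W x.1).map (push σ x.1.2)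
            then 0 else 1) else 0) ≤ finrank K (W x) := by
      intro x
      have h1 := hQ x
      have h2 := hR x
      have h3 := b2_split (hW x) (D := D x) (E := E x) (fun ε hε => hDE x ε hε)
      by_cases hx : x = (b₀, s₀)
      · rw [if_neg (by rw [not_not, hx]; exact hF0), if_pos hx, add_zero]
        split_ifs with h4
        · omega
        · subst hx
          -- no lower edges
          have h5 : P (b₀, s₀) ⊓ ⨆ y, ⨆ (_ : f y < f (b₀, s₀)), P y = ⊥ := by
            have h6 : W (b₀, s₀) ⊓ On K (D (b₀, s₀)) = ⊥ := by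
              rw [eq_bot_iff]
              rintro u ⟨h7, h8⟩
              rw [Submodule.mem_bot]
              funext ε
              by_cases hε : Quotient.mk π ε = b₀
              · refine h8 ε ?_
                rintro ⟨y, hy, hyx⟩
                have h9 : (b2_W σ π).connectedComponentMk y =
                    (b2_W σ π).connectedComponentMk (b₀, s₀) := b2_same hy ⟨ε, hε, rfl⟩
                have h10 := hmin _ y rfl
                rw [h9, hsx _ rfl] at h10
                omega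
              · exact hW _ h7 ε hε
            rw [h6, finrank_bot] at h1
            exact Submodule.finrank_eq_zero.1 (Nat.le_zero.1 h1)
          rw [h5, finrank_bot, zero_add, ← hPfin]
          refine Submodule.finrank_lt_finrank_of_lt (lt_of_le_of_ne inf_le_left fun heq => h4 ?_)
          refine (inf_eq_left.1 heq).trans (iSup₂_le fun y hy => ?_)
          exact le_iSup (fun x : {x : Quotient π × Bool // x ≠ (b₀, s₀)} =>
            (W x.1).map (push σ x.1.2)) ⟨y, fun h => by rw [h] at hy; exact lt_irrefl _ hy⟩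
      · rw [if_neg hx, add_zero]
        by_cases hxF : x ∉ Finset.univ.image s ∪ Finset.univ.image t
        · rw [if_pos hxF]
          omega
        · rw [if_neg hxF]
          omega
    have hsum := Finset.sum_le_sum fun x (_ : x ∈ Finset.univ) => hone x
    rw [Finset.sum_add_distrib, Finset.sum_add_distrib, Finset.sum_add_distrib,
      Finset.sum_ite_eq' Finset.univ (b₀, s₀), if_pos (Finset.mem_univ _), ← Finset.sum_filter]
      at hsum
    have hiS : finrank K (iSup P : Submodule K (ZMod ℓ → K)) =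
        finrank K (⨆ x, P x : Submodule K (ZMod ℓ → K)) := rfl
    simp only [hPfin] at hlo hhi
    omega

/-- Consequence for subspaces connected at all letters. -/
theorem b2_main {U : Submodule K (ZMod ℓ → K)} (hred : Reduced σ π) (hnc : NoCut σ π)
    (hU : comp U = π) (b₀ : Quotient π) (s₀ : Bool) :
    rk σ π - 1 ≤ exc σ U ∧ (exc σ U = rk σ π - 1 →
      (U ⊓ On K {ε | Quotient.mk π ε = b₀}).map (push σ s₀) ≤
            ⨆ x : {x : Quotient π × Bool // x ≠ (b₀, s₀)},
              (U ⊓ On K {ε | Quotient.mk π ε = x.1.1}).map (push σ x.1.2)) := by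
  obtain ⟨F, D, -, -, hFcard, hFD, hmain⟩ := key_inequality K hred hnc b₀ s₀
  have hsplit : Split π U := comp_le_iff.1 hU.le
  have hm := hmain (fun x => U ⊓ On K {ε | Quotient.mk π ε = x.1}) fun x => inf_le_right
  simp only at hm
  -- dimensions
  have hdim : finrank K U ≤ ∑ b : Quotient π,
      finrank K (U ⊓ On K {ε | Quotient.mk π ε = b} : Submodule K (ZMod ℓ → K)) := by
    have h1 : ∀ T : Finset (Quotient π),
        finrank K (⨆ b ∈ T, U ⊓ On K {ε | Quotient.mk π ε = b} : Submodule K (ZMod ℓ → K)) ≤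
        ∑ b ∈ T, finrank K (U ⊓ On K {ε | Quotient.mk π ε = b} : Submodule K (ZMod ℓ → K)) := by
      intro T
      induction T using Finset.induction_on with
      | empty => simp
      | insert a T ha ih =>
        rw [Finset.sum_insert ha, Finset.iSup_insert]
        exact (Submodule.finrank_add_le_finrank_add_finrank _ _).trans (by omega)
    refine le_trans (Submodule.finrank_mono ?_) (h1 Finset.univ)
    intro u hu
    rw [sum_res π u]
    refine Submodule.sum_mem _ fun b _ => ?_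
    exact Submodule.mem_iSup_of_mem b (Submodule.mem_iSup_of_mem (Finset.mem_univ b)
      ⟨hsplit.mk_mem b hu, res_mem_On _ _⟩)
  have hsum : ∑ x : Quotient π × Bool,
      finrank K (U ⊓ On K {ε | Quotient.mk π ε = x.1} : Submodule K (ZMod ℓ → K)) =
      2 * ∑ b : Quotient π,
        finrank K (U ⊓ On K {ε | Quotient.mk π ε = b} : Submodule K (ZMod ℓ → K)) := by
    rw [Fintype.sum_prod_type, Finset.mul_sum]
    refine Finset.sum_congr rfl fun b _ => ?_
    rw [Fintype.sum_bool]
    ring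
  -- the spans
  have hTT : finrank K (⨆ x : Quotient π × Bool,
      (U ⊓ On K {ε | Quotient.mk π ε = x.1}).map (push σ x.2) : Submodule K (ZMod ℓ → K)) ≤
      finrank K (TT σ U) := by
    refine Submodule.finrank_mono (iSup_le fun x => ?_)
    rintro _ ⟨u, hu, rfl⟩
    exact push_mem_TT _ hu.1
  -- every label outside `F` contributes
  have hnot : ∀ x, x ∉ F → ¬ ∀ u ∈ U ⊓ On K {ε | Quotient.mk π ε = x.1},
      res (D x) u ∈ U ⊓ On K {ε | Quotient.mk π ε = x.1} := by
    intro x hx h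
    obtain ⟨⟨ε₁, h1, h2⟩, ⟨ε₂, h3, h4⟩⟩ := hFD x hx
    have hsp : Split (π ⊓ Setoid.ker fun ε => (π ε ε₁ ∧ ε ∈ D x)) U := by
      intro ε₀ u hu
      rw [block_inf]
      have hrw : block π ε₁ = {ε | Quotient.mk π ε = x.1} := by rw [block_eq_mk, h1]
      have hcl : res (block π ε₁) u ∈ U := hsplit ε₁ u hu
      have hD' : res (D x) (res (block π ε₁) u) ∈ U :=
        (h _ ⟨hcl, by rw [hrw]; exact res_mem_On _ _⟩).1
      by_cases h5 : π ε₀ ε₁
      · by_cases h6 : ε₀ ∈ D x
        · have h7 : block π ε₀ ∩ block (Setoid.ker fun ε => (π ε ε₁ ∧ ε ∈ D x)) ε₀ =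
              D x ∩ block π ε₁ := by
            ext ε
            constructor
            · rintro ⟨h8, h9⟩
              have h10 : (π ε ε₁ ∧ ε ∈ D x) = (π ε₀ ε₁ ∧ ε₀ ∈ D x) := h9
              have h11 : π ε ε₁ ∧ ε ∈ D x := by rw [h10]; exact ⟨h5, h6⟩
              exact ⟨h11.2, h11.1⟩
            · rintro ⟨h8, h9⟩
              have h9' : π ε ε₁ := h9
              refine ⟨π.trans' h9' (π.symm' h5), ?_⟩
              show (π ε ε₁ ∧ ε ∈ D x) = (π ε₀ ε₁ ∧ ε₀ ∈ D x)
              exact propext ⟨fun _ => ⟨h5, h6⟩, fun _ => ⟨h9', h8⟩⟩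
          rw [h7, ← res_res]
          exact hD'
        · have h7 : res (block π ε₀ ∩ block (Setoid.ker fun ε => (π ε ε₁ ∧ ε ∈ D x)) ε₀) u =
              res (block π ε₁) u - res (D x) (res (block π ε₁) u) := by
            rw [res_res]
            funext ε
            rw [Pi.sub_apply, res_apply, res_apply, res_apply]
            have h8 : (ε ∈ block π ε₀ ∩ block (Setoid.ker fun ε => (π ε ε₁ ∧ ε ∈ D x)) ε₀) ↔
                (π ε ε₁ ∧ ε ∉ D x) := by
              constructor
              · rintro ⟨h8, h9⟩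
                have h10 : (π ε ε₁ ∧ ε ∈ D x) = (π ε₀ ε₁ ∧ ε₀ ∈ D x) := h9
                have h11 : π ε ε₁ := π.trans' h8 h5
                refine ⟨h11, fun h12 => ?_⟩
                have h13 : π ε₀ ε₁ ∧ ε₀ ∈ D x := by rw [← h10]; exact ⟨h11, h12⟩
                exact h6 h13.2
              · rintro ⟨h8, h9⟩
                refine ⟨π.trans' h8 (π.symm' h5), ?_⟩
                show (π ε ε₁ ∧ ε ∈ D x) = (π ε₀ ε₁ ∧ ε₀ ∈ D x)
                exact propext ⟨fun h => absurd h.2 h9, fun h => absurd h.2 h6⟩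
            have h9 : (ε ∈ block π ε₁) ↔ π ε ε₁ := Iff.rfl
            have h10 : (ε ∈ D x ∩ block π ε₁) ↔ (ε ∈ D x ∧ π ε ε₁) := Iff.rfl
            by_cases h11 : π ε ε₁ <;> by_cases h12 : ε ∈ D x <;> simp [h8, h9, h10, h11, h12]
          rw [h7]
          exact U.sub_mem hcl hD'
      · have h7 : block π ε₀ ∩ block (Setoid.ker fun ε => (π ε ε₁ ∧ ε ∈ D x)) ε₀ =
            block π ε₀ := by
          refine Set.inter_eq_left.mpr fun ε hε => ?_
          have hε' : π ε ε₀ := hε
          show (π ε ε₁ ∧ ε ∈ D x) = (π ε₀ ε₁ ∧ ε₀ ∈ D x)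
          exact propext ⟨fun h8 => absurd (π.trans' (π.symm' hε') h8.1) h5, fun h8 => absurd h8.1 h5⟩
        rw [h7]
        exact hsplit ε₀ u hu
    have hle : π ≤ π ⊓ Setoid.ker fun ε => (π ε ε₁ ∧ ε ∈ D x) :=
      hU.symm.le.trans (comp_le_iff.2 hsp)
    have h12 : π ε₁ ε₂ := Quotient.exact (h1.trans h3.symm)
    have h5 : (π ε₁ ε₁ ∧ ε₁ ∈ D x) = (π ε₂ ε₁ ∧ ε₂ ∈ D x) := (hle h12).2
    have h6 : π ε₂ ε₁ ∧ ε₂ ∈ D x := by rw [← h5]; exact ⟨π.refl' _, h2⟩
    exact h4 h6.2
  have hcount : (∑ x ∈ Finset.univ.filter (fun x => x ∉ F),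
      if ∀ u ∈ U ⊓ On K {ε | Quotient.mk π ε = x.1},
        res (D x) u ∈ U ⊓ On K {ε | Quotient.mk π ε = x.1} then 0 else 1) + F.card =
      2 * Nat.card (Quotient π) := by
    rw [Finset.sum_congr rfl (g := fun _ => 1)]
    · rw [Finset.sum_const, smul_eq_mul, mul_one, Finset.filter_not, Finset.filter_mem_eq_inter,
        Finset.univ_inter, Finset.card_sdiff_add_card_eq_card (Finset.subset_univ _),
        Finset.card_univ, Fintype.card_prod, Fintype.card_bool, Nat.card_eq_fintype_card]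
      ring
    · intro x hx
      rw [if_neg (hnot x (Finset.mem_filter.1 hx).2)]
  rw [hsum] at hm
  unfold rk exc
  constructor
  · omega
  · intro he
    by_contra hcon
    rw [if_neg hcon] at hm
    omega

theorem rk_le_of_comp_eq {U : Submodule K (ZMod ℓ → K)} (hred : Reduced σ π) (hnc : NoCut σ π)
    (hU : comp U = π) : rk σ π - 1 ≤ exc σ U :=
  (b2_main hred hnc hU (Quotient.mk π 0) true).1

/-- If moreover `rk π - 1 = exc U`, there are no leaf germs: every pushed letter component is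
in the sum of the others. -/
theorem no_leaf_of_exc_eq {U : Submodule K (ZMod ℓ → K)} (hred : Reduced σ π) (hnc : NoCut σ π)
    (hU : comp U = π) (he : exc σ U = rk σ π - 1) (ε₀ : ZMod ℓ) (s : Bool)
    {u : ZMod ℓ → K} (hu : u ∈ U) (hu' : u ∈ On K (block π ε₀)) :
    ∃ a b : ZMod ℓ → K, a ∈ U ∧ b ∈ U ∧ push σ true a = push σ false b ∧
      ∀ ε, π ε ε₀ → (if s then a ε else b ε) = u ε := by
  have h1 := (b2_main hred hnc hU (Quotient.mk π ε₀) s).2 he
  have h2 : (⨆ x : {x : Quotient π × Bool // x ≠ (Quotient.mk π ε₀, s)},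
      (U ⊓ On K {ε | Quotient.mk π ε = x.1.1}).map (push σ x.1.2)) ≤
      (U ⊓ On K (block π ε₀)ᶜ).map (push σ s) ⊔ U.map (push σ (!s)) := by
    refine iSup_le ?_
    rintro ⟨⟨b, s'⟩, hx⟩
    rintro _ ⟨v, hv, rfl⟩
    by_cases hs : s' = s
    · subst hs
      refine Submodule.mem_sup_left ⟨v, ⟨hv.1, ?_⟩, rfl⟩
      intro ε hε
      rw [Set.notMem_compl_iff] at hε
      refine hv.2 ε fun hb => hx ?_
      have hb' : Quotient.mk π ε = b := hb
      rw [← hb', Quotient.sound hε]
    · have hs' : s' = !s := by cases s <;> cases s' <;> simp_all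
      subst hs'
      exact Submodule.mem_sup_right ⟨v, hv.1, rfl⟩
  have h3 : push σ s u ∈ (U ⊓ On K (block π ε₀)ᶜ).map (push σ s) ⊔ U.map (push σ (!s)) :=
    h2 (h1 ⟨u, ⟨hu, by rw [← block_eq_mk]; exact hu'⟩, rfl⟩)
  obtain ⟨_, ⟨a', ha', rfl⟩, _, ⟨b', hb', rfl⟩, hab⟩ := Submodule.mem_sup.1 h3
  have h4 : push σ s (u - a') = push σ (!s) b' := by
    rw [map_sub, ← hab]
    abel
  have h5 : ∀ ε, π ε ε₀ → (u - a') ε = u ε := by
    intro ε hε
    rw [Pi.sub_apply, ha'.2 ε (Set.notMem_compl_iff.2 hε), sub_zero]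
  cases s
  · exact ⟨b', u - a', hb', U.sub_mem hu ha'.1, h4.symm, by simpa using h5⟩
  · exact ⟨u - a', b', U.sub_mem hu ha'.1, hb', h4, by simpa using h5⟩

end B2

end Pool.Agent.GLFix
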