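import Pool.Agent.GLFix.CutStep
import Pool.Agent.GLFix.Galois
import Pool.Agent.GLFix.FoldRank
import Pool.Agent.GLFix.KeyIneq

/-!
# MP_ce340f_al, module H2

Cut vertices: counting closed subspaces.
-/

open scoped Classical
open Module Filter Asymptotics

noncomputable section

namespace Pool.Agent.GLFix

section H2aux

variable {K : Type*} [Field K] {ℓ : ℕ} [NeZero ℓ] {σ : ZMod ℓ → Bool}
  {top τ ρ : Setoid (ZMod ℓ)} {ε₀ : ZMod ℓ} {s : Bool} {A : Set (ZMod ℓ)}

theorem h2_fold_le_top (h : ρ ≤ τ) : fold σ τ ρ ≤ τ := fold_le (folded_self σ τ) h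

/-- The split part of `U` splits along the components of `U`. -/
theorem h2_comp_splitPart_le (π : Setoid (ZMod ℓ)) (U : Submodule K (ZMod ℓ → K)) :
    comp (splitPart π U) ≤ comp U := by
  rw [comp_le_iff]
  intro ε₁ u hu
  rw [mem_splitPart] at hu ⊢
  intro ε₂
  rw [res_res, Set.inter_comm, ← res_res]
  exact split_comp U ε₁ _ (hu ε₂)

theorem h2_comp_splitPart_le' (π : Setoid (ZMod ℓ)) (U : Submodule K (ZMod ℓ → K)) :
    comp (splitPart π U) ≤ π := comp_le_iff.mpr (split_splitPart π U)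

/-- If `U` is the closure of a subspace `V`, then `comp U` and `comp V` have the same folding
closure as soon as `comp V ≤ comp U`. -/
theorem h2_fold_comp_eq {U V : Submodule K (ZMod ℓ → K)} (hρ : ρ ≤ τ) (hV : comp V ≤ ρ)
    (hUV : cl σ ρ V = U) (hVU : comp V ≤ comp U) :
    fold σ τ (comp V) = fold σ τ (comp U) := by
  refine le_antisymm (fold_mono hVU) ?_
  have h1 : comp U ≤ fold σ ρ (comp V) := by
    rw [← hUV]
    exact comp_cl_le (split_comp V) hV
  calc fold σ τ (comp U) ≤ fold σ τ (fold σ ρ (comp V)) := fold_mono h1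
    _ = fold σ τ (comp V) := fold_fold_of_le hV hρ

theorem h2_cut_le (π : Setoid (ZMod ℓ)) (ε₀ : ZMod ℓ) (s : Bool) (A : Set (ZMod ℓ)) :
    cut σ π ε₀ s A ≤ π := inf_le_left

theorem h2_comp_bot : comp (⊥ : Submodule K (ZMod ℓ → K)) = ⊥ :=
  le_antisymm (comp_le_iff.mpr (split_bot ⊥)) bot_le

theorem h2_comp_top : comp (⊤ : Submodule K (ZMod ℓ → K)) = ⊥ :=
  le_antisymm (comp_le_iff.mpr (split_top ⊥)) bot_le

/-- The dual of a closed subspace without leaf germs is closed. -/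
theorem h2_closed_dual {U : Submodule K (ZMod ℓ → K)} (hred : Reduced σ top)
    (hnc : NoCut σ top) (hU : comp U = top) (he : exc σ U = rk σ top - 1) :
    Closed σ top (dual σ U) := by
  have hs : Split top U := by rw [← comp_le_iff, hU]
  refine ⟨split_dual hs, ?_⟩
  intro s ε₁ y hy hpush u hu
  obtain ⟨a, b, ha, hb, hab, hu'⟩ :=
    no_leaf_of_exc_eq hred hnc hU he ε₁ s (hs ε₁ u hu) (res_mem_On _ _)
  obtain ⟨z, hza, hzb⟩ := exists_of_push_eq hab
  have hz : ∀ s', (fun ε => sgn K σ ε * z (epos σ s' ε)) ∈ U := by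
    intro s'
    cases s'
    · have : (fun ε => sgn K σ ε * z (epos σ false ε)) = b := by
        funext ε; rw [hzb ε]
      rw [this]; exact hb
    · have : (fun ε => sgn K σ ε * z (epos σ true ε)) = a := by
        funext ε; rw [hza ε]
      rw [this]; exact ha
  have h0 := mem_TT_dual_iff.mp hpush z hz
  rw [sum_push_mul] at h0
  rw [← h0]
  refine Finset.sum_congr rfl fun ε _ => ?_
  by_cases hε : ε ∈ block top ε₁
  · have h1 := hu' ε hε
    rw [res_apply, if_pos hε] at h1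
    have h2 : u ε = sgn K σ ε * z (epos σ s ε) := by
      rw [← h1]
      cases s
      · simpa using hzb ε
      · simpa using hza ε
    have h3 : sgn K σ ε * sgn K σ ε = 1 := by
      unfold sgn
      split_ifs <;> ring
    rw [h2]
    calc sgn K σ ε * y ε * (sgn K σ ε * z (epos σ s ε))
        = (sgn K σ ε * sgn K σ ε) * (y ε * z (epos σ s ε)) := by ring
      _ = y ε * z (epos σ s ε) := by rw [h3, one_mul]
  · rw [hy ε hε]; ring

end H2aux

section H2

variable (K : Type*) [Field K] [Finite K] {ℓ : ℕ} [NeZero ℓ] {σ : ZMod ℓ → Bool}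
  {top τ : Setoid (ZMod ℓ)} {ε₀ : ZMod ℓ} {s : Bool} {A : Set (ZMod ℓ)}

theorem aex_cut_eq (hc : CutDatum σ top ε₀ s A) (hf : fold σ top (cut σ top ε₀ s A) = top)
    (k : ℤ) : aex K σ top k = aex K σ (cut σ top ε₀ s A) k := by
  have hle : cut σ top ε₀ s A ≤ top := h2_cut_le top ε₀ s A
  refine Nat.card_congr
    { toFun := fun U => ⟨splitPart (cut σ top ε₀ s A) U.1, ?_⟩
      invFun := fun V => ⟨cl σ top V.1, ?_⟩
      left_inv := ?_
      right_inv := ?_ }
  · obtain ⟨U, hU, hUf⟩ := U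
    obtain ⟨h1, h2⟩ := isT_splitPart hc hU
    refine ⟨h1, ?_⟩
    have h3 : comp (splitPart (cut σ top ε₀ s A) U) ≤ cut σ top ε₀ s A :=
      h2_comp_splitPart_le' _ _
    refine eq_cut_of_fold_eq_top hc (folded_fold h3) ?_
    rw [fold_fold_of_le h3 hle]
    rw [h2_fold_comp_eq le_rfl (h3.trans hle) h2 (h2_comp_splitPart_le _ _)]
    exact hUf
  · obtain ⟨V, hV, hVf⟩ := V
    obtain ⟨h1, h2⟩ := isT_cl hc hV
    refine ⟨h1, ?_⟩
    have h3 : comp V ≤ cut σ top ε₀ s A := comp_le_iff.mpr hV.closed.1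
    have h4 : comp V ≤ comp (cl σ top V) := by
      conv_lhs => rw [← h2]
      exact h2_comp_splitPart_le _ _
    rw [← h2_fold_comp_eq le_rfl (h3.trans hle) rfl h4]
    rw [← fold_fold_of_le h3 hle, hVf, hf]
  · rintro ⟨U, hU, hUf⟩
    exact Subtype.ext (isT_splitPart hc hU).2
  · rintro ⟨V, hV, hVf⟩
    exact Subtype.ext (isT_cl hc hV).2

theorem aex_cut_zero (hc : CutDatum σ top ε₀ s A) (hf : fold σ top (cut σ top ε₀ s A) ≠ top)
    (k : ℤ) : aex K σ top k = 0 := by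
  have hle : cut σ top ε₀ s A ≤ top := h2_cut_le top ε₀ s A
  have : IsEmpty {U : Submodule K (ZMod ℓ → K) // IsT σ top k U ∧ fold σ top (comp U) = top} := by
    refine ⟨?_⟩
    rintro ⟨U, hU, hUf⟩
    obtain ⟨-, h2⟩ := isT_splitPart hc hU
    have h3 : comp (splitPart (cut σ top ε₀ s A) U) ≤ cut σ top ε₀ s A :=
      h2_comp_splitPart_le' _ _
    refine hf (le_antisymm (h2_fold_le_top hle) ?_)
    calc top = fold σ top (comp U) := hUf.symm
      _ = fold σ top (comp (splitPart (cut σ top ε₀ s A) U)) :=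
        (h2_fold_comp_eq le_rfl (h3.trans hle) h2 (h2_comp_splitPart_le _ _)).symm
      _ ≤ fold σ top (cut σ top ε₀ s A) := fold_mono h3
  exact Nat.card_of_isEmpty

variable {K}

theorem exists_noCut {U : Submodule K (ZMod ℓ → K)} {k : ℤ} (hred : Reduced σ τ)
    (hU : IsT σ τ k U) :
    ∃ ρ, ρ ≤ comp U ∧ NoCut σ ρ ∧ rk σ ρ ≤ k ∧ fold σ τ ρ = fold σ τ (comp U) := by
  have hUτ : comp U ≤ τ := comp_le_iff.mpr hU.closed.1
  let P : Setoid (ZMod ℓ) → Prop := fun ρ =>
    ρ ≤ comp U ∧ fold σ τ ρ = fold σ τ (comp U) ∧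
      ∃ V : Submodule K (ZMod ℓ → K), Closed σ ρ V ∧ comp V = ρ ∧
        cl σ τ (dual σ V) = cl σ τ (dual σ U) ∧ exc σ V = exc σ U
  have hP : P (comp U) :=
    ⟨le_rfl, rfl, U, hU.closed.of_split hUτ (split_comp U), rfl, rfl, rfl⟩
  have hwf : WellFounded (fun a b : Setoid (ZMod ℓ) => a < b) := wellFounded_lt
  obtain ⟨ρ, ⟨hρU, hρf, V, hV, hVρ, hVd, hVe⟩, hmin⟩ := hwf.has_min {ρ | P ρ} ⟨_, hP⟩
  have hρτ : ρ ≤ τ := hρU.trans hUτ
  have hnc : NoCut σ ρ := by
    intro ε₀ s A hc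
    have he : exc σ (cl σ τ (dual σ V)) = exc σ V := by
      rw [hVd, hU.dexc_eq, hVe]
    obtain ⟨h1, h2, h3, h4⟩ := cut_step hρτ hc hV he
    have h5 : comp (splitPart (cut σ ρ ε₀ s A) V) ≤ cut σ ρ ε₀ s A :=
      h2_comp_splitPart_le' _ _
    have h6 : comp (splitPart (cut σ ρ ε₀ s A) V) < ρ := lt_of_le_of_lt h5 (cut_lt hc)
    refine hmin (comp (splitPart (cut σ ρ ε₀ s A) V)) ?_ h6
    refine ⟨h6.le.trans hρU, ?_, splitPart (cut σ ρ ε₀ s A) V,
      h1.of_split h5 (split_comp _), rfl, h3.trans hVd, h2.trans hVe⟩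
    rw [h2_fold_comp_eq hρτ h6.le h4 (h2_comp_splitPart_le _ _), hVρ, hρf]
  refine ⟨ρ, hρU, hnc, ?_, hρf⟩
  have h7 := rk_le_of_comp_eq (hred.mono hρτ) hnc hVρ
  rw [hVe, hU.exc_eq] at h7
  linarith

variable (K)

theorem aex_noCut_lt (hred : Reduced σ top) (hnc : NoCut σ top) {k : ℤ} (hk : k < rk σ top) :
    aex K σ top k = 0 := by
  have : IsEmpty {U : Submodule K (ZMod ℓ → K) // IsT σ top k U ∧ fold σ top (comp U) = top} := by
    refine ⟨?_⟩
    rintro ⟨U, hU, hUf⟩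
    obtain ⟨ρ, h1, -, h3, h4⟩ := exists_noCut hred hU
    have hUτ : comp U ≤ top := comp_le_iff.mpr hU.closed.1
    have h5 := rk_fold_le hred (h1.trans hUτ)
    rw [h4, hUf] at h5
    exact absurd (h5.trans h3) (not_le.mpr hk)
  exact Nat.card_of_isEmpty

theorem aex_noCut_rk (hred : Reduced σ top) (hnc : NoCut σ top) (htop : top ≠ ⊥) :
    aex K σ top (rk σ top) = cc K σ top := by
  refine Nat.card_congr (Equiv.subtypeEquivRight fun U => ?_)
  constructor
  · rintro ⟨hU, hUf⟩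
    have hUτ : comp U ≤ top := comp_le_iff.mpr hU.closed.1
    obtain ⟨ρ, h1, -, h3, h4⟩ := exists_noCut hred hU
    have hρ : ρ ≤ top := h1.trans hUτ
    have h5 : ρ = top := by
      by_contra hne
      have := rk_lt_of_noCut hred hnc (lt_of_le_of_ne hρ hne) (h4.trans hUf)
      exact absurd h3 (not_le.mpr this)
    exact ⟨hU.closed, le_antisymm hUτ (h5 ▸ h1), hU.exc_eq⟩
  · rintro ⟨hcl, hcomp, hexc⟩
    have hd : Closed σ top (dual σ U) := h2_closed_dual hred hnc hcomp hexc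
    have hcld : cl σ top (dual σ U) = dual σ U := cl_eq_self hd
    refine ⟨⟨⟨hcl, ?_, ?_⟩, hexc, ?_⟩, ?_⟩
    · rintro rfl
      exact htop (hcomp.symm.trans h2_comp_top)
    · rw [hcld]
      intro h
      have : U = ⊥ := by rw [← dual_dual (σ := σ) U, h, dual_top]
      subst this
      exact htop (hcomp.symm.trans h2_comp_bot)
    · rw [hcld, exc_dual]
    · rw [hcomp]
      exact fold_eq_self (folded_self σ top)

end H2

end Pool.Agent.GLFix
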