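import Pool.Agent.GLFix.Defs

/-!
# Right ideals of the free group algebra, `q`-primitivity rank, word measures: definitions
-/

open scoped Classical
open Module Filter Asymptotics

noncomputable section

namespace Pool.Agent.GLFix

variable (K : Type*) [Field K] (r : ℕ)

/-- The group algebra `K[F_r]`. -/
abbrev FGA := MonoidAlgebra K (FreeGroup (Fin r))

/-- Right ideals of `K[F_r]`. -/
abbrev RI := Submodule (FGA K r)ᵐᵒᵖ (FGA K r)

variable {K r}

/-- `I` is a free right module with a basis of `k` elements. -/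
def HasRank (I : RI K r) (k : ℕ) : Prop := Nonempty (Basis (Fin k) (FGA K r)ᵐᵒᵖ I)

/-- `f` belongs to some basis of the right ideal `I`. -/
def IsPrimitiveIn (I : RI K r) (f : FGA K r) : Prop :=
  ∃ (ι : Type) (b : Basis ι (FGA K r)ᵐᵒᵖ I) (i : ι), ((b i : I) : FGA K r) = f

variable (K) in
/-- The element `w - 1`. -/
def wm1 (w : FreeGroup (Fin r)) : FGA K r := MonoidAlgebra.of K _ w - 1

/-- `I` is a proper right ideal of rank `k` containing `w - 1` as an imprimitive element. -/
structure IsCand (w : FreeGroup (Fin r)) (I : RI K r) (k : ℕ) : Prop where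
  ne_top : I ≠ ⊤
  rank : HasRank I k
  mem : wm1 K w ∈ I
  imprimitive : ¬ IsPrimitiveIn I (wm1 K w)

variable (K) in
/-- `k = π_q(w)`. -/
def IsPiq (w : FreeGroup (Fin r)) (k : ℕ) : Prop := IsLeast {k : ℕ | ∃ I : RI K r, IsCand w I k} k

variable (K) in
/-- The set of proper right ideals of rank `k` containing `w - 1` as an imprimitive element;
this is `Crit_q(w)` when `k = π_q(w)`. -/
def Crit (w : FreeGroup (Fin r)) (k : ℕ) : Set (RI K r) := {I | IsCand w I k}

variable (K) in
/-- The expected number of vectors `v` of `K^N` with `v * w(g_1, …, g_r) = v`, for independent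
uniform `g_i ∈ GL_N(K)`. -/
def expFix (w : FreeGroup (Fin r)) (N : ℕ) : ℝ :=
  (∑ᶠ g : Fin r → GL (Fin N) K,
    (Nat.card {v : Fin N → K //
      Matrix.vecMul v (FreeGroup.lift g w : Matrix (Fin N) (Fin N) K) = v} : ℝ)) /
    (Nat.card (Fin r → GL (Fin N) K) : ℝ)

/-! ## The cyclic word of `lab`, `σ` -/

section Word

variable {ℓ : ℕ} [NeZero ℓ]

/-- The letter of an edge. -/
def letter (lab : ZMod ℓ → Fin r) (σ : ZMod ℓ → Bool) (ε : ZMod ℓ) : FreeGroup (Fin r) :=
  if σ ε then FreeGroup.of (lab ε) else (FreeGroup.of (lab ε))⁻¹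

/-- The prefixes of the word. -/
def pre (lab : ZMod ℓ → Fin r) (σ : ZMod ℓ → Bool) : ℕ → FreeGroup (Fin r)
  | 0 => 1
  | n + 1 => pre lab σ n * letter lab σ (n : ZMod ℓ)

/-- The word. -/
def word (lab : ZMod ℓ → Fin r) (σ : ZMod ℓ → Bool) : FreeGroup (Fin r) := pre lab σ ℓ

/-- `z ↦ ∑ p, z p • pre p`. -/
def ev (lab : ZMod ℓ → Fin r) (σ : ZMod ℓ → Bool) : (ZMod ℓ → K) →ₗ[K] FGA K r where
  toFun z := ∑ p : ZMod ℓ, MonoidAlgebra.single (pre lab σ p.val) (z p)
  map_add' a b := by
    simp only [Pi.add_apply, MonoidAlgebra.single_add, Finset.sum_add_distrib]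
  map_smul' c a := by
    simp only [Pi.smul_apply, smul_eq_mul, RingHom.id_apply, Finset.smul_sum]
    refine Finset.sum_congr rfl fun p _ => ?_
    rw [MonoidAlgebra.smul_single, smul_eq_mul]

/-- The trace of `I` on the positions. -/
def SI (lab : ZMod ℓ → Fin r) (σ : ZMod ℓ → Bool) (I : RI K r) :
    Submodule K (ZMod ℓ → K) where
  carrier := {z | ev lab σ z ∈ I}
  add_mem' {a b} ha hb := by
    simp only [Set.mem_setOf_eq, map_add] at *
    exact I.add_mem ha hb
  zero_mem' := by simp
  smul_mem' c a ha := by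
    simp only [Set.mem_setOf_eq, map_smul] at *
    have := I.smul_mem (MulOpposite.op (MonoidAlgebra.single 1 c : FGA K r)) ha
    rw [MulOpposite.smul_eq_mul_unop, MulOpposite.unop_op] at this
    convert this using 1
    ext g
    simp [mul_comm]

/-- The edge space of `I`. -/
def UI (lab : ZMod ℓ → Fin r) (σ : ZMod ℓ → Bool) (I : RI K r) :
    Submodule K (ZMod ℓ → K) where
  carrier := {u | ∀ ε₀, push σ false (res (block (Setoid.ker lab) ε₀) u) ∈ SI lab σ I}
  add_mem' {a b} ha hb ε₀ := by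
    rw [map_add, map_add]
    exact Submodule.add_mem _ (ha ε₀) (hb ε₀)
  zero_mem' ε₀ := by simp
  smul_mem' c a ha ε₀ := by
    rw [map_smul, map_smul]
    exact Submodule.smul_mem _ _ (ha ε₀)

/-- The right ideal generated by `w - 1` and `ev S`. -/
def idl (lab : ZMod ℓ → Fin r) (σ : ZMod ℓ → Bool) (S : Submodule K (ZMod ℓ → K)) : RI K r :=
  Submodule.span _ (insert (wm1 K (word lab σ)) (ev lab σ '' (S : Set (ZMod ℓ → K))))

end Word

end Pool.Agent.GLFix
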