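import Pool.Agent.GLFix.Defs

/-!
# MP_ce340f_al, module C1

Calculus of `BigO` and `Lead`.
-/

open scoped Classical
open Module Filter Asymptotics

noncomputable section

namespace Pool.Agent.GLFix

section C1

variable (K : Type*) [Field K] [Finite K]

/-- The number of injective linear maps `K^m → K^N`. -/
def ind (m N : ℕ) : ℝ := ∏ j ∈ Finset.range m, ((Nat.card K : ℝ) ^ N - (Nat.card K : ℝ) ^ j)

theorem c1_one_lt_card : (1 : ℝ) < (Nat.card K : ℝ) := by
  have : 1 < Nat.card K := Finite.one_lt_card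
  exact_mod_cast this

theorem c1_xx_pos (N : ℕ) : 0 < xx K N := by
  have := c1_one_lt_card K
  unfold xx
  positivity

theorem c1_xx_ne (N : ℕ) : xx K N ≠ 0 := (c1_xx_pos K N).ne'

theorem c1_xx_le_one (N : ℕ) : xx K N ≤ 1 := by
  unfold xx
  exact inv_le_one_of_one_le₀ (one_le_pow₀ (c1_one_lt_card K).le)

theorem c1_xx_tendsto : Tendsto (xx K) atTop (nhds 0) := by
  unfold xx
  exact (tendsto_pow_atTop_atTop_of_one_lt (c1_one_lt_card K)).inv_tendsto_atTop

theorem c1_zpow_isBigO {k l : ℤ} (h : l ≤ k) :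
    (fun N => xx K N ^ k) =O[atTop] fun N => xx K N ^ l := by
  refine IsBigO.of_bound 1 (Filter.Eventually.of_forall fun N => ?_)
  have h0 := c1_xx_pos K N
  rw [Real.norm_of_nonneg (zpow_nonneg h0.le _), Real.norm_of_nonneg (zpow_nonneg h0.le _), one_mul]
  exact zpow_le_zpow_right_of_le_one₀ h0 (c1_xx_le_one K N) h

variable {K}

theorem BigO.add {f g : ℕ → ℝ} {k : ℤ} (hf : BigO K f k) (hg : BigO K g k) :
    BigO K (fun N => f N + g N) k := IsBigO.add hf hg

theorem BigO.sum {ι : Type*} {s : Finset ι} {f : ι → ℕ → ℝ} {k : ℤ}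
    (h : ∀ i ∈ s, BigO K (f i) k) : BigO K (fun N => ∑ i ∈ s, f i N) k :=
  IsBigO.fun_sum h

theorem BigO.mul {f g : ℕ → ℝ} {k l : ℤ} (hf : BigO K f k) (hg : BigO K g l) :
    BigO K (fun N => f N * g N) (k + l) := by
  have h := IsBigO.mul hf hg
  refine h.congr_right fun N => ?_
  rw [zpow_add₀ (c1_xx_ne K N)]

theorem c1_bigO_one : BigO K (fun _ => 1) 0 := by
  unfold BigO
  simp only [zpow_zero]
  exact isBigO_refl _ _

theorem BigO.prod {ι : Type*} {s : Finset ι} {f : ι → ℕ → ℝ} {k : ι → ℤ}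
    (h : ∀ i ∈ s, BigO K (f i) (k i)) : BigO K (fun N => ∏ i ∈ s, f i N) (∑ i ∈ s, k i) := by
  induction s using Finset.induction_on with
  | empty => simpa using c1_bigO_one
  | insert a s ha ih =>
    simp only [Finset.prod_insert ha, Finset.sum_insert ha]
    exact BigO.mul (h a (Finset.mem_insert_self a s))
      (ih fun i hi => h i (Finset.mem_insert_of_mem hi))

theorem BigO.const_mul {f : ℕ → ℝ} {k : ℤ} (hf : BigO K f k) (c : ℝ) :
    BigO K (fun N => c * f N) k := IsBigO.const_mul_left hf c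

theorem BigO.mono {f : ℕ → ℝ} {k l : ℤ} (hf : BigO K f k) (h : l ≤ k) : BigO K f l :=
  IsBigO.trans hf (c1_zpow_isBigO K h)

theorem BigO.congr' {f g : ℕ → ℝ} {k : ℤ} (hf : BigO K f k) (h : f =ᶠ[atTop] g) :
    BigO K g k := IsBigO.congr' hf h EventuallyEq.rfl

theorem bigO_zero (k : ℤ) : BigO K (fun _ => 0) k := isBigO_zero _ _

theorem c1_bigO_main (c : ℝ) (k : ℤ) : BigO K (fun N => c * xx K N ^ k) k :=
  IsBigO.const_mul_left (isBigO_refl _ _) c

theorem Lead.bigO {f : ℕ → ℝ} {c : ℝ} {k : ℤ} (h : Lead K f c k) : BigO K f k := by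
  have h1 := BigO.add (BigO.mono h (show k ≤ k + 1 by omega)) (c1_bigO_main (K := K) c k)
  simpa using h1

theorem lead_zero_iff {f : ℕ → ℝ} {k : ℤ} : Lead K f 0 k ↔ BigO K f (k + 1) := by
  unfold Lead
  simp

theorem Lead.add {f g : ℕ → ℝ} {c d : ℝ} {k : ℤ} (hf : Lead K f c k) (hg : Lead K g d k) :
    Lead K (fun N => f N + g N) (c + d) k := by
  have h := BigO.add hf hg
  unfold Lead
  convert h using 2 with N
  ring

theorem Lead.add_bigO {f g : ℕ → ℝ} {c : ℝ} {k : ℤ} (hf : Lead K f c k)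
    (hg : BigO K g (k + 1)) : Lead K (fun N => f N + g N) c k := by
  have h := BigO.add hf hg
  unfold Lead
  convert h using 2 with N
  ring

theorem Lead.sum {ι : Type*} {s : Finset ι} {f : ι → ℕ → ℝ} {c : ι → ℝ} {k : ℤ}
    (h : ∀ i ∈ s, Lead K (f i) (c i) k) :
    Lead K (fun N => ∑ i ∈ s, f i N) (∑ i ∈ s, c i) k := by
  have h' := BigO.sum (K := K) (s := s) (f := fun i N => f i N - c i * xx K N ^ k) (k := k + 1) h
  unfold Lead
  convert h' using 2 with N
  rw [Finset.sum_sub_distrib, Finset.sum_mul]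

theorem Lead.mul {f g : ℕ → ℝ} {c d : ℝ} {k l : ℤ} (hf : Lead K f c k) (hg : Lead K g d l) :
    Lead K (fun N => f N * g N) (c * d) (k + l) := by
  have h1 := BigO.mul hf hg.bigO
  have h2 := BigO.mul (c1_bigO_main (K := K) c k) hg
  have h1' : BigO K (fun N => (f N - c * xx K N ^ k) * g N) (k + l + 1) := by
    convert h1 using 1; ring
  have h2' : BigO K (fun N => (c * xx K N ^ k) * (g N - d * xx K N ^ l)) (k + l + 1) := by
    convert h2 using 1; ring
  have h3 := BigO.add h1' h2'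
  unfold Lead
  convert h3 using 2 with N
  rw [zpow_add₀ (c1_xx_ne K N)]
  ring

theorem c1_lead_one : Lead K (fun _ => 1) 1 0 := by
  unfold Lead
  simpa using bigO_zero (K := K) (0 + 1)

theorem Lead.prod_one {ι : Type*} {s : Finset ι} {f : ι → ℕ → ℝ} {k : ι → ℤ}
    (h : ∀ i ∈ s, Lead K (f i) 1 (k i)) :
    Lead K (fun N => ∏ i ∈ s, f i N) 1 (∑ i ∈ s, k i) := by
  induction s using Finset.induction_on with
  | empty => simpa using c1_lead_one
  | insert a s ha ih =>
    simp only [Finset.prod_insert ha, Finset.sum_insert ha]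
    have := Lead.mul (h a (Finset.mem_insert_self a s))
      (ih fun i hi => h i (Finset.mem_insert_of_mem hi))
    simpa using this

theorem Lead.const_mul {f : ℕ → ℝ} {c : ℝ} {k : ℤ} (hf : Lead K f c k) (a : ℝ) :
    Lead K (fun N => a * f N) (a * c) k := by
  have h := BigO.const_mul hf a
  unfold Lead
  convert h using 2 with N
  ring

theorem Lead.congr' {f g : ℕ → ℝ} {c : ℝ} {k : ℤ} (hf : Lead K f c k) (h : f =ᶠ[atTop] g) :
    Lead K g c k :=
  BigO.congr' hf (h.mono fun N hN => by simp only [hN])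

theorem ind_lead (m : ℕ) : Lead K (ind K m) 1 (-(m : ℤ)) := by
  have h1 : ∀ j ∈ Finset.range m,
      Lead K (fun N => (Nat.card K : ℝ) ^ N - (Nat.card K : ℝ) ^ j) 1 (-1) := by
    intro j _
    unfold Lead
    have h2 := c1_bigO_main (K := K) (-(Nat.card K : ℝ) ^ j) 0
    have h3 : (-1 : ℤ) + 1 = 0 := by norm_num
    rw [h3]
    refine h2.congr' (Filter.Eventually.of_forall fun N => ?_)
    simp only [zpow_zero, mul_one, xx, zpow_neg, zpow_one, inv_inv, one_mul]
    ring
  have h4 := Lead.prod_one h1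
  have h5 : (∑ _j ∈ Finset.range m, (-1 : ℤ)) = -(m : ℤ) := by simp
  rw [h5] at h4
  exact h4

theorem c1_lead_inv {f : ℕ → ℝ} {k : ℤ} (h : Lead K f 1 k) :
    Lead K (fun N => (f N)⁻¹) 1 (-k) := by
  -- eventually `f N ≥ x^k / 2`
  obtain ⟨C, hC0, hC⟩ := IsBigO.exists_pos h
  rw [IsBigOWith] at hC
  have hsmall : ∀ᶠ N in atTop, C * xx K N < 1 / 2 := by
    have : Tendsto (fun N => C * xx K N) atTop (nhds (C * 0)) := (c1_xx_tendsto K).const_mul C
    rw [mul_zero] at this
    exact this.eventually_lt_const (by norm_num)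
  refine IsBigO.of_bound (2 * C) ?_
  filter_upwards [hC, hsmall] with N hN hs
  have hx := c1_xx_pos K N
  set y := xx K N ^ k with hy
  have hy0 : 0 < y := zpow_pos hx k
  rw [one_mul] at hN
  have e1 : xx K N ^ (k + 1) = y * xx K N := by rw [zpow_add₀ hx.ne', zpow_one]
  rw [e1, Real.norm_eq_abs, Real.norm_of_nonneg (by positivity)] at hN
  have hf : y / 2 ≤ f N := by
    have h1 := (abs_le.mp hN).1
    have h2 : C * (y * xx K N) ≤ y / 2 := by
      have : C * (y * xx K N) = y * (C * xx K N) := by ring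
      rw [this]
      nlinarith
    linarith
  have hf0 : 0 < f N := by linarith
  have e2 : xx K N ^ (-k) = y⁻¹ := by rw [zpow_neg]
  have e3 : xx K N ^ (-k + 1) = y⁻¹ * xx K N := by rw [zpow_add₀ hx.ne', zpow_one, zpow_neg]
  rw [e2, e3, one_mul, Real.norm_eq_abs, Real.norm_of_nonneg (by positivity)]
  have e4 : (f N)⁻¹ - y⁻¹ = -(f N - y) / (f N * y) := by
    field_simp
    ring
  rw [e4, abs_div, abs_neg, abs_of_pos (by positivity : 0 < f N * y)]
  rw [div_le_iff₀ (by positivity)]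
  calc |f N - y| ≤ C * (y * xx K N) := hN
    _ = 2 * C * (y⁻¹ * xx K N) * (y / 2 * y) := by field_simp
    _ ≤ 2 * C * (y⁻¹ * xx K N) * (f N * y) := by
        apply mul_le_mul_of_nonneg_left _ (by positivity)
        exact mul_le_mul_of_nonneg_right hf hy0.le

theorem inv_ind_lead (m : ℕ) : Lead K (fun N => (ind K m N)⁻¹) 1 (m : ℤ) := by
  have := c1_lead_inv (ind_lead (K := K) m)
  rwa [neg_neg] at this

end C1

end Pool.Agent.GLFix
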