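import Pool.Agent.GLFix.Defs

/-!
# MP_ce340f_al, module A1

Elementary facts on pushes, restrictions, splittings.
-/

open scoped Classical
open Module Filter Asymptotics

set_option linter.unusedSectionVars false

noncomputable section

namespace Pool.Agent.GLFix

variable {K : Type*} [Field K] {ℓ : ℕ} [NeZero ℓ] {σ : ZMod ℓ → Bool} {π τ ρ : Setoid (ZMod ℓ)}

theorem Reduced.mono (h : Reduced σ τ) (hle : π ≤ τ) : Reduced σ π :=
  fun ε hε => h ε (hle hε)

theorem a1_add_one_ne {ε : ZMod ℓ} (h : ε + 1 = ε) : ∀ ε' : ZMod ℓ, ε' = ε := by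
  intro ε'
  have h1 : (1 : ZMod ℓ) = 0 := by simpa using h
  have h2 : ε' = ε' * 1 := by ring
  have h3 : ε = ε * 1 := by ring
  rw [h2, h3, h1]; ring

theorem epos_inj (h : Reduced σ π) {s : Bool} {ε ε' : ZMod ℓ} (h1 : π ε ε')
    (h2 : epos σ s ε = epos σ s ε') : ε = ε' := by
  unfold epos at h2
  split_ifs at h2 with ha hb hb
  · exact add_right_cancel h2
  · -- ε + 1 = ε'
    subst h2
    exact absurd ((h ε h1).symm.trans ha) hb
  · -- ε = ε' + 1
    subst h2
    have := h ε' (π.symm' h1)
    exact absurd (this.symm.trans hb) ha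
  · exact h2

theorem push_def (σ : ZMod ℓ → Bool) (s : Bool) (u : ZMod ℓ → K) (p : ZMod ℓ) :
    push σ s u p = ∑ ε, if epos σ s ε = p then u ε else 0 := rfl

/-- Each position is an end of exactly two half-edges. -/
theorem push_apply (σ : ZMod ℓ → Bool) (s : Bool) (u : ZMod ℓ → K) (p : ZMod ℓ) :
    push σ s u p = (if σ (p - 1) = s then u (p - 1) else 0) + (if σ p = s then 0 else u p) := by
  rw [push_def]
  have h : ∀ ε : ZMod ℓ, (if epos σ s ε = p then u ε else 0) =
      (if ε = p - 1 then (if σ ε = s then u ε else 0) else 0) +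
        (if ε = p then (if σ ε = s then 0 else u ε) else 0) := by
    intro ε
    unfold epos
    by_cases hs : σ ε = s
    · have : (ε + 1 = p) ↔ ε = p - 1 := by
        constructor
        · rintro rfl; ring
        · rintro rfl; ring
      simp [hs, this]
    · simp [hs]
  simp only [h, Finset.sum_add_distrib, Finset.sum_ite_eq', Finset.mem_univ, if_true]

theorem push_single (σ : ZMod ℓ → Bool) (s : Bool) (ε : ZMod ℓ) (c : K) :
    push σ s (Pi.single ε c) = Pi.single (epos σ s ε) c := by
  funext p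
  rw [push_def, Finset.sum_eq_single ε]
  · by_cases h : epos σ s ε = p
    · subst h; simp
    · rw [if_neg h, Pi.single_eq_of_ne (Ne.symm h)]
  · intro b _ hb
    rw [Pi.single_eq_of_ne hb]
    simp
  · simp

/-- For every `z` on the positions, the signed pullbacks have equal pushes. -/
theorem push_pull (σ : ZMod ℓ → Bool) (z : ZMod ℓ → K) :
    push σ true (fun ε => sgn K σ ε * z (epos σ true ε)) =
      push σ false (fun ε => sgn K σ ε * z (epos σ false ε)) := by
  funext p
  rw [push_apply, push_apply]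
  unfold sgn epos
  cases h1 : σ (p - 1) <;> cases h2 : σ p <;> simp

/-- Conversely, every pair with equal pushes comes from a unique `z`. -/
theorem exists_of_push_eq {a b : ZMod ℓ → K} (h : push σ true a = push σ false b) :
    ∃ z : ZMod ℓ → K, (∀ ε, a ε = sgn K σ ε * z (epos σ true ε)) ∧
      (∀ ε, b ε = sgn K σ ε * z (epos σ false ε)) := by
  -- `z p` is read off from the leaving edge
  refine ⟨fun p => if σ p then b p else - a p, ?_, ?_⟩
  · intro ε
    unfold sgn epos
    cases h1 : σ ε
    · simp [h1]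
    · have := congrFun h (ε + 1)
      rw [push_apply, push_apply] at this
      cases h2 : σ (ε + 1)
      · simp [h1, h2] at this ⊢
        rw [← sub_eq_zero] at this ⊢
        linear_combination this
      · simp [h1, h2] at this ⊢
        exact this
  · intro ε
    unfold sgn epos
    cases h1 : σ ε
    · have := congrFun h (ε + 1)
      rw [push_apply, push_apply] at this
      cases h2 : σ (ε + 1)
      · simp [h1, h2] at this ⊢
        exact this.symm
      · simp [h1, h2] at this ⊢
        linear_combination -this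
    · simp [h1]

theorem sum_push_mul (σ : ZMod ℓ → Bool) (s : Bool) (u z : ZMod ℓ → K) :
    ∑ p, push σ s u p * z p = ∑ ε, u ε * z (epos σ s ε) := by
  simp only [push_def, Finset.sum_mul]
  rw [Finset.sum_comm]
  refine Finset.sum_congr rfl fun ε _ => ?_
  rw [Finset.sum_eq_single (epos σ s ε)]
  · simp
  · intro b _ hb
    rw [if_neg (Ne.symm hb), zero_mul]
  · simp

theorem push_mem_TT {U : Submodule K (ZMod ℓ → K)} {u : ZMod ℓ → K} (s : Bool) (hu : u ∈ U) :
    push σ s u ∈ TT σ U := by
  cases s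
  · exact Submodule.mem_sup_right (Submodule.mem_map_of_mem hu)
  · exact Submodule.mem_sup_left (Submodule.mem_map_of_mem hu)

theorem TT_mono {U V : Submodule K (ZMod ℓ → K)} (h : U ≤ V) : TT σ U ≤ TT σ V :=
  sup_le_sup (Submodule.map_mono h) (Submodule.map_mono h)

theorem TT_le_iff {U S : Submodule K (ZMod ℓ → K)} :
    TT σ U ≤ S ↔ ∀ s, ∀ u ∈ U, push σ s u ∈ S := by
  constructor
  · intro h s u hu
    exact h (push_mem_TT s hu)
  · intro h
    refine sup_le ?_ ?_
    · rintro _ ⟨u, hu, rfl⟩
      exact h true u hu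
    · rintro _ ⟨u, hu, rfl⟩
      exact h false u hu

theorem res_apply (c : Set (ZMod ℓ)) (u : ZMod ℓ → K) (ε : ZMod ℓ) :
    res c u ε = if ε ∈ c then u ε else 0 := rfl

theorem mem_On {c : Set (ZMod ℓ)} {u : ZMod ℓ → K} : u ∈ On K c ↔ ∀ ε, ε ∉ c → u ε = 0 :=
  Iff.rfl

/-- Pushing and restricting: on a class of `π` (`Reduced`), `push` is injective. -/
theorem push_injOn (h : Reduced σ π) {s : Bool} {ε₀ : ZMod ℓ} {u v : ZMod ℓ → K}
    (hu : u ∈ On K (block π ε₀)) (hv : v ∈ On K (block π ε₀))
    (huv : push σ s u = push σ s v) : u = v := by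
  funext ε
  by_cases hε : ε ∈ block π ε₀
  · have key : ∀ w ∈ On K (block π ε₀), push σ s w (epos σ s ε) = w ε := by
      intro w hw
      rw [push_def, Finset.sum_eq_single ε]
      · simp
      · intro ε' _ hne
        by_cases h' : ε' ∈ block π ε₀
        · rw [if_neg]
          intro heq
          exact hne (epos_inj h (π.trans' h' (π.symm' hε)) heq)
        · rw [hw ε' h']; simp
      · simp
    rw [← key u hu, ← key v hv, huv]
  · rw [hu ε hε, hv ε hε]

/-- Restricting a push to a set `A` of positions. -/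
theorem res_push (σ : ZMod ℓ → Bool) (s : Bool) (A : Set (ZMod ℓ)) (u : ZMod ℓ → K) :
    res A (push σ s u) = push σ s (res {ε | epos σ s ε ∈ A} u) := by
  funext p
  rw [res_apply, push_def, push_def]
  by_cases hp : p ∈ A
  · rw [if_pos hp]
    refine Finset.sum_congr rfl fun ε _ => ?_
    by_cases h : epos σ s ε = p
    · rw [if_pos h, if_pos h, res_apply, if_pos]
      show epos σ s ε ∈ A
      rw [h]; exact hp
    · rw [if_neg h, if_neg h]
  · rw [if_neg hp]
    symm
    refine Finset.sum_eq_zero fun ε _ => ?_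
    by_cases h : epos σ s ε = p
    · rw [if_pos h, res_apply, if_neg]
      show ¬ epos σ s ε ∈ A
      rw [h]; exact hp
    · rw [if_neg h]

theorem res_res (c d : Set (ZMod ℓ)) (u : ZMod ℓ → K) : res c (res d u) = res (c ∩ d) u := by
  funext ε
  simp only [res_apply, Set.mem_inter_iff]
  by_cases h1 : ε ∈ c <;> by_cases h2 : ε ∈ d <;> simp [h1, h2]

theorem res_mem_On (c : Set (ZMod ℓ)) (u : ZMod ℓ → K) : res c u ∈ On K c := by
  intro ε hε
  rw [res_apply, if_neg hε]

theorem res_of_mem_On {c : Set (ZMod ℓ)} {u : ZMod ℓ → K} (h : u ∈ On K c) : res c u = u := by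
  funext ε
  rw [res_apply]
  by_cases hε : ε ∈ c
  · rw [if_pos hε]
  · rw [if_neg hε, h ε hε]

theorem res_eq_zero {c d : Set (ZMod ℓ)} {u : ZMod ℓ → K} (h : u ∈ On K d)
    (hcd : Disjoint c d) : res c u = 0 := by
  funext ε
  rw [res_apply]
  by_cases hε : ε ∈ c
  · rw [if_pos hε, h ε (Set.disjoint_left.mp hcd hε)]; rfl
  · rw [if_neg hε]; rfl

theorem On_mono {c d : Set (ZMod ℓ)} (h : c ⊆ d) : On K c ≤ On K d :=
  fun _ hu ε hε => hu ε fun hc => hε (h hc)

theorem block_eq_of_rel {ε ε' : ZMod ℓ} (h : π ε ε') : block π ε = block π ε' := by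
  ext x
  exact ⟨fun hx => π.trans' hx h, fun hx => π.trans' hx (π.symm' h)⟩

theorem block_eq_mk (π : Setoid (ZMod ℓ)) (ε₀ : ZMod ℓ) :
    block π ε₀ = {ε | Quotient.mk π ε = Quotient.mk π ε₀} := by
  ext ε
  exact (Quotient.eq (r := π)).symm

theorem block_mono (h : π ≤ τ) (ε₀ : ZMod ℓ) : block π ε₀ ⊆ block τ ε₀ :=
  fun _ hε => h hε

/-- `u` is the sum of its restrictions to the classes of `π`. -/
theorem sum_res (π : Setoid (ZMod ℓ)) (u : ZMod ℓ → K) :
    u = ∑ b : Quotient π, res {ε | Quotient.mk π ε = b} u := by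
  funext ε
  rw [Finset.sum_apply, Finset.sum_eq_single (Quotient.mk π ε)]
  · rw [res_apply, if_pos (show ε ∈ {ε' | Quotient.mk π ε' = Quotient.mk π ε} from rfl)]
  · intro b _ hb
    rw [res_apply, if_neg]
    exact fun h => hb (Eq.symm h)
  · simp

theorem Split.mk_mem {U : Submodule K (ZMod ℓ → K)} (h : Split π U) (b : Quotient π)
    {u : ZMod ℓ → K} (hu : u ∈ U) : res {ε | Quotient.mk π ε = b} u ∈ U := by
  induction b using Quotient.inductionOn with
  | h ε₀ =>
    have := h ε₀ u hu
    rwa [block_eq_mk] at this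

theorem Split.mono {U : Submodule K (ZMod ℓ → K)} (h : Split π U) (hle : π ≤ τ) :
    Split τ U := by
  intro ε₀ u hu
  rw [sum_res π (res (block τ ε₀) u)]
  refine Submodule.sum_mem _ fun b _ => ?_
  induction b using Quotient.inductionOn with
  | h ε₁ =>
    rw [res_res]
    by_cases h1 : τ ε₁ ε₀
    · have : {ε | Quotient.mk π ε = Quotient.mk π ε₁} ∩ block τ ε₀ =
          {ε | Quotient.mk π ε = Quotient.mk π ε₁} := by
        refine Set.inter_eq_left.mpr fun ε hε => ?_
        have : π ε ε₁ := Quotient.exact hε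
        exact τ.trans' (hle this) h1
      rw [this]
      exact h.mk_mem _ hu
    · have : {ε | Quotient.mk π ε = Quotient.mk π ε₁} ∩ block τ ε₀ = ∅ := by
        rw [Set.eq_empty_iff_forall_notMem]
        rintro ε ⟨hε, hε'⟩
        have : π ε ε₁ := Quotient.exact hε
        exact h1 (τ.trans' (τ.symm' (hle this)) hε')
      rw [this]
      have h0 : res (∅ : Set (ZMod ℓ)) u = 0 := by
        funext ε
        rw [res_apply, if_neg (Set.notMem_empty ε)]; rfl
      rw [h0]
      exact U.zero_mem

theorem block_inf (π τ : Setoid (ZMod ℓ)) (ε₀ : ZMod ℓ) :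
    block (π ⊓ τ) ε₀ = block π ε₀ ∩ block τ ε₀ := by
  ext ε
  exact Iff.rfl

theorem Split.inf_setoid {U : Submodule K (ZMod ℓ → K)} (h : Split π U) (h' : Split τ U) :
    Split (π ⊓ τ) U := by
  intro ε₀ u hu
  rw [block_inf, ← res_res]
  exact h ε₀ _ (h' ε₀ u hu)

theorem Split.sup {U V : Submodule K (ZMod ℓ → K)} (h : Split π U) (h' : Split π V) :
    Split π (U ⊔ V) := by
  intro ε₀ u hu
  obtain ⟨a, ha, b, hb, rfl⟩ := Submodule.mem_sup.mp hu
  rw [map_add]
  exact Submodule.add_mem_sup (h ε₀ a ha) (h' ε₀ b hb)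

theorem Split.inf {U V : Submodule K (ZMod ℓ → K)} (h : Split π U) (h' : Split π V) :
    Split π (U ⊓ V) :=
  fun ε₀ u hu => ⟨h ε₀ u hu.1, h' ε₀ u hu.2⟩

theorem split_top_setoid (U : Submodule K (ZMod ℓ → K)) : Split ⊤ U := by
  intro ε₀ u hu
  have : block (⊤ : Setoid (ZMod ℓ)) ε₀ = Set.univ := by
    ext ε
    exact ⟨fun _ => trivial, fun _ => trivial⟩
  rw [this, res_of_mem_On (c := Set.univ) (fun ε hε => absurd trivial hε)]
  exact hu

theorem split_comp (U : Submodule K (ZMod ℓ → K)) : Split (comp U) U := by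
  -- the set of splitting partitions is finite and closed under binary meets
  have hfin : {π : Setoid (ZMod ℓ) | Split π U}.Finite := Set.toFinite _
  have key : ∀ s : Finset (Setoid (ZMod ℓ)), (∀ π ∈ s, Split π U) → Split (s.inf id) U := by
    intro s
    induction s using Finset.induction_on with
    | empty => intro _; simpa using split_top_setoid U
    | insert a s ha ih =>
      intro hs
      rw [Finset.inf_insert]
      exact (hs a (Finset.mem_insert_self a s)).inf_setoid
        (ih fun π hπ => hs π (Finset.mem_insert_of_mem hπ))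
  have : comp U = hfin.toFinset.inf id := by
    unfold comp
    rw [Finset.inf_id_eq_sInf]
    simp
  rw [this]
  exact key _ fun π hπ => by simpa using hπ

theorem comp_le_iff {U : Submodule K (ZMod ℓ → K)} : comp U ≤ π ↔ Split π U :=
  ⟨fun h => (split_comp U).mono h, fun h => sInf_le h⟩

theorem split_bot (π : Setoid (ZMod ℓ)) : Split π (⊥ : Submodule K (ZMod ℓ → K)) := by
  intro ε₀ u hu
  rw [Submodule.mem_bot] at hu ⊢
  rw [hu, map_zero]

theorem split_top (π : Setoid (ZMod ℓ)) : Split π (⊤ : Submodule K (ZMod ℓ → K)) :=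
  fun _ _ _ => Submodule.mem_top

theorem split_On_block (π : Setoid (ZMod ℓ)) (ε₁ : ZMod ℓ) : Split π (On K (block π ε₁)) := by
  intro ε₀ u hu ε hε
  rw [res_apply]
  split_ifs
  · exact hu ε hε
  · rfl

/-- The span of a function supported on one class splits. -/
theorem split_span_single {u : ZMod ℓ → K} {ε₁ : ZMod ℓ} (hu : u ∈ On K (block π ε₁)) :
    Split π (Submodule.span K {u}) := by
  intro ε₀ v hv
  obtain ⟨c, rfl⟩ := Submodule.mem_span_singleton.mp hv
  rw [map_smul]
  by_cases h : π ε₁ ε₀
  · rw [← block_eq_of_rel h, res_of_mem_On hu]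
    exact hv
  · rw [res_eq_zero hu, smul_zero]
    · exact Submodule.zero_mem _
    · rw [Set.disjoint_left]
      intro ε h1 h2
      exact h (π.trans' (π.symm' h2) h1)

theorem mem_splitPart {U : Submodule K (ZMod ℓ → K)} {u : ZMod ℓ → K} :
    u ∈ splitPart π U ↔ ∀ ε₀, res (block π ε₀) u ∈ U := by
  -- the right hand side defines a split subspace
  let W : Submodule K (ZMod ℓ → K) :=
    { carrier := {u | ∀ ε₀, res (block π ε₀) u ∈ U}
      add_mem' := fun {a b} ha hb ε₀ => by
        rw [map_add]; exact U.add_mem (ha ε₀) (hb ε₀)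
      zero_mem' := fun ε₀ => by rw [map_zero]; exact U.zero_mem
      smul_mem' := fun c a ha ε₀ => by
        rw [map_smul]; exact U.smul_mem c (ha ε₀) }
  have hW : Split π W := by
    intro ε₀ v hv ε₁
    rw [res_res]
    by_cases h : π ε₀ ε₁
    · rw [block_eq_of_rel h, Set.inter_self]
      exact hv ε₁
    · have : block π ε₁ ∩ block π ε₀ = ∅ := by
        rw [Set.eq_empty_iff_forall_notMem]
        rintro ε ⟨h1, h2⟩
        exact h (π.trans' (π.symm' h2) h1)
      rw [this]
      have h0 : res (∅ : Set (ZMod ℓ)) v = 0 := by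
        funext ε
        rw [res_apply, if_neg (Set.notMem_empty ε)]; rfl
      rw [h0]
      exact U.zero_mem
  have hWU : W ≤ U := by
    intro v hv
    rw [sum_res π v]
    refine Submodule.sum_mem _ fun b _ => ?_
    induction b using Quotient.inductionOn with
    | h ε₁ =>
      rw [← block_eq_mk]
      exact hv ε₁
  have hsub : ∀ V : Submodule K (ZMod ℓ → K), Split π V → V ≤ U → V ≤ W :=
    fun V hV hVU v hv ε₀ => hVU (hV ε₀ v hv)
  have : splitPart π U = W := by
    refine le_antisymm (sSup_le ?_) (le_sSup ⟨hW, hWU⟩)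
    rintro V ⟨hV, hVU⟩
    exact hsub V hV hVU
  rw [this]
  exact Iff.rfl

theorem split_splitPart (π : Setoid (ZMod ℓ)) (U : Submodule K (ZMod ℓ → K)) :
    Split π (splitPart π U) := by
  intro ε₀ u hu
  rw [mem_splitPart] at hu ⊢
  intro ε₁
  rw [res_res]
  by_cases h : π ε₀ ε₁
  · rw [block_eq_of_rel h, Set.inter_self]
    exact hu ε₁
  · have : block π ε₁ ∩ block π ε₀ = ∅ := by
      rw [Set.eq_empty_iff_forall_notMem]
      rintro ε ⟨h1, h2⟩
      exact h (π.trans' (π.symm' h2) h1)
    rw [this]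
    have h0 : res (∅ : Set (ZMod ℓ)) u = 0 := by
      funext ε
      rw [res_apply, if_neg (Set.notMem_empty ε)]; rfl
    rw [h0]
    exact U.zero_mem

theorem splitPart_le (π : Setoid (ZMod ℓ)) (U : Submodule K (ZMod ℓ → K)) :
    splitPart π U ≤ U :=
  sSup_le fun _ hV => hV.2

theorem le_splitPart {U V : Submodule K (ZMod ℓ → K)} (h : Split π V) (hle : V ≤ U) :
    V ≤ splitPart π U :=
  le_sSup ⟨h, hle⟩

theorem vert_rel (σ : ZMod ℓ → Bool) (π : Setoid (ZMod ℓ)) (s : Bool) {ε ε' : ZMod ℓ}
    (h : π ε ε') : vert σ π (epos σ s ε) (epos σ s ε') := by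
  intro τ hτ
  exact hτ s ε ε' h

/-- `T(U)` splits along the vertex partition. -/
theorem split_TT {U : Submodule K (ZMod ℓ → K)} (h : Split π U) :
    Split (vert σ π) (TT σ U) := by
  intro p₀ t ht
  -- it is enough to treat `t = push σ s u` with `u ∈ U` supported on one class
  have key : ∀ s, ∀ u ∈ U, res (block (vert σ π) p₀) (push σ s u) ∈ TT σ U := by
    intro s u hu
    rw [sum_res π u, map_sum, map_sum]
    refine Submodule.sum_mem _ fun b _ => ?_
    have hb := h.mk_mem b hu
    induction b using Quotient.inductionOn with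
    | h ε₁ =>
      rw [← block_eq_mk] at hb ⊢
      rw [res_push]
      by_cases hv : vert σ π (epos σ s ε₁) p₀
      · have : res {ε | epos σ s ε ∈ block (vert σ π) p₀} (res (block π ε₁) u) =
            res (block π ε₁) u := by
          rw [res_res]
          congr 2
          refine Set.inter_eq_right.mpr fun ε hε => ?_
          exact (vert σ π).trans' (vert_rel σ π s hε) hv
        rw [this]
        exact push_mem_TT s hb
      · have : res {ε | epos σ s ε ∈ block (vert σ π) p₀} (res (block π ε₁) u) = 0 := by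
          refine res_eq_zero (res_mem_On _ _) ?_
          rw [Set.disjoint_left]
          intro ε h1 h2
          exact hv ((vert σ π).trans' ((vert σ π).symm' (vert_rel σ π s h2)) h1)
        rw [this, map_zero]
        exact Submodule.zero_mem _
  obtain ⟨a, ha, b, hb, rfl⟩ := Submodule.mem_sup.mp ht
  obtain ⟨a, ha, rfl⟩ := ha
  obtain ⟨b, hb, rfl⟩ := hb
  rw [map_add]
  exact Submodule.add_mem _ (key true a ha) (key false b hb)

end Pool.Agent.GLFix
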