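import Pool.Agent.GLFix.Basic

/-!
# MP_ce340f_al, module A2

Closure operator, excess, duality.
-/

open scoped Classical
open Module Filter Asymptotics

set_option linter.unusedSectionVars false

noncomputable section

namespace Pool.Agent.GLFix

section A2

variable {K : Type*} [Field K] {ℓ : ℕ} [NeZero ℓ] {σ : ZMod ℓ → Bool} {π τ ρ : Setoid (ZMod ℓ)}

theorem le_cl (σ : ZMod ℓ → Bool) (π : Setoid (ZMod ℓ)) (U : Submodule K (ZMod ℓ → K)) :
    U ≤ cl σ π U := le_sInf fun _ hV => hV.2

theorem cl_le {U V : Submodule K (ZMod ℓ → K)} (hV : Closed σ π V) (h : U ≤ V) :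
    cl σ π U ≤ V := sInf_le ⟨hV, h⟩

theorem closed_cl (σ : ZMod ℓ → Bool) (π : Setoid (ZMod ℓ)) (U : Submodule K (ZMod ℓ → K)) :
    Closed σ π (cl σ π U) := by
  constructor
  · intro ε₀ u hu
    unfold cl at hu ⊢
    rw [Submodule.mem_sInf] at hu ⊢
    intro V hV
    exact hV.1.1 ε₀ u (hu V hV)
  · intro s ε₀ u hu hpush
    have h1 : ∀ V : Submodule K (ZMod ℓ → K), Closed σ π V ∧ U ≤ V → u ∈ V := by
      intro V hV
      exact hV.1.2 s ε₀ u hu (TT_mono (cl_le hV.1 hV.2) hpush)
    unfold cl
    rw [Submodule.mem_sInf]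
    exact h1

theorem cl_mono {U V : Submodule K (ZMod ℓ → K)} (h : U ≤ V) : cl σ π U ≤ cl σ π V :=
  cl_le (closed_cl σ π V) (h.trans (le_cl σ π V))

theorem cl_eq_self {U : Submodule K (ZMod ℓ → K)} (h : Closed σ π U) : cl σ π U = U :=
  le_antisymm (cl_le h le_rfl) (le_cl σ π U)

theorem Closed.of_split {U : Submodule K (ZMod ℓ → K)} (h : Closed σ τ U) (hle : π ≤ τ)
    (hs : Split π U) : Closed σ π U :=
  ⟨hs, fun s ε₀ u hu hpush => h.2 s ε₀ u (On_mono (block_mono hle ε₀) hu) hpush⟩

/-- Closure for a finer partition stays inside subspaces closed for the coarser one. -/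
theorem cl_le_of_le {V W : Submodule K (ZMod ℓ → K)} (hle : π ≤ τ) (hs : Split π V)
    (hVW : V ≤ W) (hW : Closed σ τ W) : cl σ π V ≤ W := by
  have hZ : Closed σ π (splitPart π W) := by
    refine ⟨split_splitPart π W, ?_⟩
    intro s ε₀ u hu hpush
    have hmem : u ∈ W :=
      hW.2 s ε₀ u (On_mono (block_mono hle ε₀) hu) (TT_mono (splitPart_le π W) hpush)
    have h1 : Submodule.span K {u} ≤ splitPart π W :=
      le_splitPart (split_span_single hu) (by
        rw [Submodule.span_singleton_le_iff_mem]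
        exact hmem)
    exact h1 (Submodule.mem_span_singleton_self u)
  exact (cl_le hZ (le_splitPart hs hVW)).trans (splitPart_le π W)

theorem a2_TT_sup_span {U : Submodule K (ZMod ℓ → K)} {u : ZMod ℓ → K} {s : Bool}
    (h : push σ s u ∈ TT σ U) :
    TT σ (U ⊔ Submodule.span K {u}) ≤ TT σ U ⊔ Submodule.span K {push σ (!s) u} := by
  rw [TT_le_iff]
  intro s' v hv
  obtain ⟨a, ha, b, hb, rfl⟩ := Submodule.mem_sup.mp hv
  obtain ⟨c, rfl⟩ := Submodule.mem_span_singleton.mp hb
  rw [map_add, map_smul]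
  refine Submodule.add_mem _ (Submodule.mem_sup_left (push_mem_TT s' ha)) ?_
  refine Submodule.smul_mem _ c ?_
  by_cases hs : s' = s
  · subst hs
    exact Submodule.mem_sup_left h
  · have : s' = !s := by
      cases s <;> cases s' <;> simp at hs ⊢
    subst this
    exact Submodule.mem_sup_right (Submodule.mem_span_singleton_self _)

theorem a2_finrank_sup_span_lt {U : Submodule K (ZMod ℓ → K)} {u : ZMod ℓ → K} (hu : u ∉ U) :
    finrank K U < finrank K (U ⊔ Submodule.span K {u} : Submodule K (ZMod ℓ → K)) := by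
  refine Submodule.finrank_lt_finrank_of_lt ?_
  refine lt_of_le_of_ne le_sup_left ?_
  intro h
  apply hu
  rw [h]
  exact Submodule.mem_sup_right (Submodule.mem_span_singleton_self u)

theorem a2_finrank_sup_span_le (U : Submodule K (ZMod ℓ → K)) (u : ZMod ℓ → K) :
    finrank K (U ⊔ Submodule.span K {u} : Submodule K (ZMod ℓ → K)) ≤ finrank K U + 1 := by
  have h := Submodule.finrank_add_le_finrank_add_finrank U (Submodule.span K {u})
  have h1 : finrank K (Submodule.span K {u}) ≤ 1 := by
    have := finrank_span_le_card (R := K) ({u} : Set (ZMod ℓ → K))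
    simpa using this
  omega

theorem exc_cl_le {U : Submodule K (ZMod ℓ → K)} (hs : Split π U) :
    exc σ (cl σ π U) ≤ exc σ U := by
  induction hn : finrank K (ZMod ℓ → K) - finrank K U using Nat.strong_induction_on
    generalizing U with
  | _ n ih =>
    by_cases hcl : Closed σ π U
    · rw [cl_eq_self hcl]
    · have h1 : ¬ ∀ s ε₀, ∀ u ∈ On K (block π ε₀), push σ s u ∈ TT σ U → u ∈ U :=
        fun h => hcl ⟨hs, h⟩
      push Not at h1
      obtain ⟨s, ε₀, u, hu, hpush, huU⟩ := h1
      set V : Submodule K (ZMod ℓ → K) := U ⊔ Submodule.span K {u} with hV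
      have hsV : Split π V := hs.sup (split_span_single hu)
      have hdim : finrank K U < finrank K V := a2_finrank_sup_span_lt huU
      have hdimV : finrank K V ≤ finrank K (ZMod ℓ → K) := Submodule.finrank_le V
      have hTT : finrank K (TT σ V) ≤ finrank K (TT σ U) + 1 :=
        (Submodule.finrank_mono (a2_TT_sup_span hpush)).trans (a2_finrank_sup_span_le _ _)
      have hmem : u ∈ cl σ π U :=
        (closed_cl σ π U).2 s ε₀ u hu (TT_mono (le_cl σ π U) hpush)
      have hVle : V ≤ cl σ π U := by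
        refine sup_le (le_cl σ π U) ?_
        rw [Submodule.span_singleton_le_iff_mem]
        exact hmem
      have hcleq : cl σ π U = cl σ π V :=
        le_antisymm (cl_mono le_sup_left) (cl_le (closed_cl σ π U) hVle)
      have h2 := ih (finrank K (ZMod ℓ → K) - finrank K V) (by omega) hsV rfl
      rw [hcleq]
      refine h2.trans ?_
      unfold exc
      omega

/-- A closed subspace containing a basis vector, or with a basis vector in `T(U)`, is
everything. -/
theorem Closed.eq_top {U : Submodule K (ZMod ℓ → K)} (h : Closed σ π U) {p : ZMod ℓ}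
    (hp : (Pi.single p 1 : ZMod ℓ → K) ∈ TT σ U) : U = ⊤ := by
  have hOn : ∀ q : ZMod ℓ, (Pi.single q 1 : ZMod ℓ → K) ∈ On K (block π q) := by
    intro q ε hε
    have hne : ε ≠ q := by
      rintro rfl
      exact hε (π.refl' ε)
    exact Pi.single_eq_of_ne hne 1
  have step1 : ∀ q : ZMod ℓ, (Pi.single q 1 : ZMod ℓ → K) ∈ TT σ U →
      (Pi.single q 1 : ZMod ℓ → K) ∈ U := by
    intro q hq
    refine h.2 (!σ q) q _ (hOn q) ?_
    rw [push_single]
    have : epos σ (!σ q) q = q := by
      unfold epos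
      cases σ q <;> simp
    rw [this]
    exact hq
  have step2 : ∀ q : ZMod ℓ, (Pi.single q 1 : ZMod ℓ → K) ∈ U →
      (Pi.single (q + 1) 1 : ZMod ℓ → K) ∈ TT σ U := by
    intro q hq
    have h1 := push_mem_TT (σ := σ) (σ q) hq
    rw [push_single] at h1
    have : epos σ (σ q) q = q + 1 := by
      unfold epos
      simp
    rwa [this] at h1
  have step3 : ∀ n : ℕ, (Pi.single (p + n) 1 : ZMod ℓ → K) ∈ TT σ U := by
    intro n
    induction n with
    | zero => simpa using hp
    | succ n ihn =>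
      have := step2 _ (step1 _ ihn)
      rw [add_assoc] at this
      have e : ((n + 1 : ℕ) : ZMod ℓ) = (n : ZMod ℓ) + 1 := by push_cast; rfl
      rw [e]
      exact this
  have step4 : ∀ q : ZMod ℓ, (Pi.single q 1 : ZMod ℓ → K) ∈ U := by
    intro q
    have := step1 _ (step3 (q - p).val)
    rwa [ZMod.natCast_zmod_val, add_sub_cancel] at this
  rw [eq_top_iff]
  intro v _
  have hv : v = ∑ q, v q • (Pi.single q 1 : ZMod ℓ → K) := by
    funext r
    rw [Finset.sum_apply, Finset.sum_eq_single r]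
    · simp
    · intro b _ hb
      rw [Pi.smul_apply, Pi.single_eq_of_ne (Ne.symm hb), smul_zero]
    · simp
  rw [hv]
  exact Submodule.sum_mem _ fun q _ => Submodule.smul_mem _ _ (step4 q)

theorem a2_sgn_mul_self (σ : ZMod ℓ → Bool) (ε : ZMod ℓ) : sgn K σ ε * sgn K σ ε = 1 := by
  unfold sgn
  split_ifs <;> simp

theorem a2_sgn_ne_zero (σ : ZMod ℓ → Bool) (ε : ZMod ℓ) : sgn K σ ε ≠ 0 := by
  intro h
  have := a2_sgn_mul_self (K := K) σ ε
  rw [h, zero_mul] at this
  exact zero_ne_one this

/-- The twisted bilinear form. -/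
def a2_form (K : Type*) [Field K] (σ : ZMod ℓ → Bool) :
    LinearMap.BilinForm K (ZMod ℓ → K) :=
  LinearMap.mk₂ K (fun u y => ∑ ε, sgn K σ ε * y ε * u ε)
    (fun a b y => by
      simp only [Pi.add_apply, mul_add, Finset.sum_add_distrib])
    (fun c a y => by
      simp only [Pi.smul_apply, smul_eq_mul, Finset.mul_sum]
      exact Finset.sum_congr rfl fun ε _ => by ring)
    (fun a y z => by
      simp only [Pi.add_apply, mul_add, add_mul, Finset.sum_add_distrib])
    (fun c a y => by
      simp only [Pi.smul_apply, smul_eq_mul, Finset.mul_sum]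
      exact Finset.sum_congr rfl fun ε _ => by ring)

theorem a2_form_apply (σ : ZMod ℓ → Bool) (u y : ZMod ℓ → K) :
    a2_form K σ u y = ∑ ε, sgn K σ ε * y ε * u ε := rfl

theorem a2_form_comm (σ : ZMod ℓ → Bool) (u y : ZMod ℓ → K) :
    a2_form K σ u y = a2_form K σ y u := by
  rw [a2_form_apply, a2_form_apply]
  exact Finset.sum_congr rfl fun ε _ => by ring

theorem a2_form_refl (σ : ZMod ℓ → Bool) : (a2_form K σ).IsRefl := by
  intro u y h
  rw [a2_form_comm]
  exact h

theorem a2_form_single (σ : ZMod ℓ → Bool) (u : ZMod ℓ → K) (ε : ZMod ℓ) :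
    a2_form K σ u (Pi.single ε 1) = sgn K σ ε * u ε := by
  rw [a2_form_apply, Finset.sum_eq_single ε]
  · simp
  · intro b _ hb
    rw [Pi.single_eq_of_ne hb]
    simp
  · simp

theorem a2_form_sepLeft (σ : ZMod ℓ → Bool) : (a2_form K σ).SeparatingLeft := by
  intro u hu
  funext ε
  have h := hu (Pi.single ε 1)
  rw [a2_form_single] at h
  exact (mul_eq_zero.mp h).resolve_left (a2_sgn_ne_zero σ ε)

theorem a2_form_nondeg (σ : ZMod ℓ → Bool) : (a2_form K σ).Nondegenerate := by
  refine ⟨a2_form_sepLeft σ, ?_⟩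
  intro y hy
  refine a2_form_sepLeft σ y fun u => ?_
  rw [a2_form_comm]
  exact hy u

theorem a2_dual_eq (σ : ZMod ℓ → Bool) (U : Submodule K (ZMod ℓ → K)) :
    dual σ U = (a2_form K σ).orthogonal U := by
  ext y
  rw [LinearMap.BilinForm.mem_orthogonal_iff]
  rfl

theorem dual_dual (U : Submodule K (ZMod ℓ → K)) : dual σ (dual σ U) = U := by
  rw [a2_dual_eq, a2_dual_eq]
  exact LinearMap.BilinForm.orthogonal_orthogonal (a2_form_nondeg σ) (a2_form_refl σ) U

theorem a2_dual_anti {U V : Submodule K (ZMod ℓ → K)} (h : U ≤ V) : dual σ V ≤ dual σ U :=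
  fun _ hy u hu => hy u (h hu)

theorem dual_le_dual {U V : Submodule K (ZMod ℓ → K)} : dual σ V ≤ dual σ U ↔ U ≤ V := by
  constructor
  · intro h
    have := a2_dual_anti (σ := σ) h
    rwa [dual_dual, dual_dual] at this
  · exact a2_dual_anti

theorem split_dual {U : Submodule K (ZMod ℓ → K)} (h : Split π U) : Split π (dual σ U) := by
  intro ε₀ y hy u hu
  have h1 := hy _ (h ε₀ u hu)
  rw [← h1]
  refine Finset.sum_congr rfl fun ε _ => ?_
  rw [res_apply, res_apply]
  split_ifs <;> simp

theorem finrank_dual (U : Submodule K (ZMod ℓ → K)) :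
    finrank K (dual σ U) + finrank K U = ℓ := by
  have h1 := LinearMap.BilinForm.finrank_orthogonal (a2_form_nondeg (K := K) σ) U
  have h2 : finrank K U ≤ finrank K (ZMod ℓ → K) := Submodule.finrank_le U
  have h3 : finrank K (ZMod ℓ → K) = ℓ := by
    rw [Module.finrank_fintype_fun_eq_card, ZMod.card]
  rw [a2_dual_eq, h1]
  omega

theorem dual_bot : dual σ (⊥ : Submodule K (ZMod ℓ → K)) = ⊤ := by
  rw [eq_top_iff]
  intro y _ u hu
  rw [Submodule.mem_bot] at hu
  subst hu
  simp

theorem dual_top : dual σ (⊤ : Submodule K (ZMod ℓ → K)) = ⊥ := by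
  rw [← dual_bot (σ := σ), dual_dual]

/-- `z ⊥ T(dual U)` iff both signed pullbacks of `z` are in `U`. -/
theorem orth_TT_dual {U : Submodule K (ZMod ℓ → K)} {z : ZMod ℓ → K} :
    (∀ t ∈ TT σ (dual σ U), ∑ p, t p * z p = 0) ↔
      ∀ s, (fun ε => sgn K σ ε * z (epos σ s ε)) ∈ U := by
  have key : ∀ s, ∀ y : ZMod ℓ → K, ∑ ε, sgn K σ ε * (sgn K σ ε * z (epos σ s ε)) * y ε =
      ∑ p, push σ s y p * z p := by
    intro s y
    rw [sum_push_mul]
    refine Finset.sum_congr rfl fun ε _ => ?_
    have := a2_sgn_mul_self (K := K) σ ε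
    rw [← mul_assoc, this, one_mul, mul_comm]
  constructor
  · intro h s
    rw [← dual_dual (σ := σ) U]
    intro y hy
    have h1 := h _ (push_mem_TT s hy)
    rw [← key] at h1
    exact h1
  · intro h t ht
    let S : Submodule K (ZMod ℓ → K) :=
      { carrier := {t | ∑ p, t p * z p = 0}
        add_mem' := fun {a b} ha hb => by
          have ha' : ∑ p, a p * z p = 0 := ha
          have hb' : ∑ p, b p * z p = 0 := hb
          show ∑ p, (a + b) p * z p = 0
          simp only [Pi.add_apply, add_mul, Finset.sum_add_distrib, ha', hb', add_zero]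
        zero_mem' := by
          show ∑ p, (0 : ZMod ℓ → K) p * z p = 0
          simp
        smul_mem' := fun c a ha => by
          have ha' : ∑ p, a p * z p = 0 := ha
          show ∑ p, (c • a) p * z p = 0
          simp only [Pi.smul_apply, smul_eq_mul, mul_assoc, ← Finset.mul_sum, ha', mul_zero] }
    have hS : TT σ (dual σ U) ≤ S := by
      rw [TT_le_iff]
      intro s y hy
      show ∑ p, push σ s y p * z p = 0
      rw [← key]
      have h1 := hy _ (h s)
      rw [← h1]
      exact Finset.sum_congr rfl fun ε _ => by ring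
    exact hS ht

theorem a2_std (T : Submodule K (ZMod ℓ → K)) (z : ZMod ℓ → K) :
    z ∈ dual (fun _ : ZMod ℓ => true) T ↔ ∀ t ∈ T, ∑ p, t p * z p = 0 := by
  have h : ∀ t : ZMod ℓ → K, ∑ p, sgn K (fun _ : ZMod ℓ => true) p * z p * t p =
      ∑ p, t p * z p := by
    intro t
    refine Finset.sum_congr rfl fun ε _ => ?_
    unfold sgn
    simp [mul_comm]
  constructor
  · intro hz t ht
    rw [← h]
    exact hz t ht
  · intro hz t ht
    rw [h]
    exact hz t ht

/-- Membership in `T(dual U)` by orthogonality. -/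
theorem mem_TT_dual_iff {U : Submodule K (ZMod ℓ → K)} {t : ZMod ℓ → K} :
    t ∈ TT σ (dual σ U) ↔
      ∀ z : ZMod ℓ → K, (∀ s, (fun ε => sgn K σ ε * z (epos σ s ε)) ∈ U) →
        ∑ p, t p * z p = 0 := by
  constructor
  · intro ht z hz
    exact (orth_TT_dual.mpr hz) t ht
  · intro h
    rw [← dual_dual (σ := fun _ : ZMod ℓ => true) (TT σ (dual σ U)), a2_std]
    intro z hz
    rw [a2_std] at hz
    have h1 := h z (orth_TT_dual.mp hz)
    rw [← h1]
    exact Finset.sum_congr rfl fun ε _ => by ring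

/-- The signed pullback, as a linear map. -/
def a2_pull (K : Type*) [Field K] (σ : ZMod ℓ → Bool) (s : Bool) :
    (ZMod ℓ → K) →ₗ[K] (ZMod ℓ → K) where
  toFun z ε := sgn K σ ε * z (epos σ s ε)
  map_add' u v := by
    funext ε
    simp only [Pi.add_apply, mul_add]
  map_smul' a u := by
    funext ε
    simp only [Pi.smul_apply, smul_eq_mul, RingHom.id_apply]
    ring

theorem a2_pull_apply (σ : ZMod ℓ → Bool) (s : Bool) (z : ZMod ℓ → K) :
    a2_pull K σ s z = fun ε => sgn K σ ε * z (epos σ s ε) := rfl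

theorem a2_pull_inj {z : ZMod ℓ → K} (h : ∀ s, a2_pull K σ s z = 0) : z = 0 := by
  funext p
  have h1 := congrFun (h (!σ p)) p
  rw [a2_pull_apply] at h1
  have h2 : epos σ (!σ p) p = p := by
    unfold epos
    cases σ p <;> simp
  simp only [h2] at h1
  exact (mul_eq_zero.mp h1).resolve_left (a2_sgn_ne_zero σ p)

/-- The orthogonal of `T(dual U)`. -/
def a2_Z (σ : ZMod ℓ → Bool) (U : Submodule K (ZMod ℓ → K)) : Submodule K (ZMod ℓ → K) :=
  U.comap (a2_pull K σ true) ⊓ U.comap (a2_pull K σ false)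

theorem a2_Z_eq (U : Submodule K (ZMod ℓ → K)) :
    dual (fun _ : ZMod ℓ => true) (TT σ (dual σ U)) = a2_Z σ U := by
  ext z
  rw [a2_std, orth_TT_dual]
  constructor
  · intro h
    exact ⟨h true, h false⟩
  · rintro ⟨h1, h2⟩ s
    cases s
    · exact h2
    · exact h1

/-- The difference of pushes. -/
def a2_diff (σ : ZMod ℓ → Bool) (U : Submodule K (ZMod ℓ → K)) :
    (U × U) →ₗ[K] (ZMod ℓ → K) :=
  LinearMap.coprod ((push σ true).comp U.subtype) (-((push σ false).comp U.subtype))

theorem a2_range_diff (U : Submodule K (ZMod ℓ → K)) :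
    LinearMap.range (a2_diff σ U) = TT σ U := by
  unfold a2_diff TT
  rw [LinearMap.range_coprod, LinearMap.range_neg, LinearMap.range_comp, LinearMap.range_comp,
    Submodule.range_subtype]

/-- The pair of pullbacks. -/
def a2_pair (σ : ZMod ℓ → Bool) (U : Submodule K (ZMod ℓ → K)) : a2_Z σ U →ₗ[K] (U × U) :=
  LinearMap.prod
    (((a2_pull K σ true).comp (a2_Z σ U).subtype).codRestrict U fun z => z.2.1)
    (((a2_pull K σ false).comp (a2_Z σ U).subtype).codRestrict U fun z => z.2.2)

theorem a2_pair_inj (U : Submodule K (ZMod ℓ → K)) : Function.Injective (a2_pair σ U) := by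
  rw [← LinearMap.ker_eq_bot, LinearMap.ker_eq_bot']
  intro z hz
  have h1 : a2_pull K σ true z.1 = 0 := congrArg (fun x => (x.1 : ZMod ℓ → K)) hz
  have h2 : a2_pull K σ false z.1 = 0 := congrArg (fun x => (x.2 : ZMod ℓ → K)) hz
  apply Subtype.ext
  refine a2_pull_inj (σ := σ) ?_
  intro s
  cases s
  · exact h2
  · exact h1

theorem a2_range_pair (U : Submodule K (ZMod ℓ → K)) :
    LinearMap.range (a2_pair σ U) = LinearMap.ker (a2_diff σ U) := by
  ext x
  have hx : x ∈ LinearMap.ker (a2_diff σ U) ↔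
      push σ true (x.1 : ZMod ℓ → K) = push σ false (x.2 : ZMod ℓ → K) := by
    rw [LinearMap.mem_ker]
    unfold a2_diff
    rw [LinearMap.coprod_apply, LinearMap.neg_apply, ← sub_eq_add_neg, sub_eq_zero]
    rfl
  rw [hx]
  constructor
  · rintro ⟨z, rfl⟩
    exact push_pull σ z.1
  · intro h
    obtain ⟨z, hz1, hz2⟩ := exists_of_push_eq h
    have e1 : a2_pull K σ true z = x.1 := by
      funext ε
      rw [a2_pull_apply, hz1]
    have e2 : a2_pull K σ false z = x.2 := by
      funext ε
      rw [a2_pull_apply, hz2]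
    refine ⟨⟨z, ?_, ?_⟩, ?_⟩
    · show a2_pull K σ true z ∈ U
      rw [e1]
      exact x.1.2
    · show a2_pull K σ false z ∈ U
      rw [e2]
      exact x.2.2
    · apply Prod.ext
      · apply Subtype.ext
        exact e1
      · apply Subtype.ext
        exact e2

/-- The duality lemma. -/
theorem exc_dual (U : Submodule K (ZMod ℓ → K)) : exc σ (dual σ U) = exc σ U := by
  have h1 := finrank_dual (σ := fun _ : ZMod ℓ => true) (TT σ (dual σ U))
  rw [a2_Z_eq] at h1
  have h2 : finrank K (a2_Z σ U) = finrank K (LinearMap.ker (a2_diff σ U)) := by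
    rw [← a2_range_pair, LinearMap.finrank_range_of_inj (a2_pair_inj U)]
  have h3 := LinearMap.finrank_range_add_finrank_ker (a2_diff σ U)
  rw [a2_range_diff, Module.finrank_prod] at h3
  have h4 := finrank_dual (σ := σ) U
  unfold exc
  omega

end A2

end Pool.Agent.GLFix
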