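import Pool.Agent.GLFix.Basic
import Pool.Agent.GLFix.Asymp

/-!
# MP_ce340f_al, module C2

The exact formula for `gfun`.
-/

open scoped Classical
open Module Filter Asymptotics

noncomputable section

namespace Pool.Agent.GLFix

section C2aux

variable {K : Type*} [Field K] [Finite K]

theorem c2_card_inj {V : Type*} [AddCommGroup V] [Module K V] [FiniteDimensional K V] {N : ℕ}
    (h : finrank K V ≤ N) :
    (Nat.card {f : V →ₗ[K] (Fin N → K) // Function.Injective f} : ℝ) =
      ind K (finrank K V) N := by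
  have : Fintype K := Fintype.ofFinite K
  let b := finBasis K V
  have e : {s : Fin (finrank K V) → (Fin N → K) // LinearIndependent K s} ≃
      {f : V →ₗ[K] (Fin N → K) // Function.Injective f} := by
    refine (b.constr K).toEquiv.subtypeEquiv fun s => ?_
    rw [← LinearMap.ker_eq_bot]
    constructor
    · intro hs
      rw [LinearMap.ker_eq_bot']
      intro m hm
      have hm2 : (b.constr K s) m = 0 := hm
      rw [Basis.constr_apply_fintype] at hm2
      have := Fintype.linearIndependent_iff.mp hs _ hm2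
      apply b.equivFun.injective
      rw [map_zero]
      funext i
      exact this i
    · intro hs
      have h2 : LinearIndependent K (fun i => (b.constr K s) (b i)) :=
        b.linearIndependent.map' (b.constr K s) hs
      have h3 : (fun i => (b.constr K s) (b i)) = s := by
        funext i
        exact b.constr_basis K s i
      rwa [h3] at h2
  rw [← Nat.card_congr e, card_linearIndependent (by rw [finrank_fin_fun]; exact h)]
  unfold ind
  rw [← Fin.prod_univ_eq_prod_range (fun j => (Nat.card K : ℝ) ^ N - (Nat.card K : ℝ) ^ j)]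
  rw [Nat.cast_prod]
  refine Finset.prod_congr rfl fun i _ => ?_
  rw [finrank_fin_fun, Nat.card_eq_fintype_card, Nat.cast_sub, Nat.cast_pow, Nat.cast_pow]
  exact Nat.pow_le_pow_right Fintype.card_pos (i.2.le.trans h)

theorem c2_card_ker {V : Type*} [AddCommGroup V] [Module K V] [FiniteDimensional K V] {N : ℕ}
    (h : finrank K V ≤ N) (S : Submodule K V) :
    (Nat.card {f : V →ₗ[K] (Fin N → K) // LinearMap.ker f = S} : ℝ) =
      ind K (finrank K V - finrank K S) N := by
  have hfr : finrank K (V ⧸ S) = finrank K V - finrank K S := Submodule.finrank_quotient S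
  rw [← hfr, ← c2_card_inj (by rw [hfr]; omega)]
  congr 1
  refine Nat.card_congr ⟨fun f => ⟨S.liftQ f.1 f.2.ge, ?_⟩, fun g => ⟨g.1.comp S.mkQ, ?_⟩, ?_, ?_⟩
  · rw [← LinearMap.ker_eq_bot]
    exact Submodule.ker_liftQ_eq_bot _ _ _ f.2.le
  · rw [LinearMap.ker_comp, LinearMap.ker_eq_bot.mpr g.2]
    exact Submodule.ker_mkQ S
  · intro f
    apply Subtype.ext
    exact Submodule.liftQ_mkQ _ _ _
  · intro g
    apply Subtype.ext
    apply Submodule.linearMap_qext
    exact Submodule.liftQ_mkQ _ _ _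

/-- The matrix (acting on rows) of a linear automorphism. -/
def c2_toGL {N : ℕ} (e : (Fin N → K) ≃ₗ[K] (Fin N → K)) : GL (Fin N) K where
  val := Matrix.transpose (LinearMap.toMatrix' (e : (Fin N → K) →ₗ[K] (Fin N → K)))
  inv := Matrix.transpose (LinearMap.toMatrix' (e.symm : (Fin N → K) →ₗ[K] (Fin N → K)))
  val_inv := by
    rw [← Matrix.transpose_mul, ← LinearMap.toMatrix'_comp]
    simp
  inv_val := by
    rw [← Matrix.transpose_mul, ← LinearMap.toMatrix'_comp]
    simp

theorem c2_vecMul_toGL {N : ℕ} (e : (Fin N → K) ≃ₗ[K] (Fin N → K)) (x : Fin N → K) :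
    Matrix.vecMul x (c2_toGL e : Matrix (Fin N) (Fin N) K) = e x := by
  show Matrix.vecMul x (Matrix.transpose
    (LinearMap.toMatrix' (e : (Fin N → K) →ₗ[K] (Fin N → K)))) = e x
  rw [Matrix.vecMul_transpose]
  exact LinearMap.toMatrix'_mulVec _ _

theorem c2_vecMul_cancel {N : ℕ} (a : GL (Fin N) K) {x y : Fin N → K}
    (h : Matrix.vecMul x (a : Matrix (Fin N) (Fin N) K) =
      Matrix.vecMul y (a : Matrix (Fin N) (Fin N) K)) : x = y := by
  have h1 := congrArg
    (fun z => Matrix.vecMul z ((a⁻¹ : GL (Fin N) K) : Matrix (Fin N) (Fin N) K)) h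
  have h2 : (a : Matrix (Fin N) (Fin N) K) * ((a⁻¹ : GL (Fin N) K) : Matrix (Fin N) (Fin N) K) = 1 := by
    rw [← Matrix.GeneralLinearGroup.coe_mul, mul_inv_cancel, Matrix.GeneralLinearGroup.coe_one]
  simp only [Matrix.vecMul_vecMul, h2, Matrix.vecMul_one] at h1
  exact h1

theorem c2_exists_gl {V : Type*} [AddCommGroup V] [Module K V] {N : ℕ}
    {f g : V →ₗ[K] (Fin N → K)} (h : LinearMap.ker f = LinearMap.ker g) :
    ∃ a : GL (Fin N) K, ∀ u, Matrix.vecMul (f u) (a : Matrix (Fin N) (Fin N) K) = g u := by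
  let e : LinearMap.range f ≃ₗ[K] LinearMap.range g :=
    f.quotKerEquivRange.symm ≪≫ₗ Submodule.quotEquivOfEq _ _ h ≪≫ₗ g.quotKerEquivRange
  obtain ⟨E, hE⟩ := Submodule.exists_linearEquiv_restrict_eq e
  refine ⟨c2_toGL E, fun u => ?_⟩
  rw [c2_vecMul_toGL]
  have h1 := hE ⟨f u, LinearMap.mem_range_self f u⟩
  rw [← h1]
  have h2 : f.quotKerEquivRange.symm ⟨f u, LinearMap.mem_range_self f u⟩ =
      Submodule.Quotient.mk u := by
    rw [LinearEquiv.symm_apply_eq]
    apply Subtype.ext
    rfl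
  show ((g.quotKerEquivRange (Submodule.quotEquivOfEq _ _ h
    (f.quotKerEquivRange.symm ⟨f u, LinearMap.mem_range_self f u⟩)) : LinearMap.range g) :
      Fin N → K) = g u
  rw [h2]
  rfl

theorem c2_card_gl {V : Type*} [AddCommGroup V] [Module K V] [FiniteDimensional K V] {N : ℕ}
    (hN : finrank K V ≤ N)
    {f g : V →ₗ[K] (Fin N → K)} (h : LinearMap.ker f = LinearMap.ker g) :
    (Nat.card {a : GL (Fin N) K // ∀ u, Matrix.vecMul (f u) (a : Matrix (Fin N) (Fin N) K) = g u} :
      ℝ) / Nat.card (GL (Fin N) K) =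
      (ind K (finrank K V - finrank K (LinearMap.ker g)) N)⁻¹ := by
  set S := LinearMap.ker g with hS
  rw [← c2_card_ker hN S]
  have : Finite (V →ₗ[K] (Fin N → K)) := by
    have : Finite V := Module.finite_of_finite K
    exact Finite.of_injective (fun f => (f : V → (Fin N → K))) DFunLike.coe_injective
  have : Finite (GL (Fin N) K) := inferInstance
  -- all fibres have the same size
  have key : Nat.card (GL (Fin N) K) =
      Nat.card {f : V →ₗ[K] (Fin N → K) // LinearMap.ker f = S} *
      Nat.card {a : GL (Fin N) K // ∀ u, Matrix.vecMul (f u) (a : Matrix (Fin N) (Fin N) K) = g u} := by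
    let act : GL (Fin N) K → {f : V →ₗ[K] (Fin N → K) // LinearMap.ker f = S} := fun a =>
      ⟨(Matrix.vecMulLinear (a : Matrix (Fin N) (Fin N) K)).comp f, by
        rw [← h]
        ext u
        simp only [LinearMap.mem_ker, LinearMap.comp_apply, Matrix.vecMulLinear_apply]
        constructor
        · intro hu
          exact c2_vecMul_cancel a (by rw [hu, Matrix.zero_vecMul])
        · intro hu
          rw [hu, Matrix.zero_vecMul]⟩
    have : Fintype {f : V →ₗ[K] (Fin N → K) // LinearMap.ker f = S} := Fintype.ofFinite _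
    rw [Nat.card_congr (Equiv.sigmaFiberEquiv act).symm, Nat.card_sigma]
    have hfib : ∀ k : {f : V →ₗ[K] (Fin N → K) // LinearMap.ker f = S},
        Nat.card {a // act a = k} = Nat.card {a : GL (Fin N) K //
          ∀ u, Matrix.vecMul (f u) (a : Matrix (Fin N) (Fin N) K) = g u} := by
      intro k
      obtain ⟨c, hc⟩ := c2_exists_gl (f := k.1) (g := g) (by rw [k.2])
      refine Nat.card_congr ((Equiv.mulRight c).subtypeEquiv fun a => ?_)
      constructor
      · intro ha u
        have h1 : Matrix.vecMul (f u) (a : Matrix (Fin N) (Fin N) K) = k.1 u := by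
          rw [← ha]; rfl
        show Matrix.vecMul (f u) ((a * c : GL (Fin N) K) : Matrix (Fin N) (Fin N) K) = g u
        rw [Matrix.GeneralLinearGroup.coe_mul, ← Matrix.vecMul_vecMul, h1, hc]
      · intro ha
        apply Subtype.ext
        ext1 u
        have h1 : Matrix.vecMul (f u) ((a * c : GL (Fin N) K) : Matrix (Fin N) (Fin N) K) = g u :=
          ha u
        rw [Matrix.GeneralLinearGroup.coe_mul, ← Matrix.vecMul_vecMul, ← hc u] at h1
        show Matrix.vecMul (f u) (a : Matrix (Fin N) (Fin N) K) = k.1 u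
        exact c2_vecMul_cancel c h1
    rw [Finset.sum_congr rfl fun k _ => hfib k, Finset.sum_const, smul_eq_mul, Finset.card_univ]
    congr 1
    exact (Nat.card_eq_fintype_card).symm
  rw [key, Nat.cast_mul]
  have h1 : (0 : ℝ) < Nat.card {a : GL (Fin N) K //
      ∀ u, Matrix.vecMul (f u) (a : Matrix (Fin N) (Fin N) K) = g u} := by
    rw [Nat.cast_pos, Nat.card_pos_iff]
    obtain ⟨c, hc⟩ := c2_exists_gl h
    exact ⟨⟨c, hc⟩, inferInstance⟩
  have h2 : (0 : ℝ) < Nat.card {f : V →ₗ[K] (Fin N → K) // LinearMap.ker f = S} := by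
    rw [Nat.cast_pos, Nat.card_pos_iff]
    exact ⟨⟨g, rfl⟩, inferInstance⟩
  field_simp

theorem c2_card_gl_zero {V : Type*} [AddCommGroup V] [Module K V] {N : ℕ}
    {f g : V →ₗ[K] (Fin N → K)} (h : LinearMap.ker f ≠ LinearMap.ker g) :
    Nat.card {a : GL (Fin N) K //
      ∀ u, Matrix.vecMul (f u) (a : Matrix (Fin N) (Fin N) K) = g u} = 0 := by
  rw [Nat.card_eq_zero]
  left
  constructor
  rintro ⟨a, ha⟩
  apply h
  ext u
  rw [LinearMap.mem_ker, LinearMap.mem_ker, ← ha u]
  constructor
  · intro hu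
    rw [hu, Matrix.zero_vecMul]
  · intro hu
    exact c2_vecMul_cancel a (by rw [hu, Matrix.zero_vecMul])

end C2aux

section C2

variable (K : Type*) [Field K] [Finite K] {ℓ : ℕ} [NeZero ℓ]

/-- The subspaces of `K^P` without basis vectors. -/
def Free (S : Submodule K (ZMod ℓ → K)) : Prop := ∀ p, (Pi.single p 1 : ZMod ℓ → K) ∉ S

variable {K}

/-- `{u supported on c | push s u ∈ S}`. -/
def DD (σ : ZMod ℓ → Bool) (s : Bool) (c : Set (ZMod ℓ)) (S : Submodule K (ZMod ℓ → K)) :
    Submodule K (ZMod ℓ → K) := On K c ⊓ S.comap (push σ s)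

omit [Finite K] in
theorem c2_finrank_On (c : Set (ZMod ℓ)) : finrank K (On K c) = c.ncard := by
  have e : On K c ≃ₗ[K] (c → K) :=
    { toFun := fun u ε => u.1 ε.1
      map_add' := fun u v => rfl
      map_smul' := fun a u => rfl
      invFun := fun w => ⟨fun ε => if h : ε ∈ c then w ⟨ε, h⟩ else 0, fun ε hε => by
        simp [hε]⟩
      left_inv := fun u => by
        apply Subtype.ext
        funext ε
        by_cases h : ε ∈ c
        · simp [h]
        · simp [h, u.2 ε h]
      right_inv := fun w => by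
        funext ε
        simp }
  rw [e.finrank_eq, Module.finrank_fintype_fun_eq_card, ← Nat.card_eq_fintype_card,
    Nat.card_coe_set_eq]

/-- The evaluation of a family of vectors on the pushes of the functions supported on `c`. -/
def c2_f (σ : ZMod ℓ → Bool) (s : Bool) (c : Set (ZMod ℓ)) {N : ℕ}
    (F : (ZMod ℓ → K) →ₗ[K] (Fin N → K)) : On K c →ₗ[K] (Fin N → K) :=
  F.comp ((push σ s).comp (On K c).subtype)

omit [Finite K] in
theorem c2_map_ker (σ : ZMod ℓ → Bool) (s : Bool) (c : Set (ZMod ℓ)) {N : ℕ}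
    (F : (ZMod ℓ → K) →ₗ[K] (Fin N → K)) :
    (LinearMap.ker (c2_f σ s c F)).map (On K c).subtype = DD σ s c (LinearMap.ker F) := by
  unfold c2_f DD
  rw [← Submodule.map_comap_subtype]
  rfl

omit [Finite K] in
theorem c2_ker_eq_iff (σ : ZMod ℓ → Bool) (c : Set (ZMod ℓ)) {N : ℕ}
    (F : (ZMod ℓ → K) →ₗ[K] (Fin N → K)) :
    LinearMap.ker (c2_f σ false c F) = LinearMap.ker (c2_f σ true c F) ↔
      DD σ true c (LinearMap.ker F) = DD σ false c (LinearMap.ker F) := by
  rw [← c2_map_ker, ← c2_map_ker]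
  constructor
  · intro h
    rw [h]
  · intro h
    exact (Submodule.map_injective_of_injective (On K c).injective_subtype h).symm

omit [Finite K] in
theorem c2_finrank_ker (σ : ZMod ℓ → Bool) (s : Bool) (c : Set (ZMod ℓ)) {N : ℕ}
    (F : (ZMod ℓ → K) →ₗ[K] (Fin N → K)) :
    finrank K (LinearMap.ker (c2_f σ s c F)) = finrank K (DD σ s c (LinearMap.ker F)) := by
  rw [← c2_map_ker]
  exact ((LinearMap.ker (c2_f σ s c F)).equivMapOfInjective _
    (On K c).injective_subtype).finrank_eq

/-- The condition on one letter. -/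
def c2_P (σ : ZMod ℓ → Bool) {π : Setoid (ZMod ℓ)} {N : ℕ} (F : (ZMod ℓ → K) →ₗ[K] (Fin N → K))
    (b : Quotient π) (a : GL (Fin N) K) : Prop :=
  ∀ u, Matrix.vecMul (c2_f σ false {ε | Quotient.mk π ε = b} F u)
    (a : Matrix (Fin N) (Fin N) K) = c2_f σ true {ε | Quotient.mk π ε = b} F u

omit [Finite K] in
theorem c2_P_iff (σ : ZMod ℓ → Bool) {π : Setoid (ZMod ℓ)} {N : ℕ}
    (F : (ZMod ℓ → K) →ₗ[K] (Fin N → K)) (g : Quotient π → GL (Fin N) K) :
    (∀ b, c2_P σ F b (g b)) ↔ ∀ ε, Matrix.vecMul (F (Pi.single (epos σ false ε) 1))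
      (g (Quotient.mk π ε) : Matrix (Fin N) (Fin N) K) = F (Pi.single (epos σ true ε) 1) := by
  constructor
  · intro h ε
    have h1 := h (Quotient.mk π ε) ⟨Pi.single ε 1, fun ε' hε' => by
      have : ε' ≠ ε := by
        rintro rfl
        exact hε' rfl
      simp [this]⟩
    have h2 : ∀ s, c2_f σ s {ε' | Quotient.mk π ε' = Quotient.mk π ε} F
        ⟨Pi.single ε 1, fun ε' hε' => by
          have : ε' ≠ ε := by
            rintro rfl
            exact hε' rfl
          simp [this]⟩ = F (Pi.single (epos σ s ε) 1) := by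
      intro s
      show F (push σ s (Pi.single ε 1)) = _
      rw [push_single]
    rw [h2, h2] at h1
    exact h1
  · rintro h b ⟨u, hu⟩
    have h3 : ∀ L : (ZMod ℓ → K) →ₗ[K] (Fin N → K), L u = ∑ ε, u ε • L (Pi.single ε 1) := by
      intro L
      have : u = ∑ ε, u ε • (Pi.single ε 1 : ZMod ℓ → K) := by
        funext p
        simp [Finset.sum_apply, Pi.single_apply]
      conv_lhs => rw [this]
      simp [map_sum]
    show Matrix.vecMul (F (push σ false u)) (g b : Matrix (Fin N) (Fin N) K) = F (push σ true u)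
    have h4 := h3 ((Matrix.vecMulLinear (g b : Matrix (Fin N) (Fin N) K)).comp
      (F.comp (push σ false)))
    have h5 := h3 (F.comp (push σ true))
    simp only [LinearMap.comp_apply, Matrix.vecMulLinear_apply] at h4 h5
    rw [h4, h5]
    refine Finset.sum_congr rfl fun ε _ => ?_
    by_cases hε : Quotient.mk π ε = b
    · subst hε
      rw [push_single, push_single, h ε]
    · rw [hu ε hε, zero_smul, zero_smul]

variable (K)

instance fintype_submodule : Fintype (Submodule K (ZMod ℓ → K)) := Fintype.ofFinite _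

theorem c2_card_Sol (σ : ZMod ℓ → Bool) (π : Setoid (ZMod ℓ)) (N : ℕ)
    [Fintype ((ZMod ℓ → K) →ₗ[K] (Fin N → K))] :
    Nat.card (Sol K σ π N) = ∑ F : (ZMod ℓ → K) →ₗ[K] (Fin N → K),
      if Free K (LinearMap.ker F) then ∏ b : Quotient π, Nat.card {a // c2_P σ F b a} else 0 := by
  have e1 : Sol K σ π N ≃ {y : ((ZMod ℓ → K) →ₗ[K] (Fin N → K)) × (Quotient π → GL (Fin N) K) //
      Free K (LinearMap.ker y.1) ∧ ∀ b, c2_P σ y.1 b (y.2 b)} := by
    refine ((Equiv.prodComm _ _).trans
      (Equiv.prodCongr ((Pi.basisFun K (ZMod ℓ)).constr K).toEquiv (Equiv.refl _))).subtypeEquiv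
      fun x => ?_
    have h1 : ∀ p, ((Pi.basisFun K (ZMod ℓ)).constr K x.2) (Pi.single p 1) = x.2 p := by
      intro p
      rw [← Pi.basisFun_apply, Basis.constr_basis]
    show x ∈ Sol K σ π N ↔ Free K (LinearMap.ker ((Pi.basisFun K (ZMod ℓ)).constr K x.2)) ∧
      ∀ b, c2_P σ ((Pi.basisFun K (ZMod ℓ)).constr K x.2) b (x.1 b)
    rw [c2_P_iff]
    unfold Free Sol
    simp only [LinearMap.mem_ker, h1]
    rfl
  rw [Nat.card_congr e1, Nat.card_congr (Equiv.subtypeProdEquivSigmaSubtype
    (fun (F : (ZMod ℓ → K) →ₗ[K] (Fin N → K)) (g : Quotient π → GL (Fin N) K) =>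
      Free K (LinearMap.ker F) ∧ ∀ b, c2_P σ F b (g b))), Nat.card_sigma]
  refine Finset.sum_congr rfl fun F _ => ?_
  split_ifs with h
  · simp only [h, true_and]
    rw [Nat.card_congr (Equiv.subtypePiEquivPi (p := fun b a => c2_P σ F b a)), Nat.card_pi]
  · simp [h]

theorem gfun_formula {σ : ZMod ℓ → Bool} {π : Setoid (ZMod ℓ)} (hred : Reduced σ π) {N : ℕ}
    (hN : ℓ ≤ N) :
    gfun K σ π N =
      ∑ S ∈ (Finset.univ : Finset (Submodule K (ZMod ℓ → K))).filter (fun S => Free K S),
        ind K (ℓ - finrank K S) N *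
          ∏ b : Quotient π,
            (if DD σ true {ε | Quotient.mk π ε = b} S = DD σ false {ε | Quotient.mk π ε = b} S
              then (ind K (Set.ncard {ε | Quotient.mk π ε = b} -
                finrank K (DD σ true {ε | Quotient.mk π ε = b} S)) N)⁻¹
              else 0) := by
  have : Finite ((ZMod ℓ → K) →ₗ[K] (Fin N → K)) :=
    Finite.of_injective (fun f => (f : (ZMod ℓ → K) → (Fin N → K))) DFunLike.coe_injective
  have : Fintype ((ZMod ℓ → K) →ₗ[K] (Fin N → K)) := Fintype.ofFinite _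
  set W : Submodule K (ZMod ℓ → K) → ℝ := fun S => ∏ b : Quotient π,
            (if DD σ true {ε | Quotient.mk π ε = b} S = DD σ false {ε | Quotient.mk π ε = b} S
              then (ind K (Set.ncard {ε | Quotient.mk π ε = b} -
                finrank K (DD σ true {ε | Quotient.mk π ε = b} S)) N)⁻¹
              else 0) with hW
  have h1 : gfun K σ π N = ∑ F : (ZMod ℓ → K) →ₗ[K] (Fin N → K),
      if Free K (LinearMap.ker F) then W (LinearMap.ker F) else 0 := by
    unfold gfun
    rw [c2_card_Sol, Nat.cast_sum, Finset.sum_div]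
    refine Finset.sum_congr rfl fun F _ => ?_
    split_ifs with hF
    · have hc : (Nat.card (GL (Fin N) K) : ℝ) ^ Nat.card (Quotient π) =
          ∏ b : Quotient π, (Nat.card (GL (Fin N) K) : ℝ) := by
        rw [Finset.prod_const, Finset.card_univ, Nat.card_eq_fintype_card (α := Quotient π)]
      rw [hc, Nat.cast_prod, ← Finset.prod_div_distrib, hW]
      refine Finset.prod_congr rfl fun b _ => ?_
      split_ifs with hb
      · rw [← c2_finrank_ker, ← c2_finrank_On (K := K)]
        refine c2_card_gl ?_ ((c2_ker_eq_iff σ _ F).mpr hb)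
        have := Submodule.finrank_le (On K {ε | Quotient.mk π ε = b})
        rw [Module.finrank_fintype_fun_eq_card, ZMod.card] at this
        omega
      · have : Nat.card {a // c2_P σ F b a} = 0 :=
          c2_card_gl_zero fun h => hb ((c2_ker_eq_iff σ _ F).mp h)
        rw [this]
        simp
    · simp
  rw [h1, ← Finset.sum_fiberwise (Finset.univ : Finset ((ZMod ℓ → K) →ₗ[K] (Fin N → K)))
    (fun F => LinearMap.ker F), Finset.sum_filter]
  refine Finset.sum_congr rfl fun S _ => ?_
  have h2 : ∑ F ∈ (Finset.univ : Finset ((ZMod ℓ → K) →ₗ[K] (Fin N → K))).filter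
      (fun F => LinearMap.ker F = S),
      (if Free K (LinearMap.ker F) then W (LinearMap.ker F) else 0) =
      ∑ F ∈ (Finset.univ : Finset ((ZMod ℓ → K) →ₗ[K] (Fin N → K))).filter
      (fun F => LinearMap.ker F = S), (if Free K S then W S else 0) := by
    refine Finset.sum_congr rfl fun F hF => ?_
    rw [(Finset.mem_filter.mp hF).2]
  rw [h2, Finset.sum_const, nsmul_eq_mul]
  have h3 : (((Finset.univ : Finset ((ZMod ℓ → K) →ₗ[K] (Fin N → K))).filter
      (fun F => LinearMap.ker F = S)).card : ℝ) = ind K (ℓ - finrank K S) N := by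
    have h4 := c2_card_ker (K := K) (V := ZMod ℓ → K) (N := N)
      (by rw [Module.finrank_fintype_fun_eq_card, ZMod.card]; exact hN) S
    rw [Module.finrank_fintype_fun_eq_card, ZMod.card] at h4
    rw [← h4, Nat.card_eq_fintype_card, Fintype.card_subtype]
  rw [h3]
  split_ifs <;> simp [hW]

theorem gfun_bot (σ : ZMod ℓ → Bool) {N : ℕ} (hN : 1 ≤ N) :
    gfun K σ (⊥ : Setoid (ZMod ℓ)) N = 1 := by
  have : Finite ((ZMod ℓ → K) →ₗ[K] (Fin N → K)) :=
    Finite.of_injective (fun f => (f : (ZMod ℓ → K) → (Fin N → K))) DFunLike.coe_injective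
  have : Fintype ((ZMod ℓ → K) →ₗ[K] (Fin N → K)) := Fintype.ofFinite _
  have hq : (1 : ℝ) < (Nat.card K : ℝ) ^ N := by
    have h1 : 1 < Nat.card K := Finite.one_lt_card
    exact one_lt_pow₀ (by exact_mod_cast h1) (by omega)
  have hind : ind K 1 N = (Nat.card K : ℝ) ^ N - 1 := by
    unfold ind
    simp
  have hQ : Fintype.card (Quotient (⊥ : Setoid (ZMod ℓ))) = ℓ := by
    have e : ZMod ℓ ≃ Quotient (⊥ : Setoid (ZMod ℓ)) :=
      Equiv.ofBijective (Quotient.mk ⊥) ⟨fun a b h => Quotient.exact h, Quotient.mk_surjective⟩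
    rw [← Fintype.card_congr e, ZMod.card]
  have hterm : ∀ F : (ZMod ℓ → K) →ₗ[K] (Fin N → K), Free K (LinearMap.ker F) →
      ∀ b : Quotient (⊥ : Setoid (ZMod ℓ)),
      (Nat.card {a // c2_P σ F b a} : ℝ) / Nat.card (GL (Fin N) K) =
        ((Nat.card K : ℝ) ^ N - 1)⁻¹ := by
    intro F hF b
    induction b using Quotient.inductionOn with
    | h ε =>
    have hset : {ε' : ZMod ℓ | Quotient.mk (⊥ : Setoid (ZMod ℓ)) ε' = Quotient.mk ⊥ ε} = {ε} := by
      ext ε'
      simp only [Set.mem_setOf_eq, Set.mem_singleton_iff]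
      constructor
      · intro h
        exact Quotient.exact h
      · rintro rfl
        rfl
    have hker : ∀ s, LinearMap.ker (c2_f σ s
        {ε' : ZMod ℓ | Quotient.mk (⊥ : Setoid (ZMod ℓ)) ε' = Quotient.mk ⊥ ε} F) = ⊥ := by
      intro s
      rw [LinearMap.ker_eq_bot']
      rintro ⟨u, hu⟩ h
      rw [hset] at hu
      have h1 : u = u ε • (Pi.single ε 1 : ZMod ℓ → K) := by
        funext ε'
        by_cases h : ε' = ε
        · subst h
          simp
        · rw [hu ε' h]
          simp [h]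
      have h2 : F (push σ s u) = 0 := h
      rw [h1, map_smul, map_smul, push_single] at h2
      rcases smul_eq_zero.mp h2 with h3 | h3
      · apply Subtype.ext
        show u = 0
        rw [h1, h3, zero_smul]
      · exact absurd h3 (hF _)
    have h1 := c2_card_gl (K := K) (N := N) (f := c2_f σ false
        {ε' : ZMod ℓ | Quotient.mk (⊥ : Setoid (ZMod ℓ)) ε' = Quotient.mk ⊥ ε} F) (g := c2_f σ true
        {ε' : ZMod ℓ | Quotient.mk (⊥ : Setoid (ZMod ℓ)) ε' = Quotient.mk ⊥ ε} F)
        (by rw [c2_finrank_On, hset, Set.ncard_singleton]; exact hN) (by rw [hker, hker])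
    rw [hker, finrank_bot, c2_finrank_On, Nat.sub_zero] at h1
    rw [← hind]
    refine Eq.trans h1 ?_
    rw [hset, Set.ncard_singleton]
  have hcount : ((Finset.univ.filter
      (fun F : (ZMod ℓ → K) →ₗ[K] (Fin N → K) => Free K (LinearMap.ker F))).card : ℝ) =
      ((Nat.card K : ℝ) ^ N - 1) ^ ℓ := by
    rw [← Fintype.card_subtype, ← Nat.card_eq_fintype_card]
    have e : {v : ZMod ℓ → (Fin N → K) // ∀ p, v p ≠ 0} ≃
        {F : (ZMod ℓ → K) →ₗ[K] (Fin N → K) // Free K (LinearMap.ker F)} := by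
      refine ((Pi.basisFun K (ZMod ℓ)).constr K).toEquiv.subtypeEquiv fun v => ?_
      have h1 : ∀ p, ((Pi.basisFun K (ZMod ℓ)).constr K v) (Pi.single p 1) = v p := by
        intro p
        rw [← Pi.basisFun_apply, Basis.constr_basis]
      show _ ↔ ∀ p, (Pi.single p 1 : ZMod ℓ → K) ∉
        LinearMap.ker ((Pi.basisFun K (ZMod ℓ)).constr K v)
      simp only [LinearMap.mem_ker, h1]
    rw [← Nat.card_congr e, Nat.card_congr (Equiv.subtypePiEquivPi
      (p := fun (_ : ZMod ℓ) (x : Fin N → K) => x ≠ 0)), Nat.card_pi, Finset.prod_const,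
      Finset.card_univ, ZMod.card, Nat.cast_pow]
    congr 1
    have : Fintype K := Fintype.ofFinite K
    have h2 : Nat.card {x : Fin N → K // x ≠ 0} = Nat.card K ^ N - 1 := by
      rw [Nat.card_eq_fintype_card, Fintype.card_subtype_compl, Fintype.card_subtype_eq,
        Fintype.card_fun, Fintype.card_fin, Nat.card_eq_fintype_card]
    rw [h2, Nat.cast_sub (Nat.one_le_pow _ _ Nat.card_pos), Nat.cast_pow, Nat.cast_one]
  unfold gfun
  rw [c2_card_Sol, Nat.cast_sum, Finset.sum_div]
  have hc : (Nat.card (GL (Fin N) K) : ℝ) ^ Nat.card (Quotient (⊥ : Setoid (ZMod ℓ))) =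
      ∏ b : Quotient (⊥ : Setoid (ZMod ℓ)), (Nat.card (GL (Fin N) K) : ℝ) := by
    rw [Finset.prod_const, Finset.card_univ,
      Nat.card_eq_fintype_card (α := Quotient (⊥ : Setoid (ZMod ℓ)))]
  have h1 : ∀ F : (ZMod ℓ → K) →ₗ[K] (Fin N → K),
      (((if Free K (LinearMap.ker F) then ∏ b : Quotient (⊥ : Setoid (ZMod ℓ)),
        Nat.card {a // c2_P σ F b a} else 0 : ℕ) : ℝ) /
        (Nat.card (GL (Fin N) K) : ℝ) ^ Nat.card (Quotient (⊥ : Setoid (ZMod ℓ)))) =
      if Free K (LinearMap.ker F) then (((Nat.card K : ℝ) ^ N - 1)⁻¹) ^ ℓ else 0 := by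
    intro F
    split_ifs with hF
    · rw [hc, Nat.cast_prod, ← Finset.prod_div_distrib,
        Finset.prod_congr rfl fun b _ => hterm F hF b, Finset.prod_const, Finset.card_univ, hQ]
    · simp
  rw [Finset.sum_congr rfl fun F _ => h1 F, ← Finset.sum_filter, Finset.sum_const, nsmul_eq_mul,
    hcount, ← mul_pow, mul_inv_cancel₀ (by linarith), one_pow]

end C2

end Pool.Agent.GLFix
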