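import Pool.Agent.GLFix.FoldBasic

/-!
# MP_ce340f_al, module H1

Cut vertices: closed subspaces.
-/

open scoped Classical
open Module Filter Asymptotics

set_option linter.unusedSectionVars false

noncomputable section

namespace Pool.Agent.GLFix

section H1

variable {K : Type*} [Field K] {ℓ : ℕ} [NeZero ℓ] {σ : ZMod ℓ → Bool}
  {top ρ τ : Setoid (ZMod ℓ)} {ε₀ : ZMod ℓ} {s : Bool} {A : Set (ZMod ℓ)}

theorem h1_not_of_ne {a b : Bool} (h : a ≠ b) : a = !b := by
  cases a <;> cases b <;> simp at h ⊢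

/-- Restriction to a union of classes. -/
theorem h1_res_sat {π : Setoid (ZMod ℓ)} {U : Submodule K (ZMod ℓ → K)} (hU : Split π U)
    {c : Set (ZMod ℓ)} (hc : ∀ ε ε', π ε ε' → (ε ∈ c ↔ ε' ∈ c)) {u : ZMod ℓ → K}
    (hu : u ∈ U) : res c u ∈ U := by
  rw [sum_res π (res c u)]
  refine Submodule.sum_mem _ fun b _ => ?_
  induction b using Quotient.inductionOn with
  | h ε₁ =>
    rw [← block_eq_mk, res_res]
    by_cases h1 : ε₁ ∈ c
    · have : block π ε₁ ∩ c = block π ε₁ := by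
        refine Set.inter_eq_left.mpr fun ε hε => ?_
        exact (hc ε ε₁ hε).mpr h1
      rw [this]
      exact hU ε₁ u hu
    · have : block π ε₁ ∩ c = ∅ := by
        rw [Set.eq_empty_iff_forall_notMem]
        rintro ε ⟨hε, hε'⟩
        exact h1 ((hc ε ε₁ hε).mp hε')
      rw [this]
      have h0 : res (∅ : Set (ZMod ℓ)) u = 0 := by
        funext ε
        rw [res_apply, if_neg (Set.notMem_empty ε)]; rfl
      rw [h0]
      exact U.zero_mem

theorem h1_cut_le (ρ : Setoid (ZMod ℓ)) (ε₀ : ZMod ℓ) (s : Bool) (A : Set (ZMod ℓ)) :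
    cut σ ρ ε₀ s A ≤ ρ := inf_le_left

theorem h1_cut_chi {ε ε' : ZMod ℓ} (h : cut σ ρ ε₀ s A ε ε') :
    ε ∈ chi σ ρ ε₀ s A ↔ ε' ∈ chi σ ρ ε₀ s A := by
  have := h.2
  exact iff_of_eq this

theorem h1_cut_iff {ε ε' : ZMod ℓ} : cut σ ρ ε₀ s A ε ε' ↔
    ρ ε ε' ∧ (ε ∈ chi σ ρ ε₀ s A ↔ ε' ∈ chi σ ρ ε₀ s A) :=
  ⟨fun h => ⟨h.1, h1_cut_chi h⟩, fun h => ⟨h.1, propext h.2⟩⟩

/-- The stars of the labels of `cut` are inside `A` or outside `A`. -/
theorem h1_sat (hc : CutDatum σ ρ ε₀ s A) (s' : Bool) (ε ε' : ZMod ℓ)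
    (h : cut σ ρ ε₀ s A ε ε') : epos σ s' ε ∈ A ↔ epos σ s' ε' ∈ A := by
  obtain ⟨h1, h2⟩ := h1_cut_iff.mp h
  by_cases hb : ρ ε ε₀ ∧ s' = s
  · obtain ⟨hb, rfl⟩ := hb
    have hb' : ρ ε' ε₀ := ρ.trans' (ρ.symm' h1) hb
    constructor
    · intro h3
      exact (h2.mp ⟨hb, h3⟩).2
    · intro h3
      exact (h2.mpr ⟨hb', h3⟩).2
  · exact hc.star s' ε ε' h1 hb

theorem h1_opp_sat (hc : CutDatum σ ρ ε₀ s A) (ε ε' : ZMod ℓ)
    (h : ρ ε ε') : epos σ (!s) ε ∈ A ↔ epos σ (!s) ε' ∈ A := by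
  refine hc.star (!s) ε ε' h ?_
  rintro ⟨_, h2⟩
  cases s <;> simp at h2

theorem h1_res_TT {π : Setoid (ZMod ℓ)} {V : Submodule K (ZMod ℓ → K)} (hV : Split π V)
    (hA : ∀ s' ε ε', π ε ε' → (epos σ s' ε ∈ A ↔ epos σ s' ε' ∈ A)) {t : ZMod ℓ → K}
    (ht : t ∈ TT σ V) : res A t ∈ TT σ V := by
  obtain ⟨a, ha, b, hb, rfl⟩ := Submodule.mem_sup.mp ht
  obtain ⟨a, ha, rfl⟩ := ha
  obtain ⟨b, hb, rfl⟩ := hb
  rw [map_add, res_push, res_push]
  exact Submodule.add_mem _ (push_mem_TT true (h1_res_sat hV (hA true) ha))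
    (push_mem_TT false (h1_res_sat hV (hA false) hb))

theorem h1_res_TT_cut {V : Submodule K (ZMod ℓ → K)} (hc : CutDatum σ ρ ε₀ s A)
    (hV : Split (cut σ ρ ε₀ s A) V) {t : ZMod ℓ → K} (ht : t ∈ TT σ V) :
    res A t ∈ TT σ V := h1_res_TT hV (h1_sat hc) ht

/-- On the class of `ε₀`, restricting the `s`-push to `A` is restricting to `chi`. -/
theorem h1_res_push_block {u : ZMod ℓ → K} (hu : u ∈ On K (block ρ ε₀)) :
    res A (push σ s u) = push σ s (res (chi σ ρ ε₀ s A) u) := by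
  rw [res_push]
  congr 1
  funext ε
  rw [res_apply, res_apply]
  by_cases hε : ρ ε ε₀
  · have : ε ∈ {ε | epos σ s ε ∈ A} ↔ ε ∈ chi σ ρ ε₀ s A :=
      ⟨fun h => ⟨hε, h⟩, fun h => h.2⟩
    simp only [this]
  · rw [hu ε hε]
    simp

theorem h1_chi_subset : chi σ ρ ε₀ s A ⊆ block ρ ε₀ := fun _ h => h.1

theorem h1_block_inn {ε₁ : ZMod ℓ} (h1 : ρ ε₁ ε₀) (h2 : epos σ s ε₁ ∈ A) :
    block (cut σ ρ ε₀ s A) ε₁ = chi σ ρ ε₀ s A := by
  ext ε
  constructor
  · intro h
    exact (h1_cut_chi h).mpr ⟨h1, h2⟩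
  · intro h
    refine h1_cut_iff.mpr ⟨ρ.trans' h.1 (ρ.symm' h1), ?_⟩
    exact iff_of_true h ⟨h1, h2⟩

theorem h1_block_out {ε₁ : ZMod ℓ} (h1 : ρ ε₁ ε₀) (h2 : epos σ s ε₁ ∉ A) :
    block (cut σ ρ ε₀ s A) ε₁ = block ρ ε₀ \ chi σ ρ ε₀ s A := by
  ext ε
  constructor
  · intro h
    refine ⟨ρ.trans' (h1_cut_iff.mp h).1 h1, fun h3 => h2 ?_⟩
    exact ((h1_cut_chi h).mp h3).2
  · intro h
    refine h1_cut_iff.mpr ⟨ρ.trans' h.1 (ρ.symm' h1), ?_⟩
    exact iff_of_false h.2 fun h3 => h2 h3.2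

theorem h1_block_other {ε₁ : ZMod ℓ} (h1 : ¬ ρ ε₁ ε₀) :
    block (cut σ ρ ε₀ s A) ε₁ = block ρ ε₁ := by
  ext ε
  constructor
  · intro h
    exact (h1_cut_iff.mp h).1
  · intro h
    refine h1_cut_iff.mpr ⟨h, ?_⟩
    refine iff_of_false (fun h3 => h1 (ρ.trans' (ρ.symm' h) h3.1)) fun h3 => h1 h3.1

/-- A cut-closed subspace: functions on the class of `ε₀` with `s`-push in `T(V)`. -/
theorem h1_closed_s {V : Submodule K (ZMod ℓ → K)} (hc : CutDatum σ ρ ε₀ s A)
    (hV : Closed σ (cut σ ρ ε₀ s A) V) {u : ZMod ℓ → K} (hu : u ∈ On K (block ρ ε₀))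
    (hp : push σ s u ∈ TT σ V) : u ∈ V := by
  have h1 : push σ s (res (chi σ ρ ε₀ s A) u) ∈ TT σ V := by
    rw [← h1_res_push_block hu]
    exact h1_res_TT_cut hc hV.1 hp
  have h2 : res (chi σ ρ ε₀ s A) u ∈ V := by
    obtain ⟨ε₁, h3, h4⟩ := hc.inn
    refine hV.2 s ε₁ _ ?_ h1
    rw [h1_block_inn h3 h4]
    exact res_mem_On _ _
  have h5 : u - res (chi σ ρ ε₀ s A) u ∈ V := by
    obtain ⟨ε₁, h3, h4⟩ := hc.out
    refine hV.2 s ε₁ _ ?_ ?_
    · rw [h1_block_out h3 h4]
      intro ε hε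
      rw [Pi.sub_apply, res_apply]
      by_cases h6 : ε ∈ chi σ ρ ε₀ s A
      · rw [if_pos h6, sub_self]
      · rw [if_neg h6, sub_zero]
        exact hu ε fun h7 => hε ⟨h7, h6⟩
    · rw [map_sub]
      exact Submodule.sub_mem _ hp h1
  have := V.add_mem h2 h5
  rwa [add_sub_cancel] at this

/-- Membership in `splitPart` along a cut. -/
theorem h1_mem_splitPart {U : Submodule K (ZMod ℓ → K)} (hc : CutDatum σ ρ ε₀ s A)
    (hU : Split ρ U) {u : ZMod ℓ → K} :
    u ∈ splitPart (cut σ ρ ε₀ s A) U ↔ u ∈ U ∧ res (chi σ ρ ε₀ s A) u ∈ U := by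
  constructor
  · intro h
    refine ⟨splitPart_le _ _ h, ?_⟩
    obtain ⟨ε₁, h3, h4⟩ := hc.inn
    rw [← h1_block_inn h3 h4]
    exact mem_splitPart.mp h ε₁
  · rintro ⟨h1, h2⟩
    rw [mem_splitPart]
    intro ε₁
    by_cases h3 : ε₁ ∈ chi σ ρ ε₀ s A
    · rw [h1_block_inn h3.1 h3.2]
      exact h2
    · by_cases h4 : ρ ε₁ ε₀
      · have h5 : epos σ s ε₁ ∉ A := fun h => h3 ⟨h4, h⟩
        rw [h1_block_out h4 h5]
        have h6 : res (block ρ ε₀ \ chi σ ρ ε₀ s A) u =
            res (block ρ ε₀) u - res (chi σ ρ ε₀ s A) u := by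
          funext ε
          rw [Pi.sub_apply, res_apply, res_apply, res_apply]
          by_cases h7 : ε ∈ chi σ ρ ε₀ s A
          · have h8 : ε ∈ block ρ ε₀ := h7.1
            simp [h7, h8]
          · by_cases h8 : ε ∈ block ρ ε₀ <;> simp [h7, h8]
        rw [h6]
        exact U.sub_mem (hU ε₀ u h1) h2
      · rw [h1_block_other h4]
        exact hU ε₁ u h1

theorem h1_closed_splitPart {U : Submodule K (ZMod ℓ → K)} {π : Setoid (ZMod ℓ)} (hπ : π ≤ ρ)
    (hU : Closed σ ρ U) : Closed σ π (splitPart π U) := by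
  refine ⟨split_splitPart _ _, fun s' ε₁ u hu hp => ?_⟩
  have h1 : u ∈ U := hU.2 s' ε₁ u (On_mono (block_mono hπ ε₁) hu)
    (TT_mono (splitPart_le _ _) hp)
  have h2 : Submodule.span K {u} ≤ splitPart π U := by
    refine le_splitPart (split_span_single hu) ?_
    rw [Submodule.span_singleton_le_iff_mem]
    exact h1
  exact h2 (Submodule.mem_span_singleton_self u)

/-- (ii) -/
theorem h1_res_chi_mem {U N : Submodule K (ZMod ℓ → K)} (hle : ρ ≤ τ)
    (hc : CutDatum σ ρ ε₀ s A) (hU : Closed σ ρ U) (hN : Closed σ τ N)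
    (hUN : dual σ U ≤ N) {y : ZMod ℓ → K} (hy : y ∈ dual σ U) :
    res (chi σ ρ ε₀ s A) y ∈ N := by
  refine hN.2 s ε₀ _ ?_ (TT_mono hUN ?_)
  · exact On_mono (fun ε hε => hle (h1_chi_subset hε)) (res_mem_On _ _)
  rw [mem_TT_dual_iff]
  intro z hz
  rw [sum_push_mul]
  -- the pullbacks of the restriction of `z` to `A`
  have hpull : ∀ s', (fun ε => sgn K σ ε * (res A z) (epos σ s' ε)) =
      res {ε | epos σ s' ε ∈ A} (fun ε => sgn K σ ε * z (epos σ s' ε)) := by
    intro s'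
    funext ε
    rw [res_apply, res_apply]
    by_cases h : epos σ s' ε ∈ A
    · rw [if_pos h, if_pos (show ε ∈ {ε | epos σ s' ε ∈ A} from h)]
    · rw [if_neg h, if_neg (show ¬ ε ∈ {ε | epos σ s' ε ∈ A} from h), mul_zero]
  have hpp : push σ s (fun ε => sgn K σ ε * (res A z) (epos σ s ε)) =
      push σ (!s) (fun ε => sgn K σ ε * (res A z) (epos σ (!s) ε)) := by
    cases s
    · exact (push_pull σ (res A z)).symm
    · exact push_pull σ (res A z)
  have h1 : push σ (!s) (fun ε => sgn K σ ε * (res A z) (epos σ (!s) ε)) ∈ TT σ U := by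
    rw [hpull (!s)]
    exact push_mem_TT (!s) (h1_res_sat hU.1 (h1_opp_sat hc) (hz (!s)))
  rw [← hpp, hpull s] at h1
  set w : ZMod ℓ → K := fun ε => sgn K σ ε * z (epos σ s ε) with hw
  have h2 : res {ε | epos σ s ε ∈ A} w =
      res {ε | epos σ s ε ∈ A ∧ ¬ ρ ε ε₀} w + res (chi σ ρ ε₀ s A) w := by
    funext ε
    rw [Pi.add_apply, res_apply, res_apply, res_apply]
    by_cases h3 : ρ ε ε₀ <;> by_cases h4 : epos σ s ε ∈ A <;> simp [chi, h3, h4]
  have h3 : res {ε | epos σ s ε ∈ A ∧ ¬ ρ ε ε₀} w ∈ U := by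
    refine h1_res_sat hU.1 ?_ (hz s)
    intro ε ε' h
    by_cases h4 : ρ ε ε₀
    · have h5 : ρ ε' ε₀ := ρ.trans' (ρ.symm' h) h4
      simp [h4, h5]
    · have h5 : ¬ ρ ε' ε₀ := fun h6 => h4 (ρ.trans' h h6)
      have := hc.star s ε ε' h (fun h6 => h4 h6.1)
      simp [h4, h5, this]
  have h4 : res (chi σ ρ ε₀ s A) w ∈ U := by
    refine hU.2 s ε₀ _ (On_mono h1_chi_subset (res_mem_On _ _)) ?_
    have h5 : push σ s (res (chi σ ρ ε₀ s A) w) = push σ s (res {ε | epos σ s ε ∈ A} w) -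
        push σ s (res {ε | epos σ s ε ∈ A ∧ ¬ ρ ε ε₀} w) := by
      rw [h2, map_add, add_sub_cancel_left]
    rw [h5]
    exact Submodule.sub_mem _ h1 (push_mem_TT s h3)
  have h5 := hy _ h4
  rw [← h5]
  refine Finset.sum_congr rfl fun ε _ => ?_
  rw [res_apply, res_apply]
  by_cases h6 : ε ∈ chi σ ρ ε₀ s A
  · rw [if_pos h6, if_pos h6, hw]
    have h7 : sgn K σ ε * sgn K σ ε = 1 := by
      unfold sgn
      split_ifs <;> simp
    simp only
    calc y ε * z (epos σ s ε) = (sgn K σ ε * sgn K σ ε) * (y ε * z (epos σ s ε)) := by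
          rw [h7, one_mul]
      _ = sgn K σ ε * y ε * (sgn K σ ε * z (epos σ s ε)) := by ring
  · rw [if_neg h6, if_neg h6, zero_mul, mul_zero]

/-- (ii), continued. -/
theorem h1_dual_splitPart_le {U N : Submodule K (ZMod ℓ → K)} (hle : ρ ≤ τ)
    (hc : CutDatum σ ρ ε₀ s A) (hU : Closed σ ρ U) (hN : Closed σ τ N)
    (hUN : dual σ U ≤ N) : dual σ (splitPart (cut σ ρ ε₀ s A) U) ≤ N := by
  set D : Submodule K (ZMod ℓ → K) :=
    dual σ U ⊔ (dual σ U).map (res (chi σ ρ ε₀ s A)) with hD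
  have h1 : D ≤ N := by
    refine sup_le hUN ?_
    rintro _ ⟨y, hy, rfl⟩
    exact h1_res_chi_mem hle hc hU hN hUN hy
  refine le_trans ?_ h1
  rw [← dual_dual (σ := σ) D, dual_le_dual]
  intro w hw
  rw [h1_mem_splitPart hc hU.1]
  constructor
  · rw [← dual_dual (σ := σ) U]
    intro y hy
    exact hw y (Submodule.mem_sup_left hy)
  · rw [← dual_dual (σ := σ) U]
    intro y hy
    rw [← hw _ (Submodule.mem_sup_right (Submodule.mem_map_of_mem hy))]
    refine Finset.sum_congr rfl fun ε _ => ?_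
    rw [res_apply, res_apply]
    split_ifs <;> simp

theorem h1_dim {V : Type*} [AddCommGroup V] [Module K V] [FiniteDimensional K V]
    (f : V →ₗ[K] V) (X U U' : Submodule K V) (hle : U' ≤ U)
    (h : ∀ u ∈ U, f u ∈ X ↔ u ∈ U') :
    finrank K (X ⊔ U.map f : Submodule K V) + finrank K U' = finrank K X + finrank K U := by
  have h1 := Submodule.finrank_sup_add_finrank_inf_eq X (U.map f)
  have key : ∀ W : Submodule K V, finrank K (W.map f) +
      finrank K (W ⊓ LinearMap.ker f : Submodule K V) = finrank K W := by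
    intro W
    have h2 := LinearMap.finrank_range_add_finrank_ker (f.domRestrict W)
    rw [LinearMap.range_domRestrict, LinearMap.ker_domRestrict] at h2
    have h3 : finrank K (Submodule.comap W.subtype (LinearMap.ker f)) =
        finrank K (W ⊓ LinearMap.ker f : Submodule K V) := by
      rw [← Submodule.map_comap_subtype, Submodule.finrank_map_subtype_eq]
    rw [← h2, h3]
  have h2 := key U
  have h3 := key U'
  have h4 : X ⊓ U.map f = U'.map f := by
    apply le_antisymm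
    · rintro _ ⟨hx, ⟨u, hu, rfl⟩⟩
      exact Submodule.mem_map_of_mem ((h u hu).mp hx)
    · rintro _ ⟨u, hu, rfl⟩
      exact ⟨(h u (hle hu)).mpr hu, Submodule.mem_map_of_mem (hle hu)⟩
  have h5 : U ⊓ LinearMap.ker f = U' ⊓ LinearMap.ker f := by
    apply le_antisymm
    · rintro u ⟨hu, hk⟩
      refine ⟨(h u hu).mp ?_, hk⟩
      rw [LinearMap.mem_ker.mp hk]
      exact X.zero_mem
    · exact inf_le_inf_right _ hle
  rw [h4] at h1
  rw [h5] at h2
  omega

/-- (iii) -/
theorem h1_exc {U : Submodule K (ZMod ℓ → K)} (hc : CutDatum σ ρ ε₀ s A)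
    (hU : Closed σ ρ U) :
    exc σ (splitPart (cut σ ρ ε₀ s A) U) ≤ exc σ U ∧
      (exc σ (splitPart (cut σ ρ ε₀ s A) U) = exc σ U →
        U.map (push σ (!s)) ≤ TT σ (splitPart (cut σ ρ ε₀ s A) U)) := by
  set U' := splitPart (cut σ ρ ε₀ s A) U with hU'
  have hle : U' ≤ U := splitPart_le _ _
  have hsp : Split (cut σ ρ ε₀ s A) U' := split_splitPart _ _
  set X : Submodule K (ZMod ℓ → K) := TT σ U' ⊔ U.map (push σ (!s)) with hX
  have hXA : ∀ t ∈ X, res A t ∈ X := by
    intro t ht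
    obtain ⟨a, ha, b, hb, rfl⟩ := Submodule.mem_sup.mp ht
    obtain ⟨b, hb, rfl⟩ := hb
    rw [map_add]
    refine Submodule.add_mem_sup (h1_res_TT_cut hc hsp ha) ?_
    rw [res_push]
    exact Submodule.mem_map_of_mem (h1_res_sat hU.1 (h1_opp_sat hc) hb)
  have hXT : X ≤ TT σ U := by
    refine sup_le (TT_mono hle) ?_
    rintro _ ⟨u, hu, rfl⟩
    exact push_mem_TT _ hu
  have hTX : TT σ U = X ⊔ U.map (push σ s) := by
    refine le_antisymm ?_ (sup_le hXT ?_)
    · rw [TT_le_iff]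
      intro s' u hu
      by_cases h : s' = s
      · subst h
        exact Submodule.mem_sup_right (Submodule.mem_map_of_mem hu)
      · have : s' = !s := h1_not_of_ne h
        subst this
        exact Submodule.mem_sup_left (Submodule.mem_sup_right (Submodule.mem_map_of_mem hu))
    · rintro _ ⟨u, hu, rfl⟩
      exact push_mem_TT _ hu
  -- the kernel of `U → T(U)/X`
  have hker : ∀ u ∈ U, push σ s u ∈ X → u ∈ U' := by
    intro u hu hp
    have h1 := hXA _ hp
    rw [res_push] at h1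
    have h2 : res {ε | epos σ s ε ∈ A} u =
        res {ε | epos σ s ε ∈ A ∧ ¬ ρ ε ε₀} u + res (chi σ ρ ε₀ s A) u := by
      funext ε
      rw [Pi.add_apply, res_apply, res_apply, res_apply]
      by_cases h3 : ρ ε ε₀ <;> by_cases h4 : epos σ s ε ∈ A <;> simp [chi, h3, h4]
    have h3 : res {ε | epos σ s ε ∈ A ∧ ¬ ρ ε ε₀} u ∈ U := by
      refine h1_res_sat hU.1 ?_ hu
      intro ε ε' h
      by_cases h4 : ρ ε ε₀
      · have h5 : ρ ε' ε₀ := ρ.trans' (ρ.symm' h) h4
        simp [h4, h5]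
      · have h5 : ¬ ρ ε' ε₀ := fun h6 => h4 (ρ.trans' h h6)
        have := hc.star s ε ε' h (fun h6 => h4 h6.1)
        simp [h4, h5, this]
    rw [hU', h1_mem_splitPart hc hU.1]
    refine ⟨hu, hU.2 s ε₀ _ (On_mono h1_chi_subset (res_mem_On _ _)) ?_⟩
    have h5 : push σ s (res (chi σ ρ ε₀ s A) u) = push σ s (res {ε | epos σ s ε ∈ A} u) -
        push σ s (res {ε | epos σ s ε ∈ A ∧ ¬ ρ ε ε₀} u) := by
      rw [h2, map_add, add_sub_cancel_left]
    rw [h5]
    exact Submodule.sub_mem _ (hXT h1) (push_mem_TT s h3)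
  -- dimension count
  have hdim : (finrank K (TT σ U) : ℤ) + finrank K U' = finrank K X + finrank K U := by
    have := h1_dim (push σ s) X U U' hle fun u hu => ⟨hker u hu, fun h =>
      Submodule.mem_sup_left (push_mem_TT s h)⟩
    rw [← hTX] at this
    exact_mod_cast this
  have hTX' : TT σ U' ≤ X := le_sup_left
  have h1 := Submodule.finrank_mono hTX'
  have h2 : exc σ U = finrank K X - finrank K U' := by
    unfold exc
    linarith
  constructor
  · rw [h2]
    unfold exc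
    have : (finrank K (TT σ U') : ℤ) ≤ finrank K X := by exact_mod_cast h1
    linarith
  · intro h3
    rw [h2] at h3
    unfold exc at h3
    have h4 : (finrank K (TT σ U') : ℤ) = finrank K X := by linarith
    have h5 : TT σ U' = X := Submodule.eq_of_le_of_finrank_eq hTX' (by exact_mod_cast h4)
    rw [h5]
    exact le_sup_right

theorem cut_step {U : Submodule K (ZMod ℓ → K)} (hle : ρ ≤ τ) (hc : CutDatum σ ρ ε₀ s A)
    (hU : Closed σ ρ U) (he : exc σ (cl σ τ (dual σ U)) = exc σ U) :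
    Closed σ (cut σ ρ ε₀ s A) (splitPart (cut σ ρ ε₀ s A) U) ∧
      exc σ (splitPart (cut σ ρ ε₀ s A) U) = exc σ U ∧
      cl σ τ (dual σ (splitPart (cut σ ρ ε₀ s A) U)) = cl σ τ (dual σ U) ∧
      cl σ ρ (splitPart (cut σ ρ ε₀ s A) U) = U := by
  set U' := splitPart (cut σ ρ ε₀ s A) U with hU'
  have hUU : U' ≤ U := splitPart_le _ _
  have hcut : cut σ ρ ε₀ s A ≤ ρ := h1_cut_le _ _ _ _
  have hcl : Closed σ (cut σ ρ ε₀ s A) U' := h1_closed_splitPart hcut hU
  have hN : cl σ τ (dual σ U') = cl σ τ (dual σ U) := by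
    refine le_antisymm ?_ (cl_mono (dual_le_dual.mpr hUU))
    exact cl_le (closed_cl _ _ _)
      (h1_dual_splitPart_le hle hc hU (closed_cl _ _ _) (le_cl _ _ _))
  have h1 := h1_exc hc hU
  have h2 : exc σ (cl σ τ (dual σ U')) ≤ exc σ (dual σ U') :=
    exc_cl_le (split_dual (hcl.1.mono (hcut.trans hle)))
  rw [exc_dual, hN, he] at h2
  have h3 : exc σ U' = exc σ U := le_antisymm h1.1 h2
  refine ⟨hcl, h3, hN, ?_⟩
  refine le_antisymm (cl_le hU hUU) ?_
  intro u hu
  rw [sum_res ρ u]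
  refine Submodule.sum_mem _ fun b _ => ?_
  induction b using Quotient.inductionOn with
  | h ε₁ =>
    rw [← block_eq_mk]
    refine (closed_cl σ ρ U').2 (!s) ε₁ _ (res_mem_On _ _) ?_
    refine TT_mono (le_cl σ ρ U') (h1.2 h3 ?_)
    exact Submodule.mem_map_of_mem (hU.1 ε₁ u hu)

theorem isT_splitPart {U : Submodule K (ZMod ℓ → K)} {k : ℤ} (hc : CutDatum σ top ε₀ s A)
    (hU : IsT σ top k U) :
    IsT σ (cut σ top ε₀ s A) k (splitPart (cut σ top ε₀ s A) U) ∧
      cl σ top (splitPart (cut σ top ε₀ s A) U) = U := by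
  obtain ⟨h1, h2, h3, h4⟩ := cut_step le_rfl hc hU.closed hU.dexc_eq
  refine ⟨⟨⟨h1, ?_, ?_⟩, ?_, ?_⟩, h4⟩
  · intro h
    exact hU.ne_top (top_le_iff.mp (h ▸ splitPart_le _ _))
  · intro h
    have h5 : cl σ (cut σ top ε₀ s A) (dual σ (splitPart (cut σ top ε₀ s A) U)) ≤
        cl σ top (dual σ U) := by
      refine cl_le_of_le (h1_cut_le _ _ _ _) (split_dual h1.1) ?_ (closed_cl _ _ _)
      rw [← h3]
      exact le_cl _ _ _
    rw [h] at h5
    exact hU.imp (top_le_iff.mp h5)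
  · rw [h2, hU.exc_eq]
  · set U' := splitPart (cut σ top ε₀ s A) U with hU'
    set M := cl σ (cut σ top ε₀ s A) (dual σ U') with hM
    have h5 : exc σ M ≤ exc σ U' := by
      have := exc_cl_le (σ := σ) (split_dual (σ := σ) h1.1)
      rwa [exc_dual] at this
    have h6 : cl σ top M = cl σ top (dual σ U') := by
      refine le_antisymm (cl_le (closed_cl _ _ _) ?_) (cl_mono (le_cl _ _ _))
      exact cl_le_of_le (h1_cut_le _ _ _ _) (split_dual h1.1) (le_cl _ _ _) (closed_cl _ _ _)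
    have h7 : exc σ (cl σ top M) ≤ exc σ M :=
      exc_cl_le ((closed_cl σ _ (dual σ U')).1.mono (h1_cut_le _ _ _ _))
    rw [h6, h3, hU.dexc_eq, ← h2] at h7
    exact le_antisymm h5 h7

/-- The coarser closure of a subspace closed for the cut partition. -/
theorem h1_cl_cut {V : Submodule K (ZMod ℓ → K)} (hc : CutDatum σ top ε₀ s A)
    (hV : Closed σ (cut σ top ε₀ s A) V) :
    splitPart (cut σ top ε₀ s A) (cl σ top V) = V ∧ exc σ (cl σ top V) = exc σ V ∧
      (V ≠ ⊤ → cl σ top V ≠ ⊤) := by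
  -- `Y`: functions on the class of `ε₀` with the other push in `T(V)`
  set Y : Submodule K (ZMod ℓ → K) :=
    On K (block top ε₀) ⊓ (TT σ V).comap (push σ (!s)) with hY
  have hYmem : ∀ u, u ∈ Y ↔ u ∈ On K (block top ε₀) ∧ push σ (!s) u ∈ TT σ V :=
    fun u => Iff.rfl
  set W := V ⊔ Y with hW
  have hcut : cut σ top ε₀ s A ≤ top := h1_cut_le _ _ _ _
  have hVW : V ≤ W := le_sup_left
  -- `u ∈ Y` supported on a class of the cut is in `V`
  have hYV : ∀ ε₁, top ε₁ ε₀ → ∀ u ∈ Y, u ∈ On K (block (cut σ top ε₀ s A) ε₁) → u ∈ V :=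
    fun ε₁ _ u hu h1 => hV.2 (!s) ε₁ u h1 hu.2
  have hchiV : ∀ u ∈ Y, res (chi σ top ε₀ s A) u ∈ V → u ∈ V := by
    intro u hu h1
    have h2 : u - res (chi σ top ε₀ s A) u ∈ V := by
      obtain ⟨ε₁, h3, h4⟩ := hc.out
      refine hYV ε₁ h3 _ ?_ ?_
      · refine Y.sub_mem hu ⟨On_mono h1_chi_subset (res_mem_On _ _), push_mem_TT _ h1⟩
      · rw [h1_block_out h3 h4]
        intro ε hε
        rw [Pi.sub_apply, res_apply]
        by_cases h6 : ε ∈ chi σ top ε₀ s A
        · rw [if_pos h6, sub_self]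
        · rw [if_neg h6, sub_zero]
          exact hu.1 ε fun h7 => hε ⟨h7, h6⟩
    have := V.add_mem h1 h2
    rwa [add_sub_cancel] at this
  have hcchiV : ∀ u ∈ Y, u - res (chi σ top ε₀ s A) u ∈ V → u ∈ V := by
    intro u hu h1
    have h2 : res (chi σ top ε₀ s A) u ∈ V := by
      obtain ⟨ε₁, h3, h4⟩ := hc.inn
      refine hYV ε₁ h3 _ ?_ ?_
      · have h5 : res (chi σ top ε₀ s A) u = u - (u - res (chi σ top ε₀ s A) u) := by
          rw [sub_sub_cancel]
        have h6 : u - res (chi σ top ε₀ s A) u ∈ Y :=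
          ⟨Submodule.sub_mem _ hu.1 (On_mono h1_chi_subset (res_mem_On _ _)), push_mem_TT _ h1⟩
        rw [h5]
        exact Y.sub_mem hu h6
      · rw [h1_block_inn h3 h4]
        exact res_mem_On _ _
    have := V.add_mem h2 h1
    rwa [add_sub_cancel] at this
  have hTW : TT σ W = TT σ V ⊔ Y.map (push σ s) := by
    refine le_antisymm ?_ (sup_le (TT_mono hVW) ?_)
    · rw [TT_le_iff]
      intro s' u hu
      obtain ⟨v, hv, y, hy, rfl⟩ := Submodule.mem_sup.mp hu
      rw [map_add]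
      refine Submodule.add_mem _ (Submodule.mem_sup_left (push_mem_TT s' hv)) ?_
      by_cases h : s' = s
      · subst h
        exact Submodule.mem_sup_right (Submodule.mem_map_of_mem hy)
      · have : s' = !s := h1_not_of_ne h
        subst this
        exact Submodule.mem_sup_left hy.2
    · rintro _ ⟨y, hy, rfl⟩
      exact push_mem_TT s (Submodule.mem_sup_right hy)
  have hYs : ∀ u ∈ Y, push σ s u ∈ TT σ V ↔ u ∈ V ⊓ Y := by
    intro u hu
    exact ⟨fun h => ⟨h1_closed_s hc hV hu.1 h, hu⟩, fun h => push_mem_TT s h.1⟩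
  have hexc : exc σ W = exc σ V := by
    have h1 := h1_dim (push σ s) (TT σ V) Y (V ⊓ Y) inf_le_right hYs
    rw [← hTW] at h1
    have h2 := Submodule.finrank_sup_add_finrank_inf_eq V Y
    rw [← hW] at h2
    unfold exc
    omega
  have hsplW : Split top W := by
    refine (hV.1.mono hcut).sup ?_
    intro ε₁ u hu
    by_cases h : top ε₀ ε₁
    · rw [← block_eq_of_rel h, res_of_mem_On hu.1]
      exact hu
    · rw [res_eq_zero hu.1]
      · exact Y.zero_mem
      · rw [Set.disjoint_left]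
        intro ε h1 h2
        exact h (top.trans' (top.symm' h2) h1)
  have hclW : Closed σ top W := by
    refine ⟨hsplW, fun s' ε₁ u hu hp => ?_⟩
    rw [hTW] at hp
    obtain ⟨t, ht, _, ⟨y, hy, rfl⟩, hty⟩ := Submodule.mem_sup.mp hp
    by_cases hb : top ε₁ ε₀ ∧ s' = s
    · obtain ⟨hb, rfl⟩ := hb
      have h1 : u - y ∈ V := by
        refine h1_closed_s hc hV ?_ ?_
        · refine Submodule.sub_mem _ ?_ hy.1
          rw [← block_eq_of_rel hb]
          exact hu
        · rw [map_sub, ← hty, add_sub_cancel_right]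
          exact ht
      have := W.add_mem (hVW h1) (Submodule.mem_sup_right hy)
      rwa [sub_add_cancel] at this
    · -- the push of `u` is supported on `A` or outside `A`, hence `y ∈ V`
      have hyV : y ∈ V := by
        have hst : ∀ ε, top ε ε₁ → (epos σ s' ε ∈ A ↔ epos σ s' ε₁ ∈ A) := by
          intro ε hε
          refine hc.star s' ε ε₁ hε ?_
          rintro ⟨h1, h2⟩
          exact hb ⟨top.trans' (top.symm' hε) h1, h2⟩
        by_cases hA : epos σ s' ε₁ ∈ A
        · -- supported on `A`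
          refine hcchiV y hy ?_
          have h1 : res A (push σ s' u) = push σ s' u := by
            rw [res_push]
            congr 1
            refine res_of_mem_On fun ε hε => ?_
            by_contra h2
            refine hε ((hst ε ?_).mpr hA)
            by_contra h3
            exact h2 (hu ε h3)
          rw [← hty, map_add, h1_res_push_block hy.1] at h1
          have h2 : push σ s (y - res (chi σ top ε₀ s A) y) ∈ TT σ V := by
            have h3 : push σ s (y - res (chi σ top ε₀ s A) y) = res A t - t := by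
              rw [map_sub]
              have h4 := h1
              rw [← sub_eq_zero] at h4 ⊢
              rw [← neg_eq_zero, ← h4]
              abel
            rw [h3]
            exact Submodule.sub_mem _ (h1_res_TT_cut hc hV.1 ht) ht
          exact h1_closed_s hc hV
            (Submodule.sub_mem _ hy.1 (On_mono h1_chi_subset (res_mem_On _ _))) h2
        · -- supported outside `A`
          refine hchiV y hy ?_
          have h1 : res A (push σ s' u) = 0 := by
            rw [res_push]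
            have h2 : res {ε | epos σ s' ε ∈ A} u = 0 := by
              funext ε
              rw [res_apply]
              split_ifs with h3
              · by_cases h4 : top ε ε₁
                · exact absurd ((hst ε h4).mp h3) hA
                · exact hu ε h4
              · rfl
            rw [h2, map_zero]
          rw [← hty, map_add, h1_res_push_block hy.1] at h1
          have h2 : push σ s (res (chi σ top ε₀ s A) y) ∈ TT σ V := by
            have h3 : push σ s (res (chi σ top ε₀ s A) y) = - res A t :=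
              eq_neg_of_add_eq_zero_right h1
            rw [h3]
            exact Submodule.neg_mem _ (h1_res_TT_cut hc hV.1 ht)
          exact h1_closed_s hc hV (On_mono h1_chi_subset (res_mem_On _ _)) h2
      have hpV : push σ s' u ∈ TT σ V := by
        rw [← hty]
        exact Submodule.add_mem _ ht (push_mem_TT s hyV)
      by_cases hb' : top ε₁ ε₀
      · have hs : s' = !s := h1_not_of_ne fun h => hb ⟨hb', h⟩
        subst hs
        refine Submodule.mem_sup_right ⟨?_, hpV⟩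
        rw [← block_eq_of_rel hb']
        exact hu
      · refine hVW (hV.2 s' ε₁ u ?_ hpV)
        rw [h1_block_other hb']
        exact hu
  have hclV : cl σ top V = W := by
    refine le_antisymm (cl_le hclW hVW) (sup_le (le_cl _ _ _) ?_)
    intro u hu
    exact (closed_cl σ top V).2 (!s) ε₀ u hu.1 (TT_mono (le_cl _ _ _) hu.2)
  have hsp : splitPart (cut σ top ε₀ s A) W = V := by
    refine le_antisymm ?_ (le_splitPart hV.1 hVW)
    intro w hw
    rw [sum_res (cut σ top ε₀ s A) w]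
    refine Submodule.sum_mem _ fun b _ => ?_
    induction b using Quotient.inductionOn with
    | h ε₁ =>
      rw [← block_eq_mk]
      have h1 : res (block (cut σ top ε₀ s A) ε₁) w ∈ W := mem_splitPart.mp hw ε₁
      have h2 := res_mem_On (block (cut σ top ε₀ s A) ε₁) w
      set w' := res (block (cut σ top ε₀ s A) ε₁) w with hw'
      obtain ⟨v, hv, y, hy, hvy⟩ := Submodule.mem_sup.mp h1
      by_cases hb : top ε₁ ε₀
      · refine hYV ε₁ hb w' ?_ h2
        have h3 : res (block top ε₀) w' = w' := by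
          refine res_of_mem_On (On_mono ?_ h2)
          rw [← block_eq_of_rel hb]
          exact block_mono hcut ε₁
        rw [← h3, ← hvy, map_add]
        refine Y.add_mem ?_ ?_
        · exact ⟨res_mem_On _ _, push_mem_TT _ ((hV.1.mono hcut) ε₀ v hv)⟩
        · rw [res_of_mem_On hy.1]
          exact hy
      · have h3 : res (block (cut σ top ε₀ s A) ε₁) w' = w' := res_of_mem_On h2
        rw [← h3, ← hvy, map_add]
        refine V.add_mem (hV.1 ε₁ v hv) ?_
        rw [res_eq_zero hy.1]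
        · exact V.zero_mem
        · rw [h1_block_other hb, Set.disjoint_left]
          intro ε h4 h5
          exact hb (top.trans' (top.symm' h4) h5)
  rw [hclV]
  refine ⟨hsp, hexc, fun hne h => hne ?_⟩
  rw [← hsp, h]
  exact top_le_iff.mp (le_splitPart (split_top _) le_rfl)

theorem isT_cl {U : Submodule K (ZMod ℓ → K)} {k : ℤ} (hc : CutDatum σ top ε₀ s A)
    (hU : IsT σ (cut σ top ε₀ s A) k U) :
    IsT σ top k (cl σ top U) ∧ splitPart (cut σ top ε₀ s A) (cl σ top U) = U := by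
  obtain ⟨h1, h2, h3⟩ := h1_cl_cut hc hU.closed
  set M := cl σ (cut σ top ε₀ s A) (dual σ U) with hM
  obtain ⟨m1, m2, m3⟩ := h1_cl_cut hc (closed_cl σ (cut σ top ε₀ s A) (dual σ U))
  rw [← hM] at m1 m2 m3
  have hN : cl σ top (dual σ (cl σ top U)) = cl σ top M := by
    refine le_antisymm (cl_mono ?_) (cl_le (closed_cl _ _ _) ?_)
    · exact (dual_le_dual.mpr (le_cl _ _ _)).trans (le_cl _ _ _)
    · refine cl_le_of_le (h1_cut_le _ _ _ _) (split_dual hU.closed.1) ?_ (closed_cl _ _ _)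
      have := h1_dual_splitPart_le le_rfl hc (closed_cl σ top U)
        (closed_cl σ top (dual σ (cl σ top U))) (le_cl _ _ _)
      rwa [h1] at this
  refine ⟨⟨⟨closed_cl _ _ _, h3 hU.ne_top, ?_⟩, ?_, ?_⟩, h1⟩
  · rw [hN]
    exact m3 hU.imp
  · rw [h2, hU.exc_eq]
  · rw [hN, m2, h2, hU.dexc_eq]

end H1

end Pool.Agent.GLFix
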