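import Mathlib

/-!
# Fixed vectors of word maps on `GL_N(q)`: combinatorial definitions

A cyclically reduced word of length `ℓ` is encoded by an orientation `σ : ZMod ℓ → Bool` of the
edges of an `ℓ`-cycle (edge `ε` joins the positions `ε` and `ε + 1`) and an equivalence relation
`π` on the edges (same letter).
-/

open scoped Classical
open Module Filter Asymptotics

noncomputable section

namespace Pool.Agent.GLFix

/-! ## The cycle -/

section Cycle

variable {ℓ : ℕ} [NeZero ℓ]

/-- The endpoint of the edge `ε` on side `s` (`true`: target, `false`: source). If `σ ε = true`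
the edge goes from `ε` to `ε + 1`, otherwise from `ε + 1` to `ε`. -/
def epos (σ : ZMod ℓ → Bool) (s : Bool) (ε : ZMod ℓ) : ZMod ℓ :=
  if σ ε = s then ε + 1 else ε

/-- No two cyclically consecutive edges with the same letter have opposite orientations. -/
def Reduced (σ : ZMod ℓ → Bool) (π : Setoid (ZMod ℓ)) : Prop :=
  ∀ ε, π ε (ε + 1) → σ ε = σ (ε + 1)

/-- The class of the edge `ε₀`. -/
def block (π : Setoid (ZMod ℓ)) (ε₀ : ZMod ℓ) : Set (ZMod ℓ) := {ε | π ε ε₀}

/-- The partition of the positions generated by `π`: equivalent edges have equivalent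
sources and equivalent targets. -/
def vert (σ : ZMod ℓ → Bool) (π : Setoid (ZMod ℓ)) : Setoid (ZMod ℓ) :=
  sInf {τ | ∀ s ε ε', π ε ε' → τ (epos σ s ε) (epos σ s ε')}

/-- `π` refines `τ`, and no two distinct classes of `π` in the same class of `τ` share a source
vertex or a target vertex. -/
def Folded (σ : ZMod ℓ → Bool) (τ π : Setoid (ZMod ℓ)) : Prop :=
  π ≤ τ ∧ ∀ s ε ε', τ ε ε' → vert σ π (epos σ s ε) (epos σ s ε') → π ε ε'

/-- The folding closure of `π` inside `τ`. -/
def fold (σ : ZMod ℓ → Bool) (τ π : Setoid (ZMod ℓ)) : Setoid (ZMod ℓ) :=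
  sInf {ρ | Folded σ τ ρ ∧ π ≤ ρ}

/-- The rank `|edges| - |vertices| + 1` of the quotient graph of `π`. -/
def rk (σ : ZMod ℓ → Bool) (π : Setoid (ZMod ℓ)) : ℤ :=
  (Nat.card (Quotient π) : ℤ) - Nat.card (Quotient (vert σ π)) + 1

/-- A cut datum: the label `(class of ε₀, s)` is a cut vertex of the Whitehead graph and `A` is
a set of positions (edges of the Whitehead graph) on one side, the opposite label being on the
other side. -/
structure CutDatum (σ : ZMod ℓ → Bool) (π : Setoid (ZMod ℓ)) (ε₀ : ZMod ℓ) (s : Bool)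
    (A : Set (ZMod ℓ)) : Prop where
  star : ∀ s' ε ε', π ε ε' → ¬ (π ε ε₀ ∧ s' = s) → (epos σ s' ε ∈ A ↔ epos σ s' ε' ∈ A)
  opp : ∀ ε, π ε ε₀ → epos σ (!s) ε ∉ A
  inn : ∃ ε, π ε ε₀ ∧ epos σ s ε ∈ A
  out : ∃ ε, π ε ε₀ ∧ epos σ s ε ∉ A

/-- The Whitehead graph has no cut vertex. -/
def NoCut (σ : ZMod ℓ → Bool) (π : Setoid (ZMod ℓ)) : Prop :=
  ∀ ε₀ s A, ¬ CutDatum σ π ε₀ s A

/-- The edges of the class of `ε₀` whose `s`-end is in `A`. -/
def chi (σ : ZMod ℓ → Bool) (π : Setoid (ZMod ℓ)) (ε₀ : ZMod ℓ) (s : Bool)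
    (A : Set (ZMod ℓ)) : Set (ZMod ℓ) :=
  {ε | π ε ε₀ ∧ epos σ s ε ∈ A}

/-- `π` with the class of `ε₀` split in two, along `chi`. -/
def cut (σ : ZMod ℓ → Bool) (π : Setoid (ZMod ℓ)) (ε₀ : ZMod ℓ) (s : Bool)
    (A : Set (ZMod ℓ)) : Setoid (ZMod ℓ) :=
  π ⊓ Setoid.ker (fun ε => ε ∈ chi σ π ε₀ s A)

end Cycle

/-! ## Subspaces -/

section Subspaces

variable {K : Type*} [Field K] {ℓ : ℕ} [NeZero ℓ]

/-- `u ↦ ∑ ε, u ε • e (epos σ s ε)`. -/
def push (σ : ZMod ℓ → Bool) (s : Bool) : (ZMod ℓ → K) →ₗ[K] (ZMod ℓ → K) where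
  toFun u p := ∑ ε, if epos σ s ε = p then u ε else 0
  map_add' u v := by
    funext p
    simp only [Pi.add_apply, ← Finset.sum_add_distrib]
    refine Finset.sum_congr rfl fun ε _ => ?_
    split_ifs <;> simp
  map_smul' c u := by
    funext p
    simp only [Pi.smul_apply, smul_eq_mul, RingHom.id_apply, Finset.mul_sum]
    refine Finset.sum_congr rfl fun ε _ => ?_
    split_ifs <;> simp

/-- `T(U)`: the sum of the pushes of `U` to the targets and to the sources. -/
def TT (σ : ZMod ℓ → Bool) (U : Submodule K (ZMod ℓ → K)) : Submodule K (ZMod ℓ → K) :=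
  U.map (push σ true) ⊔ U.map (push σ false)

/-- The excess `dim T(U) - dim U`. -/
def exc (σ : ZMod ℓ → Bool) (U : Submodule K (ZMod ℓ → K)) : ℤ :=
  (finrank K (TT σ U) : ℤ) - finrank K U

/-- The sign of an edge. -/
def sgn (K : Type*) [Field K] (σ : ZMod ℓ → Bool) (ε : ZMod ℓ) : K := if σ ε then 1 else -1

/-- The twisted orthogonal of `U`. -/
def dual (σ : ZMod ℓ → Bool) (U : Submodule K (ZMod ℓ → K)) : Submodule K (ZMod ℓ → K) where
  carrier := {y | ∀ u ∈ U, ∑ ε, sgn K σ ε * y ε * u ε = 0}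
  add_mem' {a b} ha hb u hu := by
    have h1 := ha u hu
    have h2 := hb u hu
    simp only [Pi.add_apply, mul_add, add_mul, Finset.sum_add_distrib, h1, h2, add_zero]
  zero_mem' u _ := by simp
  smul_mem' c a ha u hu := by
    have h1 := ha u hu
    have : ∑ ε, sgn K σ ε * (c • a) ε * u ε = c * ∑ ε, sgn K σ ε * a ε * u ε := by
      rw [Finset.mul_sum]
      refine Finset.sum_congr rfl fun ε _ => ?_
      simp only [Pi.smul_apply, smul_eq_mul]
      ring
    rw [this, h1, mul_zero]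

/-- Restriction of a function to a set (zero outside). -/
def res (c : Set (ZMod ℓ)) : (ZMod ℓ → K) →ₗ[K] (ZMod ℓ → K) where
  toFun u ε := if ε ∈ c then u ε else 0
  map_add' u v := by
    funext ε
    by_cases h : ε ∈ c <;> simp [h]
  map_smul' a u := by
    funext ε
    by_cases h : ε ∈ c <;> simp [h]

/-- The functions supported on `c`. -/
def On (K : Type*) [Field K] (c : Set (ZMod ℓ)) : Submodule K (ZMod ℓ → K) where
  carrier := {u | ∀ ε, ε ∉ c → u ε = 0}
  add_mem' {a b} ha hb ε hε := by simp [ha ε hε, hb ε hε]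
  zero_mem' ε _ := rfl
  smul_mem' a u hu ε hε := by simp [hu ε hε]

/-- `U` splits along the partition `π`. -/
def Split (π : Setoid (ZMod ℓ)) (U : Submodule K (ZMod ℓ → K)) : Prop :=
  ∀ ε₀, ∀ u ∈ U, res (block π ε₀) u ∈ U

/-- `U` is `π`-closed: it splits along `π`, and every function supported on one class of `π`
with one of its two pushes in `T(U)` is in `U`. -/
def Closed (σ : ZMod ℓ → Bool) (π : Setoid (ZMod ℓ)) (U : Submodule K (ZMod ℓ → K)) : Prop :=
  Split π U ∧ ∀ s ε₀, ∀ u ∈ On K (block π ε₀), push σ s u ∈ TT σ U → u ∈ U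

/-- The `π`-closure. -/
def cl (σ : ZMod ℓ → Bool) (π : Setoid (ZMod ℓ)) (U : Submodule K (ZMod ℓ → K)) :
    Submodule K (ZMod ℓ → K) :=
  sInf {V | Closed σ π V ∧ U ≤ V}

/-- The finest partition along which `U` splits. -/
def comp (U : Submodule K (ZMod ℓ → K)) : Setoid (ZMod ℓ) := sInf {π | Split π U}

/-- The largest subspace of `U` which splits along `π`. -/
def splitPart (π : Setoid (ZMod ℓ)) (U : Submodule K (ZMod ℓ → K)) :
    Submodule K (ZMod ℓ → K) :=
  sSup {V | Split π V ∧ V ≤ U}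

/-- `U` is closed, proper and imprimitive for `π`. -/
structure IsImp (σ : ZMod ℓ → Bool) (π : Setoid (ZMod ℓ)) (U : Submodule K (ZMod ℓ → K)) :
    Prop where
  closed : Closed σ π U
  ne_top : U ≠ ⊤
  imp : cl σ π (dual σ U) ≠ ⊤

/-- The class `𝒯_k(π)`: closed, proper, imprimitive, of rank `k`, and such that the closure of
the dual has the same excess. -/
structure IsT (σ : ZMod ℓ → Bool) (π : Setoid (ZMod ℓ)) (k : ℤ)
    (U : Submodule K (ZMod ℓ → K)) : Prop extends IsImp σ π U where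
  exc_eq : exc σ U = k - 1
  dexc_eq : exc σ (cl σ π (dual σ U)) = exc σ U

/-- The number of `U ∈ 𝒯_k(π)` whose partition into components has folding closure `π`. -/
def aex (K : Type*) [Field K] (σ : ZMod ℓ → Bool) (π : Setoid (ZMod ℓ)) (k : ℤ) : ℕ :=
  Nat.card {U : Submodule K (ZMod ℓ → K) // IsT σ π k U ∧ fold σ π (comp U) = π}

/-- The number of closed subspaces, connected at all letters of `π`, of rank `rk π`. -/
def cc (K : Type*) [Field K] (σ : ZMod ℓ → Bool) (π : Setoid (ZMod ℓ)) : ℕ :=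
  Nat.card {U : Submodule K (ZMod ℓ → K) // Closed σ π U ∧ comp U = π ∧ exc σ U = rk σ π - 1}

/-- The number of closed, proper, imprimitive subspaces of rank `k`. -/
def crit (K : Type*) [Field K] (σ : ZMod ℓ → Bool) (π : Setoid (ZMod ℓ)) (k : ℤ) : ℕ :=
  Nat.card {U : Submodule K (ZMod ℓ → K) // IsImp σ π U ∧ exc σ U = k - 1}

end Subspaces

/-! ## Expected numbers of nonzero fixed vectors -/

section Count

variable (K : Type*) [Field K] {ℓ : ℕ} [NeZero ℓ]

/-- Pairs (one matrix for each letter, a nonzero vector at each position) with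
`v (source ε) * g [ε] = v (target ε)` for every edge `ε`. -/
def Sol (σ : ZMod ℓ → Bool) (π : Setoid (ZMod ℓ)) (N : ℕ) :
    Set ((Quotient π → GL (Fin N) K) × (ZMod ℓ → Fin N → K)) :=
  {x | (∀ p, x.2 p ≠ 0) ∧
    ∀ ε, Matrix.vecMul (x.2 (epos σ false ε)) (x.1 (Quotient.mk π ε) : Matrix (Fin N) (Fin N) K)
      = x.2 (epos σ true ε)}

/-- The expected number of nonzero fixed vectors. -/
def gfun (σ : ZMod ℓ → Bool) (π : Setoid (ZMod ℓ)) (N : ℕ) : ℝ :=
  (Nat.card (Sol K σ π N) : ℝ) / (Nat.card (GL (Fin N) K) : ℝ) ^ Nat.card (Quotient π)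

/-- `x = q^{-N}`. -/
def xx (N : ℕ) : ℝ := ((Nat.card K : ℝ) ^ N)⁻¹

/-- `f = O(x^k)`. -/
def BigO (f : ℕ → ℝ) (k : ℤ) : Prop := f =O[atTop] fun N => xx K N ^ k

/-- `f = c x^k + O(x^{k+1})`. -/
def Lead (f : ℕ → ℝ) (c : ℝ) (k : ℤ) : Prop := BigO K (fun N => f N - c * xx K N ^ k) (k + 1)

end Count

/-! ## Moebius functions and the functions `alpha`, `beta` -/

section Moebius

instance finite_setoid {E : Type*} [Finite E] : Finite (Setoid E) :=
  Finite.of_injective (fun r : Setoid E => fun a b => r a b) fun r s h => by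
    ext a b
    exact iff_of_eq (congrFun (congrFun h a) b)

instance fintype_setoid {E : Type*} [Finite E] : Fintype (Setoid E) := Fintype.ofFinite _

instance fintype_quot {E : Type*} [Finite E] (π : Setoid E) : Fintype (Quotient π) :=
  Fintype.ofFinite _

/-- The Moebius function `μ(π, top)` of the lattice of partitions of `E` (zero if
`¬ π ≤ top`). -/
def mob {E : Type*} [Finite E] (top : Setoid E) (π : Setoid E) : ℤ :=
  if π = top then 1
  else if π ≤ top then
    - ∑ ρ ∈ ((Finset.univ : Finset (Setoid E)).filter (fun ρ => π < ρ ∧ ρ ≤ top)).attach,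
        mob top ρ.1
  else 0
termination_by WellFounded.wrap (wellFounded_gt (α := Setoid E)) π
decreasing_by
  have := ρ.2
  simp only [Finset.mem_filter, Finset.mem_univ, true_and] at this
  exact this.1

variable (K : Type*) [Field K] {ℓ : ℕ} [NeZero ℓ]

/-- The joint cumulant `∑_{π ≤ top} μ(π, top) g(π)`. -/
def alpha (σ : ZMod ℓ → Bool) (top : Setoid (ZMod ℓ)) (N : ℕ) : ℝ :=
  ∑ π ∈ (Finset.univ : Finset (Setoid (ZMod ℓ))).filter (fun π => π ≤ top),
    (mob top π : ℝ) * gfun K σ π N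

/-- The Moebius inverse of `g` over the folded partitions: `g(π) = ∑_{ρ folded in π} β(ρ)`. -/
def beta (σ : ZMod ℓ → Bool) (π : Setoid (ZMod ℓ)) (N : ℕ) : ℝ :=
  gfun K σ π N -
    ∑ ρ ∈ ((Finset.univ : Finset (Setoid (ZMod ℓ))).filter
      (fun ρ => Folded σ π ρ ∧ ρ ≠ π)).attach, beta σ ρ.1 N
termination_by WellFounded.wrap (wellFounded_lt (α := Setoid (ZMod ℓ))) π
decreasing_by
  have := ρ.2
  simp only [Finset.mem_filter, Finset.mem_univ, true_and] at this
  exact lt_of_le_of_ne this.1.1 this.2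

end Moebius

end Pool.Agent.GLFix
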