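import Pool.Agent.GLFix.Trace

/-!
# MP_ce340f_al, module J5

Imprimitivity.
-/

open scoped Classical
open Module Filter Asymptotics

noncomputable section

namespace Pool.Agent.GLFix

variable {K : Type*} [Field K] {r : ℕ}

/-- Two finite families with the same linear relations are related by an automorphism. -/
theorem j5_exists_equiv {W : Type*} [AddCommGroup W] [Module K W] [FiniteDimensional K W]
    {ι : Type*} [Fintype ι] (a b : ι → W)
    (h : ∀ u : ι → K, (∑ e, u e • a e = 0) ↔ (∑ e, u e • b e = 0)) :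
    ∃ X : W ≃ₗ[K] W, ∀ e, X (a e) = b e := by
  let α : (ι → K) →ₗ[K] W := Fintype.linearCombination K a
  let β : (ι → K) →ₗ[K] W := Fintype.linearCombination K b
  have hα : ∀ u, α u = ∑ e, u e • a e := fun u => Fintype.linearCombination_apply K a u
  have hβ : ∀ u, β u = ∑ e, u e • b e := fun u => Fintype.linearCombination_apply K b u
  have hker : LinearMap.ker α = LinearMap.ker β := by
    ext u
    rw [LinearMap.mem_ker, LinearMap.mem_ker, hα, hβ]
    exact h u
  let e₁ : LinearMap.range α ≃ₗ[K] LinearMap.range β :=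
    (α.quotKerEquivRange.symm.trans (Submodule.quotEquivOfEq _ _ hker)).trans
      β.quotKerEquivRange
  have he₁ : ∀ u, ((e₁ ⟨α u, LinearMap.mem_range_self α u⟩ : LinearMap.range β) : W) = β u := by
    intro u
    have h1 : α.quotKerEquivRange.symm ⟨α u, LinearMap.mem_range_self α u⟩ =
        (LinearMap.ker α).mkQ u := by
      rw [LinearEquiv.symm_apply_eq]
      rfl
    show (((β.quotKerEquivRange) ((Submodule.quotEquivOfEq _ _ hker)
      (α.quotKerEquivRange.symm ⟨α u, LinearMap.mem_range_self α u⟩)) : LinearMap.range β) : W)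
      = β u
    rw [h1]
    rfl
  obtain ⟨C, hC⟩ := (LinearMap.range α).exists_isCompl
  obtain ⟨D, hD⟩ := (LinearMap.range β).exists_isCompl
  have hfin : finrank K C = finrank K D := by
    have h1 := Submodule.finrank_add_eq_of_isCompl hC
    have h2 := Submodule.finrank_add_eq_of_isCompl hD
    have h3 := LinearEquiv.finrank_eq e₁
    omega
  let e₂ : C ≃ₗ[K] D := LinearEquiv.ofFinrankEq C D hfin
  let X : W ≃ₗ[K] W :=
    ((Submodule.prodEquivOfIsCompl _ _ hC).symm.trans (e₁.prodCongr e₂)).trans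
      (Submodule.prodEquivOfIsCompl _ _ hD)
  refine ⟨X, fun e => ?_⟩
  have ha : α (Pi.single e 1) = a e := by
    rw [hα, Finset.sum_eq_single e]
    · simp
    · intro e' _ he'
      rw [Pi.single_eq_of_ne he', zero_smul]
    · intro h'; exact absurd (Finset.mem_univ _) h'
  have hb : β (Pi.single e 1) = b e := by
    rw [hβ, Finset.sum_eq_single e]
    · simp
    · intro e' _ he'
      rw [Pi.single_eq_of_ne he', zero_smul]
    · intro h'; exact absurd (Finset.mem_univ _) h'
  have hmem : a e ∈ LinearMap.range α := ⟨_, ha⟩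
  have h1 : (Submodule.prodEquivOfIsCompl _ _ hC).symm (a e) = (⟨a e, hmem⟩, 0) :=
    Submodule.prodEquivOfIsCompl_symm_apply_left _ _ hC ⟨a e, hmem⟩
  show (Submodule.prodEquivOfIsCompl _ _ hD) ((e₁.prodCongr e₂)
    ((Submodule.prodEquivOfIsCompl _ _ hC).symm (a e))) = b e
  rw [h1]
  have h2 : (e₁.prodCongr e₂) ((⟨a e, hmem⟩ : LinearMap.range α), (0 : C)) =
      (e₁ ⟨a e, hmem⟩, 0) := by
    show (e₁ ⟨a e, hmem⟩, e₂ 0) = _
    rw [map_zero]
  rw [h2, Submodule.coe_prodEquivOfIsCompl']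
  simp only [Submodule.coe_zero, add_zero]
  have h3 := he₁ (Pi.single e 1)
  rw [hb] at h3
  rw [← h3]
  congr 2
  exact Subtype.ext ha.symm

/-- Contraction. -/
theorem j5_contract {W : Type*} [AddCommGroup W] [Module K W] {κ : Type*} [Fintype κ]
    (b : Basis κ K W) (X : W →ₗ[K] W) (f : Module.Dual K W →ₗ[K] Module.End K W) :
    ∑ k, f ((b.coord k).comp X) (b k) = ∑ k, f (b.coord k) (X (b k)) := by
  have h1 : ∀ j, (b.coord j).comp X = ∑ k, b.coord j (X (b k)) • b.coord k := by
    intro j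
    refine b.ext fun i => ?_
    rw [LinearMap.comp_apply, LinearMap.sum_apply, Finset.sum_eq_single i]
    · simp
    · intro k _ hk
      simp [Ne.symm hk]
    · intro h'; exact absurd (Finset.mem_univ _) h'
  have h2 : ∀ k, X (b k) = ∑ j, b.coord j (X (b k)) • b j := fun k => by
    conv_lhs => rw [← b.sum_repr (X (b k))]
    rfl
  have hL : ∀ j, f ((b.coord j).comp X) (b j) =
      ∑ k, b.coord j (X (b k)) • f (b.coord k) (b j) := by
    intro j
    rw [h1 j, map_sum, LinearMap.sum_apply]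
    refine Finset.sum_congr rfl fun k _ => ?_
    rw [map_smul, LinearMap.smul_apply]
  have hR : ∀ k, f (b.coord k) (X (b k)) =
      ∑ j, b.coord j (X (b k)) • f (b.coord k) (b j) := by
    intro k
    conv_lhs => rw [h2 k]
    rw [map_sum]
    refine Finset.sum_congr rfl fun j _ => ?_
    rw [map_smul]
  rw [Finset.sum_congr rfl fun j _ => hL j, Finset.sum_congr rfl fun k _ => hR k,
    Finset.sum_comm]

variable {ℓ : ℕ} [NeZero ℓ] {lab : ZMod ℓ → Fin r} {σ : ZMod ℓ → Bool}

theorem j5_sum_push_smul {V : Type*} [AddCommGroup V] [Module K V] (σ : ZMod ℓ → Bool)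
    (s : Bool) (u : ZMod ℓ → K) (z : ZMod ℓ → V) :
    ∑ p, push σ s u p • z p = ∑ ε, u ε • z (epos σ s ε) := by
  simp only [push_def, Finset.sum_smul]
  rw [Finset.sum_comm]
  refine Finset.sum_congr rfl fun ε _ => ?_
  rw [Finset.sum_eq_single (epos σ s ε)]
  · simp
  · intro p _ hp
    rw [if_neg (Ne.symm hp), zero_smul]
  · intro h'; exact absurd (Finset.mem_univ _) h'

theorem j5_sum_telescope {V : Type*} [AddCommGroup V] (f : ℕ → V) :
    ∑ ε : ZMod ℓ, (f (ε.val + 1) - f ε.val) = f ℓ - f 0 := by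
  obtain ⟨n, rfl⟩ : ∃ n, ℓ = n + 1 := ⟨ℓ - 1, by have := NeZero.ne ℓ; omega⟩
  have h : ∑ ε : ZMod (n + 1), (f (ε.val + 1) - f ε.val) =
      ∑ i ∈ Finset.range (n + 1), (f (i + 1) - f i) :=
    Fin.sum_univ_eq_sum_range (fun i => f (i + 1) - f i) (n + 1)
  rw [h, Finset.sum_range_sub]

/-- The prefix at the source of an edge, seen on the (non cyclic) path. -/
def j5_S (lab : ZMod ℓ → Fin r) (σ : ZMod ℓ → Bool) (ε : ZMod ℓ) : FreeGroup (Fin r) :=
  if σ ε then pre lab σ ε.val else pre lab σ (ε.val + 1)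

theorem j5_val_succ (ε : ZMod ℓ) : (ε + 1).val = ε.val + 1 ∨
    (ε.val + 1 = ℓ ∧ ε + 1 = 0) := by
  by_cases h : ε.val + 1 < ℓ
  · left
    have h1 : (1 : ZMod ℓ) = ((1 : ℕ) : ZMod ℓ) := by simp
    have h2 : ε + 1 = ((ε.val + 1 : ℕ) : ZMod ℓ) := by
      rw [Nat.cast_add, ZMod.natCast_zmod_val, Nat.cast_one]
    rw [h2, ZMod.val_natCast, Nat.mod_eq_of_lt h]
  · right
    have h1 := ZMod.val_lt ε
    have h2 : ε.val + 1 = ℓ := by omega
    refine ⟨h2, ?_⟩
    have h3 : ε + 1 = ((ε.val + 1 : ℕ) : ZMod ℓ) := by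
      rw [Nat.cast_add, ZMod.natCast_zmod_val, Nat.cast_one]
    rw [h3, h2]
    simp

theorem j5_S_sub_mem {I : RI K r} (hw : wm1 K (word lab σ) ∈ I) (ε : ZMod ℓ) :
    (MonoidAlgebra.single (j5_S lab σ ε) (1 : K) -
      MonoidAlgebra.single (pre lab σ (epos σ false ε).val) (1 : K) : FGA K r) ∈ I := by
  unfold j5_S epos
  cases hσ : σ ε
  · simp only [if_true]
    rcases j5_val_succ ε with h | ⟨h, h'⟩
    · rw [h]; simp
    · rw [h', h]
      have : wm1 K (word lab σ) = (MonoidAlgebra.single (pre lab σ ℓ) (1 : K) -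
        MonoidAlgebra.single (pre lab σ (0 : ZMod ℓ).val) (1 : K) : FGA K r) := by
        unfold wm1 word
        rw [ZMod.val_zero]
        rfl
      rw [if_neg Bool.false_ne_true, ← this]
      exact hw
  · simp

/-- If the closure of the dual is not everything, no homomorphism `I → A` maps `w - 1`
to `1`. -/
theorem hom_ne_one (hred : Reduced σ (Setoid.ker lab)) {I : RI K r} (hI : I ≠ ⊤)
    (hw : wm1 K (word lab σ) ∈ I)
    (h : cl σ (Setoid.ker lab) (dual σ (UI lab σ I)) ≠ ⊤)
    (Φ : I →ₗ[(FGA K r)ᵐᵒᵖ] FGA K r) : Φ ⟨wm1 K (word lab σ), hw⟩ ≠ 1 := by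
  intro hΦ
  set N := cl σ (Setoid.ker lab) (dual σ (UI lab σ I)) with hN
  have hNc : Closed σ (Setoid.ker lab) N := closed_cl _ _ _
  let W := (ZMod ℓ → K) ⧸ TT σ N
  let ζ : ZMod ℓ → W := fun p => (TT σ N).mkQ (Pi.single p 1)
  have hζ0 : ζ 0 ≠ 0 := by
    intro h0
    have h1 : (Pi.single (0 : ZMod ℓ) (1 : K) : ZMod ℓ → K) ∈ TT σ N := by
      have := (Submodule.Quotient.mk_eq_zero (TT σ N)).mp h0
      exact this
    exact h (hNc.eq_top h1)
  have hmk : ∀ z : ZMod ℓ → K, (TT σ N).mkQ z = ∑ p, z p • ζ p := by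
    intro z
    conv_lhs => rw [← LinearMap.sum_single_apply (fun _ : ZMod ℓ => K) z]
    rw [map_sum]
    refine Finset.sum_congr rfl fun p _ => ?_
    show _ = z p • (TT σ N).mkQ (Pi.single p 1)
    rw [← map_smul]
    congr 1
    rw [← Pi.single_smul, smul_eq_mul, mul_one]
  have hpush : ∀ s (u : ZMod ℓ → K), (TT σ N).mkQ (push σ s u) = ∑ ε, u ε • ζ (epos σ s ε) := by
    intro s u
    rw [hmk, j5_sum_push_smul]
  have hX : ∀ i : Fin r, ∃ X : W ≃ₗ[K] W, ∀ ε, lab ε = i →
      X (ζ (epos σ true ε)) = ζ (epos σ false ε) := by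
    intro i
    by_cases hi : ∃ ε₀, lab ε₀ = i
    · obtain ⟨ε₀, rfl⟩ := hi
      obtain ⟨X, hX⟩ := j5_exists_equiv (K := K) (W := W)
        (fun e : {ε // lab ε = lab ε₀} => ζ (epos σ true e.1))
        (fun e : {ε // lab ε = lab ε₀} => ζ (epos σ false e.1)) (by
          intro u
          -- extend by zero
          let v : ZMod ℓ → K := fun ε => if hε : lab ε = lab ε₀ then u ⟨ε, hε⟩ else 0
          have hv : v ∈ On K (block (Setoid.ker lab) ε₀) := by
            intro ε hε
            exact dif_neg fun hε' => hε hε'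
          have hsum : ∀ s, ∑ e : {ε // lab ε = lab ε₀}, u e • ζ (epos σ s e.1) =
              (TT σ N).mkQ (push σ s v) := by
            intro s
            rw [hpush]
            refine Fintype.sum_of_injective (fun e : {ε // lab ε = lab ε₀} => e.1)
              Subtype.val_injective _ _ ?_ ?_
            · intro ε hε
              have hε' : ¬ lab ε = lab ε₀ := fun h' => hε ⟨⟨ε, h'⟩, rfl⟩
              show v ε • _ = 0
              rw [show v ε = 0 from dif_neg hε', zero_smul]
            · intro e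
              show u e • _ = v e.1 • _
              rw [show v e.1 = u e from dif_pos e.2]
          rw [hsum, hsum]
          have key : ∀ s, (TT σ N).mkQ (push σ s v) = 0 ↔ v ∈ N := by
            intro s
            rw [Submodule.mkQ_apply, Submodule.Quotient.mk_eq_zero]
            exact ⟨fun h => hNc.2 s ε₀ v hv h, fun h => push_mem_TT s h⟩
          rw [key, key])
      exact ⟨X, fun ε hε => hX ⟨ε, hε⟩⟩
    · exact ⟨LinearEquiv.refl K W, fun ε hε => absurd ⟨ε, hε⟩ hi⟩
  choose X hX using hX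
  -- the representation
  let ρ : FreeGroup (Fin r) →* (W ≃ₗ[K] W) := FreeGroup.lift X
  let ρ' : FreeGroup (Fin r) →* Module.End K W :=
    { toFun := fun g => (ρ g : W →ₗ[K] W)
      map_one' := by rw [map_one]; rfl
      map_mul' := fun a b => by rw [map_mul]; rfl }
  let ρA : FGA K r →ₐ[K] Module.End K W := MonoidAlgebra.lift K _ _ ρ'
  have hρA : ∀ g, ρA (MonoidAlgebra.single g 1) = ρ' g := by
    intro g
    show MonoidAlgebra.lift K _ _ ρ' (MonoidAlgebra.single g 1) = ρ' g
    rw [MonoidAlgebra.lift_single, one_smul]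
  have hρx : ∀ i, ρA (MonoidAlgebra.single (FreeGroup.of i) 1) = (X i : W →ₗ[K] W) := by
    intro i
    rw [hρA]
    show ((FreeGroup.lift X (FreeGroup.of i) : W ≃ₗ[K] W) : W →ₗ[K] W) = _
    rw [FreeGroup.lift_apply_of]
  -- the elements of the ideal
  let M : Fin r → Module.Dual K W → FGA K r := fun i φ =>
    ∑ ε, if lab ε = i then
      (sgn K σ ε * φ (ζ (epos σ true ε))) • (MonoidAlgebra.single (j5_S lab σ ε) 1 : FGA K r)
      else 0
  have hΞ : ∀ φ : Module.Dual K W, (fun ε => sgn K σ ε * φ (ζ (epos σ true ε))) ∈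
      UI lab σ I := by
    intro φ
    rw [← dual_dual (σ := σ) (UI lab σ I)]
    intro y hy
    have h1 : (TT σ N).mkQ (push σ true y) = 0 := by
      rw [Submodule.mkQ_apply, Submodule.Quotient.mk_eq_zero]
      exact push_mem_TT true (le_cl _ _ _ hy)
    have h2 := congrArg φ h1
    rw [hpush, map_sum, map_zero] at h2
    rw [← h2]
    refine Finset.sum_congr rfl fun ε _ => ?_
    rw [map_smul, smul_eq_mul]
    have h3 : sgn K σ ε * sgn K σ ε = 1 := by
      unfold sgn
      split_ifs <;> ring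
    linear_combination (y ε * φ (ζ (epos σ true ε))) * h3
  have hKmem : ∀ (c : K) (m : FGA K r), m ∈ I → c • m ∈ I := by
    intro c m hm
    have := I.smul_mem (MulOpposite.op (MonoidAlgebra.single 1 c : FGA K r)) hm
    rw [MulOpposite.smul_eq_mul_unop, MulOpposite.unop_op] at this
    convert this using 1
    ext g
    simp [mul_comm]
  have hM : ∀ i φ, M i φ ∈ I := by
    intro i φ
    by_cases hi : ∃ ε₀, lab ε₀ = i
    · obtain ⟨ε₀, rfl⟩ := hi
      have h1 := hΞ φ ε₀
      have h2 : M (lab ε₀) φ - ev lab σ (push σ false (res (block (Setoid.ker lab) ε₀)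
          (fun ε => sgn K σ ε * φ (ζ (epos σ true ε))))) ∈ I := by
        have h3 : ev lab σ (push σ false (res (block (Setoid.ker lab) ε₀)
            (fun ε => sgn K σ ε * φ (ζ (epos σ true ε))))) =
            ∑ ε, if lab ε = lab ε₀ then
              (sgn K σ ε * φ (ζ (epos σ true ε))) •
                (MonoidAlgebra.single (pre lab σ (epos σ false ε).val) 1 : FGA K r)
              else 0 := by
          have h4 : ∀ z : ZMod ℓ → K, ev lab σ z =
              ∑ p, z p • (MonoidAlgebra.single (pre lab σ p.val) 1 : FGA K r) := by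
            intro z
            show ∑ p : ZMod ℓ, MonoidAlgebra.single (pre lab σ p.val) (z p) = _
            refine Finset.sum_congr rfl fun p _ => ?_
            rw [MonoidAlgebra.smul_single, smul_eq_mul, mul_one]
          rw [h4, j5_sum_push_smul]
          refine Finset.sum_congr rfl fun ε _ => ?_
          rw [res_apply]
          by_cases hε : lab ε = lab ε₀
          · rw [if_pos hε, if_pos (show ε ∈ block (Setoid.ker lab) ε₀ from hε)]
          · rw [if_neg hε, if_neg (show ε ∉ block (Setoid.ker lab) ε₀ from hε), zero_smul]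
        rw [h3, ← Finset.sum_sub_distrib]
        refine I.sum_mem fun ε _ => ?_
        split_ifs
        · rw [← smul_sub]
          exact hKmem _ _ (j5_S_sub_mem hw ε)
        · rw [sub_zero]; exact I.zero_mem
      have h5 := I.add_mem h2 h1
      rwa [sub_add_cancel] at h5
    · have : M i φ = 0 := Finset.sum_eq_zero fun ε _ => if_neg fun hε => hi ⟨ε, hε⟩
      rw [this]
      exact I.zero_mem
  -- the key identity
  have hkey : ∀ φ : Module.Dual K W,
      ∑ i, (M i φ * MonoidAlgebra.single (FreeGroup.of i) 1 -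
        M i (φ.comp (X i : W →ₗ[K] W))) = φ (ζ 0) • wm1 K (word lab σ) := by
    intro φ
    have h1 : ∀ i, M i φ * MonoidAlgebra.single (FreeGroup.of i) 1 -
        M i (φ.comp (X i : W →ₗ[K] W)) = ∑ ε, if lab ε = i then
          (φ (ζ ((ε.val + 1 : ℕ) : ZMod ℓ)) •
            (MonoidAlgebra.single (pre lab σ (ε.val + 1)) 1 : FGA K r) -
          φ (ζ ((ε.val : ℕ) : ZMod ℓ)) •
            (MonoidAlgebra.single (pre lab σ ε.val) 1 : FGA K r)) else 0 := by
      intro i
      show (∑ ε, _) * _ - ∑ ε, _ = _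
      rw [Finset.sum_mul, ← Finset.sum_sub_distrib]
      refine Finset.sum_congr rfl fun ε _ => ?_
      by_cases hε : lab ε = i
      · rw [if_pos hε, if_pos hε, if_pos hε]
        have h2 : (φ.comp (X i : W →ₗ[K] W)) (ζ (epos σ true ε)) = φ (ζ (epos σ false ε)) := by
          show φ (X i (ζ (epos σ true ε))) = _
          rw [hX i ε hε]
        rw [h2, smul_mul_assoc, MonoidAlgebra.single_mul_single, mul_one]
        have h3 : ((ε.val + 1 : ℕ) : ZMod ℓ) = ε + 1 := by
          rw [Nat.cast_add, ZMod.natCast_zmod_val, Nat.cast_one]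
        rw [h3, ZMod.natCast_zmod_val]
        have h4 : pre lab σ (ε.val + 1) = pre lab σ ε.val * letter lab σ ε := by
          show pre lab σ ε.val * letter lab σ ((ε.val : ℕ) : ZMod ℓ) = _
          rw [ZMod.natCast_zmod_val]
        unfold j5_S epos sgn
        unfold letter at h4
        cases hσ : σ ε
        · rw [hσ] at h4
          simp only [Bool.false_eq_true, if_false, if_true] at h4 ⊢
          have h5 : pre lab σ (ε.val + 1) * FreeGroup.of i = pre lab σ ε.val := by
            rw [h4, hε, inv_mul_cancel_right]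
          rw [h5]
          simp only [neg_mul, one_mul, neg_smul]
          abel
        · rw [hσ] at h4
          simp only [if_true] at h4 ⊢
          have h5 : pre lab σ ε.val * FreeGroup.of i = pre lab σ (ε.val + 1) := by
            rw [h4, hε]
          rw [h5]
          simp
      · rw [if_neg hε, if_neg hε, if_neg hε, zero_mul, sub_zero]
    rw [Finset.sum_congr rfl fun i _ => h1 i, Finset.sum_comm]
    have h6 : ∀ ε : ZMod ℓ, (∑ i, if lab ε = i then
          (φ (ζ ((ε.val + 1 : ℕ) : ZMod ℓ)) •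
            (MonoidAlgebra.single (pre lab σ (ε.val + 1)) 1 : FGA K r) -
          φ (ζ ((ε.val : ℕ) : ZMod ℓ)) •
            (MonoidAlgebra.single (pre lab σ ε.val) 1 : FGA K r)) else 0) =
          (fun n : ℕ => φ (ζ (n : ZMod ℓ)) •
            (MonoidAlgebra.single (pre lab σ n) 1 : FGA K r)) (ε.val + 1) -
          (fun n : ℕ => φ (ζ (n : ZMod ℓ)) •
            (MonoidAlgebra.single (pre lab σ n) 1 : FGA K r)) ε.val := by
      intro ε
      rw [Finset.sum_ite_eq]
      simp
    rw [Finset.sum_congr rfl fun ε _ => h6 ε]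
    refine (j5_sum_telescope (fun n : ℕ => φ (ζ (n : ZMod ℓ)) •
      (MonoidAlgebra.single (pre lab σ n) 1 : FGA K r))).trans ?_
    have h7 : ((ℓ : ℕ) : ZMod ℓ) = 0 := by simp
    show φ (ζ ((ℓ : ℕ) : ZMod ℓ)) • (MonoidAlgebra.single (pre lab σ ℓ) 1 : FGA K r) -
      φ (ζ ((0 : ℕ) : ZMod ℓ)) • (MonoidAlgebra.single (pre lab σ 0) 1 : FGA K r) = _
    rw [h7, Nat.cast_zero, ← smul_sub]
    rfl
  -- linearity
  have hMadd : ∀ i φ ψ, M i (φ + ψ) = M i φ + M i ψ := by
    intro i φ ψ
    show ∑ ε, _ = ∑ ε, _ + ∑ ε, _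
    rw [← Finset.sum_add_distrib]
    refine Finset.sum_congr rfl fun ε _ => ?_
    split_ifs
    · rw [← add_smul, LinearMap.add_apply, mul_add]
    · rw [add_zero]
  have hMsmul : ∀ i (c : K) φ, M i (c • φ) = c • M i φ := by
    intro i c φ
    show ∑ ε, _ = c • ∑ ε, _
    rw [Finset.smul_sum]
    refine Finset.sum_congr rfl fun ε _ => ?_
    split_ifs
    · rw [smul_smul, LinearMap.smul_apply, smul_eq_mul]
      congr 1
      ring
    · rw [smul_zero]
  have hΦK : ∀ (c : K) (m : FGA K r) (hm : m ∈ I),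
      Φ ⟨c • m, hKmem c m hm⟩ = c • Φ ⟨m, hm⟩ := by
    intro c m hm
    have h1 : (⟨c • m, hKmem c m hm⟩ : I) =
        (MulOpposite.op (MonoidAlgebra.single 1 c : FGA K r)) • (⟨m, hm⟩ : I) := by
      apply Subtype.ext
      show c • m = m * MonoidAlgebra.single 1 c
      ext g
      simp [mul_comm]
    rw [h1, map_smul]
    show Φ ⟨m, hm⟩ * MonoidAlgebra.single 1 c = _
    ext g
    simp [mul_comm]
  let F : Fin r → (Module.Dual K W →ₗ[K] Module.End K W) := fun i =>
    { toFun := fun φ => ρA (Φ ⟨M i φ, hM i φ⟩)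
      map_add' := fun φ ψ => by
        rw [← map_add, ← map_add]
        congr 2
        exact Subtype.ext (hMadd i φ ψ)
      map_smul' := fun c φ => by
        rw [RingHom.id_apply, ← map_smul, ← hΦK c (M i φ) (hM i φ)]
        congr 2
        exact Subtype.ext (hMsmul i c φ) }
  have hΦkey : ∀ φ : Module.Dual K W,
      ∑ i, (Φ ⟨M i φ, hM i φ⟩ * MonoidAlgebra.single (FreeGroup.of i) 1 -
        Φ ⟨M i (φ.comp (X i : W →ₗ[K] W)), hM i _⟩) = φ (ζ 0) • (1 : FGA K r) := by
    intro φ
    rw [← hΦ, ← hΦK]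
    have h1 : (⟨φ (ζ 0) • wm1 K (word lab σ), hKmem _ _ hw⟩ : I) =
        ∑ i, ((MulOpposite.op (MonoidAlgebra.single (FreeGroup.of i) 1 : FGA K r)) •
          (⟨M i φ, hM i φ⟩ : I) - ⟨M i (φ.comp (X i : W →ₗ[K] W)), hM i _⟩) := by
      apply Subtype.ext
      rw [AddSubmonoidClass.coe_finsetSum]
      exact (hkey φ).symm
    rw [h1, map_sum]
    refine Finset.sum_congr rfl fun i _ => ?_
    rw [map_sub, map_smul]
    rfl
  let b := Module.finBasis K W
  have hfin : ∑ k, (ρA (∑ i, (Φ ⟨M i (b.coord k), hM i _⟩ *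
      MonoidAlgebra.single (FreeGroup.of i) 1 -
        Φ ⟨M i ((b.coord k).comp (X i : W →ₗ[K] W)), hM i _⟩))) (b k) = 0 := by
    have h1 : ∀ k, (ρA (∑ i, (Φ ⟨M i (b.coord k), hM i _⟩ *
        MonoidAlgebra.single (FreeGroup.of i) 1 -
        Φ ⟨M i ((b.coord k).comp (X i : W →ₗ[K] W)), hM i _⟩))) (b k) =
        ∑ i, (F i (b.coord k) (X i (b k)) -
          F i ((b.coord k).comp (X i : W →ₗ[K] W)) (b k)) := by
      intro k
      rw [map_sum, LinearMap.sum_apply]
      refine Finset.sum_congr rfl fun i _ => ?_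
      rw [map_sub, map_mul, hρx, LinearMap.sub_apply]
      rfl
    rw [Finset.sum_congr rfl fun k _ => h1 k, Finset.sum_comm]
    refine Finset.sum_eq_zero fun i _ => ?_
    rw [Finset.sum_sub_distrib, sub_eq_zero]
    exact (j5_contract b (X i : W →ₗ[K] W) (F i)).symm
  have hfin2 : ∑ k, (ρA (∑ i, (Φ ⟨M i (b.coord k), hM i _⟩ *
      MonoidAlgebra.single (FreeGroup.of i) 1 -
        Φ ⟨M i ((b.coord k).comp (X i : W →ₗ[K] W)), hM i _⟩))) (b k) = ζ 0 := by
    have h1 : ∀ k, (ρA (∑ i, (Φ ⟨M i (b.coord k), hM i _⟩ *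
        MonoidAlgebra.single (FreeGroup.of i) 1 -
        Φ ⟨M i ((b.coord k).comp (X i : W →ₗ[K] W)), hM i _⟩))) (b k) =
        b.coord k (ζ 0) • b k := by
      intro k
      rw [hΦkey, map_smul, map_one]
      rfl
    rw [Finset.sum_congr rfl fun k _ => h1 k]
    exact b.sum_repr (ζ 0)
  exact hζ0 (hfin2.symm.trans hfin)

end Pool.Agent.GLFix
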