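import Pool.Agent.GLFix.AlgDefs
import Pool.Agent.GLFix.Closure

/-!
# MP_ce340f_al, module J2

Traces of right ideals on the path of the word.
-/

open scoped Classical
open Module Filter Asymptotics

set_option linter.unusedSectionVars false
set_option linter.unusedVariables false

noncomputable section

namespace Pool.Agent.GLFix

variable {K : Type*} [Field K] {r : ℕ}

variable {ℓ : ℕ} [NeZero ℓ] {lab : ZMod ℓ → Fin r} {σ : ZMod ℓ → Bool}

theorem j2_letter_eq (lab : ZMod ℓ → Fin r) (σ : ZMod ℓ → Bool) (ε : ZMod ℓ) :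
    letter lab σ ε = FreeGroup.mk [(lab ε, σ ε)] := by
  unfold letter
  cases h : σ ε
  · simp [FreeGroup.of, FreeGroup.inv_mk, FreeGroup.invRev]
  · simp [FreeGroup.of]

theorem j2_pre_eq (lab : ZMod ℓ → Fin r) (σ : ZMod ℓ → Bool) (n : ℕ) :
    pre lab σ n = FreeGroup.mk ((List.range n).map fun i : ℕ => (lab i, σ i)) := by
  induction n with
  | zero => rfl
  | succ n ih =>
    rw [pre, ih, j2_letter_eq, FreeGroup.mul_mk, List.range_succ, List.map_append]
    rfl

theorem j2_isReduced (hred : Reduced σ (Setoid.ker lab)) (n : ℕ) :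
    FreeGroup.IsReduced ((List.range n).map fun i : ℕ => (lab i, σ i)) := by
  unfold FreeGroup.IsReduced
  rw [List.isChain_map]
  cases n with
  | zero => exact List.isChain_nil
  | succ n =>
    rw [List.isChain_range]
    intro m _ h
    have := hred (m : ZMod ℓ) (by
      show lab (m : ZMod ℓ) = lab ((m : ZMod ℓ) + 1)
      have h' := h
      push_cast at h'
      exact h')
    push_cast
    exact this

theorem j2_toWord_pre (hred : Reduced σ (Setoid.ker lab)) (n : ℕ) :
    (pre lab σ n).toWord.length = n := by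
  rw [j2_pre_eq, FreeGroup.toWord_mk, (j2_isReduced hred n).reduce_eq]
  simp

/-- The prefixes of a reduced word are distinct. -/
theorem pre_injOn (hred : Reduced σ (Setoid.ker lab)) {m n : ℕ} (hm : m ≤ ℓ) (hn : n ≤ ℓ)
    (h : pre lab σ m = pre lab σ n) : m = n := by
  have h1 := j2_toWord_pre hred m
  have h2 := j2_toWord_pre hred n
  rw [h, h2] at h1
  exact h1.symm

theorem j2_ev_apply (z : ZMod ℓ → K) :
    ev lab σ z = ∑ p : ZMod ℓ, MonoidAlgebra.single (pre lab σ p.val) (z p) := rfl

theorem ev_injective (hred : Reduced σ (Setoid.ker lab)) :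
    Function.Injective (ev lab σ : (ZMod ℓ → K) → FGA K r) := by
  have key : ∀ (z : ZMod ℓ → K) (p : ZMod ℓ), (ev lab σ z).coeff (pre lab σ p.val) = z p := by
    intro z p
    rw [j2_ev_apply, MonoidAlgebra.coeff_sum, Finsupp.finsetSum_apply,
      Finset.sum_eq_single p]
    · rw [MonoidAlgebra.coeff_single, Finsupp.single_eq_same]
    · intro q _ hq
      rw [MonoidAlgebra.coeff_single, Finsupp.single_apply, if_neg]
      intro h
      exact hq (ZMod.val_injective ℓ
        (pre_injOn hred (ZMod.val_lt q).le (ZMod.val_lt p).le h))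
    · simp
  intro z z' h
  funext p
  rw [← key z p, ← key z' p]
  exact congrArg (fun f : FGA K r => f.coeff (pre lab σ p.val)) h

/-- multiplication on the right keeps a right ideal -/
theorem j2_mul_mem {I : RI K r} {f : FGA K r} (hf : f ∈ I) (a : FGA K r) : f * a ∈ I := by
  have := I.smul_mem (MulOpposite.op a) hf
  rwa [MulOpposite.smul_eq_mul_unop, MulOpposite.unop_op] at this

theorem j2_smul_mem {I : RI K r} {f : FGA K r} (hf : f ∈ I) (c : K) : c • f ∈ I := by
  have := j2_mul_mem hf (MonoidAlgebra.single 1 c)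
  convert this using 1
  ext g
  simp [mul_comm]

theorem j2_ev_single (p : ZMod ℓ) (c : K) :
    ev lab σ (Pi.single p c) = MonoidAlgebra.single (pre lab σ p.val) c := by
  rw [j2_ev_apply, Finset.sum_eq_single p]
  · rw [Pi.single_eq_same]
  · intro q _ hq
    rw [Pi.single_eq_of_ne hq, MonoidAlgebra.single_zero]
  · simp

theorem single_notMem_SI {I : RI K r} (hI : I ≠ ⊤) (p : ZMod ℓ) :
    (Pi.single p 1 : ZMod ℓ → K) ∉ SI lab σ I := by
  intro h
  have h' : ev lab σ (Pi.single p 1 : ZMod ℓ → K) ∈ I := h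
  rw [j2_ev_single] at h'
  apply hI
  rw [Submodule.eq_top_iff']
  intro f
  have := j2_mul_mem h' (MonoidAlgebra.single (pre lab σ p.val)⁻¹ 1 * f)
  rwa [← mul_assoc, MonoidAlgebra.single_mul_single, mul_inv_cancel, one_mul,
    ← MonoidAlgebra.one_def, one_mul] at this

/-- the end of an edge on the side `s`, on the path (without going back to `0`) -/
def j2_pt (lab : ZMod ℓ → Fin r) (σ : ZMod ℓ → Bool) (s : Bool) (ε : ZMod ℓ) :
    FreeGroup (Fin r) :=
  if σ ε = s then pre lab σ (ε.val + 1) else pre lab σ ε.val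

theorem j2_pt_mul (ε : ZMod ℓ) :
    j2_pt lab σ true ε = j2_pt lab σ false ε * FreeGroup.of (lab ε) := by
  unfold j2_pt
  cases h : σ ε
  · simp only [Bool.false_eq_true, if_false, if_true, pre, letter, ZMod.natCast_val,
      ZMod.cast_id', id_eq, h, mul_assoc, inv_mul_cancel, mul_one]
  · simp only [Bool.true_eq_false, if_false, if_true, pre, letter, ZMod.natCast_val,
      ZMod.cast_id', id_eq, h]

theorem j2_pt_mem {I : RI K r} (hw : wm1 K (word lab σ) ∈ I) (s : Bool) (ε : ZMod ℓ) :
    ev lab σ (Pi.single (epos σ s ε) 1 : ZMod ℓ → K) -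
      MonoidAlgebra.single (j2_pt lab σ s ε) 1 ∈ I := by
  rw [j2_ev_single]
  unfold epos j2_pt
  split_ifs with h
  · by_cases hl : ε.val + 1 < ℓ
    · have h1 : (ε + 1).val = ε.val + 1 := by
        have h2 : ε + 1 = ((ε.val + 1 : ℕ) : ZMod ℓ) := by
          push_cast
          rw [ZMod.natCast_val, ZMod.cast_id', id_eq]
        rw [h2, ZMod.val_natCast, Nat.mod_eq_of_lt hl]
      rw [h1, sub_self]
      exact I.zero_mem
    · have h1 : ε.val + 1 = ℓ := by
        have := ZMod.val_lt ε
        omega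
      have h2 : ε + 1 = 0 := by
        have := congrArg (fun n : ℕ => (n : ZMod ℓ)) h1
        simpa using this
      rw [h2, h1, ZMod.val_zero]
      have := I.neg_mem hw
      unfold wm1 at this
      rw [neg_sub, MonoidAlgebra.of_apply, MonoidAlgebra.one_def] at this
      exact this
  · rw [sub_self]
    exact I.zero_mem

theorem j2_push_eq (s : Bool) (u : ZMod ℓ → K) :
    push σ s u = ∑ ε, u ε • (Pi.single (epos σ s ε) 1 : ZMod ℓ → K) := by
  funext p
  rw [push_def, Finset.sum_apply]
  refine Finset.sum_congr rfl fun ε _ => ?_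
  rw [Pi.smul_apply, smul_eq_mul]
  by_cases h : epos σ s ε = p
  · subst h; simp
  · rw [if_neg h, Pi.single_eq_of_ne (Ne.symm h), mul_zero]

theorem j2_ev_push_mem {I : RI K r} (hw : wm1 K (word lab σ) ∈ I) (s : Bool)
    (u : ZMod ℓ → K) :
    ev lab σ (push σ s u) - ∑ ε, u ε • (MonoidAlgebra.single (j2_pt lab σ s ε) 1 : FGA K r)
      ∈ I := by
  rw [j2_push_eq, map_sum, ← Finset.sum_sub_distrib]
  refine Submodule.sum_mem _ fun ε _ => ?_
  rw [map_smul, ← smul_sub]
  exact j2_smul_mem (j2_pt_mem hw s ε) _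

/-- Closedness of the trace of a right ideal. -/
theorem push_mem_SI_iff (hred : Reduced σ (Setoid.ker lab)) {I : RI K r}
    (hw : wm1 K (word lab σ) ∈ I) {ε₀ : ZMod ℓ} {u : ZMod ℓ → K}
    (hu : u ∈ On K (block (Setoid.ker lab) ε₀)) :
    push σ false u ∈ SI lab σ I ↔ push σ true u ∈ SI lab σ I := by
  have h0 : ∀ s, push σ s u ∈ SI lab σ I ↔
      ∑ ε, u ε • (MonoidAlgebra.single (j2_pt lab σ s ε) 1 : FGA K r) ∈ I := by
    intro s
    have := j2_ev_push_mem hw s u
    constructor
    · intro h
      have h' : ev lab σ (push σ s u) ∈ I := h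
      have := I.sub_mem h' this
      rwa [sub_sub_cancel] at this
    · intro h
      have := I.add_mem this h
      rw [sub_add_cancel] at this
      exact this
  have h1 : ∑ ε, u ε • (MonoidAlgebra.single (j2_pt lab σ true ε) 1 : FGA K r) =
      (∑ ε, u ε • (MonoidAlgebra.single (j2_pt lab σ false ε) 1 : FGA K r)) *
        MonoidAlgebra.single (FreeGroup.of (lab ε₀)) 1 := by
    rw [Finset.sum_mul]
    refine Finset.sum_congr rfl fun ε _ => ?_
    by_cases hε : ε ∈ block (Setoid.ker lab) ε₀
    · have : lab ε = lab ε₀ := hε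
      rw [j2_pt_mul, smul_mul_assoc, MonoidAlgebra.single_mul_single, mul_one, this]
    · rw [hu ε hε, zero_smul, zero_smul, zero_mul]
  rw [h0, h0, h1]
  constructor
  · intro h
    exact j2_mul_mem h _
  · intro h
    have := j2_mul_mem h (MonoidAlgebra.single (FreeGroup.of (lab ε₀))⁻¹ 1)
    rwa [mul_assoc, MonoidAlgebra.single_mul_single, mul_inv_cancel, one_mul,
      ← MonoidAlgebra.one_def, mul_one] at this

theorem j2_res_block {π : Setoid (ZMod ℓ)} {ε₀ ε₁ : ZMod ℓ} {u : ZMod ℓ → K}
    (hu : u ∈ On K (block π ε₀)) : res (block π ε₁) u = u ∨ res (block π ε₁) u = 0 := by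
  by_cases h : π ε₀ ε₁
  · left
    rw [← block_eq_of_rel h]
    exact res_of_mem_On hu
  · right
    refine res_eq_zero hu ?_
    rw [Set.disjoint_left]
    intro ε h1 h2
    exact h (π.trans' (π.symm' h2) h1)

theorem j2_TT_UI_le (hred : Reduced σ (Setoid.ker lab)) {I : RI K r}
    (hw : wm1 K (word lab σ) ∈ I) : TT σ (UI lab σ I) ≤ SI lab σ I := by
  rw [TT_le_iff]
  intro s u hu
  rw [sum_res (Setoid.ker lab) u, map_sum]
  refine Submodule.sum_mem _ fun b _ => ?_
  induction b using Quotient.inductionOn with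
  | h ε₁ =>
    rw [← block_eq_mk]
    have h1 : push σ false (res (block (Setoid.ker lab) ε₁) u) ∈ SI lab σ I := hu ε₁
    cases s
    · exact h1
    · exact (push_mem_SI_iff hred hw (res_mem_On _ _)).1 h1

theorem UI_closed (hred : Reduced σ (Setoid.ker lab)) {I : RI K r} (hI : I ≠ ⊤)
    (hw : wm1 K (word lab σ) ∈ I) :
    Closed σ (Setoid.ker lab) (UI lab σ I) ∧ UI lab σ I ≠ ⊤ ∧
      TT σ (UI lab σ I) ≤ SI lab σ I := by
  have hTT := j2_TT_UI_le hred hw
  refine ⟨⟨?_, ?_⟩, ?_, hTT⟩
  · intro ε₀ u hu ε₁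
    rcases j2_res_block (ε₁ := ε₁) (res_mem_On (block (Setoid.ker lab) ε₀) u) with h | h
    · rw [h]; exact hu ε₀
    · rw [h, map_zero]; exact Submodule.zero_mem _
  · intro s ε₀ u hu hs ε₁
    have h1 : push σ false u ∈ SI lab σ I := by
      cases s
      · exact hTT hs
      · exact (push_mem_SI_iff hred hw hu).2 (hTT hs)
    rcases j2_res_block (ε₁ := ε₁) hu with h | h
    · rw [h]; exact h1
    · rw [h, map_zero]; exact Submodule.zero_mem _
  · intro htop
    have h1 : (Pi.single 0 1 : ZMod ℓ → K) ∈ UI lab σ I := by rw [htop]; trivial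
    have h2 := hTT (push_mem_TT (σ := σ) false h1)
    rw [push_single] at h2
    exact single_notMem_SI hI _ h2

/-- Two linear maps with the same kernel differ by an automorphism. -/
theorem j2_exists_equiv {X V : Type*} [AddCommGroup X] [Module K X] [AddCommGroup V]
    [Module K V] [FiniteDimensional K V] (f g : X →ₗ[K] V)
    (h : LinearMap.ker f = LinearMap.ker g) : ∃ M : V ≃ₗ[K] V, ∀ x, M (f x) = g x := by
  let e : LinearMap.range f ≃ₗ[K] LinearMap.range g :=
    f.quotKerEquivRange.symm ≪≫ₗ (Submodule.quotEquivOfEq _ _ h) ≪≫ₗ g.quotKerEquivRange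
  obtain ⟨M, hM⟩ := Submodule.exists_linearEquiv_restrict_eq e
  refine ⟨M, fun x => ?_⟩
  have h1 := hM ⟨f x, x, rfl⟩
  simp only at h1
  rw [← h1]
  have h2 : f.quotKerEquivRange.symm ⟨f x, x, rfl⟩ = (LinearMap.ker f).mkQ x :=
    f.quotKerEquivRange_symm_apply_image x ⟨x, rfl⟩
  have h3 : e ⟨f x, x, rfl⟩ = g.quotKerEquivRange (Submodule.quotEquivOfEq _ _ h
      (f.quotKerEquivRange.symm ⟨f x, x, rfl⟩)) := rfl
  rw [h3, h2, Submodule.mkQ_apply, Submodule.quotEquivOfEq_mk]
  rfl

theorem j2_closed_iff {U : Submodule K (ZMod ℓ → K)}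
    (hU : Closed σ (Setoid.ker lab) U) (s : Bool) (a : Fin r) (u : ZMod ℓ → K) :
    push σ s (res {ε | lab ε = a} u) ∈ TT σ U ↔ res {ε | lab ε = a} u ∈ U := by
  constructor
  · intro h
    by_cases he : ∃ ε₀, lab ε₀ = a
    · obtain ⟨ε₀, rfl⟩ := he
      exact hU.2 s ε₀ _ (res_mem_On _ _) h
    · have : res {ε | lab ε = a} u = 0 := by
        funext ε
        rw [res_apply, if_neg]
        · rfl
        · exact fun h' => he ⟨ε, h'⟩
      rw [this]
      exact U.zero_mem
  · exact fun h => push_mem_TT s h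

/-- The trace of the ideal generated by a closed subspace. -/
theorem SI_idl (hred : Reduced σ (Setoid.ker lab)) {U : Submodule K (ZMod ℓ → K)}
    (hU : Closed σ (Setoid.ker lab) U) (hne : U ≠ ⊤) :
    SI lab σ (idl lab σ (TT σ U)) = TT σ U ∧ UI lab σ (idl lab σ (TT σ U)) = U ∧
      idl lab σ (TT σ U) ≠ ⊤ := by
  -- the automorphisms attached to the letters
  have hM : ∀ a : Fin r, ∃ M : ((ZMod ℓ → K) ⧸ TT σ U) ≃ₗ[K] ((ZMod ℓ → K) ⧸ TT σ U),
      ∀ u : ZMod ℓ → K, M ((TT σ U).mkQ (push σ false (res {ε | lab ε = a} u))) =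
        (TT σ U).mkQ (push σ true (res {ε | lab ε = a} u)) := by
    intro a
    obtain ⟨M, hM⟩ := j2_exists_equiv
      ((TT σ U).mkQ ∘ₗ (push σ false) ∘ₗ (res {ε | lab ε = a}))
      ((TT σ U).mkQ ∘ₗ (push σ true) ∘ₗ (res {ε | lab ε = a})) (by
        ext u
        simp only [LinearMap.mem_ker, LinearMap.comp_apply, Submodule.mkQ_apply,
          Submodule.Quotient.mk_eq_zero]
        rw [j2_closed_iff hU, j2_closed_iff hU])
    exact ⟨M, hM⟩
  choose M hM using hM
  have hMe : ∀ ε : ZMod ℓ, M (lab ε) ((TT σ U).mkQ (Pi.single (epos σ false ε) 1)) =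
      (TT σ U).mkQ (Pi.single (epos σ true ε) 1) := by
    intro ε
    have h1 := hM (lab ε) (Pi.single ε 1)
    have h2 : res {ε' | lab ε' = lab ε} (Pi.single ε 1 : ZMod ℓ → K) = Pi.single ε 1 := by
      refine res_of_mem_On fun ε' hε' => ?_
      rw [Pi.single_eq_of_ne]
      rintro rfl
      exact hε' rfl
    rw [h2, push_single, push_single] at h1
    exact h1
  let rho : FreeGroup (Fin r) →*
      (((ZMod ℓ → K) ⧸ TT σ U) ≃ₗ[K] ((ZMod ℓ → K) ⧸ TT σ U))ᵐᵒᵖ :=
    FreeGroup.lift fun a => MulOpposite.op (M a)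
  have hrho : ∀ n : ℕ, (MulOpposite.unop (rho (pre lab σ n)))
      ((TT σ U).mkQ (Pi.single 0 1)) = (TT σ U).mkQ (Pi.single (n : ZMod ℓ) 1) := by
    intro n
    induction n with
    | zero => simp [pre]
    | succ n ih =>
      rw [pre, map_mul, MulOpposite.unop_mul, LinearEquiv.mul_apply, ih]
      have h3 := hMe (n : ZMod ℓ)
      unfold letter
      unfold epos at h3
      cases h : σ (n : ZMod ℓ)
      · rw [h] at h3
        simp only [Bool.false_eq_true, if_false, if_true] at h3 ⊢
        rw [map_inv, MulOpposite.unop_inv]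
        simp only [rho, FreeGroup.lift_apply_of, MulOpposite.unop_op]
        rw [← h3]
        push_cast
        exact (M (lab n)).symm_apply_apply _
      · rw [h] at h3
        simp only [Bool.true_eq_false, if_false, if_true] at h3 ⊢
        simp only [rho, FreeGroup.lift_apply_of, MulOpposite.unop_op]
        rw [h3]
        push_cast
        rfl
  let psi : FGA K r →ₐ[K] (Module.End K ((ZMod ℓ → K) ⧸ TT σ U))ᵐᵒᵖ :=
    MonoidAlgebra.lift K _ _ ((MonoidHom.op
      (LinearEquiv.automorphismGroup.toLinearMapMonoidHom)).comp rho)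
  let theta : FGA K r → ((ZMod ℓ → K) ⧸ TT σ U) := fun f =>
    (MulOpposite.unop (psi f)) ((TT σ U).mkQ (Pi.single 0 1))
  have hthsingle : ∀ (g : FreeGroup (Fin r)) (c : K), theta (MonoidAlgebra.single g c) =
      c • (MulOpposite.unop (rho g)) ((TT σ U).mkQ (Pi.single 0 1)) := by
    intro g c
    simp only [theta, psi, MonoidAlgebra.lift_single, MulOpposite.unop_smul,
      LinearMap.smul_apply]
    rfl
  have hthmul : ∀ f a : FGA K r, theta (f * a) = (MulOpposite.unop (psi a)) (theta f) := by
    intro f a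
    simp only [theta, map_mul, MulOpposite.unop_mul, Module.End.mul_apply]
  have hthadd : ∀ f a : FGA K r, theta (f + a) = theta f + theta a := by
    intro f a
    simp only [theta, map_add, MulOpposite.unop_add, LinearMap.add_apply]
  have hthzero : theta 0 = 0 := by
    simp only [theta, map_zero, MulOpposite.unop_zero, LinearMap.zero_apply]
  have hthsub : ∀ f a : FGA K r, theta (f - a) = theta f - theta a := by
    intro f a
    simp only [theta, map_sub, MulOpposite.unop_sub, LinearMap.sub_apply]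
  have hthev : ∀ z : ZMod ℓ → K, theta (ev lab σ z) = (TT σ U).mkQ z := by
    intro z
    have hsum : ∀ (s : Finset (ZMod ℓ)), theta (∑ p ∈ s,
        MonoidAlgebra.single (pre lab σ p.val) (z p)) = (TT σ U).mkQ (∑ p ∈ s,
          z p • (Pi.single p 1 : ZMod ℓ → K)) := by
      intro s
      induction s using Finset.induction_on with
      | empty => simp only [Finset.sum_empty, hthzero, map_zero]
      | insert a s ha ih =>
        rw [Finset.sum_insert ha, Finset.sum_insert ha, hthadd, ih, map_add, hthsingle, hrho,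
          map_smul, ZMod.natCast_val, ZMod.cast_id', id_eq]
    rw [j2_ev_apply, hsum]
    congr 1
    funext p
    rw [Finset.sum_apply, Finset.sum_eq_single p]
    · simp
    · intro q _ hq
      rw [Pi.smul_apply, Pi.single_eq_of_ne (Ne.symm hq), smul_zero]
    · simp
  let J : RI K r :=
    { carrier := {f | theta f = 0}
      add_mem' := fun {a b} ha hb => by
        simp only [Set.mem_ofPred_eq] at *
        rw [hthadd, ha, hb, add_zero]
      zero_mem' := hthzero
      smul_mem' := fun c a ha => by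
        simp only [Set.mem_ofPred_eq] at *
        rw [MulOpposite.smul_eq_mul_unop, hthmul, ha, map_zero] }
  have hJ : idl lab σ (TT σ U) ≤ J := by
    unfold idl
    rw [Submodule.span_le]
    rintro f (rfl | ⟨z, hz, rfl⟩)
    · show theta (wm1 K (word lab σ)) = 0
      unfold wm1
      rw [hthsub, MonoidAlgebra.of_apply, hthsingle, MonoidAlgebra.one_def, hthsingle, word,
        hrho]
      simp
    · show theta (ev lab σ z) = 0
      rw [hthev, Submodule.mkQ_apply, Submodule.Quotient.mk_eq_zero]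
      exact hz
  have hSI : SI lab σ (idl lab σ (TT σ U)) = TT σ U := by
    ext z
    constructor
    · intro hz
      have h1 : ev lab σ z ∈ idl lab σ (TT σ U) := hz
      have h2 : theta (ev lab σ z) = 0 := hJ h1
      rw [hthev, Submodule.mkQ_apply, Submodule.Quotient.mk_eq_zero] at h2
      exact h2
    · intro hz
      show ev lab σ z ∈ idl lab σ (TT σ U)
      exact Submodule.subset_span (Or.inr ⟨z, hz, rfl⟩)
  refine ⟨hSI, ?_, ?_⟩
  · ext u
    constructor
    · intro hu
      rw [sum_res (Setoid.ker lab) u]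
      refine Submodule.sum_mem _ fun b _ => ?_
      induction b using Quotient.inductionOn with
      | h ε₁ =>
        rw [← block_eq_mk]
        have h1 : push σ false (res (block (Setoid.ker lab) ε₁) u) ∈
            SI lab σ (idl lab σ (TT σ U)) := hu ε₁
        rw [hSI] at h1
        exact hU.2 false ε₁ _ (res_mem_On _ _) h1
    · intro hu ε₁
      rw [hSI]
      exact push_mem_TT false (hU.1 ε₁ u hu)
  · intro htop
    apply hne
    refine hU.eq_top (p := 0) ?_
    rw [← hSI, htop]
    show ev lab σ (Pi.single 0 1 : ZMod ℓ → K) ∈ (⊤ : RI K r)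
    trivial

end Pool.Agent.GLFix
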