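import Pool.Agent.GLFix.HomExt
import Pool.Agent.GLFix.Trace

/-!
# MP_ce340f_al, module J3

Bases of right ideals (Lewin): a right ideal of the group algebra of a free group has a basis
which is built by adding the vertices of the tree one at a time.
-/

open scoped Classical
open Module Filter Asymptotics

noncomputable section

namespace Pool.Agent.GLFix

variable {K : Type*} [Field K] {r : ℕ}

/-! ### The tree -/

/-- The parent of a vertex. -/
def j3_par (g : FreeGroup (Fin r)) : FreeGroup (Fin r) := FreeGroup.mk g.toWord.dropLast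

theorem j3_toWord_mk {L : List (Fin r × Bool)} (h : FreeGroup.IsReduced L) :
    (FreeGroup.mk L).toWord = L := by
  rw [FreeGroup.toWord_mk, h.reduce_eq]

/-- Right multiplication by a letter appends a letter or removes one. -/
theorem j3_mul_letter (g : FreeGroup (Fin r)) (i : Fin r) (b : Bool) :
    (g * FreeGroup.mk [(i, b)]).toWord = g.toWord ++ [(i, b)] ∨
      g.toWord = (g * FreeGroup.mk [(i, b)]).toWord ++ [(i, !b)] := by
  by_cases h : FreeGroup.IsReduced (g.toWord ++ [(i, b)])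
  · left
    conv_lhs => rw [← FreeGroup.mk_toWord (x := g)]
    rw [FreeGroup.mul_mk, j3_toWord_mk h]
  · right
    have hg : FreeGroup.IsReduced g.toWord := FreeGroup.isReduced_toWord
    rcases List.eq_nil_or_concat g.toWord with h0 | ⟨L', a, hL⟩
    · rw [h0] at h
      exact absurd FreeGroup.IsReduced.singleton h
    · have hL' : g.toWord = L' ++ [a] := by rw [hL, List.concat_eq_append]
      have ha : a = (i, !b) := by
        by_contra hne
        apply h
        have h1 : FreeGroup.IsReduced ([a] ++ [(i, b)]) := by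
          rw [List.singleton_append, FreeGroup.isReduced_cons_cons]
          refine ⟨fun he => ?_, FreeGroup.IsReduced.singleton⟩
          rcases a with ⟨a1, a2⟩
          simp only at he ⊢
          subst he
          by_contra h2
          apply hne
          congr
          cases a2 <;> cases b <;> simp_all
        have h2 := FreeGroup.IsReduced.append_overlap (L₁ := L') (L₂ := [a]) (L₃ := [(i, b)])
          (by rw [← hL']; exact hg) h1 (by simp)
        rw [hL']
        exact h2
      have hred : FreeGroup.IsReduced L' := by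
        have hg' : List.IsChain _ (L' ++ [a]) := hL' ▸ hg
        exact hg'.left_of_append
      have h3 : g * FreeGroup.mk [(i, b)] = FreeGroup.mk L' := by
        have h4 : g = FreeGroup.mk (L' ++ [(i, !b)]) := by
          rw [← ha, ← hL', FreeGroup.mk_toWord]
        rw [h4, FreeGroup.mul_mk]
        have h5 : FreeGroup.mk ([(i, !b)] ++ [(i, b)]) = (1 : FreeGroup (Fin r)) := by
          exact FreeGroup.quot_mk_eq_mk ▸ (Quot.sound (by simp))
        rw [List.append_assoc, ← FreeGroup.mul_mk, h5, mul_one]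
      rw [h3, j3_toWord_mk hred, hL', ha]

theorem j3_of_eq (i : Fin r) : FreeGroup.of i = FreeGroup.mk [(i, true)] := rfl

theorem j3_of_inv_eq (i : Fin r) : (FreeGroup.of i)⁻¹ = FreeGroup.mk [(i, false)] := rfl

theorem j3_par_mul (g : FreeGroup (Fin r)) (i : Fin r) (b : Bool) :
    j3_par (g * FreeGroup.mk [(i, b)]) = g ∨ j3_par g = g * FreeGroup.mk [(i, b)] := by
  rcases j3_mul_letter g i b with h | h
  · left
    rw [j3_par, h, List.dropLast_concat, FreeGroup.mk_toWord]
  · right
    rw [j3_par, h, List.dropLast_concat, FreeGroup.mk_toWord]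

theorem j3_letter_inj {i j : Fin r} {b c : Bool}
    (h : (FreeGroup.mk [(i, b)] : FreeGroup (Fin r)) = FreeGroup.mk [(j, c)]) :
    i = j ∧ b = c := by
  have := congrArg FreeGroup.toWord h
  rw [j3_toWord_mk FreeGroup.IsReduced.singleton, j3_toWord_mk FreeGroup.IsReduced.singleton] at this
  simpa using this

theorem j3_letter_ne_one (i : Fin r) (b : Bool) :
    (FreeGroup.mk [(i, b)] : FreeGroup (Fin r)) ≠ 1 := by
  intro h
  have := congrArg FreeGroup.toWord h
  rw [j3_toWord_mk FreeGroup.IsReduced.singleton, FreeGroup.toWord_one] at this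
  simp at this

theorem j3_par_norm (g : FreeGroup (Fin r)) (hg : g ≠ 1) : (j3_par g).norm < g.norm := by
  have h1 : (j3_par g).norm ≤ g.toWord.dropLast.length := FreeGroup.norm_mk_le
  have h2 : g.toWord ≠ [] := by
    intro h; exact hg (FreeGroup.toWord_eq_nil_iff.mp h)
  have h3 := List.length_pos_iff.mpr h2
  rw [List.length_dropLast] at h1
  have h4 : g.norm = g.toWord.length := rfl
  omega

theorem j3_par_one : j3_par (1 : FreeGroup (Fin r)) = 1 := by
  rw [j3_par, FreeGroup.toWord_one]; rfl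

theorem j3_prefClosed_insert {T : Finset (FreeGroup (Fin r))} (hT : PrefClosed T)
    {t : FreeGroup (Fin r)} (hp : j3_par t ∈ T) : PrefClosed (insert t T) := by
  refine ⟨Finset.mem_insert_of_mem hT.1, fun s hs => ?_⟩
  rcases Finset.mem_insert.mp hs with rfl | hs
  · exact Finset.mem_insert_of_mem hp
  · exact Finset.mem_insert_of_mem (hT.2 s hs)

theorem j3_adj {T : Finset (FreeGroup (Fin r))} (hT : PrefClosed T)
    {t : FreeGroup (Fin r)} (ht : t ∉ T) (i : Fin r) (b : Bool)
    (h : t * FreeGroup.mk [(i, b)] ∈ insert t T) : j3_par t = t * FreeGroup.mk [(i, b)] := by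
  rcases Finset.mem_insert.mp h with h | h
  · exact absurd (mul_eq_left.mp h) (j3_letter_ne_one i b)
  · rcases j3_par_mul t i b with h1 | h1
    · exact absurd (h1 ▸ hT.2 _ h) ht
    · exact h1

/-! ### Coefficients -/

theorem j3_coeff_mul_of (u : FGA K r) (x g : FreeGroup (Fin r)) :
    (u * MonoidAlgebra.of K _ x).coeff g = u.coeff (g * x⁻¹) := by
  rw [MonoidAlgebra.of_apply, MonoidAlgebra.coeff_mul_single_eq_coeff_mul (m₂ := g * x⁻¹), mul_one]
  intro m' _
  exact eq_mul_inv_iff_mul_eq.symm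

/-- A coefficient, as a linear functional. -/
def j3_co (K : Type*) [Field K] {r : ℕ} (g : FreeGroup (Fin r)) : FGA K r →ₗ[K] K where
  toFun u := u.coeff g
  map_add' u v := by simp
  map_smul' c u := by simp

theorem j3_co_apply (g : FreeGroup (Fin r)) (u : FGA K r) : j3_co K g u = u.coeff g := rfl

theorem j3_smul_mem {I : RI K r} {u : FGA K r} (hu : u ∈ I) (c : K) : c • u ∈ I := by
  have := I.smul_mem (MulOpposite.op (MonoidAlgebra.single 1 c : FGA K r)) hu
  rw [MulOpposite.smul_eq_mul_unop, MulOpposite.unop_op] at this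
  convert this using 1
  ext g
  simp [mul_comm]

theorem j3_mul_mem {I : RI K r} {u : FGA K r} (hu : u ∈ I) (a : FGA K r) : u * a ∈ I := by
  have := I.smul_mem (MulOpposite.op a) hu
  rwa [MulOpposite.smul_eq_mul_unop, MulOpposite.unop_op] at this

/-- The part of `I` supported on `T`. -/
def j3_V (I : RI K r) (T : Finset (FreeGroup (Fin r))) : Submodule K (FGA K r) where
  carrier := {u | u ∈ I ∧ u ∈ KT K T}
  add_mem' ha hb := ⟨I.add_mem ha.1 hb.1, Submodule.add_mem _ ha.2 hb.2⟩
  zero_mem' := ⟨I.zero_mem, Submodule.zero_mem _⟩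
  smul_mem' c _ ha := ⟨j3_smul_mem ha.1 c, Submodule.smul_mem _ c ha.2⟩

theorem j3_mem_V {I : RI K r} {T : Finset (FreeGroup (Fin r))} {u : FGA K r} :
    u ∈ j3_V I T ↔ u ∈ I ∧ u ∈ KT K T := Iff.rfl

/-- The elements `u` with `u` and `u x_i` in the part of `I` supported on `T`. -/
def j3_W (I : RI K r) (T : Finset (FreeGroup (Fin r))) (i : Fin r) : Submodule K (FGA K r) where
  carrier := {u | u ∈ j3_V I T ∧ u * MonoidAlgebra.of K _ (FreeGroup.of i) ∈ KT K T}
  add_mem' {a b} ha hb := ⟨Submodule.add_mem _ ha.1 hb.1, by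
    rw [add_mul]; exact Submodule.add_mem _ ha.2 hb.2⟩
  zero_mem' := ⟨Submodule.zero_mem _, by rw [zero_mul]; exact Submodule.zero_mem _⟩
  smul_mem' c a ha := ⟨Submodule.smul_mem _ c ha.1, by
    rw [smul_mul_assoc]; exact Submodule.smul_mem _ c ha.2⟩

theorem j3_mem_W {I : RI K r} {T : Finset (FreeGroup (Fin r))} {i : Fin r} {u : FGA K r} :
    u ∈ j3_W I T i ↔ (u ∈ I ∧ u ∈ KT K T) ∧
      u * MonoidAlgebra.of K _ (FreeGroup.of i) ∈ KT K T := Iff.rfl

theorem j3_mem_KT {T : Finset (FreeGroup (Fin r))} {u : FGA K r} :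
    u ∈ KT K T ↔ ∀ g, g ∉ T → u.coeff g = 0 := Iff.rfl

instance j3_finite_KT (T : Finset (FreeGroup (Fin r))) : Module.Finite K (KT K T) := by
  let f : KT K T →ₗ[K] (T → K) :=
    { toFun := fun u t => (u : FGA K r).coeff t
      map_add' := fun u v => by funext t; simp
      map_smul' := fun c u => by funext t; simp }
  refine Module.Finite.of_injective f fun u v huv => ?_
  apply Subtype.ext
  apply MonoidAlgebra.ext
  ext g
  by_cases hg : g ∈ T
  · exact congrFun huv ⟨g, hg⟩
  · rw [u.2 g hg, v.2 g hg]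

instance j3_finite_V (I : RI K r) (T : Finset (FreeGroup (Fin r))) :
    Module.Finite K (j3_V I T) :=
  Submodule.finiteDimensional_of_le (S₂ := KT K T) fun _ hu => hu.2

instance j3_finite_W (I : RI K r) (T : Finset (FreeGroup (Fin r))) (i : Fin r) :
    Module.Finite K (j3_W I T i) :=
  Submodule.finiteDimensional_of_le (S₂ := KT K T) fun _ hu => hu.1.2

/-- Dimension of the kernel of a functional. -/
theorem j3_finrank_ker {M : Type*} [AddCommGroup M] [Module K M] (W : Submodule K M)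
    [Module.Finite K W] (f : M →ₗ[K] K) :
    finrank K (W ⊓ LinearMap.ker f : Submodule K M) + (if ∃ u ∈ W, f u ≠ 0 then 1 else 0) =
      finrank K W := by
  have h1 := LinearMap.finrank_range_add_finrank_ker (f.domRestrict W)
  have h2 : (W ⊓ LinearMap.ker f : Submodule K M) =
      (LinearMap.ker (f.domRestrict W)).map W.subtype := by
    ext x
    simp only [Submodule.mem_inf, LinearMap.mem_ker, Submodule.mem_map, Submodule.subtype_apply,
      Subtype.exists, exists_and_right, exists_eq_right, LinearMap.domRestrict_apply]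
    constructor
    · rintro ⟨a, b⟩; exact ⟨a, b⟩
    · rintro ⟨a, b⟩; exact ⟨a, b⟩
  have h3 : finrank K (W ⊓ LinearMap.ker f : Submodule K M) =
      finrank K (LinearMap.ker (f.domRestrict W)) := by
    rw [h2, Submodule.finrank_map_subtype_eq]
  rw [h3, ← h1, add_comm]
  congr 1
  split_ifs with h
  · obtain ⟨u, hu, hne⟩ := h
    have : LinearMap.range (f.domRestrict W) = ⊤ := by
      rw [LinearMap.range_eq_top]
      intro c
      refine ⟨⟨(c / f u) • u, W.smul_mem _ hu⟩, ?_⟩
      rw [LinearMap.domRestrict_apply, map_smul, smul_eq_mul, div_mul_cancel₀ _ hne]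
    rw [this, finrank_top, finrank_self]
  · have : LinearMap.range (f.domRestrict W) = ⊥ := by
      rw [LinearMap.range_eq_bot]
      ext ⟨u, hu⟩
      rw [LinearMap.domRestrict_apply, LinearMap.zero_apply]
      by_contra hne
      exact h ⟨u, hu, hne⟩
    rw [this, finrank_bot]

/-! ### Adding a leaf -/

section Leaf

variable {T : Finset (FreeGroup (Fin r))} {t : FreeGroup (Fin r)}

theorem j3_KT_insert {u : FGA K r} : u ∈ KT K (insert t T) ∧ u.coeff t = 0 → u ∈ KT K T := by
  rintro ⟨h1, h2⟩ g hg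
  by_cases hgt : g = t
  · rw [hgt, h2]
  · exact h1 g (by simp [hgt, hg])

theorem j3_KT_mono {T' : Finset (FreeGroup (Fin r))} (h : T ⊆ T') {u : FGA K r}
    (hu : u ∈ KT K T) : u ∈ KT K T' := fun g hg => hu g fun h' => hg (h h')

theorem j3_V_insert (ht : t ∉ T) (I : RI K r) :
    j3_V I T = j3_V I (insert t T) ⊓ LinearMap.ker (j3_co K t) := by
  ext u
  simp only [Submodule.mem_inf, LinearMap.mem_ker, j3_co_apply, j3_mem_V]
  constructor
  · rintro ⟨h1, h2⟩
    exact ⟨⟨h1, j3_KT_mono (Finset.subset_insert _ _) h2⟩, h2 t ht⟩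
  · rintro ⟨⟨h1, h2⟩, h3⟩
    exact ⟨h1, j3_KT_insert ⟨h2, h3⟩⟩

theorem j3_finrank_V_insert (ht : t ∉ T) (I : RI K r) :
    finrank K (j3_V I T) + (if ∃ u ∈ j3_V I (insert t T), u.coeff t ≠ 0 then 1 else 0) =
      finrank K (j3_V I (insert t T)) := by
  rw [j3_V_insert ht]
  exact j3_finrank_ker _ (j3_co K t)

/-- If `u` and `u x_i` are supported on `T ∪ {t}` and `u` has a nonzero coefficient at `t` then
`t x_i` is the parent of `t`. -/
theorem j3_co_left (hT : PrefClosed T) (ht : t ∉ T) {i : Fin r} {u : FGA K r}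
    (hu' : u * MonoidAlgebra.of K _ (FreeGroup.of i) ∈ KT K (insert t T)) (h : u.coeff t ≠ 0) :
    j3_par t = t * FreeGroup.mk [(i, true)] := by
  apply j3_adj hT ht
  by_contra hn
  apply h
  have := hu' _ hn
  rwa [j3_coeff_mul_of, j3_of_eq, mul_inv_cancel_right] at this

theorem j3_co_right (hT : PrefClosed T) (ht : t ∉ T) {i : Fin r} {u : FGA K r}
    (hu : u ∈ KT K (insert t T))
    (h : (u * MonoidAlgebra.of K _ (FreeGroup.of i)).coeff t ≠ 0) :
    j3_par t = t * FreeGroup.mk [(i, false)] := by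
  apply j3_adj hT ht
  by_contra hn
  apply h
  have := hu _ hn
  rwa [j3_coeff_mul_of, j3_of_inv_eq]

theorem j3_co_excl (hT : PrefClosed T) (ht : t ∉ T) {i : Fin r} {u : FGA K r}
    (hu : u ∈ KT K (insert t T))
    (hu' : u * MonoidAlgebra.of K _ (FreeGroup.of i) ∈ KT K (insert t T)) :
    u.coeff t = 0 ∨ (u * MonoidAlgebra.of K _ (FreeGroup.of i)).coeff t = 0 := by
  by_contra hn
  push Not at hn
  have h1 := j3_co_left hT ht hu' hn.1
  have h2 := j3_co_right hT ht hu hn.2
  rw [h1] at h2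
  have := (j3_letter_inj (mul_left_cancel h2)).2
  simp at this

/-- The functional which detects the new vertex. -/
def j3_mu (K : Type*) [Field K] {r : ℕ} (t : FreeGroup (Fin r)) (i : Fin r) :
    FGA K r →ₗ[K] K where
  toFun u := u.coeff t + (u * MonoidAlgebra.of K _ (FreeGroup.of i)).coeff t
  map_add' u v := by simp [add_mul]; ring
  map_smul' c u := by simp; ring

theorem j3_mu_apply (i : Fin r) (u : FGA K r) :
    j3_mu K t i u = u.coeff t + (u * MonoidAlgebra.of K _ (FreeGroup.of i)).coeff t := rfl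

theorem j3_mu_ne (hT : PrefClosed T) (ht : t ∉ T) {i : Fin r} {I : RI K r} {u : FGA K r}
    (hu : u ∈ j3_W I (insert t T) i) :
    j3_mu K t i u ≠ 0 ↔
      u.coeff t ≠ 0 ∨ (u * MonoidAlgebra.of K _ (FreeGroup.of i)).coeff t ≠ 0 := by
  rw [j3_mu_apply]
  rcases j3_co_excl hT ht hu.1.2 hu.2 with h | h
  · rw [h, zero_add]; simp
  · rw [h, add_zero]; simp

theorem j3_W_insert (hT : PrefClosed T) (ht : t ∉ T) (I : RI K r) (i : Fin r) :
    j3_W I T i = j3_W I (insert t T) i ⊓ LinearMap.ker (j3_mu K t i) := by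
  ext u
  simp only [Submodule.mem_inf, LinearMap.mem_ker]
  constructor
  · rintro ⟨⟨h1, h2⟩, h3⟩
    refine ⟨⟨⟨h1, j3_KT_mono (Finset.subset_insert _ _) h2⟩,
      j3_KT_mono (Finset.subset_insert _ _) h3⟩, ?_⟩
    rw [j3_mu_apply, h2 t ht, h3 t ht, add_zero]
  · rintro ⟨h1, h2⟩
    have h3 : ¬ (j3_mu K t i u ≠ 0) := by simp [h2]
    rw [j3_mu_ne hT ht h1] at h3
    push Not at h3
    exact ⟨⟨h1.1.1, j3_KT_insert ⟨h1.1.2, h3.1⟩⟩, j3_KT_insert ⟨h1.2, h3.2⟩⟩

/-- The new vertex is detected by the pairs `(u, u x_i)`. -/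
def j3_P (I : RI K r) (T : Finset (FreeGroup (Fin r))) (t : FreeGroup (Fin r)) (i : Fin r) :
    Prop :=
  ∃ u ∈ j3_W I (insert t T) i,
    u.coeff t ≠ 0 ∨ (u * MonoidAlgebra.of K _ (FreeGroup.of i)).coeff t ≠ 0

theorem j3_finrank_W_insert (hT : PrefClosed T) (ht : t ∉ T) (I : RI K r) (i : Fin r) :
    finrank K (j3_W I T i) + (if j3_P I T t i then 1 else 0) =
      finrank K (j3_W I (insert t T) i) := by
  rw [j3_W_insert hT ht, ← j3_finrank_ker (j3_W I (insert t T) i) (j3_mu K t i)]
  congr 1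
  have : j3_P I T t i ↔ ∃ u ∈ j3_W I (insert t T) i, j3_mu K t i u ≠ 0 := by
    constructor
    · rintro ⟨u, hu, h⟩
      exact ⟨u, hu, (j3_mu_ne hT ht hu).mpr h⟩
    · rintro ⟨u, hu, h⟩
      exact ⟨u, hu, (j3_mu_ne hT ht hu).mp h⟩
  simp only [this]

theorem j3_P_par (hT : PrefClosed T) (ht : t ∉ T) {I : RI K r} {i : Fin r}
    (h : j3_P I T t i) : ∃ b, j3_par t = t * FreeGroup.mk [(i, b)] := by
  obtain ⟨u, hu, h | h⟩ := h
  · exact ⟨true, j3_co_left hT ht hu.2 h⟩
  · exact ⟨false, j3_co_right hT ht hu.1.2 h⟩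

theorem j3_P_unique (hT : PrefClosed T) (ht : t ∉ T) {I : RI K r} {i j : Fin r}
    (h : j3_P I T t i) (h' : j3_P I T t j) : i = j := by
  obtain ⟨b, hb⟩ := j3_P_par hT ht h
  obtain ⟨c, hc⟩ := j3_P_par hT ht h'
  rw [hb] at hc
  exact (j3_letter_inj (mul_left_cancel hc)).1

theorem j3_sum_W_insert (hT : PrefClosed T) (ht : t ∉ T) (I : RI K r) :
    ∑ i, finrank K (j3_W I T i) + (if ∃ i, j3_P I T t i then 1 else 0) =
      ∑ i, finrank K (j3_W I (insert t T) i) := by
  simp only [← j3_finrank_W_insert hT ht I, Finset.sum_add_distrib]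
  congr 1
  split_ifs with h
  · obtain ⟨i, hi⟩ := h
    rw [Finset.sum_eq_single i, if_pos hi]
    · intro j _ hj
      rw [if_neg]
      intro hj'
      exact hj (j3_P_unique hT ht hj' hi)
    · simp
  · symm
    apply Finset.sum_eq_zero
    intro i _
    rw [if_neg]
    exact fun hi => h ⟨i, hi⟩

/-- The right ideal generated by the part of `I` supported on `T`. -/
def j3_J (I : RI K r) (T : Finset (FreeGroup (Fin r))) : RI K r :=
  Submodule.span (FGA K r)ᵐᵒᵖ {u : FGA K r | u ∈ I ∧ u ∈ KT K T}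

theorem j3_J_le (I : RI K r) (T : Finset (FreeGroup (Fin r))) : j3_J I T ≤ I :=
  Submodule.span_le.mpr fun _ hu => hu.1

/-- If `j3_P` holds then the ideal does not grow. -/
theorem j3_J_insert_eq (hT : PrefClosed T) (ht : t ∉ T) {I : RI K r}
    (h : (¬ ∃ u ∈ j3_V I (insert t T), u.coeff t ≠ 0) ∨ ∃ i, j3_P I T t i) :
    j3_J I (insert t T) = j3_J I T := by
  apply le_antisymm
  · apply Submodule.span_le.mpr
    rintro v ⟨hv1, hv2⟩
    rcases h with h | ⟨i, u, hu, hne⟩
    · push Not at h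
      exact Submodule.subset_span ⟨hv1, j3_KT_insert ⟨hv2, h v ⟨hv1, hv2⟩⟩⟩
    · obtain ⟨f, hf1, hf2, hf3, hf4⟩ : ∃ f : FGA K r, f ∈ I ∧ f ∈ KT K (insert t T) ∧
          f.coeff t ≠ 0 ∧ f ∈ j3_J I T := by
        rcases hne with hne | hne
        · refine ⟨u, hu.1.1, hu.1.2, hne, ?_⟩
          have h1 : (u * MonoidAlgebra.of K _ (FreeGroup.of i)).coeff t = 0 :=
            (j3_co_excl hT ht hu.1.2 hu.2).resolve_left hne
          have h2 : u * MonoidAlgebra.of K _ (FreeGroup.of i) ∈ j3_J I T :=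
            Submodule.subset_span ⟨j3_mul_mem hu.1.1 _, j3_KT_insert ⟨hu.2, h1⟩⟩
          have h3 := j3_mul_mem h2 (MonoidAlgebra.of K _ (FreeGroup.of i)⁻¹)
          rwa [mul_assoc, ← map_mul, mul_inv_cancel, map_one, mul_one] at h3
        · refine ⟨_, j3_mul_mem hu.1.1 _, hu.2, hne, ?_⟩
          have h1 : u.coeff t = 0 := (j3_co_excl hT ht hu.1.2 hu.2).resolve_right hne
          have h2 : u ∈ j3_J I T := Submodule.subset_span ⟨hu.1.1, j3_KT_insert ⟨hu.1.2, h1⟩⟩
          exact j3_mul_mem h2 _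
      have h5 : v = (v - (v.coeff t / f.coeff t) • f) + (v.coeff t / f.coeff t) • f := by
        rw [sub_add_cancel]
      rw [SetLike.mem_coe, h5]
      refine Submodule.add_mem _ (Submodule.subset_span ⟨?_, ?_⟩) (j3_smul_mem hf4 _)
      · exact I.sub_mem hv1 (j3_smul_mem hf1 _)
      · apply j3_KT_insert (t := t)
        refine ⟨Submodule.sub_mem _ hv2 (Submodule.smul_mem _ _ hf2), ?_⟩
        have : (v - (v.coeff t / f.coeff t) • f).coeff t =
            v.coeff t - (v.coeff t / f.coeff t) * f.coeff t := by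
          simp [MonoidAlgebra.coeff_sub]
        rw [this, div_mul_cancel₀ _ hf3, sub_self]
  · apply Submodule.span_mono
    rintro v ⟨hv1, hv2⟩
    exact ⟨hv1, j3_KT_mono (Finset.subset_insert _ _) hv2⟩

/-- The functional which reads the coefficient at the new vertex. -/
theorem j3_exists_fun (hT : PrefClosed T) (hp : j3_par t ∈ T) {I : RI K r}
    (h : ¬ ∃ i, j3_P I T t i) :
    ∃ Φ : I →ₗ[(FGA K r)ᵐᵒᵖ] FGA K r, ∀ u (hu : u ∈ I), u ∈ KT K (insert t T) →
      Φ ⟨u, hu⟩ = MonoidAlgebra.single 1 (u.coeff t) := by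
  let φ : FGA K r →ₗ[K] FGA K r :=
    { toFun := fun u => MonoidAlgebra.single 1 (u.coeff t)
      map_add' := fun u v => by simp
      map_smul' := fun c u => by simp }
  have hφ : ∀ u, φ u = MonoidAlgebra.single 1 (u.coeff t) := fun _ => rfl
  refine exists_hom_ext I (insert t T) (j3_prefClosed_insert hT hp) φ fun i u hu hu1 hu2 => ?_
  have h1 : u.coeff t = 0 ∧ (u * MonoidAlgebra.of K _ (FreeGroup.of i)).coeff t = 0 := by
    by_contra hn
    apply h
    refine ⟨i, u, ⟨⟨hu, hu1⟩, hu2⟩, ?_⟩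
    by_contra hn'
    push Not at hn'
    exact hn hn'
  rw [hφ, hφ, h1.1, h1.2]
  simp

theorem j3_fun_J {I : RI K r} (ht : t ∉ T) {Φ : I →ₗ[(FGA K r)ᵐᵒᵖ] FGA K r}
    (hΦ : ∀ u (hu : u ∈ I), u ∈ KT K (insert t T) →
      Φ ⟨u, hu⟩ = MonoidAlgebra.single 1 (u.coeff t)) {x : FGA K r} (hx : x ∈ j3_J I T) :
    Φ ⟨x, j3_J_le I T hx⟩ = 0 := by
  have h1 : j3_J I T ≤ (LinearMap.ker Φ).map I.subtype := by
    apply Submodule.span_le.mpr
    rintro u ⟨hu1, hu2⟩
    refine ⟨⟨u, hu1⟩, ?_, rfl⟩
    rw [SetLike.mem_coe, LinearMap.mem_ker,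
      hΦ u hu1 (j3_KT_mono (Finset.subset_insert _ _) hu2), hu2 t ht, MonoidAlgebra.single_zero]
  obtain ⟨y, hy, hyx⟩ := h1 hx
  have : y = ⟨x, j3_J_le I T hx⟩ := Subtype.ext hyx
  rw [← this]
  exact hy

theorem j3_basis_of {J : RI K r} {ι : Type} (w : ι → FGA K r)
    (hli : LinearIndependent (FGA K r)ᵐᵒᵖ w)
    (hsp : Submodule.span (FGA K r)ᵐᵒᵖ (Set.range w) = J) :
    ∃ b : Basis ι (FGA K r)ᵐᵒᵖ J, ∀ i, (b i : FGA K r) = w i := by
  subst hsp
  exact ⟨Basis.span hli, fun i => by rw [Basis.span_apply hli i]⟩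

theorem j3_extend (hT : PrefClosed T) (ht : t ∉ T) (hp : j3_par t ∈ T) {I : RI K r}
    (h : ¬ ∃ i, j3_P I T t i) {f : FGA K r} (hf : f ∈ j3_V I (insert t T))
    (hft : f.coeff t = 1) {n : ℕ} (b₀ : Basis (Fin n) (FGA K r)ᵐᵒᵖ (j3_J I T)) :
    ∃ b : Basis (Fin n ⊕ Fin 1) (FGA K r)ᵐᵒᵖ (j3_J I (insert t T)),
      ∀ i, (b (Sum.inl i) : FGA K r) = b₀ i := by
  obtain ⟨Φ, hΦ⟩ := j3_exists_fun hT hp h
  have hΦf : Φ ⟨f, hf.1⟩ = 1 := by rw [hΦ f hf.1 hf.2, hft]; rfl
  have hv : LinearIndependent (FGA K r)ᵐᵒᵖ (fun i => (b₀ i : FGA K r)) :=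
    b₀.linearIndependent.map' (j3_J I T).subtype (Submodule.ker_subtype _)
  have hsv : Submodule.span (FGA K r)ᵐᵒᵖ (Set.range (fun i => (b₀ i : FGA K r))) =
      j3_J I T := by
    have h1 := congrArg (Submodule.map (j3_J I T).subtype) b₀.span_eq
    rw [Submodule.map_span, Submodule.map_top, Submodule.range_subtype, ← Set.range_comp] at h1
    exact h1
  have key : ∀ a : (FGA K r)ᵐᵒᵖ, ∀ hx : a • f ∈ I, Φ ⟨a • f, hx⟩ = a.unop := by
    intro a hx
    have : (⟨a • f, hx⟩ : I) = a • ⟨f, hf.1⟩ := rfl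
    rw [this, map_smul, hΦf, MulOpposite.smul_eq_mul_unop, one_mul]
  have hv' : LinearIndependent (FGA K r)ᵐᵒᵖ (fun _ : Fin 1 => f) := by
    rw [Fintype.linearIndependent_iff]
    intro g hg i
    rw [Fin.sum_univ_one] at hg
    have h2 := key (g 0) (by rw [hg]; exact I.zero_mem)
    have h3 : (⟨g 0 • f, by rw [hg]; exact I.zero_mem⟩ : I) = 0 := Subtype.ext hg
    rw [h3, map_zero] at h2
    have h4 : g 0 = 0 := MulOpposite.unop_injective h2.symm
    rwa [Subsingleton.elim i 0]
  have hd : Disjoint (Submodule.span (FGA K r)ᵐᵒᵖ (Set.range (fun i => (b₀ i : FGA K r))))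
      (Submodule.span (FGA K r)ᵐᵒᵖ (Set.range (fun _ : Fin 1 => f))) := by
    rw [Submodule.disjoint_def, hsv]
    intro x hx hx'
    rw [Set.range_const, Submodule.mem_span_singleton] at hx'
    obtain ⟨a, rfl⟩ := hx'
    have h2 := key a (j3_J_le I T hx)
    rw [j3_fun_J ht hΦ hx] at h2
    have h4 : a = 0 := MulOpposite.unop_injective h2.symm
    rw [h4, zero_smul]
  have hli := LinearIndependent.sum_type hv hv' hd
  obtain ⟨b, hb⟩ := j3_basis_of (J := j3_J I (insert t T)) _ hli (by
    apply le_antisymm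
    · apply Submodule.span_le.mpr
      rintro _ ⟨i | i, rfl⟩
      · have h5 : j3_J I T ≤ j3_J I (insert t T) := by
          apply Submodule.span_mono
          rintro v ⟨hv1, hv2⟩
          exact ⟨hv1, j3_KT_mono (Finset.subset_insert _ _) hv2⟩
        exact h5 (b₀ i).2
      · exact Submodule.subset_span hf
    · apply Submodule.span_le.mpr
      rintro v ⟨hv1, hv2⟩
      rw [Set.Sum.elim_range, Submodule.span_union, hsv]
      have h5 : v = (v - (v.coeff t) • f) + (v.coeff t) • f := by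
        rw [sub_add_cancel]
      rw [SetLike.mem_coe, h5]
      apply Submodule.add_mem_sup
      · refine Submodule.subset_span ⟨I.sub_mem hv1 (j3_smul_mem hf.1 _), ?_⟩
        apply j3_KT_insert (t := t)
        refine ⟨Submodule.sub_mem _ hv2 (Submodule.smul_mem _ _ hf.2), ?_⟩
        have : (v - (v.coeff t) • f).coeff t = v.coeff t - (v.coeff t) * f.coeff t := by
          simp [MonoidAlgebra.coeff_sub]
        rw [this, hft, mul_one, sub_self]
      · have h6 : f ∈ Submodule.span (FGA K r)ᵐᵒᵖ (Set.range (fun _ : Fin 1 => f)) :=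
          Submodule.subset_span ⟨0, rfl⟩
        exact j3_smul_mem h6 _)
  exact ⟨b, fun i => hb (Sum.inl i)⟩

/-- One step. -/
theorem j3_step (hT : PrefClosed T) (ht : t ∉ T) (hp : j3_par t ∈ T) (I : RI K r) {n : ℕ}
    (b₀ : Basis (Fin n) (FGA K r)ᵐᵒᵖ (j3_J I T)) :
    ∃ (m : ℕ) (b : Basis (Fin n ⊕ Fin m) (FGA K r)ᵐᵒᵖ (j3_J I (insert t T))),
      (∀ i, (b (Sum.inl i) : FGA K r) = b₀ i) ∧
      m + ∑ i, finrank K (j3_W I (insert t T) i) + finrank K (j3_V I T) =
        ∑ i, finrank K (j3_W I T i) + finrank K (j3_V I (insert t T)) := by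
  rw [← j3_sum_W_insert hT ht I, ← j3_finrank_V_insert ht I]
  by_cases h1 : ∃ u ∈ j3_V I (insert t T), u.coeff t ≠ 0
  · by_cases h2 : ∃ i, j3_P I T t i
    · rw [if_pos h1, if_pos h2]
      have h3 := j3_J_insert_eq hT ht (Or.inr h2)
      refine ⟨0, (b₀.reindex (Equiv.sumEmpty (Fin n) (Fin 0)).symm).map
        (LinearEquiv.ofEq _ _ h3.symm), fun i => ?_, by omega⟩
      simp
    · rw [if_pos h1, if_neg h2]
      obtain ⟨u, hu, hne⟩ := h1
      obtain ⟨b, hb⟩ := j3_extend hT ht hp h2 (f := (u.coeff t)⁻¹ • u)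
        (Submodule.smul_mem _ _ hu) (by simp [hne]) b₀
      exact ⟨1, b, hb, by omega⟩
  · have h2 : ¬ ∃ i, j3_P I T t i := by
      rintro ⟨i, u, hu, h | h⟩
      · exact h1 ⟨u, hu.1, h⟩
      · exact h1 ⟨_, ⟨j3_mul_mem hu.1.1 _, hu.2⟩, h⟩
    rw [if_neg h1, if_neg h2]
    have h3 := j3_J_insert_eq hT ht (Or.inl h1)
    refine ⟨0, (b₀.reindex (Equiv.sumEmpty (Fin n) (Fin 0)).symm).map
      (LinearEquiv.ofEq _ _ h3.symm), fun i => ?_, by omega⟩
    simp

end Leaf

/-! ### Extension of bases -/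

/-- The ball. -/
def j3_ball (r N : ℕ) : Finset (FreeGroup (Fin r)) :=
  Set.Finite.toFinset (s := {g : FreeGroup (Fin r) | g.norm ≤ N}) (by
    have h1 : {l : List (Fin r × Bool) | l.length ≤ N}.Finite := List.finite_length_le _ N
    exact Set.Finite.of_injOn (f := FreeGroup.toWord) (fun _ hg => hg)
      (FreeGroup.toWord_injective.injOn) h1)

theorem j3_mem_ball {N : ℕ} {g : FreeGroup (Fin r)} : g ∈ j3_ball r N ↔ g.norm ≤ N := by
  simp [j3_ball]

theorem j3_ball_prefClosed (N : ℕ) : PrefClosed (j3_ball r N) := by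
  refine ⟨j3_mem_ball.mpr (by simp), fun t ht => ?_⟩
  rw [j3_mem_ball] at ht ⊢
  have h1 : (FreeGroup.mk t.toWord.dropLast).norm ≤ t.toWord.dropLast.length :=
    FreeGroup.norm_mk_le
  rw [List.length_dropLast] at h1
  have h4 : t.norm = t.toWord.length := rfl
  omega

theorem j3_subset_ball (S : Finset (FreeGroup (Fin r))) : ∃ N, S ⊆ j3_ball r N :=
  ⟨S.sup FreeGroup.norm, fun _ hg => j3_mem_ball.mpr (Finset.le_sup hg)⟩

theorem j3_grow (I : RI K r) {B : Finset (FreeGroup (Fin r))} (hB : PrefClosed B) :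
    ∀ (k : ℕ) (T : Finset (FreeGroup (Fin r))), PrefClosed T → T ⊆ B → (B \ T).card = k →
      ∀ {n : ℕ} (b₀ : Basis (Fin n) (FGA K r)ᵐᵒᵖ (j3_J I T)),
      ∃ (m : ℕ) (b : Basis (Fin n ⊕ Fin m) (FGA K r)ᵐᵒᵖ (j3_J I B)),
      ∀ i, (b (Sum.inl i) : FGA K r) = b₀ i := by
  intro k
  induction k with
  | zero =>
    intro T hT hTB hc n b₀
    have h1 : B ⊆ T := Finset.sdiff_eq_empty_iff_subset.mp (Finset.card_eq_zero.mp hc)
    obtain rfl : B = T := Finset.Subset.antisymm h1 hTB
    exact ⟨0, b₀.reindex (Equiv.sumEmpty (Fin n) (Fin 0)).symm, fun i => by simp⟩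
  | succ k ih =>
    intro T hT hTB hc n b₀
    have hne : (B \ T).Nonempty := Finset.card_pos.mp (by omega)
    obtain ⟨t, htB, hmin⟩ := Finset.exists_min_image (B \ T) FreeGroup.norm hne
    rw [Finset.mem_sdiff] at htB
    have ht1 : t ≠ 1 := fun h => htB.2 (h ▸ hT.1)
    have hp : j3_par t ∈ T := by
      by_contra hn
      have h2 := hmin (j3_par t) (Finset.mem_sdiff.mpr ⟨hB.2 t htB.1, hn⟩)
      exact absurd (j3_par_norm t ht1) (by omega)
    obtain ⟨m, b, hb, -⟩ := j3_step hT htB.2 hp I b₀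
    obtain ⟨m', b', hb'⟩ := ih (insert t T) (j3_prefClosed_insert hT hp)
      (Finset.insert_subset htB.1 hTB) (by
        have h3 : B \ insert t T = (B \ T).erase t := by
          ext x; simp only [Finset.mem_sdiff, Finset.mem_insert, Finset.mem_erase]; tauto
        rw [h3, Finset.card_erase_of_mem (Finset.mem_sdiff.mpr htB), hc, Nat.add_sub_cancel])
      (b.reindex finSumFinEquiv)
    refine ⟨m + m', b'.reindex ((Equiv.sumCongr finSumFinEquiv.symm (Equiv.refl _)).trans
      ((Equiv.sumAssoc _ _ _).trans (Equiv.sumCongr (Equiv.refl _) finSumFinEquiv))),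
      fun i => ?_⟩
    have h4 := hb' (finSumFinEquiv (Sum.inl i))
    rw [Basis.reindex_apply, Equiv.symm_apply_apply, hb] at h4
    rw [Basis.reindex_apply, ← h4]
    rfl

variable {ℓ : ℕ} [NeZero ℓ] {lab : ZMod ℓ → Fin r} {σ : ZMod ℓ → Bool}

/-- A basis of the ideal generated by the part supported on `T` extends to a basis of `I`. -/
theorem exists_basis_ext (I : RI K r) (hfg : I.FG) (T : Finset (FreeGroup (Fin r)))
    (hT : PrefClosed T) {n : ℕ}
    (b₀ : Basis (Fin n) (FGA K r)ᵐᵒᵖ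
      (Submodule.span (FGA K r)ᵐᵒᵖ {u : FGA K r | u ∈ I ∧ u ∈ KT K T} : RI K r)) :
    ∃ (m : ℕ) (b : Basis (Fin n ⊕ Fin m) (FGA K r)ᵐᵒᵖ I),
      ∀ i, ((b (Sum.inl i) : I) : FGA K r) = (b₀ i : FGA K r) := by
  obtain ⟨S, hS⟩ := hfg
  obtain ⟨N, hN⟩ := j3_subset_ball (T ∪ S.biUnion fun s => s.coeff.support)
  obtain ⟨m, b, hb⟩ := j3_grow I (j3_ball_prefClosed N) _ T hT
    ((Finset.subset_union_left).trans hN) rfl b₀
  have h1 : j3_J I (j3_ball r N) = I := by
    apply le_antisymm (j3_J_le _ _)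
    conv_lhs => rw [← hS]
    apply Submodule.span_mono
    intro s hs
    refine ⟨by rw [← hS]; exact Submodule.subset_span hs, fun g hg => ?_⟩
    by_contra hne
    apply hg
    apply hN
    apply Finset.mem_union_right
    exact Finset.mem_biUnion.mpr ⟨s, hs, Finsupp.mem_support_iff.mpr hne⟩
  refine ⟨m, b.map (LinearEquiv.ofEq _ _ h1), fun i => ?_⟩
  refine Eq.trans ?_ (hb i)
  simp

/-! ### Invariance of the rank -/

theorem j3_ibn : InvariantBasisNumber (FGA K r) := by
  rw [invariantBasisNumber_iff_matrix]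
  intro n m f g h1 h2
  let ε : FGA K r →+* K := (MonoidAlgebra.lift K K (FreeGroup (Fin r)) 1).toRingHom
  have h3 := congrArg (fun M => M.map ε) h1
  have h4 := congrArg (fun M => M.map ε) h2
  simp only [Matrix.map_mul] at h3 h4
  rw [Matrix.map_one _ (map_zero ε) (map_one ε)] at h3 h4
  exact (invariantBasisNumber_iff_matrix.mp inferInstance) n m _ _ h3 h4

/-- Invariance of the rank. -/
theorem hasRank_unique {I : RI K r} {m n : ℕ} (hm : HasRank I m) (hn : HasRank I n) : m = n := by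
  obtain ⟨b⟩ := hm
  obtain ⟨b'⟩ := hn
  have := j3_ibn (K := K) (r := r)
  have h := Fintype.card_congr (b.indexEquiv b')
  simpa using h

/-! ### The path of the word -/

variable (lab σ) in
/-- The vertices of the path. -/
def j3_path : Finset (FreeGroup (Fin r)) :=
  Finset.image (pre lab σ) (Finset.range (ℓ + 1))

omit [NeZero ℓ] in
theorem j3_pre_mem {m : ℕ} (hm : m ≤ ℓ) : pre lab σ m ∈ j3_path lab σ :=
  Finset.mem_image.mpr ⟨m, Finset.mem_range.mpr (by omega), rfl⟩

theorem j3_single_KT {T : Finset (FreeGroup (Fin r))} {g : FreeGroup (Fin r)} (hg : g ∈ T)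
    (c : K) : (MonoidAlgebra.single g c : FGA K r) ∈ KT K T := by
  intro h hh
  rw [MonoidAlgebra.coeff_single, Finsupp.single_apply, if_neg]
  rintro rfl
  exact hh hg

theorem j3_ev_KT (z : ZMod ℓ → K) : ev lab σ z ∈ KT K (j3_path lab σ) := by
  change (∑ p : ZMod ℓ, MonoidAlgebra.single (pre lab σ p.val) (z p)) ∈ _
  exact Submodule.sum_mem _ fun p _ => j3_single_KT (j3_pre_mem (ZMod.val_lt p).le) _

theorem j3_ev_coeff (z : ZMod ℓ → K) (g : FreeGroup (Fin r)) :
    (ev lab σ z).coeff g = ∑ p : ZMod ℓ, if pre lab σ p.val = g then z p else 0 := by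
  change (∑ p : ZMod ℓ, MonoidAlgebra.single (pre lab σ p.val) (z p)).coeff g = _
  rw [MonoidAlgebra.coeff_sum, Finsupp.finsetSum_apply]
  refine Finset.sum_congr rfl fun p _ => ?_
  rw [MonoidAlgebra.coeff_single, Finsupp.single_apply]

theorem j3_ev_coeff_pre (hred : Reduced σ (Setoid.ker lab)) (z : ZMod ℓ → K) (p : ZMod ℓ) :
    (ev lab σ z).coeff (pre lab σ p.val) = z p := by
  rw [j3_ev_coeff, Finset.sum_eq_single p, if_pos rfl]
  · intro p' _ hp'
    rw [if_neg]
    intro h
    exact hp' (ZMod.val_injective ℓ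
      (pre_injOn hred (ZMod.val_lt p').le (ZMod.val_lt p).le h))
  · simp

theorem j3_ev_coeff_word (hred : Reduced σ (Setoid.ker lab)) (z : ZMod ℓ → K) :
    (ev lab σ z).coeff (word lab σ) = 0 := by
  rw [j3_ev_coeff]
  apply Finset.sum_eq_zero
  intro p _
  rw [if_neg]
  intro h
  exact (ZMod.val_lt p).ne (pre_injOn hred (ZMod.val_lt p).le le_rfl h)

theorem j3_eq_ev (hred : Reduced σ (Setoid.ker lab)) {u : FGA K r}
    (hu : u ∈ KT K (j3_path lab σ)) (hw : u.coeff (word lab σ) = 0) :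
    u = ev lab σ (fun p => u.coeff (pre lab σ p.val)) := by
  apply MonoidAlgebra.ext
  ext g
  by_cases hg : g ∈ j3_path lab σ
  · obtain ⟨m, hm, rfl⟩ := Finset.mem_image.mp hg
    rw [Finset.mem_range] at hm
    rcases Nat.lt_or_ge m ℓ with h | h
    · have h1 : (m : ZMod ℓ).val = m := ZMod.val_natCast_of_lt h
      conv_rhs => rw [← h1]
      rw [j3_ev_coeff_pre hred, h1]
    · obtain rfl : m = ℓ := by omega
      change u.coeff (word lab σ) = (ev lab σ _).coeff (word lab σ)
      rw [j3_ev_coeff_word hred, hw]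
  · rw [hu g hg, j3_ev_KT _ g hg]

omit [NeZero ℓ] in
theorem j3_wm1_KT : wm1 K (word lab σ) ∈ KT K (j3_path lab σ) := by
  rw [wm1, MonoidAlgebra.of_apply, MonoidAlgebra.one_def]
  exact Submodule.sub_mem _ (j3_single_KT (j3_pre_mem le_rfl) _)
    (j3_single_KT (j3_pre_mem (Nat.zero_le _)) _)

theorem j3_word_ne_one (hred : Reduced σ (Setoid.ker lab)) : word lab σ ≠ 1 := by
  intro h
  exact NeZero.ne ℓ (pre_injOn hred le_rfl (Nat.zero_le _) h)

theorem j3_wm1_coeff (hred : Reduced σ (Setoid.ker lab)) :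
    (wm1 K (word lab σ)).coeff (word lab σ) = 1 := by
  rw [wm1, MonoidAlgebra.of_apply, MonoidAlgebra.one_def, MonoidAlgebra.coeff_sub]
  simp [(j3_word_ne_one hred).symm]

theorem idl_SI_eq_span (hred : Reduced σ (Setoid.ker lab)) {I : RI K r}
    (hw : wm1 K (word lab σ) ∈ I) :
    idl lab σ (SI lab σ I) = Submodule.span (FGA K r)ᵐᵒᵖ
      {u : FGA K r | u ∈ I ∧ u ∈ KT K (Finset.image (pre lab σ) (Finset.range (ℓ + 1)))} := by
  apply le_antisymm
  · apply Submodule.span_le.mpr
    rintro u (rfl | ⟨z, hz, rfl⟩)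
    · exact Submodule.subset_span ⟨hw, j3_wm1_KT⟩
    · exact Submodule.subset_span ⟨hz, j3_ev_KT z⟩
  · apply Submodule.span_le.mpr
    rintro u ⟨hu1, hu2⟩
    have h1 : u = (u - (u.coeff (word lab σ)) • wm1 K (word lab σ)) +
        (u.coeff (word lab σ)) • wm1 K (word lab σ) := by rw [sub_add_cancel]
    have h2 : u - (u.coeff (word lab σ)) • wm1 K (word lab σ) ∈ I :=
      I.sub_mem hu1 (j3_smul_mem hw _)
    have h3 : u - (u.coeff (word lab σ)) • wm1 K (word lab σ) ∈ KT K (j3_path lab σ) :=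
      Submodule.sub_mem _ hu2 (Submodule.smul_mem _ _ j3_wm1_KT)
    have h4 : (u - (u.coeff (word lab σ)) • wm1 K (word lab σ)).coeff (word lab σ) = 0 := by
      rw [MonoidAlgebra.coeff_sub, MonoidAlgebra.coeff_smul, Finsupp.sub_apply,
        Finsupp.smul_apply, j3_wm1_coeff hred, smul_eq_mul, mul_one, sub_self]
    have h5 := j3_eq_ev hred h3 h4
    have h6 : wm1 K (word lab σ) ∈ idl lab σ (SI lab σ I) :=
      Submodule.subset_span (Set.mem_insert _ _)
    rw [SetLike.mem_coe, h1]
    refine Submodule.add_mem _ ?_ (j3_smul_mem h6 _)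
    rw [h5]
    refine Submodule.subset_span (Set.mem_insert_of_mem _ ⟨_, ?_, rfl⟩)
    change ev lab σ _ ∈ I
    rw [← h5]
    exact h2

/-! ### The rank formula -/

theorem j3_KT_one {u : FGA K r} (hu : u ∈ KT K ({1} : Finset (FreeGroup (Fin r)))) :
    u = (u.coeff 1) • (1 : FGA K r) := by
  apply MonoidAlgebra.ext
  ext g
  rw [MonoidAlgebra.coeff_smul, Finsupp.smul_apply, MonoidAlgebra.one_def,
    MonoidAlgebra.coeff_single, Finsupp.single_apply]
  split_ifs with h
  · rw [← h]; simp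
  · rw [hu g (by simpa using Ne.symm h)]; simp

theorem j3_W_one (I : RI K r) (i : Fin r) : j3_W I {1} i = ⊥ := by
  rw [eq_bot_iff]
  rintro u ⟨⟨-, h1⟩, h2⟩
  have h3 := h2 (FreeGroup.of i) (by
    rw [Finset.mem_singleton, j3_of_eq]; exact j3_letter_ne_one i true)
  rw [j3_coeff_mul_of, mul_inv_cancel] at h3
  rw [Submodule.mem_bot, j3_KT_one h1, h3, zero_smul]

theorem j3_rank_base (I : RI K r) :
    ∃ n : ℕ, Nonempty (Basis (Fin n) (FGA K r)ᵐᵒᵖ (j3_J I {1})) ∧
      n + ∑ i, finrank K (j3_W I {1} i) = finrank K (j3_V I {1}) := by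
  have hW : ∑ i, finrank K (j3_W I {1} i) = 0 :=
    Finset.sum_eq_zero fun i _ => by rw [j3_W_one, finrank_bot]
  by_cases h1 : (1 : FGA K r) ∈ I
  · have hK : (1 : FGA K r) ∈ KT K ({1} : Finset (FreeGroup (Fin r))) :=
      j3_single_KT (Finset.mem_singleton_self _) _
    have hJ : j3_J I {1} = ⊤ := by
      rw [eq_top_iff]
      intro x _
      have h2 : (1 : FGA K r) ∈ j3_J I {1} := Submodule.subset_span ⟨h1, hK⟩
      have := j3_mul_mem h2 x
      rwa [one_mul] at this
    have hli : LinearIndependent (FGA K r)ᵐᵒᵖ (fun _ : Fin 1 => (1 : FGA K r)) := by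
      rw [Fintype.linearIndependent_iff]
      intro g hg i
      rw [Fin.sum_univ_one, MulOpposite.smul_eq_mul_unop, one_mul] at hg
      have h4 : g 0 = 0 := MulOpposite.unop_injective hg
      rwa [Subsingleton.elim i 0]
    obtain ⟨b, -⟩ := j3_basis_of (J := j3_J I {1}) _ hli (by
      rw [hJ, eq_top_iff]
      intro x _
      have h2 : (1 : FGA K r) ∈
          Submodule.span (FGA K r)ᵐᵒᵖ (Set.range (fun _ : Fin 1 => (1 : FGA K r))) :=
        Submodule.subset_span ⟨0, rfl⟩
      have := j3_mul_mem h2 x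
      rwa [one_mul] at this)
    refine ⟨1, ⟨b⟩, ?_⟩
    have h3 : j3_V I {1} = Submodule.span K {(1 : FGA K r)} := by
      apply le_antisymm
      · rintro u ⟨-, hu⟩
        rw [j3_KT_one hu]
        exact Submodule.smul_mem _ _ (Submodule.mem_span_singleton_self _)
      · rw [Submodule.span_singleton_le_iff_mem]
        exact ⟨h1, hK⟩
    rw [hW, h3, finrank_span_singleton one_ne_zero]
  · have h2 : ∀ u, u ∈ I → u ∈ KT K ({1} : Finset (FreeGroup (Fin r))) → u = 0 := by
      intro u hu hu'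
      by_contra hne
      apply h1
      have h3 := j3_KT_one hu'
      have h4 : u.coeff 1 ≠ 0 := by
        intro h4; rw [h4, zero_smul] at h3; exact hne h3
      have h5 := j3_smul_mem hu (u.coeff 1)⁻¹
      rw [h3] at h5
      simpa [smul_smul, h4] using h5
    have hJ : j3_J I {1} = ⊥ := by
      rw [eq_bot_iff]
      apply Submodule.span_le.mpr
      rintro u ⟨hu, hu'⟩
      exact (Submodule.mem_bot _).mpr (h2 u hu hu')
    have hV : j3_V I {1} = ⊥ := by
      rw [eq_bot_iff]
      rintro u ⟨hu, hu'⟩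
      exact (Submodule.mem_bot _).mpr (h2 u hu hu')
    refine ⟨0, ⟨(Basis.empty _ : Basis (Fin 0) (FGA K r)ᵐᵒᵖ
      (⊥ : RI K r)).map (LinearEquiv.ofEq _ _ hJ.symm)⟩, ?_⟩
    rw [hW, hV, finrank_bot]

theorem j3_rank (I : RI K r) : ∀ (k : ℕ) (T : Finset (FreeGroup (Fin r))), T.card = k →
    PrefClosed T → ∃ n : ℕ, Nonempty (Basis (Fin n) (FGA K r)ᵐᵒᵖ (j3_J I T)) ∧
      n + ∑ i, finrank K (j3_W I T i) = finrank K (j3_V I T) := by
  intro k
  induction k with
  | zero =>
    intro T hc hT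
    rw [Finset.card_eq_zero] at hc
    have := hT.1
    simp [hc] at this
  | succ k ih =>
    intro T hc hT
    by_cases h1 : T = {1}
    · rw [h1]; exact j3_rank_base I
    · obtain ⟨t, htT, hmax⟩ := Finset.exists_max_image T FreeGroup.norm ⟨1, hT.1⟩
      have ht1 : t ≠ 1 := by
        rintro rfl
        apply h1
        rw [Finset.eq_singleton_iff_unique_mem]
        refine ⟨hT.1, fun s hs => ?_⟩
        have := hmax s hs
        rw [FreeGroup.norm_one, Nat.le_zero, FreeGroup.norm_eq_zero] at this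
        exact this
      have hT' : PrefClosed (T.erase t) := by
        refine ⟨Finset.mem_erase.mpr ⟨ht1.symm, hT.1⟩, fun s hs => ?_⟩
        rw [Finset.mem_erase] at hs
        refine Finset.mem_erase.mpr ⟨fun h => ?_, hT.2 s hs.2⟩
        by_cases hs1 : s = 1
        · rw [hs1] at h
          exact ht1 (h.symm.trans j3_par_one)
        · have h2 := j3_par_norm s hs1
          have h3 := hmax s hs.2
          rw [j3_par, h] at h2
          omega
      have hins : insert t (T.erase t) = T := Finset.insert_erase htT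
      have hpar : j3_par t ∈ T.erase t := by
        refine Finset.mem_erase.mpr ⟨fun h => ?_, hT.2 t htT⟩
        have h2 := j3_par_norm t ht1
        rw [h] at h2
        omega
      obtain ⟨n, ⟨b₀⟩, hn⟩ := ih (T.erase t) (by rw [Finset.card_erase_of_mem htT]; omega) hT'
      obtain ⟨m, b, -, hm⟩ := j3_step hT' (Finset.notMem_erase t T) hpar I b₀
      rw [hins] at b hm
      exact ⟨n + m, ⟨b.reindex finSumFinEquiv⟩, by omega⟩

/-! ### Words -/

omit [NeZero ℓ] in
theorem j3_letter_eq (ε : ZMod ℓ) : letter lab σ ε = FreeGroup.mk [(lab ε, σ ε)] := by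
  rw [letter]
  split_ifs with h
  · rw [j3_of_eq, h]
  · rw [j3_of_inv_eq]
    simp only [Bool.not_eq_true] at h
    rw [h]

omit [NeZero ℓ] in
theorem j3_toWord_pre (hred : Reduced σ (Setoid.ker lab)) :
    ∀ m : ℕ, m < ℓ → (pre lab σ (m + 1)).toWord =
      (pre lab σ m).toWord ++ [(lab (m : ZMod ℓ), σ (m : ZMod ℓ))] := by
  intro m
  induction m with
  | zero =>
    intro _
    change (1 * letter lab σ ((0 : ℕ) : ZMod ℓ)).toWord = (1 : FreeGroup (Fin r)).toWord ++ _
    rw [one_mul, j3_letter_eq, j3_toWord_mk FreeGroup.IsReduced.singleton, FreeGroup.toWord_one,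
      List.nil_append]
  | succ m ih =>
    intro hm
    have h1 := ih (by omega)
    change (pre lab σ (m + 1) * letter lab σ ((m + 1 : ℕ) : ZMod ℓ)).toWord = _
    rw [j3_letter_eq]
    rcases j3_mul_letter (pre lab σ (m + 1)) (lab ((m + 1 : ℕ) : ZMod ℓ))
      (σ ((m + 1 : ℕ) : ZMod ℓ)) with h | h
    · exact h
    · exfalso
      rw [h1] at h
      have h2 := List.append_inj_right' h rfl
      simp only [List.cons.injEq, Prod.mk.injEq, and_true] at h2
      have h3 := hred (m : ZMod ℓ) (by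
        rw [Setoid.ker_def, h2.1]; push_cast; rfl)
      rw [h2.2] at h3
      push_cast at h3
      simp at h3

omit [NeZero ℓ] in
theorem j3_length_pre (hred : Reduced σ (Setoid.ker lab)) :
    ∀ m : ℕ, m ≤ ℓ → (pre lab σ m).toWord.length = m := by
  intro m
  induction m with
  | zero => intro _; change (1 : FreeGroup (Fin r)).toWord.length = 0; simp
  | succ m ih =>
    intro hm
    rw [j3_toWord_pre hred m hm, List.length_append, ih (by omega)]
    rfl

omit [NeZero ℓ] in
theorem j3_path_prefClosed (hred : Reduced σ (Setoid.ker lab)) :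
    PrefClosed (j3_path lab σ) := by
  refine ⟨j3_pre_mem (Nat.zero_le _), fun t ht => ?_⟩
  obtain ⟨m, hm, rfl⟩ := Finset.mem_image.mp ht
  rw [Finset.mem_range] at hm
  rcases m with - | m
  · change j3_par 1 ∈ _
    rw [j3_par_one]
    exact j3_pre_mem (Nat.zero_le _)
  · rw [j3_toWord_pre hred m (by omega), List.dropLast_concat, FreeGroup.mk_toWord]
    exact j3_pre_mem (by omega)

variable (lab σ) in
/-- The source of an edge of the path. -/
def j3_src (ε : ZMod ℓ) : FreeGroup (Fin r) :=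
  if σ ε then pre lab σ ε.val else pre lab σ (ε.val + 1)

theorem j3_pre_succ (ε : ZMod ℓ) :
    pre lab σ (ε.val + 1) = pre lab σ ε.val * FreeGroup.mk [(lab ε, σ ε)] := by
  change pre lab σ ε.val * letter lab σ (ε.val : ZMod ℓ) = _
  rw [ZMod.natCast_zmod_val, j3_letter_eq]

theorem j3_src_mul (ε : ZMod ℓ) : j3_src lab σ ε * FreeGroup.of (lab ε) =
    if σ ε then pre lab σ (ε.val + 1) else pre lab σ ε.val := by
  rw [j3_src]
  split_ifs with h
  · rw [j3_pre_succ, h, j3_of_eq]
  · simp only [Bool.not_eq_true] at h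
    rw [j3_pre_succ, h, ← j3_of_inv_eq, inv_mul_cancel_right]

theorem j3_src_mem (ε : ZMod ℓ) : j3_src lab σ ε ∈ j3_path lab σ := by
  have := ZMod.val_lt ε
  rw [j3_src]
  split_ifs
  · exact j3_pre_mem (by omega)
  · exact j3_pre_mem (by omega)

theorem j3_tgt_mem (ε : ZMod ℓ) :
    j3_src lab σ ε * FreeGroup.of (lab ε) ∈ j3_path lab σ := by
  have := ZMod.val_lt ε
  rw [j3_src_mul]
  split_ifs
  · exact j3_pre_mem (by omega)
  · exact j3_pre_mem (by omega)

theorem j3_src_inj (hred : Reduced σ (Setoid.ker lab)) {ε ε' : ZMod ℓ} (hl : lab ε = lab ε')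
    (h : j3_src lab σ ε = j3_src lab σ ε') : ε = ε' := by
  have h1 := ZMod.val_lt ε
  have h2 := ZMod.val_lt ε'
  have h3 : j3_src lab σ ε * FreeGroup.of (lab ε) = j3_src lab σ ε' * FreeGroup.of (lab ε') := by
    rw [h, hl]
  rw [j3_src_mul, j3_src_mul] at h3
  rw [j3_src, j3_src] at h
  apply ZMod.val_injective ℓ
  by_cases hs : σ ε = true
  · by_cases hs' : σ ε' = true
    · rw [if_pos hs, if_pos hs'] at h
      exact pre_injOn hred (by omega) (by omega) h
    · rw [if_pos hs, if_neg hs'] at h h3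
      have h4 := pre_injOn hred (by omega) (by omega) h
      have h5 := pre_injOn hred (by omega) (by omega) h3
      omega
  · by_cases hs' : σ ε' = true
    · rw [if_neg hs, if_pos hs'] at h h3
      have h4 := pre_injOn hred (by omega) (by omega) h
      have h5 := pre_injOn hred (by omega) (by omega) h3
      omega
    · rw [if_neg hs, if_neg hs'] at h
      have h4 := pre_injOn hred (by omega) (by omega) h
      omega

omit [NeZero ℓ] in
theorem j3_edge (hred : Reduced σ (Setoid.ker lab)) {g : FreeGroup (Fin r)} {i : Fin r}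
    (h1 : g ∈ j3_path lab σ) (h2 : g * FreeGroup.of i ∈ j3_path lab σ) :
    ∃ ε, lab ε = i ∧ j3_src lab σ ε = g := by
  obtain ⟨m, hm, rfl⟩ := Finset.mem_image.mp h1
  obtain ⟨m', hm', h3⟩ := Finset.mem_image.mp h2
  rw [Finset.mem_range] at hm hm'
  rw [j3_of_eq] at h3
  have hl := j3_length_pre hred m (by omega)
  have hl' := j3_length_pre hred m' (by omega)
  rcases j3_mul_letter (pre lab σ m) i true with h | h
  · rw [← h3] at h
    have h4 := congrArg List.length h
    rw [List.length_append, hl, hl'] at h4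
    simp only [List.length_singleton] at h4
    subst h4
    rw [j3_toWord_pre hred m (by omega)] at h
    have h5 := List.append_inj_right' h rfl
    simp only [List.cons.injEq, Prod.mk.injEq, and_true] at h5
    refine ⟨(m : ZMod ℓ), h5.1, ?_⟩
    rw [j3_src, if_pos h5.2, ZMod.val_natCast_of_lt (by omega)]
  · rw [← h3] at h
    have h4 := congrArg List.length h
    rw [List.length_append, hl, hl'] at h4
    simp only [List.length_singleton] at h4
    subst h4
    rw [j3_toWord_pre hred m' (by omega)] at h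
    have h5 := List.append_inj_right' h rfl
    simp only [List.cons.injEq, Prod.mk.injEq, and_true, Bool.not_true] at h5
    refine ⟨(m' : ZMod ℓ), h5.1, ?_⟩
    rw [j3_src, if_neg (by rw [h5.2]; simp), ZMod.val_natCast_of_lt (by omega)]

/-! ### The edge space -/

variable (lab σ) in
/-- The element of the group algebra of a function on the edges (placed at the sources). -/
def j3_tau (v : ZMod ℓ → K) : FGA K r :=
  ∑ ε : ZMod ℓ, MonoidAlgebra.single (j3_src lab σ ε) (v ε)

theorem j3_ev_push (v : ZMod ℓ → K) : ev lab σ (push σ false v) =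
    ∑ ε : ZMod ℓ, MonoidAlgebra.single (pre lab σ (epos σ false ε).val) (v ε) := by
  change (∑ p : ZMod ℓ, MonoidAlgebra.single (pre lab σ p.val)
    (∑ ε, if epos σ false ε = p then v ε else 0)) = _
  have h1 : ∀ p : ZMod ℓ, (MonoidAlgebra.single (pre lab σ p.val)
      (∑ ε, if epos σ false ε = p then v ε else 0) : FGA K r) =
      ∑ ε, MonoidAlgebra.single (pre lab σ p.val) (if epos σ false ε = p then v ε else 0) :=
    fun p => map_sum (MonoidAlgebra.singleAddHom (pre lab σ p.val)) _ _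
  simp only [h1]
  rw [Finset.sum_comm]
  refine Finset.sum_congr rfl fun ε _ => ?_
  rw [Finset.sum_eq_single (epos σ false ε), if_pos rfl]
  · intro p _ hp
    rw [if_neg (Ne.symm hp), MonoidAlgebra.single_zero]
  · simp

theorem j3_tau_sub {I : RI K r} (hw : wm1 K (word lab σ) ∈ I) (v : ZMod ℓ → K) :
    j3_tau lab σ v - ev lab σ (push σ false v) ∈ I := by
  rw [j3_ev_push, j3_tau, ← Finset.sum_sub_distrib]
  refine Submodule.sum_mem _ fun ε _ => ?_
  by_cases hs : σ ε = true
  · have h1 : epos σ false ε = ε := by rw [epos, if_neg (by simp [hs])]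
    rw [j3_src, if_pos hs, h1, sub_self]
    exact I.zero_mem
  · have h1 : epos σ false ε = ε + 1 := by
      rw [epos, if_pos (by simpa using hs)]
    rw [j3_src, if_neg hs, h1]
    rcases Nat.lt_or_ge (ε.val + 1) ℓ with h2 | h2
    · have h3 : (ε + 1).val = ε.val + 1 := by
        have h4 : ε + 1 = ((ε.val + 1 : ℕ) : ZMod ℓ) := by
          rw [Nat.cast_add, Nat.cast_one, ZMod.natCast_zmod_val]
        rw [h4, ZMod.val_natCast_of_lt h2]
      rw [h3, sub_self]
      exact I.zero_mem
    · have h3 := ZMod.val_lt ε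
      have h4 : ε.val + 1 = ℓ := by omega
      have h5 : ε + 1 = 0 := by
        have : ((ε.val + 1 : ℕ) : ZMod ℓ) = 0 := by rw [h4]; simp
        rwa [Nat.cast_add, Nat.cast_one, ZMod.natCast_zmod_val] at this
      have h6 : (ε + 1).val = 0 := by rw [h5, ZMod.val_zero]
      rw [h6, h4]
      change MonoidAlgebra.single (word lab σ) (v ε) - MonoidAlgebra.single 1 (v ε) ∈ I
      have h7 : (MonoidAlgebra.single (word lab σ) (v ε) - MonoidAlgebra.single 1 (v ε) :
          FGA K r) = (v ε) • wm1 K (word lab σ) := by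
        rw [wm1, smul_sub, MonoidAlgebra.of_apply, MonoidAlgebra.one_def,
          MonoidAlgebra.smul_single, MonoidAlgebra.smul_single, smul_eq_mul, mul_one]
      rw [h7]
      exact j3_smul_mem hw _

theorem j3_tau_mem {I : RI K r} (hw : wm1 K (word lab σ) ∈ I) (v : ZMod ℓ → K) :
    j3_tau lab σ v ∈ I ↔ push σ false v ∈ SI lab σ I := by
  change _ ↔ ev lab σ (push σ false v) ∈ I
  have h1 := j3_tau_sub hw v
  constructor
  · intro h
    have := I.sub_mem h h1
    rwa [sub_sub_cancel] at this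
  · intro h
    have := I.add_mem h1 h
    rwa [sub_add_cancel] at this

theorem j3_tau_coeff (v : ZMod ℓ → K) (g : FreeGroup (Fin r)) :
    (j3_tau lab σ v).coeff g = ∑ ε : ZMod ℓ, if j3_src lab σ ε = g then v ε else 0 := by
  rw [j3_tau, MonoidAlgebra.coeff_sum, Finsupp.finsetSum_apply]
  refine Finset.sum_congr rfl fun p _ => ?_
  rw [MonoidAlgebra.coeff_single, Finsupp.single_apply]

variable (lab) in
/-- The restriction of a function on the edges to a letter. -/
def j3_at (u : ZMod ℓ → K) (i : Fin r) : ZMod ℓ → K := fun ε => if lab ε = i then u ε else 0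

theorem j3_tau_at_coeff (hred : Reduced σ (Setoid.ker lab)) (u : ZMod ℓ → K) (ε : ZMod ℓ) :
    (j3_tau lab σ (j3_at lab u (lab ε))).coeff (j3_src lab σ ε) = u ε := by
  rw [j3_tau_coeff, Finset.sum_eq_single ε, if_pos rfl, j3_at, if_pos rfl]
  · intro ε' _ hne
    split_ifs with h
    · rw [j3_at, if_neg]
      intro hl
      exact hne (j3_src_inj hred hl h)
    · rfl
  · simp

theorem j3_tau_at_KT (u : ZMod ℓ → K) (i : Fin r) :
    j3_tau lab σ (j3_at lab u i) ∈ KT K (j3_path lab σ) ∧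
      j3_tau lab σ (j3_at lab u i) * MonoidAlgebra.of K _ (FreeGroup.of i) ∈
        KT K (j3_path lab σ) := by
  constructor
  · exact Submodule.sum_mem _ fun ε _ => j3_single_KT (j3_src_mem ε) _
  · rw [j3_tau, Finset.sum_mul]
    refine Submodule.sum_mem _ fun ε _ => ?_
    rw [MonoidAlgebra.of_apply, MonoidAlgebra.single_mul_single, mul_one]
    by_cases h : lab ε = i
    · rw [← h]
      exact j3_single_KT (j3_tgt_mem ε) _
    · rw [j3_at, if_neg h, MonoidAlgebra.single_zero]
      exact Submodule.zero_mem _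

theorem j3_mem_UI {I : RI K r} {u : ZMod ℓ → K} :
    u ∈ UI lab σ I ↔ ∀ i, push σ false (j3_at lab u i) ∈ SI lab σ I := by
  change (∀ ε₀, push σ false (res (block (Setoid.ker lab) ε₀) u) ∈ SI lab σ I) ↔ _
  have h1 : ∀ ε₀, res (block (Setoid.ker lab) ε₀) u = j3_at lab u (lab ε₀) := by
    intro ε₀
    funext ε
    change (if ε ∈ block (Setoid.ker lab) ε₀ then u ε else 0) =
      (if lab ε = lab ε₀ then u ε else 0)
    by_cases h : lab ε = lab ε₀
    · have h' : ε ∈ block (Setoid.ker lab) ε₀ := h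
      rw [if_pos h', if_pos h]
    · have h' : ε ∉ block (Setoid.ker lab) ε₀ := h
      rw [if_neg h', if_neg h]
  constructor
  · intro h i
    by_cases hi : ∃ ε₀, lab ε₀ = i
    · obtain ⟨ε₀, rfl⟩ := hi
      rw [← h1]
      exact h ε₀
    · have h2 : j3_at lab u i = 0 := by
        funext ε
        rw [j3_at, if_neg (fun h => hi ⟨ε, h⟩)]
        rfl
      rw [h2, map_zero]
      exact Submodule.zero_mem _
  · intro h ε₀
    rw [h1]
    exact h _

theorem j3_finrank_UI (hred : Reduced σ (Setoid.ker lab)) {I : RI K r}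
    (hw : wm1 K (word lab σ) ∈ I) :
    finrank K (UI lab σ I) = ∑ i, finrank K (j3_W I (j3_path lab σ) i) := by
  let Ψ : UI lab σ I →ₗ[K] (∀ i, j3_W I (j3_path lab σ) i) :=
    { toFun := fun u i => ⟨j3_tau lab σ (j3_at lab u.1 i),
        ⟨⟨(j3_tau_mem hw _).mpr (j3_mem_UI.mp u.2 i), (j3_tau_at_KT u.1 i).1⟩,
          (j3_tau_at_KT u.1 i).2⟩⟩
      map_add' := fun u v => by
        funext i
        apply Subtype.ext
        change j3_tau lab σ (j3_at lab (u.1 + v.1) i) =
          j3_tau lab σ (j3_at lab u.1 i) + j3_tau lab σ (j3_at lab v.1 i)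
        rw [j3_tau, j3_tau, j3_tau, ← Finset.sum_add_distrib]
        refine Finset.sum_congr rfl fun ε _ => ?_
        rw [← MonoidAlgebra.single_add]
        congr 1
        simp only [j3_at, Pi.add_apply]
        split_ifs <;> simp
      map_smul' := fun c u => by
        funext i
        apply Subtype.ext
        change j3_tau lab σ (j3_at lab (c • u.1) i) = c • j3_tau lab σ (j3_at lab u.1 i)
        rw [j3_tau, j3_tau, Finset.smul_sum]
        refine Finset.sum_congr rfl fun ε _ => ?_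
        rw [MonoidAlgebra.smul_single]
        congr 1
        simp only [j3_at, Pi.smul_apply]
        split_ifs <;> simp }
  have hinj : Function.Injective Ψ := by
    rw [injective_iff_map_eq_zero]
    intro u hu
    apply Subtype.ext
    funext ε
    have h1 := congrArg (fun w => ((w (lab ε)).1).coeff (j3_src lab σ ε)) hu
    change (j3_tau lab σ (j3_at lab u.1 (lab ε))).coeff (j3_src lab σ ε) = 0 at h1
    rwa [j3_tau_at_coeff hred] at h1
  have hsurj : Function.Surjective Ψ := by
    intro w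
    have key : ∀ i, j3_tau lab σ
        (j3_at lab (fun ε => ((w (lab ε)).1).coeff (j3_src lab σ ε)) i) = (w i).1 := by
      intro i
      apply MonoidAlgebra.ext
      ext g
      by_cases hg : ∃ ε, lab ε = i ∧ j3_src lab σ ε = g
      · obtain ⟨ε, rfl, rfl⟩ := hg
        rw [j3_tau_at_coeff hred]
      · have h1 : ((w i).1).coeff g = 0 := by
          by_contra hne
          apply hg
          have h2 : g ∈ j3_path lab σ := by
            by_contra hn; exact hne ((w i).2.1.2 g hn)
          have h3 : g * FreeGroup.of i ∈ j3_path lab σ := by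
            by_contra hn
            have := (w i).2.2 _ hn
            rw [j3_coeff_mul_of, mul_inv_cancel_right] at this
            exact hne this
          exact j3_edge hred h2 h3
        rw [h1, j3_tau_coeff]
        apply Finset.sum_eq_zero
        intro ε _
        split_ifs with h
        · rw [j3_at, if_neg (fun hl => hg ⟨ε, hl, h⟩)]
        · rfl
    refine ⟨⟨fun ε => ((w (lab ε)).1).coeff (j3_src lab σ ε), ?_⟩, ?_⟩
    · rw [j3_mem_UI]
      intro i
      rw [← j3_tau_mem hw, key i]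
      exact (w i).2.1.1
    · funext i
      apply Subtype.ext
      exact key i
  rw [LinearEquiv.finrank_eq (LinearEquiv.ofBijective Ψ ⟨hinj, hsurj⟩),
    Module.finrank_pi_fintype]

theorem j3_finrank_SI (hred : Reduced σ (Setoid.ker lab)) {I : RI K r}
    (hw : wm1 K (word lab σ) ∈ I) :
    finrank K (j3_V I (j3_path lab σ)) = finrank K (SI lab σ I) + 1 := by
  rw [← j3_finrank_ker (j3_V I (j3_path lab σ)) (j3_co K (word lab σ)),
    if_pos ⟨_, ⟨hw, j3_wm1_KT⟩, by rw [j3_co_apply, j3_wm1_coeff hred]; exact one_ne_zero⟩]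
  congr 1
  have h1 : (j3_V I (j3_path lab σ) ⊓ LinearMap.ker (j3_co K (word lab σ)) :
      Submodule K (FGA K r)) = (SI lab σ I).map (ev lab σ) := by
    ext u
    simp only [Submodule.mem_inf, LinearMap.mem_ker, j3_co_apply, Submodule.mem_map]
    constructor
    · rintro ⟨⟨h1, h2⟩, h3⟩
      have h4 := j3_eq_ev hred h2 h3
      refine ⟨_, ?_, h4.symm⟩
      change ev lab σ _ ∈ I
      rw [← h4]
      exact h1
    · rintro ⟨z, hz, rfl⟩
      exact ⟨⟨hz, j3_ev_KT z⟩, j3_ev_coeff_word hred z⟩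
  rw [h1]
  exact (LinearEquiv.finrank_eq
    (Submodule.equivMapOfInjective (ev lab σ) (ev_injective hred) (SI lab σ I))).symm

/-- The rank formula for ideals generated by their trace on the path. -/
theorem hasRank_idl (hred : Reduced σ (Setoid.ker lab)) {I : RI K r}
    (hw : wm1 K (word lab σ) ∈ I) :
    finrank K (UI lab σ I) ≤ finrank K (SI lab σ I) ∧
      HasRank (idl lab σ (SI lab σ I))
        (1 + (finrank K (SI lab σ I) - finrank K (UI lab σ I))) := by
  obtain ⟨n, ⟨b⟩, hn⟩ := j3_rank I _ (j3_path lab σ) rfl (j3_path_prefClosed hred)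
  rw [← j3_finrank_UI hred hw, j3_finrank_SI hred hw] at hn
  have h0 : n ≠ 0 := by
    rintro rfl
    have h1 : j3_J I (j3_path lab σ) = ⊥ := by
      have h2 := b.span_eq
      rw [Set.range_eq_empty, Submodule.span_empty] at h2
      rw [eq_bot_iff]
      intro x hx
      have h3 : (⟨x, hx⟩ : j3_J I (j3_path lab σ)) ∈
          (⊤ : Submodule (FGA K r)ᵐᵒᵖ (j3_J I (j3_path lab σ))) := Submodule.mem_top
      rw [← h2, Submodule.mem_bot] at h3
      exact (Submodule.mem_bot _).mpr (congrArg Subtype.val h3)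
    have h4 : wm1 K (word lab σ) ∈ j3_J I (j3_path lab σ) :=
      Submodule.subset_span ⟨hw, j3_wm1_KT⟩
    rw [h1, Submodule.mem_bot] at h4
    have h5 := j3_wm1_coeff (K := K) hred
    rw [h4] at h5
    simp at h5
  have h6 : idl lab σ (SI lab σ I) = j3_J I (j3_path lab σ) := idl_SI_eq_span hred hw
  refine ⟨by omega, ?_⟩
  have h7 : 1 + (finrank K (SI lab σ I) - finrank K (UI lab σ I)) = n := by omega
  rw [h7, h6]
  exact ⟨b⟩

end Pool.Agent.GLFix
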