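import Pool.Agent.GLFix.HomExt
import Pool.Agent.GLFix.Trace
import Pool.Agent.GLFix.Lewin

/-!
# MP_ce340f_al, module J4

Bases containing `w - 1`.
-/

open scoped Classical
open Module Filter Asymptotics

set_option linter.unusedSectionVars false

noncomputable section

namespace Pool.Agent.GLFix

variable {K : Type*} [Field K] {r : ℕ}

variable {ℓ : ℕ} [NeZero ℓ] {lab : ZMod ℓ → Fin r} {σ : ZMod ℓ → Bool}

/-- The list of the first `n` letters. -/
def j4_L (lab : ZMod ℓ → Fin r) (σ : ZMod ℓ → Bool) (n : ℕ) : List (Fin r × Bool) :=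
  (List.range n).map fun j : ℕ => (lab (j : ZMod ℓ), σ (j : ZMod ℓ))

theorem j4_L_succ (n : ℕ) :
    j4_L lab σ (n + 1) = j4_L lab σ n ++ [(lab (n : ZMod ℓ), σ (n : ZMod ℓ))] := by
  simp [j4_L, List.range_succ]

theorem j4_letter (ε : ZMod ℓ) : letter lab σ ε = FreeGroup.mk [(lab ε, σ ε)] := by
  unfold letter
  cases h : σ ε
  · simp only [Bool.false_eq_true, if_false]
    rfl
  · simp only [if_true]
    rfl

theorem j4_pre_eq (n : ℕ) : pre lab σ n = FreeGroup.mk (j4_L lab σ n) := by
  induction n with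
  | zero => rfl
  | succ n ih =>
    rw [j4_L_succ, ← FreeGroup.mul_mk, ← ih, ← j4_letter]
    rfl

theorem j4_red (hred : Reduced σ (Setoid.ker lab)) (n : ℕ) :
    FreeGroup.IsReduced (j4_L lab σ n) := by
  unfold FreeGroup.IsReduced j4_L
  rw [List.isChain_map]
  cases n with
  | zero => simp
  | succ n =>
    rw [List.isChain_range_succ]
    intro m _ h
    have := hred (m : ZMod ℓ) (by simpa [Setoid.ker_def] using h)
    simpa using this

theorem j4_toWord (hred : Reduced σ (Setoid.ker lab)) (n : ℕ) :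
    (pre lab σ n).toWord = j4_L lab σ n := by
  rw [j4_pre_eq, FreeGroup.toWord_mk, (j4_red hred n).reduce_eq]

theorem j4_norm (hred : Reduced σ (Setoid.ker lab)) (n : ℕ) :
    (pre lab σ n).norm = n := by
  unfold FreeGroup.norm
  rw [j4_toWord hred]
  simp [j4_L]

theorem j4_pre_inj (hred : Reduced σ (Setoid.ker lab)) {m n : ℕ}
    (h : pre lab σ m = pre lab σ n) : m = n := by
  rw [← j4_norm hred m, h, j4_norm hred n]

/-- The tree edges between prefixes. -/
theorem j4_edge (hred : Reduced σ (Setoid.ker lab)) {m n : ℕ} {i : Fin r}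
    (h : pre lab σ m * FreeGroup.of i = pre lab σ n) :
    (n = m + 1 ∧ lab (m : ZMod ℓ) = i ∧ σ (m : ZMod ℓ) = true) ∨
      (m = n + 1 ∧ lab (n : ZMod ℓ) = i ∧ σ (n : ZMod ℓ) = false) := by
  have h1 : n ≤ m + 1 := by
    have := FreeGroup.norm_mul_le (pre lab σ m) (FreeGroup.of i)
    rw [h, j4_norm hred, j4_norm hred, FreeGroup.norm_of] at this
    exact this
  have h2 : m ≤ n + 1 := by
    have h3 : pre lab σ m = pre lab σ n * (FreeGroup.of i)⁻¹ := by
      rw [← h]; group
    have := FreeGroup.norm_mul_le (pre lab σ n) (FreeGroup.of i)⁻¹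
    rw [← h3, j4_norm hred, j4_norm hred, FreeGroup.norm_inv_eq, FreeGroup.norm_of] at this
    exact this
  have h3 : m ≠ n := by
    rintro rfl
    have h4 : FreeGroup.of i = 1 := by
      have h5 : pre lab σ m * FreeGroup.of i = pre lab σ m * 1 := by rw [h, mul_one]
      exact mul_left_cancel h5
    exact FreeGroup.of_ne_one i h4
  have key : ∀ (j : ℕ) (s : Bool), letter lab σ (j : ZMod ℓ) = FreeGroup.mk [(i, s)] →
      lab (j : ZMod ℓ) = i ∧ σ (j : ZMod ℓ) = s := by
    intro j s hj
    rw [j4_letter] at hj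
    have h6 := congrArg FreeGroup.toWord hj
    rw [FreeGroup.toWord_mk, FreeGroup.toWord_mk] at h6
    simpa [FreeGroup.reduce.cons] using h6
  rcases Nat.lt_or_ge m n with h4 | h4
  · left
    obtain rfl : n = m + 1 := by omega
    refine ⟨rfl, ?_⟩
    have h5 : pre lab σ m * FreeGroup.of i = pre lab σ m * letter lab σ (m : ZMod ℓ) := h
    exact key m true (mul_left_cancel h5).symm
  · right
    obtain rfl : m = n + 1 := by omega
    refine ⟨rfl, ?_⟩
    have h5 : pre lab σ n * letter lab σ (n : ZMod ℓ) * FreeGroup.of i = pre lab σ n := h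
    have h6 : letter lab σ (n : ZMod ℓ) = (FreeGroup.of i)⁻¹ := by
      have h7 : pre lab σ n * letter lab σ (n : ZMod ℓ) =
          pre lab σ n * (FreeGroup.of i)⁻¹ := by
        rw [eq_mul_inv_iff_mul_eq]
        exact h5
      exact mul_left_cancel h7
    exact key n false h6

/-- The set of prefixes. -/
def j4_T (lab : ZMod ℓ → Fin r) (σ : ZMod ℓ → Bool) : Finset (FreeGroup (Fin r)) :=
  Finset.image (pre lab σ) (Finset.range (ℓ + 1))

theorem j4_prefClosed (hred : Reduced σ (Setoid.ker lab)) : PrefClosed (j4_T lab σ) := by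
  refine ⟨?_, ?_⟩
  · unfold j4_T
    rw [Finset.mem_image]
    exact ⟨0, by simp, rfl⟩
  · intro t ht
    unfold j4_T at ht ⊢
    rw [Finset.mem_image] at ht ⊢
    obtain ⟨n, hn, rfl⟩ := ht
    rw [j4_toWord hred]
    cases n with
    | zero => exact ⟨0, by simp, rfl⟩
    | succ n =>
      refine ⟨n, ?_, ?_⟩
      · rw [Finset.mem_range] at hn ⊢
        omega
      · rw [j4_L_succ, List.dropLast_concat, j4_pre_eq]

/-- The `s`-end of an edge, as an initial segment. -/
def j4_P (lab : ZMod ℓ → Fin r) (σ : ZMod ℓ → Bool) (s : Bool) (ε : ZMod ℓ) :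
    FreeGroup (Fin r) :=
  pre lab σ (if σ ε = s then ε.val + 1 else ε.val)

theorem j4_P_true (ε : ZMod ℓ) :
    j4_P lab σ true ε = j4_P lab σ false ε * FreeGroup.of (lab ε) := by
  have h : pre lab σ (ε.val + 1) = pre lab σ ε.val * letter lab σ ε := by
    have h1 : pre lab σ (ε.val + 1) = pre lab σ ε.val * letter lab σ (ε.val : ZMod ℓ) := rfl
    rw [h1, ZMod.natCast_zmod_val]
  unfold j4_P
  cases hσ : σ ε
  · simp only [Bool.false_eq_true, if_false, if_true]
    rw [h]
    unfold letter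
    rw [hσ]
    simp
  · simp only [Bool.true_eq_false, if_false, if_true]
    rw [h]
    unfold letter
    rw [hσ]
    simp

/-- The combination of the `s`-ends. -/
def j4_PP (lab : ZMod ℓ → Fin r) (σ : ZMod ℓ → Bool) (s : Bool) (u : ZMod ℓ → K) : FGA K r :=
  ∑ ε, MonoidAlgebra.single (j4_P lab σ s ε) (u ε)

/-- The coefficient at the end of the word. -/
def j4_c (σ : ZMod ℓ → Bool) (s : Bool) (u : ZMod ℓ → K) : K := if σ (-1) = s then u (-1) else 0

theorem j4_val_add_one (ε : ZMod ℓ) :
    (ε.val + 1 < ℓ ∧ ε ≠ -1 ∧ (ε + 1).val = ε.val + 1) ∨ (ε.val + 1 = ℓ ∧ ε = -1) := by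
  have h1 : (ε + 1).val = (ε.val + 1) % ℓ := by
    rw [← ZMod.val_natCast, Nat.cast_add, ZMod.natCast_zmod_val, Nat.cast_one]
  have h2 := ZMod.val_lt ε
  rcases Nat.lt_or_ge (ε.val + 1) ℓ with h | h
  · left
    rw [Nat.mod_eq_of_lt h] at h1
    refine ⟨h, ?_, h1⟩
    rintro rfl
    rw [neg_add_cancel, ZMod.val_zero] at h1
    omega
  · right
    have h3 : ε.val + 1 = ℓ := by omega
    refine ⟨h3, ?_⟩
    rw [h3, Nat.mod_self] at h1
    have h4 : ε + 1 = 0 := (ZMod.val_eq_zero _).1 h1
    exact eq_neg_of_add_eq_zero_left h4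

theorem j4_ev_push (s : Bool) (u : ZMod ℓ → K) :
    ev lab σ (push σ s u) =
      ∑ ε, MonoidAlgebra.single (pre lab σ (epos σ s ε).val) (u ε) := by
  have h : ev lab σ (push σ s u) = ∑ p : ZMod ℓ, ∑ ε : ZMod ℓ,
      MonoidAlgebra.single (pre lab σ p.val) (if epos σ s ε = p then u ε else 0) := by
    change ∑ p : ZMod ℓ, MonoidAlgebra.single (pre lab σ p.val)
      (∑ ε, if epos σ s ε = p then u ε else 0) = _
    refine Finset.sum_congr rfl fun p _ => ?_
    exact map_sum (MonoidAlgebra.singleAddHom (pre lab σ p.val)) _ _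
  rw [h, Finset.sum_comm]
  refine Finset.sum_congr rfl fun ε _ => ?_
  rw [Finset.sum_eq_single (epos σ s ε)]
  · simp
  · intro b _ hb
    rw [if_neg (Ne.symm hb), MonoidAlgebra.single_zero]
  · simp

theorem j4_PP_eq (s : Bool) (u : ZMod ℓ → K) :
    j4_PP lab σ s u = ev lab σ (push σ s u) + j4_c σ s u • wm1 K (word lab σ) := by
  have h : j4_c σ s u • wm1 K (word lab σ) =
      ∑ ε : ZMod ℓ, (if ε = -1 then j4_c σ s u • wm1 K (word lab σ) else 0) := by
    rw [Finset.sum_ite_eq']
    simp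
  rw [h, j4_ev_push, j4_PP, ← Finset.sum_add_distrib]
  refine Finset.sum_congr rfl fun ε _ => ?_
  unfold j4_P epos j4_c
  by_cases hs : σ ε = s
  · rw [if_pos hs, if_pos hs]
    rcases j4_val_add_one ε with ⟨h1, h2, h3⟩ | ⟨h1, h2⟩
    · rw [if_neg h2, h3, add_zero]
    · rw [if_pos h2, h1, h2, neg_add_cancel, ZMod.val_zero]
      rw [h2] at hs
      rw [if_pos hs]
      unfold wm1 word
      have h4 : pre lab σ 0 = 1 := rfl
      rw [h4, smul_sub, MonoidAlgebra.of_apply, MonoidAlgebra.smul_single, smul_eq_mul, mul_one,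
        MonoidAlgebra.one_def, MonoidAlgebra.smul_single, smul_eq_mul, mul_one]
      abel
  · rw [if_neg hs, if_neg hs]
    by_cases h2 : ε = -1
    · rw [if_pos h2, ← h2, if_neg hs, zero_smul, add_zero]
    · rw [if_neg h2, add_zero]

theorem j4_PP_true {ε₀ : ZMod ℓ} {u : ZMod ℓ → K}
    (hu : u ∈ On K (block (Setoid.ker lab) ε₀)) :
    j4_PP lab σ true u =
      j4_PP lab σ false u * MonoidAlgebra.of K _ (FreeGroup.of (lab ε₀)) := by
  unfold j4_PP
  rw [Finset.sum_mul]
  refine Finset.sum_congr rfl fun ε _ => ?_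
  rw [MonoidAlgebra.of_apply, MonoidAlgebra.single_mul_single, mul_one, j4_P_true]
  by_cases h : ε ∈ block (Setoid.ker lab) ε₀
  · have h1 : lab ε = lab ε₀ := h
    rw [h1]
  · rw [hu ε h, MonoidAlgebra.single_zero, MonoidAlgebra.single_zero]

theorem j4_smul_mem (I : RI K r) {x : FGA K r} (hx : x ∈ I) (c : K) : c • x ∈ I := by
  have := I.smul_mem (MulOpposite.op (MonoidAlgebra.single 1 c : FGA K r)) hx
  rw [MulOpposite.smul_eq_mul_unop, MulOpposite.unop_op] at this
  convert this using 1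
  ext g
  simp [mul_comm]

theorem j4_mul_mem (I : RI K r) {x : FGA K r} (hx : x ∈ I) (y : FGA K r) : x * y ∈ I :=
  I.smul_mem (MulOpposite.op y) hx

theorem j4_coeff_ev (z : ZMod ℓ → K) (g : FreeGroup (Fin r)) :
    (ev lab σ z).coeff g = ∑ p : ZMod ℓ, if pre lab σ p.val = g then z p else 0 := by
  change (∑ p : ZMod ℓ, MonoidAlgebra.single (pre lab σ p.val) (z p)).coeff g = _
  rw [MonoidAlgebra.coeff_sum, Finsupp.finsetSum_apply]
  refine Finset.sum_congr rfl fun p _ => ?_
  rw [MonoidAlgebra.coeff_single, Finsupp.single_apply]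

theorem j4_coeff_PP (s : Bool) (u : ZMod ℓ → K) (g : FreeGroup (Fin r)) :
    (j4_PP lab σ s u).coeff g = ∑ ε : ZMod ℓ, if j4_P lab σ s ε = g then u ε else 0 := by
  unfold j4_PP
  rw [MonoidAlgebra.coeff_sum, Finsupp.finsetSum_apply]
  refine Finset.sum_congr rfl fun p _ => ?_
  rw [MonoidAlgebra.coeff_single, Finsupp.single_apply]

theorem j4_coeff_wm1 (g : FreeGroup (Fin r)) :
    (wm1 K (word lab σ)).coeff g =
      (if word lab σ = g then 1 else 0) - (if 1 = g then 1 else 0) := by
  unfold wm1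
  rw [MonoidAlgebra.coeff_sub, MonoidAlgebra.of_apply, MonoidAlgebra.one_def,
    MonoidAlgebra.coeff_single, MonoidAlgebra.coeff_single, Finsupp.sub_apply,
    Finsupp.single_apply, Finsupp.single_apply]

/-- The coordinates on the positions. -/
def j4_Z (lab : ZMod ℓ → Fin r) (σ : ZMod ℓ → Bool) : FGA K r →ₗ[K] (ZMod ℓ → K) where
  toFun a p := a.coeff (pre lab σ p.val) + if p = 0 then a.coeff (word lab σ) else 0
  map_add' a b := by
    funext p
    simp only [MonoidAlgebra.coeff_add, Finsupp.add_apply, Pi.add_apply]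
    split_ifs <;> ring
  map_smul' c a := by
    funext p
    simp only [MonoidAlgebra.coeff_smul, Finsupp.smul_apply, Pi.smul_apply, smul_eq_mul,
      RingHom.id_apply]
    split_ifs <;> ring

/-- The coefficient of the word. -/
def j4_W (lab : ZMod ℓ → Fin r) (σ : ZMod ℓ → Bool) : FGA K r →ₗ[K] K where
  toFun a := a.coeff (word lab σ)
  map_add' a b := by simp
  map_smul' c a := by simp

theorem j4_Z_ev (hred : Reduced σ (Setoid.ker lab)) (z : ZMod ℓ → K) :
    j4_Z lab σ (ev lab σ z) = z := by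
  funext p
  change (ev lab σ z).coeff (pre lab σ p.val) +
    (if p = 0 then (ev lab σ z).coeff (word lab σ) else 0) = z p
  have h1 : (ev lab σ z).coeff (word lab σ) = 0 := by
    rw [j4_coeff_ev]
    refine Finset.sum_eq_zero fun q _ => if_neg fun h => ?_
    have := j4_pre_inj hred h
    have := ZMod.val_lt q
    omega
  rw [h1, ite_self, add_zero, j4_coeff_ev, Finset.sum_eq_single p]
  · simp
  · intro q _ hq
    exact if_neg fun h => hq (ZMod.val_injective ℓ (j4_pre_inj hred h))
  · simp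

theorem j4_W_ev (hred : Reduced σ (Setoid.ker lab)) (z : ZMod ℓ → K) :
    j4_W lab σ (ev lab σ z) = 0 := by
  change (ev lab σ z).coeff (word lab σ) = 0
  rw [j4_coeff_ev]
  refine Finset.sum_eq_zero fun q _ => if_neg fun h => ?_
  have := j4_pre_inj hred h
  have := ZMod.val_lt q
  omega

theorem j4_word_ne_one (hred : Reduced σ (Setoid.ker lab)) : word lab σ ≠ 1 := by
  intro h
  have h1 : pre lab σ ℓ = pre lab σ 0 := h
  have := j4_pre_inj hred h1
  exact NeZero.ne ℓ this

theorem j4_W_wm1 (hred : Reduced σ (Setoid.ker lab)) :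
    j4_W lab σ (wm1 K (word lab σ)) = 1 := by
  change (wm1 K (word lab σ)).coeff (word lab σ) = 1
  rw [j4_coeff_wm1, if_pos rfl, if_neg (j4_word_ne_one hred).symm, sub_zero]

theorem j4_Z_wm1 (hred : Reduced σ (Setoid.ker lab)) :
    j4_Z lab σ (wm1 K (word lab σ)) = 0 := by
  funext p
  change (wm1 K (word lab σ)).coeff (pre lab σ p.val) +
    (if p = 0 then (wm1 K (word lab σ)).coeff (word lab σ) else 0) = 0
  have h2 : (wm1 K (word lab σ)).coeff (word lab σ) = 1 := j4_W_wm1 hred
  rw [h2, j4_coeff_wm1, if_neg]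
  · by_cases hp : p = 0
    · subst hp
      rw [ZMod.val_zero, if_pos rfl, if_pos]
      · ring
      · rfl
    · rw [if_neg hp, if_neg]
      · ring
      · intro h
        have h3 : pre lab σ 0 = pre lab σ p.val := h
        have h4 := j4_pre_inj hred h3
        exact hp ((ZMod.val_eq_zero _).1 h4.symm)
  · intro h
    have h3 : pre lab σ ℓ = pre lab σ p.val := h
    have h4 := j4_pre_inj hred h3
    have := ZMod.val_lt p
    omega

theorem j4_ev_mem_KT (z : ZMod ℓ → K) : ev lab σ z ∈ KT K (j4_T lab σ) := by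
  intro g hg
  rw [j4_coeff_ev]
  refine Finset.sum_eq_zero fun q _ => if_neg fun h => hg ?_
  unfold j4_T
  rw [Finset.mem_image]
  exact ⟨q.val, by rw [Finset.mem_range]; have := ZMod.val_lt q; omega, h⟩

theorem j4_wm1_mem_KT : wm1 K (word lab σ) ∈ KT K (j4_T lab σ) := by
  intro g hg
  rw [j4_coeff_wm1, if_neg, if_neg, sub_zero]
  · rintro rfl
    refine hg ?_
    unfold j4_T
    rw [Finset.mem_image]
    exact ⟨0, by simp, rfl⟩
  · rintro rfl
    refine hg ?_
    unfold j4_T
    rw [Finset.mem_image]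
    exact ⟨ℓ, by simp, rfl⟩

/-- The linear map with prescribed values on the trace and at `w - 1`. -/
def j4_phi (lab : ZMod ℓ → Fin r) (σ : ZMod ℓ → Bool) (g : (ZMod ℓ → K) →ₗ[K] FGA K r)
    (c0 : FGA K r) : FGA K r →ₗ[K] FGA K r :=
  g.comp (j4_Z lab σ) + (j4_W lab σ).smulRight c0

theorem j4_phi_apply (g : (ZMod ℓ → K) →ₗ[K] FGA K r) (c0 a : FGA K r) :
    j4_phi lab σ g c0 a = g (j4_Z lab σ a) + j4_W lab σ a • c0 := rfl

theorem j4_phi_PP (hred : Reduced σ (Setoid.ker lab)) (g : (ZMod ℓ → K) →ₗ[K] FGA K r)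
    (c0 : FGA K r) (s : Bool) (u : ZMod ℓ → K) :
    j4_phi lab σ g c0 (j4_PP lab σ s u) = g (push σ s u) + j4_c σ s u • c0 := by
  have hZ : j4_Z lab σ (j4_PP lab σ s u) = push σ s u := by
    rw [j4_PP_eq, map_add, map_smul, j4_Z_ev hred, j4_Z_wm1 hred, smul_zero, add_zero]
  have hW : j4_W lab σ (j4_PP lab σ s u) = j4_c σ s u := by
    rw [j4_PP_eq, map_add, map_smul, j4_W_ev hred, j4_W_wm1 hred, smul_eq_mul, mul_one, zero_add]
  rw [j4_phi_apply, hZ, hW]

/-- Compatibility of a linear map with the multiplication by a letter. -/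
def j4_Eq (lab : ZMod ℓ → Fin r) (σ : ZMod ℓ → Bool) (g : (ZMod ℓ → K) →ₗ[K] FGA K r)
    (c0 : FGA K r) (ε₀ : ZMod ℓ) (u : ZMod ℓ → K) : Prop :=
  g (push σ true u) + j4_c σ true u • c0 =
    (g (push σ false u) + j4_c σ false u • c0) * MonoidAlgebra.of K _ (FreeGroup.of (lab ε₀))

theorem j4_P_inj (hred : Reduced σ (Setoid.ker lab)) {ε ε' : ZMod ℓ}
    (h : lab ε = lab ε') (hP : j4_P lab σ false ε = j4_P lab σ false ε') : ε = ε' := by
  have hP' : j4_P lab σ true ε = j4_P lab σ true ε' := by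
    rw [j4_P_true, j4_P_true, hP, h]
  unfold j4_P at hP hP'
  have h1 := j4_pre_inj hred hP
  have h2 := j4_pre_inj hred hP'
  refine ZMod.val_injective ℓ ?_
  cases hε : σ ε <;> cases hε' : σ ε' <;> simp only [hε, hε'] at h1 h2 <;> simp at h1 h2 <;> omega

theorem j4_decomp (hred : Reduced σ (Setoid.ker lab)) (i : Fin r) (a : FGA K r)
    (haT : a ∈ KT K (j4_T lab σ))
    (hxT : a * MonoidAlgebra.of K _ (FreeGroup.of i) ∈ KT K (j4_T lab σ)) :
    a = j4_PP lab σ false (fun ε => if lab ε = i then a.coeff (j4_P lab σ false ε) else 0) := by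
  refine MonoidAlgebra.coeff_injective (Finsupp.ext fun g => ?_)
  rw [j4_coeff_PP]
  by_cases hg : a.coeff g = 0
  · rw [hg]
    symm
    refine Finset.sum_eq_zero fun ε _ => ?_
    split_ifs with h1 h2
    · rw [h1, hg]
    · rfl
    · rfl
  · have h1 : g ∈ j4_T lab σ := by
      by_contra hcon
      exact hg (haT g hcon)
    have h2 : g * FreeGroup.of i ∈ j4_T lab σ := by
      by_contra hcon
      have h3 := hxT _ hcon
      rw [MonoidAlgebra.of_apply, MonoidAlgebra.coeff_mul_single_apply] at h3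
      simp only [mul_inv_cancel_right, mul_one] at h3
      exact hg h3
    unfold j4_T at h1 h2
    rw [Finset.mem_image] at h1 h2
    obtain ⟨m, hm, rfl⟩ := h1
    obtain ⟨n, hn, hmn⟩ := h2
    rw [Finset.mem_range] at hm hn
    have hε : ∃ ε : ZMod ℓ, lab ε = i ∧ j4_P lab σ false ε = pre lab σ m := by
      rcases j4_edge hred hmn.symm with ⟨h4, h5, h6⟩ | ⟨h4, h5, h6⟩
      · refine ⟨(m : ZMod ℓ), h5, ?_⟩
        unfold j4_P
        rw [h6, if_neg (by simp), ZMod.val_natCast, Nat.mod_eq_of_lt (by omega)]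
      · refine ⟨(n : ZMod ℓ), h5, ?_⟩
        unfold j4_P
        rw [h6, if_pos rfl, ZMod.val_natCast, Nat.mod_eq_of_lt (by omega), h4]
    obtain ⟨ε, h7, h8⟩ := hε
    rw [Finset.sum_eq_single ε]
    · rw [if_pos h8, if_pos h7, h8]
    · intro ε' _ hne
      split_ifs with h9 h10
      · exact absurd (j4_P_inj hred (h10.trans h7.symm) (h9.trans h8.symm)) hne
      · rfl
      · rfl
    · simp

theorem j4_ev_mem {I : RI K r} (hw : wm1 K (word lab σ) ∈ I) (s : Bool) (u : ZMod ℓ → K) :
    ev lab σ (push σ s u) ∈ I ↔ j4_PP lab σ s u ∈ I := by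
  rw [j4_PP_eq]
  exact (Submodule.add_mem_iff_left I (j4_smul_mem I hw _)).symm

theorem j4_hphi (hred : Reduced σ (Setoid.ker lab)) {I : RI K r}
    (hw : wm1 K (word lab σ) ∈ I) (g : (ZMod ℓ → K) →ₗ[K] FGA K r) (c0 : FGA K r)
    (hg : ∀ ε₀, ∀ u ∈ UI lab σ I, u ∈ On K (block (Setoid.ker lab) ε₀) →
      j4_Eq lab σ g c0 ε₀ u)
    (i : Fin r) (a : FGA K r) (ha : a ∈ I) (haT : a ∈ KT K (j4_T lab σ))
    (hxT : a * MonoidAlgebra.of K _ (FreeGroup.of i) ∈ KT K (j4_T lab σ)) :
    j4_phi lab σ g c0 (a * MonoidAlgebra.of K _ (FreeGroup.of i)) =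
      j4_phi lab σ g c0 a * MonoidAlgebra.of K _ (FreeGroup.of i) := by
  set u : ZMod ℓ → K := fun ε => if lab ε = i then a.coeff (j4_P lab σ false ε) else 0 with hu
  have h1 : a = j4_PP lab σ false u := j4_decomp hred i a haT hxT
  by_cases hex : ∃ ε₀, lab ε₀ = i
  · obtain ⟨ε₀, hε₀⟩ := hex
    have h2 : u ∈ On K (block (Setoid.ker lab) ε₀) := by
      intro ε hε
      have h3 : ¬ lab ε = i := by
        rw [← hε₀]
        exact hε
      rw [hu]
      exact if_neg h3
    have h3 : push σ false u ∈ SI lab σ I := by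
      change ev lab σ (push σ false u) ∈ I
      rw [j4_ev_mem hw, ← h1]
      exact ha
    have h4 : u ∈ UI lab σ I := by
      intro ε₁
      by_cases h5 : (Setoid.ker lab) ε₁ ε₀
      · rw [block_eq_of_rel h5, res_of_mem_On h2]
        exact h3
      · rw [res_eq_zero h2, map_zero]
        · exact Submodule.zero_mem _
        · rw [Set.disjoint_left]
          intro ε h6 h7
          exact h5 ((Setoid.ker lab).trans' ((Setoid.ker lab).symm' h6) h7)
    have h5 := hg ε₀ u h4 h2
    have h6 := j4_PP_true (K := K) (σ := σ) h2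
    rw [← h1, hε₀] at h6
    rw [← h6, j4_phi_PP hred]
    conv_rhs => rw [h1, j4_phi_PP hred]
    rw [j4_Eq, hε₀] at h5
    exact h5
  · push Not at hex
    have h2 : u = 0 := by
      funext ε
      rw [hu]
      exact if_neg (hex ε)
    have h3 : a = 0 := by
      rw [h1, h2]
      unfold j4_PP
      simp
    rw [h3]
    simp

theorem j4_sgn_sq (ε : ZMod ℓ) : sgn K σ ε * sgn K σ ε = 1 := by
  unfold sgn
  split_ifs <;> simp

/-- The functional attached to a closure step. -/
theorem j4_functional {V : Submodule K (ZMod ℓ → K)} {s : Bool} {y : ZMod ℓ → K}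
    (hy : push σ s y ∈ TT σ V) :
    ∃ z : ZMod ℓ → K, ∀ u ∈ dual σ V,
      (∑ p, push σ s u p * z p = ∑ ε, sgn K σ ε * u ε * y ε) ∧
      ∑ p, push σ (!s) u p * z p = 0 := by
  obtain ⟨_, ⟨a, ha, rfl⟩, _, ⟨b, hb, rfl⟩, hab⟩ := Submodule.mem_sup.1 hy
  cases s
  · have h1 : push σ true a = push σ false (y - b) := by
      rw [map_sub, ← hab]
      abel
    obtain ⟨z, hz1, hz2⟩ := exists_of_push_eq h1
    refine ⟨z, fun u hu => ⟨?_, ?_⟩⟩
    · rw [sum_push_mul]
      have h2 := hu b hb
      have h3 : ∑ ε, u ε * z (epos σ false ε) =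
          ∑ ε, (sgn K σ ε * u ε * y ε - sgn K σ ε * u ε * b ε) := by
        refine Finset.sum_congr rfl fun ε _ => ?_
        have h4 : z (epos σ false ε) = sgn K σ ε * (y - b) ε := by
          rw [hz2 ε, ← mul_assoc, j4_sgn_sq, one_mul]
        rw [h4, Pi.sub_apply]
        ring
      rw [h3, Finset.sum_sub_distrib, h2, sub_zero]
    · change ∑ p, push σ true u p * z p = 0
      rw [sum_push_mul]
      have h2 := hu a ha
      rw [← h2]
      refine Finset.sum_congr rfl fun ε _ => ?_
      have h4 : z (epos σ true ε) = sgn K σ ε * a ε := by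
        rw [hz1 ε, ← mul_assoc, j4_sgn_sq, one_mul]
      rw [h4]
      ring
  · have h1 : push σ true (y - a) = push σ false b := by
      rw [map_sub, ← hab]
      abel
    obtain ⟨z, hz1, hz2⟩ := exists_of_push_eq h1
    refine ⟨z, fun u hu => ⟨?_, ?_⟩⟩
    · rw [sum_push_mul]
      have h2 := hu a ha
      have h3 : ∑ ε, u ε * z (epos σ true ε) =
          ∑ ε, (sgn K σ ε * u ε * y ε - sgn K σ ε * u ε * a ε) := by
        refine Finset.sum_congr rfl fun ε _ => ?_
        have h4 : z (epos σ true ε) = sgn K σ ε * (y - a) ε := by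
          rw [hz1 ε, ← mul_assoc, j4_sgn_sq, one_mul]
        rw [h4, Pi.sub_apply]
        ring
      rw [h3, Finset.sum_sub_distrib, h2, sub_zero]
    · change ∑ p, push σ false u p * z p = 0
      rw [sum_push_mul]
      have h2 := hu b hb
      rw [← h2]
      refine Finset.sum_congr rfl fun ε _ => ?_
      have h4 : z (epos σ false ε) = sgn K σ ε * b ε := by
        rw [hz2 ε, ← mul_assoc, j4_sgn_sq, one_mul]
      rw [h4]
      ring

/-- The functional of `z`. -/
def j4_f (z : ZMod ℓ → K) : (ZMod ℓ → K) →ₗ[K] K where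
  toFun t := ∑ p, t p * z p
  map_add' a b := by simp [add_mul, Finset.sum_add_distrib]
  map_smul' c a := by simp [mul_assoc, Finset.mul_sum]

theorem j4_c_lin (s : Bool) (u v : ZMod ℓ → K) (a : K) :
    j4_c σ s (u + a • v) = j4_c σ s u + a * j4_c σ s v := by
  unfold j4_c
  split_ifs <;> simp

theorem j4_Eq_lin {g : (ZMod ℓ → K) →ₗ[K] FGA K r} {c0 : FGA K r} {ε₀ : ZMod ℓ}
    {u v : ZMod ℓ → K} (hu : j4_Eq lab σ g c0 ε₀ u) (hv : j4_Eq lab σ g c0 ε₀ v) (a : K) :
    j4_Eq lab σ g c0 ε₀ (u + a • v) := by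
  unfold j4_Eq at hu hv ⊢
  rw [map_add, map_add, map_smul, map_smul, map_add, map_add, map_smul, map_smul, j4_c_lin,
    j4_c_lin]
  have h1 : g (push σ true u) + a • g (push σ true v) +
      (j4_c σ true u + a * j4_c σ true v) • c0 =
      (g (push σ true u) + j4_c σ true u • c0) +
        a • (g (push σ true v) + j4_c σ true v • c0) := by
    rw [add_smul, smul_add, mul_smul]
    abel
  have h2 : g (push σ false u) + a • g (push σ false v) +
      (j4_c σ false u + a * j4_c σ false v) • c0 =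
      (g (push σ false u) + j4_c σ false u • c0) +
        a • (g (push σ false v) + j4_c σ false v • c0) := by
    rw [add_smul, smul_add, mul_smul]
    abel
  rw [h1, h2, hu, hv, add_mul _ (a • _), smul_mul_assoc a]

theorem j4_Eq_congr {g g' : (ZMod ℓ → K) →ₗ[K] FGA K r} {c0 : FGA K r} {ε₀ : ZMod ℓ}
    {u : ZMod ℓ → K} (h : ∀ s, g' (push σ s u) = g (push σ s u))
    (hu : j4_Eq lab σ g c0 ε₀ u) : j4_Eq lab σ g' c0 ε₀ u := by
  unfold j4_Eq at hu ⊢
  rw [h true, h false]
  exact hu

theorem j4_Eq_lab {g : (ZMod ℓ → K) →ₗ[K] FGA K r} {c0 : FGA K r} {ε₀ ε₁ : ZMod ℓ}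
    {u : ZMod ℓ → K} (h : lab ε₀ = lab ε₁)
    (hu : j4_Eq lab σ g c0 ε₀ u) : j4_Eq lab σ g c0 ε₁ u := by
  unfold j4_Eq at hu ⊢
  rw [← h]
  exact hu

theorem j4_PP_mem (J : RI K r) {ε₀ : ZMod ℓ} {u : ZMod ℓ → K}
    (hu : u ∈ On K (block (Setoid.ker lab) ε₀)) (s : Bool)
    (h : j4_PP lab σ (!s) u ∈ J) : j4_PP lab σ s u ∈ J := by
  have h1 := j4_PP_true (K := K) (σ := σ) hu
  cases s
  · have h2 : j4_PP lab σ false u =
        j4_PP lab σ true u * MonoidAlgebra.of K _ (FreeGroup.of (lab ε₀))⁻¹ := by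
      rw [h1, mul_assoc, ← map_mul, mul_inv_cancel, map_one, mul_one]
    rw [h2]
    exact j4_mul_mem J h _
  · rw [h1]
    exact j4_mul_mem J h _

theorem j4_idl_mono {S S' : Submodule K (ZMod ℓ → K)} (h : S' ≤ S) :
    idl lab σ S' ≤ idl lab σ S :=
  Submodule.span_mono (Set.insert_subset_insert (Set.image_mono h))

theorem j4_wm1_mem_idl (S : Submodule K (ZMod ℓ → K)) :
    wm1 K (word lab σ) ∈ idl lab σ S :=
  Submodule.subset_span (Set.mem_insert _ _)

theorem j4_ev_mem_idl {S : Submodule K (ZMod ℓ → K)} {t : ZMod ℓ → K} (ht : t ∈ S) :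
    ev lab σ t ∈ idl lab σ S :=
  Submodule.subset_span (Set.mem_insert_of_mem _ (Set.mem_image_of_mem _ ht))

/-- The induction along the closure chain of the dual. -/
theorem j4_chain (V : Submodule K (ZMod ℓ → K)) :
    ∀ S : Submodule K (ZMod ℓ → K), Split (Setoid.ker lab) V →
      cl σ (Setoid.ker lab) V = ⊤ → TT σ (dual σ V) ≤ S →
      ∃ S' ≤ S, idl lab σ S = idl lab σ S' ∧
        ∀ (ψ : S' →ₗ[K] FGA K r) (c0 : FGA K r), ∃ g : (ZMod ℓ → K) →ₗ[K] FGA K r,
          (∀ z : S', g z = ψ z) ∧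
          ∀ ε₀, ∀ u ∈ dual σ V, u ∈ On K (block (Setoid.ker lab) ε₀) →
            j4_Eq lab σ g c0 ε₀ u := by
  induction V using WellFoundedGT.induction with
  | ind V ih =>
    intro S hsplit hcl hTT
    by_cases hV : V = ⊤
    · refine ⟨S, le_rfl, rfl, fun ψ c0 => ?_⟩
      obtain ⟨g, hg⟩ := LinearMap.exists_extend ψ
      refine ⟨g, fun z => ?_, ?_⟩
      · rw [← hg]
        rfl
      · intro ε₀ u hu _
        rw [hV, dual_top, Submodule.mem_bot] at hu
        rw [hu]
        unfold j4_Eq j4_c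
        simp
    · have hnc : ¬ Closed σ (Setoid.ker lab) V := fun hc => hV (by rw [← cl_eq_self hc, hcl])
      have h1 : ∃ s ε₁ y, y ∈ On K (block (Setoid.ker lab) ε₁) ∧ push σ s y ∈ TT σ V ∧
          y ∉ V := by
        by_contra hcon
        push Not at hcon
        exact hnc ⟨hsplit, fun s ε₁ y hy1 hy2 => hcon s ε₁ y hy1 hy2⟩
      obtain ⟨s, ε₁, y, hy1, hy2, hy3⟩ := h1
      obtain ⟨z, hz⟩ := j4_functional hy2
      -- the vector `u₀`
      have h2 : ∃ u₀ ∈ dual σ V, u₀ ∈ On K (block (Setoid.ker lab) ε₁) ∧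
          ∑ ε, sgn K σ ε * u₀ ε * y ε = 1 := by
        have h3 : ∃ u ∈ dual σ V, ∑ ε, sgn K σ ε * u ε * y ε ≠ 0 := by
          by_contra hcon
          push Not at hcon
          refine hy3 ?_
          rw [← dual_dual (σ := σ) V]
          intro u hu
          rw [← hcon u hu]
          refine Finset.sum_congr rfl fun ε _ => ?_
          ring
        obtain ⟨u, hu, hne⟩ := h3
        set c := ∑ ε, sgn K σ ε * u ε * y ε with hc
        refine ⟨c⁻¹ • res (block (Setoid.ker lab) ε₁) u,
          Submodule.smul_mem _ _ (split_dual hsplit ε₁ u hu),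
          Submodule.smul_mem _ _ (res_mem_On _ _), ?_⟩
        have h4 : ∑ ε, sgn K σ ε * (c⁻¹ • res (block (Setoid.ker lab) ε₁) u) ε * y ε =
            c⁻¹ * c := by
          rw [hc, Finset.mul_sum]
          refine Finset.sum_congr rfl fun ε _ => ?_
          rw [Pi.smul_apply, res_apply, smul_eq_mul]
          split_ifs with h5
          · ring
          · rw [hy1 ε h5]
            ring
        rw [h4, inv_mul_cancel₀ hne]
      obtain ⟨u₀, hu1, hu2, hu3⟩ := h2
      set V' := V ⊔ Submodule.span K {y} with hV'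
      have hlt : V < V' := by
        refine lt_of_le_of_ne le_sup_left fun h => hy3 ?_
        rw [h]
        exact Submodule.mem_sup_right (Submodule.mem_span_singleton_self y)
      have hdual : ∀ u, u ∈ dual σ V' ↔ u ∈ dual σ V ∧ ∑ ε, sgn K σ ε * u ε * y ε = 0 := by
        intro u
        constructor
        · intro hu
          exact ⟨dual_le_dual.2 hlt.le hu,
            hu y (Submodule.mem_sup_right (Submodule.mem_span_singleton_self y))⟩
        · rintro ⟨ha, hb⟩ v hv
          obtain ⟨v₁, hv₁, v₂, hv₂, rfl⟩ := Submodule.mem_sup.1 hv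
          obtain ⟨c, rfl⟩ := Submodule.mem_span_singleton.1 hv₂
          have h5 := ha v₁ hv₁
          have h6 : ∑ ε, sgn K σ ε * u ε * (v₁ + c • y) ε =
              ∑ ε, sgn K σ ε * u ε * v₁ ε + c * ∑ ε, sgn K σ ε * u ε * y ε := by
            rw [Finset.mul_sum, ← Finset.sum_add_distrib]
            refine Finset.sum_congr rfl fun ε _ => ?_
            rw [Pi.add_apply, Pi.smul_apply, smul_eq_mul]
            ring
          rw [h6, h5, hb, mul_zero, add_zero]
      set S1 : Submodule K (ZMod ℓ → K) := S ⊓ LinearMap.ker (j4_f z) with hS1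
      have hf0 : ∀ u ∈ dual σ V', ∀ s', j4_f z (push σ s' u) = 0 := by
        intro u hu s'
        obtain ⟨ha, hb⟩ := (hdual u).1 hu
        obtain ⟨h5, h6⟩ := hz u ha
        rw [hb] at h5
        rcases Bool.eq_or_eq_not s' s with h7 | h7
        · rw [h7]; exact h5
        · rw [h7]; exact h6
      have hTT' : TT σ (dual σ V') ≤ S1 := by
        rw [TT_le_iff]
        intro s' u hu
        exact ⟨hTT (push_mem_TT s' (dual_le_dual.2 hlt.le hu)), LinearMap.mem_ker.2 (hf0 u hu s')⟩
      obtain ⟨S', hS', hidl, hext⟩ := ih V' hlt S1 (hsplit.sup (split_span_single hy1))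
        (top_unique (hcl ▸ cl_mono hlt.le)) hTT'
      obtain ⟨hz1, hz2⟩ := hz u₀ hu1
      rw [hu3] at hz1
      have hmem1 : push σ s u₀ ∈ S := hTT (push_mem_TT s hu1)
      have hmem2 : push σ (!s) u₀ ∈ S1 :=
        ⟨hTT (push_mem_TT (!s) hu1), LinearMap.mem_ker.2 hz2⟩
      refine ⟨S', hS'.trans inf_le_left, ?_, ?_⟩
      · rw [← hidl]
        refine le_antisymm ?_ (j4_idl_mono inf_le_left)
        unfold idl
        rw [Submodule.span_le]
        rintro x (rfl | ⟨t, ht, rfl⟩)
        · exact j4_wm1_mem_idl S1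
        · have h5 : ev lab σ (push σ s u₀) ∈ idl lab σ S1 := by
            rw [j4_ev_mem (j4_wm1_mem_idl S1)]
            refine j4_PP_mem _ hu2 s ?_
            rw [← j4_ev_mem (j4_wm1_mem_idl S1)]
            exact j4_ev_mem_idl hmem2
          have h6 : t - j4_f z t • push σ s u₀ ∈ S1 := by
            refine ⟨S.sub_mem ht (S.smul_mem _ hmem1), LinearMap.mem_ker.2 ?_⟩
            rw [map_sub, map_smul]
            change j4_f z t - j4_f z t * (∑ p, push σ s u₀ p * z p) = 0
            rw [hz1]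
            ring
          have h7 : ev lab σ t = ev lab σ (t - j4_f z t • push σ s u₀) +
              j4_f z t • ev lab σ (push σ s u₀) := by
            rw [map_sub, map_smul]
            abel
          rw [h7]
          exact Submodule.add_mem _ (j4_ev_mem_idl h6) (j4_smul_mem _ h5 _)
      · intro ψ c0
        obtain ⟨g, hg1, hg2⟩ := hext ψ c0
        -- the value of the correction
        have hδ : ∃ δ : FGA K r, j4_Eq lab σ (g + (j4_f z).smulRight δ) c0 ε₁ u₀ := by
          cases s
          · refine ⟨(g (push σ true u₀) + j4_c σ true u₀ • c0) *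
              MonoidAlgebra.of K _ (FreeGroup.of (lab ε₁))⁻¹ -
              j4_c σ false u₀ • c0 - g (push σ false u₀), ?_⟩
            unfold j4_Eq
            have e1 : j4_f z (push σ false u₀) = 1 := hz1
            have e2 : j4_f z (push σ true u₀) = 0 := hz2
            rw [LinearMap.add_apply, LinearMap.add_apply, LinearMap.smulRight_apply,
              LinearMap.smulRight_apply, e1, e2, zero_smul, one_smul, add_zero]
            have e3 : g (push σ false u₀) + ((g (push σ true u₀) + j4_c σ true u₀ • c0) *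
                MonoidAlgebra.of K _ (FreeGroup.of (lab ε₁))⁻¹ -
                j4_c σ false u₀ • c0 - g (push σ false u₀)) + j4_c σ false u₀ • c0 =
                (g (push σ true u₀) + j4_c σ true u₀ • c0) *
                MonoidAlgebra.of K _ (FreeGroup.of (lab ε₁))⁻¹ := by abel
            rw [e3, mul_assoc, ← map_mul, inv_mul_cancel, map_one, mul_one]
          · refine ⟨(g (push σ false u₀) + j4_c σ false u₀ • c0) *
              MonoidAlgebra.of K _ (FreeGroup.of (lab ε₁)) -
              j4_c σ true u₀ • c0 - g (push σ true u₀), ?_⟩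
            unfold j4_Eq
            have e1 : j4_f z (push σ true u₀) = 1 := hz1
            have e2 : j4_f z (push σ false u₀) = 0 := hz2
            rw [LinearMap.add_apply, LinearMap.add_apply, LinearMap.smulRight_apply,
              LinearMap.smulRight_apply, e1, e2, zero_smul, one_smul, add_zero]
            abel
        obtain ⟨δ, hδ⟩ := hδ
        refine ⟨g + (j4_f z).smulRight δ, ?_, ?_⟩
        · intro t
          have h5 : j4_f z (t : ZMod ℓ → K) = 0 := (hS' t.2).2
          rw [LinearMap.add_apply, LinearMap.smulRight_apply, h5, zero_smul, add_zero]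
          exact hg1 t
        · intro ε₀ u hu hu'
          have hkey : ∀ v ∈ dual σ V', v ∈ On K (block (Setoid.ker lab) ε₀) →
              j4_Eq lab σ (g + (j4_f z).smulRight δ) c0 ε₀ v := by
            intro v hv hv'
            refine j4_Eq_congr (fun s' => ?_) (hg2 ε₀ v hv hv')
            rw [LinearMap.add_apply, LinearMap.smulRight_apply, hf0 v hv s', zero_smul, add_zero]
          by_cases hε : (Setoid.ker lab) ε₁ ε₀
          · set c := ∑ ε, sgn K σ ε * u ε * y ε with hc
            have h5 : u + (-c) • u₀ ∈ dual σ V' := by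
              rw [hdual]
              refine ⟨Submodule.add_mem _ hu (Submodule.smul_mem _ _ hu1), ?_⟩
              have h6 : ∑ ε, sgn K σ ε * (u + (-c) • u₀) ε * y ε =
                  ∑ ε, sgn K σ ε * u ε * y ε + (-c) * ∑ ε, sgn K σ ε * u₀ ε * y ε := by
                rw [Finset.mul_sum, ← Finset.sum_add_distrib]
                refine Finset.sum_congr rfl fun ε _ => ?_
                rw [Pi.add_apply, Pi.smul_apply, smul_eq_mul]
                ring
              rw [h6, hu3, ← hc]
              ring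
            have h6 : u₀ ∈ On K (block (Setoid.ker lab) ε₀) := by
              rw [← block_eq_of_rel hε]
              exact hu2
            have h7 := hkey _ h5 (Submodule.add_mem _ hu' (Submodule.smul_mem _ _ h6))
            have h8 := j4_Eq_lin h7 (j4_Eq_lab hε hδ) c
            have h9 : u + (-c) • u₀ + c • u₀ = u := by
              rw [neg_smul]
              abel
            rw [h9] at h8
            exact h8
          · refine hkey u ?_ hu'
            rw [hdual]
            refine ⟨hu, Finset.sum_eq_zero fun ε _ => ?_⟩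
            by_cases h5 : ε ∈ block (Setoid.ker lab) ε₁
            · have h6 : ε ∉ block (Setoid.ker lab) ε₀ := fun h7 =>
                hε ((Setoid.ker lab).trans' ((Setoid.ker lab).symm' h5) h7)
              rw [hu' ε h6]
              ring
            · rw [hy1 ε h5]
              ring

/-- The basis elements. -/
def j4_e (lab : ZMod ℓ → Fin r) (σ : ZMod ℓ → Bool) {S' : Submodule K (ZMod ℓ → K)} {d : ℕ}
    (bas : Basis (Fin d) K S') : Option (Fin d) → FGA K r
  | none => wm1 K (word lab σ)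
  | some j => ev lab σ (bas j : ZMod ℓ → K)

theorem j4_span_e {S' : Submodule K (ZMod ℓ → K)} {d : ℕ} (bas : Basis (Fin d) K S') :
    Submodule.span (FGA K r)ᵐᵒᵖ (Set.range (j4_e lab σ bas)) = idl lab σ S' := by
  refine le_antisymm ?_ ?_
  · rw [Submodule.span_le]
    rintro x ⟨o, rfl⟩
    cases o with
    | none => exact j4_wm1_mem_idl S'
    | some j => exact j4_ev_mem_idl (bas j).2
  · unfold idl
    rw [Submodule.span_le]
    rintro x (rfl | ⟨t, ht, rfl⟩)
    · exact Submodule.subset_span (Set.mem_range_self (f := j4_e lab σ bas) none)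
    · have h1 : t = ∑ j, bas.repr ⟨t, ht⟩ j • (bas j : ZMod ℓ → K) := by
        have h2 := bas.sum_repr ⟨t, ht⟩
        have h3 := congrArg (Submodule.subtype S') h2
        rw [map_sum] at h3
        simp only [map_smul, Submodule.subtype_apply] at h3
        exact h3.symm
      have h4 : ev lab σ t = ∑ j, bas.repr ⟨t, ht⟩ j • ev lab σ (bas j : ZMod ℓ → K) := by
        conv_lhs => rw [h1]
        rw [map_sum]
        exact Finset.sum_congr rfl fun j _ => map_smul _ _ _
      rw [h4]
      exact Submodule.sum_mem _ fun j _ => j4_smul_mem _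
        (Submodule.subset_span (Set.mem_range_self (f := j4_e lab σ bas) (some j))) _

/-- If the closure of the dual is everything then `w - 1` belongs to a basis. -/
theorem exists_basis_of_cl_eq_top (hred : Reduced σ (Setoid.ker lab)) {I : RI K r}
    (hI : I ≠ ⊤) (hw : wm1 K (word lab σ) ∈ I)
    (h : cl σ (Setoid.ker lab) (dual σ (UI lab σ I)) = ⊤) :
    ∃ (n : ℕ) (b : Basis (Fin n) (FGA K r)ᵐᵒᵖ (idl lab σ (SI lab σ I))) (i : Fin n),
      ((b i : idl lab σ (SI lab σ I)) : FGA K r) = wm1 K (word lab σ) := by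
  obtain ⟨hclosed, -, hTT⟩ := UI_closed hred hI hw
  obtain ⟨S', hS', hidl, hext⟩ := j4_chain (lab := lab) (σ := σ) (dual σ (UI lab σ I))
    (SI lab σ I) (split_dual hclosed.1) h (by rw [dual_dual]; exact hTT)
  rw [dual_dual] at hext
  have bas := Module.finBasis K S'
  set e := j4_e lab σ bas with he
  have hmem : ∀ o, e o ∈ I := by
    intro o
    cases o with
    | none => exact hw
    | some j => exact hS' (bas j).2
  have hKT : ∀ o, e o ∈ KT K (j4_T lab σ) := by
    intro o
    cases o with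
    | none => exact j4_wm1_mem_KT
    | some j => exact j4_ev_mem_KT _
  have key : ∀ (ψ : S' →ₗ[K] FGA K r) (c0 : FGA K r),
      ∃ Φ : I →ₗ[(FGA K r)ᵐᵒᵖ] FGA K r, Φ ⟨e none, hmem none⟩ = c0 ∧
        ∀ j, Φ ⟨e (some j), hmem (some j)⟩ = ψ (bas j) := by
    intro ψ c0
    obtain ⟨g, hg1, hg2⟩ := hext ψ c0
    obtain ⟨Φ, hΦ⟩ := exists_hom_ext I (j4_T lab σ) (j4_prefClosed hred)
      (j4_phi lab σ g c0) (fun i a ha haT hxT => j4_hphi hred hw g c0 hg2 i a ha haT hxT)
    refine ⟨Φ, ?_, fun j => ?_⟩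
    · rw [hΦ _ _ (hKT none)]
      change j4_phi lab σ g c0 (wm1 K (word lab σ)) = c0
      rw [j4_phi_apply, j4_Z_wm1 hred, j4_W_wm1 hred, map_zero, zero_add, one_smul]
    · rw [hΦ _ _ (hKT (some j))]
      change j4_phi lab σ g c0 (ev lab σ (bas j : ZMod ℓ → K)) = _
      rw [j4_phi_apply, j4_Z_ev hred, j4_W_ev hred, zero_smul, add_zero]
      exact hg1 (bas j)
  have key2 : ∀ o, ∃ Φ : I →ₗ[(FGA K r)ᵐᵒᵖ] FGA K r,
      ∀ o', Φ ⟨e o', hmem o'⟩ = if o' = o then 1 else 0 := by
    intro o
    cases o with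
    | none =>
      obtain ⟨Φ, h1, h2⟩ := key 0 1
      refine ⟨Φ, fun o' => ?_⟩
      cases o' with
      | none => rw [h1, if_pos rfl]
      | some j => rw [h2, if_neg (by simp)]; rfl
    | some k =>
      obtain ⟨Φ, h1, h2⟩ := key ((bas.coord k).smulRight 1) 0
      refine ⟨Φ, fun o' => ?_⟩
      cases o' with
      | none => rw [h1, if_neg (by simp)]
      | some j =>
        rw [h2, LinearMap.smulRight_apply, Basis.coord_apply, Basis.repr_self,
          Finsupp.single_apply]
        by_cases hjk : j = k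
        · rw [if_pos hjk, if_pos (by rw [hjk]), one_smul]
        · rw [if_neg hjk, if_neg (by simpa using hjk), zero_smul]
  have hli : LinearIndependent (FGA K r)ᵐᵒᵖ e := by
    rw [Fintype.linearIndependent_iff]
    intro a ha o
    obtain ⟨Φ, hΦ⟩ := key2 o
    have h1 : ∑ o', a o' • (⟨e o', hmem o'⟩ : I) = 0 := by
      apply Subtype.ext
      rw [Submodule.coe_sum]
      exact ha
    have h2 := congrArg Φ h1
    rw [map_sum, map_zero] at h2
    simp only [map_smul, hΦ, smul_ite, smul_zero] at h2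
    rw [Finset.sum_ite_eq' Finset.univ o, if_pos (Finset.mem_univ o)] at h2
    rw [MulOpposite.smul_eq_mul_unop, one_mul] at h2
    exact MulOpposite.unop_injective h2
  have heq : Submodule.span (FGA K r)ᵐᵒᵖ (Set.range e) = idl lab σ (SI lab σ I) := by
    rw [hidl]
    exact j4_span_e bas
  let b0 := (Basis.span hli).map (LinearEquiv.ofEq _ _ heq)
  refine ⟨_, b0.reindex (Fintype.equivFin _), Fintype.equivFin _ none, ?_⟩
  rw [Basis.reindex_apply, Equiv.symm_apply_apply]
  change ((LinearEquiv.ofEq _ _ heq (Basis.span hli none) : idl lab σ (SI lab σ I)) :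
    FGA K r) = _
  rw [LinearEquiv.coe_ofEq_apply, Basis.span_apply]
  rfl

end Pool.Agent.GLFix
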