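import Pool.Agent.GLFix.Lewin
import Pool.Agent.GLFix.Prim
import Pool.Agent.GLFix.Imprim

/-!
# MP_ce340f_al, module J6

The dictionary between right ideals and closed subspaces.
-/

open scoped Classical
open Module Filter Asymptotics

noncomputable section

namespace Pool.Agent.GLFix

variable {K : Type*} [Field K] {r : ℕ}

variable {ℓ : ℕ} [NeZero ℓ] {lab : ZMod ℓ → Fin r} {σ : ZMod ℓ → Bool}

/-! ### The prefixes form a prefix closed set -/

/-- The list of letters of the prefix. -/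
def j6_list (lab : ZMod ℓ → Fin r) (σ : ZMod ℓ → Bool) (n : ℕ) : List (Fin r × Bool) :=
  (List.range n).map fun i : ℕ => (lab (i : ZMod ℓ), σ (i : ZMod ℓ))

theorem j6_list_succ (n : ℕ) :
    j6_list lab σ (n + 1) = j6_list lab σ n ++ [(lab (n : ZMod ℓ), σ (n : ZMod ℓ))] := by
  simp [j6_list, List.range_succ]

theorem j6_mk_list (n : ℕ) : FreeGroup.mk (j6_list lab σ n) = pre lab σ n := by
  induction n with
  | zero => rfl
  | succ n ih =>
    rw [j6_list_succ, ← FreeGroup.mul_mk, ih, pre]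
    congr 1
    unfold letter
    cases σ (n : ZMod ℓ) <;> simp [FreeGroup.of, FreeGroup.inv_mk, FreeGroup.invRev]

theorem j6_reduced (hred : Reduced σ (Setoid.ker lab)) (n : ℕ) :
    FreeGroup.IsReduced (j6_list lab σ n) := by
  unfold FreeGroup.IsReduced j6_list
  rw [List.isChain_map]
  have h : (List.range n).IsChain (fun a b => b = a + 1) := by
    rw [List.isChain_iff_getElem]
    intro i hi
    simp
  refine h.imp ?_
  rintro a b rfl hab
  have := hred (a : ZMod ℓ) (by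
    have h2 : lab (a : ZMod ℓ) = lab (((a + 1 : ℕ) : ZMod ℓ)) := hab
    rw [Nat.cast_add, Nat.cast_one] at h2
    exact h2)
  simpa using this

theorem j6_toWord (hred : Reduced σ (Setoid.ker lab)) (n : ℕ) :
    (pre lab σ n).toWord = j6_list lab σ n := by
  rw [← j6_mk_list, FreeGroup.toWord_mk]
  exact (j6_reduced hred n).reduce_eq

theorem j6_prefClosed (hred : Reduced σ (Setoid.ker lab)) :
    PrefClosed (Finset.image (pre lab σ) (Finset.range (ℓ + 1))) := by
  constructor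
  · rw [Finset.mem_image]
    exact ⟨0, by simp, rfl⟩
  · intro t ht
    rw [Finset.mem_image] at ht ⊢
    obtain ⟨n, hn, rfl⟩ := ht
    rw [Finset.mem_range] at hn
    rw [j6_toWord hred]
    cases n with
    | zero => exact ⟨0, by simp, rfl⟩
    | succ n =>
      refine ⟨n, Finset.mem_range.2 (by omega), ?_⟩
      rw [j6_list_succ, List.dropLast_concat, j6_mk_list]

/-! ### The dictionary -/

theorem j6_wm1_mem (S : Submodule K (ZMod ℓ → K)) : wm1 K (word lab σ) ∈ idl lab σ S :=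
  Submodule.subset_span (Set.mem_insert _ _)

theorem isCand_idl (hred : Reduced σ (Setoid.ker lab)) {U : Submodule K (ZMod ℓ → K)}
    (hU : IsImp σ (Setoid.ker lab) U) :
    ∃ k : ℕ, (k : ℤ) = exc σ U + 1 ∧ IsCand (word lab σ) (idl lab σ (TT σ U)) k ∧
      UI lab σ (idl lab σ (TT σ U)) = U := by
  obtain ⟨h1, h2, h3⟩ := SI_idl hred hU.closed hU.ne_top
  have hw : wm1 K (word lab σ) ∈ idl lab σ (TT σ U) := j6_wm1_mem _
  obtain ⟨h4, h5⟩ := hasRank_idl hred hw
  rw [h1, h2] at h4 h5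
  refine ⟨1 + (finrank K (TT σ U) - finrank K U), ?_, ⟨h3, h5, hw, ?_⟩, h2⟩
  · unfold exc
    omega
  · rintro ⟨ι, b, i, hb⟩
    let Φ : idl lab σ (TT σ U) →ₗ[(FGA K r)ᵐᵒᵖ] FGA K r :=
      b.constr ℕ (fun j => if j = i then (1 : FGA K r) else 0)
    have hne : cl σ (Setoid.ker lab) (dual σ (UI lab σ (idl lab σ (TT σ U)))) ≠ ⊤ := by
      rw [h2]
      exact hU.imp
    refine hom_ne_one hred h3 hw hne Φ ?_
    have : (⟨wm1 K (word lab σ), hw⟩ : idl lab σ (TT σ U)) = b i := Subtype.ext hb.symm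
    rw [this, Basis.constr_basis, if_pos rfl]

theorem j6_ext (hred : Reduced σ (Setoid.ker lab)) {I : RI K r} {k : ℕ}
    (hI : IsCand (word lab σ) I k) {n : ℕ}
    (b₀ : Basis (Fin n) (FGA K r)ᵐᵒᵖ (idl lab σ (SI lab σ I))) :
    ∃ (m : ℕ) (b : Basis (Fin n ⊕ Fin m) (FGA K r)ᵐᵒᵖ I),
      ∀ i, ((b (Sum.inl i) : I) : FGA K r) = (b₀ i : FGA K r) := by
  have hfg : I.FG := by
    obtain ⟨b⟩ := hI.rank
    exact Module.Finite.iff_fg.1 (Module.Finite.of_basis b)
  have heq := idl_SI_eq_span hred hI.mem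
  let b₁ := b₀.map (LinearEquiv.ofEq _ _ heq)
  obtain ⟨m, b, hb⟩ := exists_basis_ext I hfg _ (j6_prefClosed hred) b₁
  refine ⟨m, b, fun i => ?_⟩
  rw [hb i]
  simp [b₁]

theorem isImp_UI (hred : Reduced σ (Setoid.ker lab)) {I : RI K r} {k : ℕ}
    (hI : IsCand (word lab σ) I k) :
    IsImp σ (Setoid.ker lab) (UI lab σ I) ∧ exc σ (UI lab σ I) + 1 ≤ k ∧
      (exc σ (UI lab σ I) + 1 = k → idl lab σ (TT σ (UI lab σ I)) = I) := by
  obtain ⟨h1, h2, h3⟩ := UI_closed hred hI.ne_top hI.mem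
  obtain ⟨h4, ⟨b₀⟩⟩ := hasRank_idl hred hI.mem
  obtain ⟨m, b, hb⟩ := j6_ext hred hI b₀
  have hk : 1 + (finrank K (SI lab σ I) - finrank K (UI lab σ I)) + m = k := by
    refine hasRank_unique (I := I) ?_ hI.rank
    exact ⟨b.reindex finSumFinEquiv⟩
  have hle : finrank K (TT σ (UI lab σ I)) ≤ finrank K (SI lab σ I) :=
    Submodule.finrank_mono h3
  refine ⟨⟨h1, h2, ?_⟩, ?_, ?_⟩
  · intro htop
    obtain ⟨n, b₂, i, hi⟩ := exists_basis_of_cl_eq_top hred hI.ne_top hI.mem htop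
    obtain ⟨m', b₃, hb₃⟩ := j6_ext hred hI b₂
    exact hI.imprimitive ⟨Fin n ⊕ Fin m', b₃, Sum.inl i, (hb₃ i).trans hi⟩
  · unfold exc
    omega
  · intro he
    unfold exc at he
    have hm : m = 0 := by omega
    have hT : TT σ (UI lab σ I) = SI lab σ I :=
      Submodule.eq_of_le_of_finrank_eq h3 (by omega)
    rw [hT]
    refine le_antisymm ?_ ?_
    · refine Submodule.span_le.2 ?_
      rintro x (rfl | ⟨z, hz, rfl⟩)
      · exact hI.mem
      · exact hz
    · intro x hx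
      subst hm
      have hx2 : (⟨x, hx⟩ : I) ∈ Submodule.span (FGA K r)ᵐᵒᵖ (Set.range b) := by
        rw [b.span_eq]
        exact Submodule.mem_top
      have key : Submodule.map I.subtype (Submodule.span (FGA K r)ᵐᵒᵖ (Set.range b)) ≤
          idl lab σ (SI lab σ I) := by
        rw [Submodule.map_span, Submodule.span_le]
        rintro _ ⟨_, ⟨i, rfl⟩, rfl⟩
        rcases i with i | i
        · rw [Submodule.subtype_apply, hb i]
          exact (b₀ i).2
        · exact i.elim0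
      exact key ⟨⟨x, hx⟩, hx2, rfl⟩

theorem crit_eq (hred : Reduced σ (Setoid.ker lab)) [Finite K] {k : ℕ}
    (hk : IsPiq K (word lab σ) k) :
    (Crit K (word lab σ) k).ncard = crit K σ (Setoid.ker lab) k ∧
      (∃ U : Submodule K (ZMod ℓ → K), IsImp σ (Setoid.ker lab) U ∧ exc σ U = k - 1) ∧
      (∀ U : Submodule K (ZMod ℓ → K), IsImp σ (Setoid.ker lab) U → (k : ℤ) - 1 ≤ exc σ U) := by
  have h3 : ∀ U : Submodule K (ZMod ℓ → K), IsImp σ (Setoid.ker lab) U →
      (k : ℤ) - 1 ≤ exc σ U := by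
    intro U hU
    obtain ⟨k', hk', hc, -⟩ := isCand_idl hred hU
    have := hk.2 (show k' ∈ {k : ℕ | ∃ I : RI K r, IsCand (word lab σ) I k} from ⟨_, hc⟩)
    have : (k : ℤ) ≤ k' := by exact_mod_cast this
    omega
  have h2 : ∀ I : RI K r, IsCand (word lab σ) I k →
      exc σ (UI lab σ I) = k - 1 := by
    intro I hI
    obtain ⟨ha, hb, -⟩ := isImp_UI hred hI
    have := h3 _ ha
    omega
  refine ⟨?_, ?_, h3⟩
  · unfold crit
    rw [← Nat.card_coe_set_eq]
    refine Nat.card_congr ⟨fun I => ⟨UI lab σ I.1, (isImp_UI hred I.2).1, h2 I.1 I.2⟩,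
      fun U => ⟨idl lab σ (TT σ U.1), ?_⟩, ?_, ?_⟩
    · obtain ⟨k', hk', hc, -⟩ := isCand_idl hred U.2.1
      have : k' = k := by
        have := U.2.2
        omega
      rw [this] at hc
      exact hc
    · intro I
      refine Subtype.ext ?_
      refine (isImp_UI hred I.2).2.2 ?_
      rw [h2 I.1 I.2]
      ring
    · intro U
      refine Subtype.ext ?_
      obtain ⟨k', hk', hc, h⟩ := isCand_idl hred U.2.1
      exact h
  · obtain ⟨I, hI⟩ := hk.1
    exact ⟨UI lab σ I, (isImp_UI hred hI).1, h2 I hI⟩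

end Pool.Agent.GLFix
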