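import Pool.Agent.GLFix.AlgDefs
import Pool.Agent.GLFix.Basic

/-!
# MP_ce340f_al, module W

Word measures and the cyclic word.
-/

open scoped Classical
open Module Filter Asymptotics

noncomputable section

namespace Pool.Agent.GLFix

variable {K : Type*} [Field K] {r : ℕ}

section

variable {ℓ : ℕ} [NeZero ℓ] {lab : ZMod ℓ → Fin r} {σ : ZMod ℓ → Bool}

/-- Summing a function of the restriction along an injection. -/
theorem w_sum_comp {G : Type*} [Finite G] [Nonempty G] {Q : Type*} [Finite Q] {ι : Type*}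
    [Finite ι] [Fintype (Q → G)] [Fintype (ι → G)] (h : Q → ι) (hh : Function.Injective h)
    (F : (Q → G) → ℝ) :
    (∑ g : ι → G, F (g ∘ h)) / (Fintype.card (ι → G) : ℝ) =
      (∑ g : Q → G, F g) / (Fintype.card (Q → G) : ℝ) := by
  classical
  have : Fintype ({i : ι // i ∉ Set.range h} → G) := Fintype.ofFinite _
  let e1 : (ι → G) ≃ ({i : ι // i ∈ Set.range h} → G) × ({i : ι // i ∉ Set.range h} → G) :=
    Equiv.piEquivPiSubtypeProd (fun i => i ∈ Set.range h) (fun _ => G)
  let e2 : ({i : ι // i ∈ Set.range h} → G) ≃ (Q → G) :=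
    Equiv.arrowCongr (Equiv.ofInjective h hh).symm (Equiv.refl G)
  let e : (ι → G) ≃ (Q → G) × ({i : ι // i ∉ Set.range h} → G) :=
    e1.trans (Equiv.prodCongr e2 (Equiv.refl _))
  have he : ∀ g, (e g).1 = g ∘ h := by
    intro g
    funext q
    rfl
  have h1 : ∑ g : ι → G, F (g ∘ h) =
      ∑ x : (Q → G) × ({i : ι // i ∉ Set.range h} → G), F x.1 := by
    rw [← Equiv.sum_comp e]
    exact Finset.sum_congr rfl fun g _ => by rw [he]
  rw [h1, Fintype.sum_prod_type]
  simp only [Finset.sum_const, Finset.card_univ, nsmul_eq_mul]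
  rw [← Finset.mul_sum, Fintype.card_congr e, Fintype.card_prod, Nat.cast_mul]
  have hne : (Fintype.card ({i : ι // i ∉ Set.range h} → G) : ℝ) ≠ 0 := by
    have : 0 < Fintype.card ({i : ι // i ∉ Set.range h} → G) := Fintype.card_pos
    positivity
  rw [mul_comm (Fintype.card (Q → G) : ℝ), mul_div_mul_left _ _ hne]

omit [NeZero ℓ] in
theorem w_vecMul_letter {N : ℕ} (g : Fin r → GL (Fin N) K) (x : ZMod ℓ → Fin N → K) (ε : ZMod ℓ) :
    Matrix.vecMul (x (epos σ false ε)) (g (lab ε) : Matrix (Fin N) (Fin N) K)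
        = x (epos σ true ε) ↔
      x (ε + 1) = Matrix.vecMul (x ε)
        (FreeGroup.lift g (letter lab σ ε) : Matrix (Fin N) (Fin N) K) := by
  unfold epos letter
  cases hσ : σ ε
  · simp only [Bool.false_eq_true, if_true, if_false, map_inv, FreeGroup.lift_apply_of]
    constructor
    · intro h
      rw [← h, Matrix.vecMul_vecMul]
      rw [← Units.val_mul, mul_inv_cancel, Units.val_one, Matrix.vecMul_one]
    · intro h
      rw [h, Matrix.vecMul_vecMul]
      rw [← Units.val_mul, inv_mul_cancel, Units.val_one, Matrix.vecMul_one]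
  · simp only [Bool.true_eq_false, if_true, if_false, FreeGroup.lift_apply_of]
    exact eq_comm

omit [NeZero ℓ] in
theorem w_traj {N : ℕ} (g : Fin r → GL (Fin N) K) (x : ZMod ℓ → Fin N → K)
    (hx : ∀ ε : ZMod ℓ, x (ε + 1) = Matrix.vecMul (x ε)
        (FreeGroup.lift g (letter lab σ ε) : Matrix (Fin N) (Fin N) K)) (n : ℕ) :
    x (n : ZMod ℓ) = Matrix.vecMul (x 0)
      (FreeGroup.lift g (pre lab σ n) : Matrix (Fin N) (Fin N) K) := by
  induction n with
  | zero =>
    simp [pre]
  | succ n ih =>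
    rw [Nat.cast_succ, hx, ih, Matrix.vecMul_vecMul, pre, map_mul, Units.val_mul]

theorem w_traj' {N : ℕ} (g : Fin r → GL (Fin N) K) (v : Fin N → K)
    (hv : Matrix.vecMul v (FreeGroup.lift g (word lab σ) : Matrix (Fin N) (Fin N) K) = v)
    (ε : ZMod ℓ) :
    Matrix.vecMul v (FreeGroup.lift g (pre lab σ (ε + 1).val) : Matrix (Fin N) (Fin N) K) =
      Matrix.vecMul (Matrix.vecMul v (FreeGroup.lift g (pre lab σ ε.val) : Matrix (Fin N) (Fin N) K))
        (FreeGroup.lift g (letter lab σ ε) : Matrix (Fin N) (Fin N) K) := by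
  have hstep : Matrix.vecMul (Matrix.vecMul v (FreeGroup.lift g (pre lab σ ε.val) :
        Matrix (Fin N) (Fin N) K))
        (FreeGroup.lift g (letter lab σ ε) : Matrix (Fin N) (Fin N) K) =
      Matrix.vecMul v (FreeGroup.lift g (pre lab σ (ε.val + 1)) : Matrix (Fin N) (Fin N) K) := by
    rw [pre, map_mul, Units.val_mul, Matrix.vecMul_vecMul, ZMod.natCast_zmod_val]
  rw [hstep]
  rcases Nat.lt_or_ge (ε.val + 1) ℓ with h | h
  · have : (ε + 1).val = ε.val + 1 := by
      have h1 : (1 : ZMod ℓ).val = 1 := by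
        rw [ZMod.val_one_eq_one_mod]
        exact Nat.mod_eq_of_lt (by omega)
      rw [ZMod.val_add_of_lt (by rw [h1]; exact h), h1]
    rw [this]
  · have h2 : ε.val + 1 = ℓ := by
      have := ZMod.val_lt ε
      omega
    have h3 : ε + 1 = 0 := by
      have : ((ε.val + 1 : ℕ) : ZMod ℓ) = 0 := by rw [h2]; exact ZMod.natCast_self ℓ
      rwa [Nat.cast_add, ZMod.natCast_zmod_val, Nat.cast_one] at this
    rw [h3, h2, ZMod.val_zero]
    change Matrix.vecMul v (FreeGroup.lift g 1 : Matrix (Fin N) (Fin N) K) = 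
      Matrix.vecMul v (FreeGroup.lift g (word lab σ) : Matrix (Fin N) (Fin N) K)
    rw [hv, map_one, Units.val_one, Matrix.vecMul_one]

/-- Nonzero fixed vectors correspond to trajectories. -/
def w_equiv {N : ℕ} (g : Fin r → GL (Fin N) K) :
    {v : Fin N → K // v ≠ 0 ∧
      Matrix.vecMul v (FreeGroup.lift g (word lab σ) : Matrix (Fin N) (Fin N) K) = v} ≃
    {x : ZMod ℓ → Fin N → K // (∀ p, x p ≠ 0) ∧ ∀ ε,
      Matrix.vecMul (x (epos σ false ε)) (g (lab ε) : Matrix (Fin N) (Fin N) K)
        = x (epos σ true ε)} where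
  toFun v := ⟨fun p => Matrix.vecMul v.1
      (FreeGroup.lift g (pre lab σ p.val) : Matrix (Fin N) (Fin N) K), by
    refine ⟨fun p h0 => v.2.1 ?_, fun ε => ?_⟩
    · have : Matrix.vecMul (Matrix.vecMul v.1
        (FreeGroup.lift g (pre lab σ p.val) : Matrix (Fin N) (Fin N) K))
        (((FreeGroup.lift g (pre lab σ p.val))⁻¹ : GL (Fin N) K) :
          Matrix (Fin N) (Fin N) K) = 0 := by
        have h0' : Matrix.vecMul v.1
          (FreeGroup.lift g (pre lab σ p.val) : Matrix (Fin N) (Fin N) K) = 0 := h0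
        rw [h0', Matrix.zero_vecMul]
      rwa [Matrix.vecMul_vecMul, ← Units.val_mul, mul_inv_cancel, Units.val_one,
        Matrix.vecMul_one] at this
    · rw [w_vecMul_letter g (fun p => Matrix.vecMul v.1
        (FreeGroup.lift g (pre lab σ p.val) : Matrix (Fin N) (Fin N) K))]
      exact w_traj' g v.1 v.2.2 ε⟩
  invFun x := ⟨x.1 0, x.2.1 0, by
    have h := w_traj (lab := lab) (σ := σ) g x.1
      (fun ε => (w_vecMul_letter g x.1 ε).mp (x.2.2 ε)) ℓ
    rw [ZMod.natCast_self] at h
    exact h.symm⟩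
  left_inv v := by
    apply Subtype.ext
    show Matrix.vecMul v.1 (FreeGroup.lift g (pre lab σ (0 : ZMod ℓ).val) :
      Matrix (Fin N) (Fin N) K) = v.1
    rw [ZMod.val_zero]
    change Matrix.vecMul v.1 (FreeGroup.lift g 1 : Matrix (Fin N) (Fin N) K) = v.1
    rw [map_one, Units.val_one, Matrix.vecMul_one]
  right_inv x := by
    apply Subtype.ext
    funext p
    have h := w_traj (lab := lab) (σ := σ) g x.1
      (fun ε => (w_vecMul_letter g x.1 ε).mp (x.2.2 ε)) p.val
    rw [ZMod.natCast_zmod_val] at h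
    exact h.symm

theorem expFix_word [Finite K] (N : ℕ) :
    expFix K (word lab σ) N = 1 + gfun K σ (Setoid.ker lab) N := by
  classical
  have : Fintype K := Fintype.ofFinite K
  let hq : Quotient (Setoid.ker lab) → Fin r := Quotient.lift lab fun a b hab => hab
  have hinj : Function.Injective hq := by
    intro a b
    induction a using Quotient.inductionOn with
    | h a =>
      induction b using Quotient.inductionOn with
      | h b => exact fun h => Quotient.sound h
  let F : (Quotient (Setoid.ker lab) → GL (Fin N) K) → ℝ := fun g =>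
    (Nat.card {x : ZMod ℓ → Fin N → K // (∀ p, x p ≠ 0) ∧ ∀ ε,
      Matrix.vecMul (x (epos σ false ε)) (g (Quotient.mk _ ε) : Matrix (Fin N) (Fin N) K)
        = x (epos σ true ε)} : ℝ)
  have hfix : ∀ g : Fin r → GL (Fin N) K, (Nat.card {v : Fin N → K //
      Matrix.vecMul v (FreeGroup.lift g (word lab σ) : Matrix (Fin N) (Fin N) K) = v} : ℝ) =
      1 + F (g ∘ hq) := by
    intro g
    have h1 : Nat.card {v : Fin N → K //
        Matrix.vecMul v (FreeGroup.lift g (word lab σ) : Matrix (Fin N) (Fin N) K) = v} =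
        1 + Nat.card {v : Fin N → K // v ≠ 0 ∧
          Matrix.vecMul v (FreeGroup.lift g (word lab σ) : Matrix (Fin N) (Fin N) K) = v} := by
      rw [Nat.card_eq_fintype_card, Nat.card_eq_fintype_card, Fintype.card_subtype,
        Fintype.card_subtype]
      rw [← Finset.card_filter_add_card_filter_not (s := Finset.univ.filter (fun v : Fin N → K =>
        Matrix.vecMul v (FreeGroup.lift g (word lab σ) : Matrix (Fin N) (Fin N) K) = v))
        (fun v => v = 0)]
      congr 1
      · rw [Finset.filter_filter, Finset.card_eq_one]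
        refine ⟨0, ?_⟩
        ext v
        simp only [Finset.mem_filter, Finset.mem_univ, true_and, Finset.mem_singleton]
        constructor
        · exact fun h => h.2
        · rintro rfl
          exact ⟨Matrix.zero_vecMul _, rfl⟩
      · rw [Finset.filter_filter]
        congr 1
        ext v
        simp only [Finset.mem_filter, Finset.mem_univ, true_and]
        exact and_comm
    rw [h1, Nat.card_congr (w_equiv (lab := lab) (σ := σ) g), Nat.cast_add, Nat.cast_one]
    rfl
  have hsol : (Nat.card (Sol K σ (Setoid.ker lab) N) : ℝ) = ∑ g, F g := by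
    have e : Sol K σ (Setoid.ker lab) N ≃ Σ g : Quotient (Setoid.ker lab) → GL (Fin N) K,
        {x : ZMod ℓ → Fin N → K // (∀ p, x p ≠ 0) ∧ ∀ ε,
          Matrix.vecMul (x (epos σ false ε)) (g (Quotient.mk _ ε) : Matrix (Fin N) (Fin N) K)
            = x (epos σ true ε)} :=
      { toFun := fun y => ⟨y.1.1, y.1.2, y.2⟩
        invFun := fun y => ⟨(y.1, y.2.1), y.2.2⟩
        left_inv := fun y => rfl
        right_inv := fun y => rfl }
    rw [Nat.card_congr e, Nat.card_sigma, Nat.cast_sum]
  unfold expFix gfun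
  rw [finsum_eq_sum_of_fintype, Finset.sum_congr rfl fun g _ => hfix g, Finset.sum_add_distrib,
    add_div, hsol]
  congr 1
  · rw [Finset.sum_const, Finset.card_univ, nsmul_eq_mul, mul_one, Nat.card_eq_fintype_card]
    have : (0 : ℝ) < Fintype.card (Fin r → GL (Fin N) K) := by
      exact_mod_cast Fintype.card_pos
    exact div_self this.ne'
  · rw [Nat.card_eq_fintype_card, w_sum_comp hq hinj F, Fintype.card_fun,
      Nat.card_eq_fintype_card, Nat.card_eq_fintype_card, Nat.cast_pow]

end

theorem exists_word {w : FreeGroup (Fin r)} (hw : w ≠ 1) :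
    ∃ (ℓ : ℕ) (_ : NeZero ℓ) (lab : ZMod ℓ → Fin r) (σ : ZMod ℓ → Bool)
      (c : FreeGroup (Fin r)), Reduced σ (Setoid.ker lab) ∧ w = c * word lab σ * c⁻¹ := by
  classical
  set L := FreeGroup.reduceCyclically w.toWord with hL
  have hcr : FreeGroup.IsCyclicallyReduced L :=
    FreeGroup.reduceCyclically.isCyclicallyReduced FreeGroup.isReduced_toWord
  have hw' : w = FreeGroup.mk (FreeGroup.reduceCyclically.conjugator w.toWord) * FreeGroup.mk L *
      (FreeGroup.mk (FreeGroup.reduceCyclically.conjugator w.toWord))⁻¹ := by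
    rw [FreeGroup.inv_mk, FreeGroup.mul_mk, FreeGroup.mul_mk,
      FreeGroup.reduceCyclically.conj_conjugator_reduceCyclically, FreeGroup.mk_toWord]
  have hLne : L ≠ [] := by
    intro h
    rw [h] at hw'
    apply hw
    rw [hw', ← FreeGroup.one_eq_mk, mul_one, mul_inv_cancel]
  have hlen : L.length ≠ 0 := by
    intro h
    exact hLne (List.length_eq_zero_iff.mp h)
  have hnz : NeZero L.length := ⟨hlen⟩
  refine ⟨L.length, hnz, fun p => (L.get ⟨p.val, ZMod.val_lt p⟩).1,
    fun p => (L.get ⟨p.val, ZMod.val_lt p⟩).2,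
    FreeGroup.mk (FreeGroup.reduceCyclically.conjugator w.toWord), ?_, ?_⟩
  · intro ε hε
    have hε' : (L.get ⟨ε.val, ZMod.val_lt ε⟩).1 = (L.get ⟨(ε + 1).val, ZMod.val_lt (ε + 1)⟩).1 :=
      hε
    show (L.get ⟨ε.val, ZMod.val_lt ε⟩).2 = (L.get ⟨(ε + 1).val, ZMod.val_lt (ε + 1)⟩).2
    rcases Nat.lt_or_ge (ε.val + 1) L.length with h | h
    · have h1 : (1 : ZMod L.length).val = 1 := by
        rw [ZMod.val_one_eq_one_mod]
        exact Nat.mod_eq_of_lt (by omega)
      have h2 : (ε + 1).val = ε.val + 1 := by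
        rw [ZMod.val_add_of_lt (by rw [h1]; exact h), h1]
      have h3 := List.isChain_iff_getElem.mp hcr.1 ε.val h
      simp only [List.get_eq_getElem, h2] at hε' ⊢
      exact h3 hε'
    · have h2 : ε.val + 1 = L.length := by
        have := ZMod.val_lt ε
        omega
      have h3 : ε + 1 = 0 := by
        have : ((ε.val + 1 : ℕ) : ZMod L.length) = 0 := by
          rw [h2]; exact ZMod.natCast_self L.length
        rwa [Nat.cast_add, ZMod.natCast_zmod_val, Nat.cast_one] at this
      have h4 : (ε + 1).val = 0 := by rw [h3, ZMod.val_zero]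
      have h5 : ε.val = L.length - 1 := by omega
      simp only [List.get_eq_getElem, h4, h5] at hε' ⊢
      refine hcr.2 _ ?_ _ ?_ hε'
      · rw [List.getLast?_eq_getElem?, Option.mem_def, List.getElem?_eq_getElem]
      · rw [List.head?_eq_getElem?, Option.mem_def, List.getElem?_eq_getElem]
  · have hpre : ∀ n : ℕ, n ≤ L.length →
        pre (fun p : ZMod L.length => (L.get ⟨p.val, ZMod.val_lt p⟩).1)
          (fun p : ZMod L.length => (L.get ⟨p.val, ZMod.val_lt p⟩).2) n =
        FreeGroup.mk (L.take n) := by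
      intro n
      induction n with
      | zero =>
        intro _
        rw [pre, List.take_zero, FreeGroup.one_eq_mk]
      | succ n ih =>
        intro hn
        have hn' : n < L.length := hn
        have hval : ((n : ℕ) : ZMod L.length).val = n := ZMod.val_cast_of_lt hn'
        rw [pre, ih (by omega), List.take_succ_eq_append_getElem hn', ← FreeGroup.mul_mk]
        congr 1
        unfold letter
        simp only [List.get_eq_getElem, hval]
        rcases hLn : L[n] with ⟨a, b⟩
        cases b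
        · simp [FreeGroup.of, FreeGroup.inv_mk, FreeGroup.invRev]
        · simp [FreeGroup.of]
    unfold word
    rw [hpre _ le_rfl, List.take_length]
    exact hw'

theorem w_card_conj {N : ℕ} (C W C' : Matrix (Fin N) (Fin N) K) (h1 : C * C' = 1)
    (h2 : C' * C = 1) :
    Nat.card {v : Fin N → K // Matrix.vecMul v (C * W * C') = v} =
      Nat.card {v : Fin N → K // Matrix.vecMul v W = v} := by
  have ha : ∀ v : Fin N → K, Matrix.vecMul v (C * W * C') = v →
      Matrix.vecMul (Matrix.vecMul v C) W = Matrix.vecMul v C := by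
    intro v hv
    have h3 : Matrix.vecMul (Matrix.vecMul v (C * W * C')) C = Matrix.vecMul v C := by rw [hv]
    rw [Matrix.vecMul_vecMul, mul_assoc, h2, mul_one] at h3
    rw [Matrix.vecMul_vecMul]
    exact h3
  have hb : ∀ v : Fin N → K, Matrix.vecMul v W = v →
      Matrix.vecMul (Matrix.vecMul v C') (C * W * C') = Matrix.vecMul v C' := by
    intro v hv
    rw [Matrix.vecMul_vecMul, ← mul_assoc, ← mul_assoc, h2, one_mul, ← Matrix.vecMul_vecMul, hv]
  have hc : ∀ v : Fin N → K, Matrix.vecMul (Matrix.vecMul v C) C' = v := by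
    intro v
    rw [Matrix.vecMul_vecMul, h1, Matrix.vecMul_one]
  have hd : ∀ v : Fin N → K, Matrix.vecMul (Matrix.vecMul v C') C = v := by
    intro v
    rw [Matrix.vecMul_vecMul, h2, Matrix.vecMul_one]
  exact Nat.card_congr
    { toFun := fun v => ⟨Matrix.vecMul v.1 C, ha v.1 v.2⟩
      invFun := fun v => ⟨Matrix.vecMul v.1 C', hb v.1 v.2⟩
      left_inv := fun v => Subtype.ext (hc v.1)
      right_inv := fun v => Subtype.ext (hd v.1) }

theorem expFix_conj (w c : FreeGroup (Fin r)) (N : ℕ) :
    expFix K (c * w * c⁻¹) N = expFix K w N := by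
  unfold expFix
  congr 1
  refine finsum_congr fun g => ?_
  congr 1
  set C : GL (Fin N) K := FreeGroup.lift g c with hC
  set W : GL (Fin N) K := FreeGroup.lift g w with hW
  have hmul : ((FreeGroup.lift g (c * w * c⁻¹) : GL (Fin N) K) : Matrix (Fin N) (Fin N) K) =
      (C : Matrix (Fin N) (Fin N) K) * (W : Matrix (Fin N) (Fin N) K) *
        ((C⁻¹ : GL (Fin N) K) : Matrix (Fin N) (Fin N) K) := by
    rw [map_mul, map_mul, map_inv, Units.val_mul, Units.val_mul]
  rw [hmul]
  exact w_card_conj _ _ _ (by rw [← Units.val_mul, mul_inv_cancel, Units.val_one])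
    (by rw [← Units.val_mul, inv_mul_cancel, Units.val_one])

/-- Left multiplication by a group element. -/
def w_mulLeft (K : Type*) [Field K] {r : ℕ} (c : FreeGroup (Fin r)) :
    FGA K r ≃ₗ[(FGA K r)ᵐᵒᵖ] FGA K r where
  toFun x := MonoidAlgebra.of K _ c * x
  map_add' x y := mul_add _ _ _
  map_smul' a x := by
    rw [MulOpposite.smul_eq_mul_unop, RingHom.id_apply, MulOpposite.smul_eq_mul_unop, mul_assoc]
  invFun x := MonoidAlgebra.of K _ c⁻¹ * x
  left_inv x := by
    show MonoidAlgebra.of K _ c⁻¹ * (MonoidAlgebra.of K _ c * x) = x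
    rw [← mul_assoc, ← map_mul, inv_mul_cancel, map_one, one_mul]
  right_inv x := by
    show MonoidAlgebra.of K _ c * (MonoidAlgebra.of K _ c⁻¹ * x) = x
    rw [← mul_assoc, ← map_mul, mul_inv_cancel, map_one, one_mul]

theorem w_mulLeft_apply (c : FreeGroup (Fin r)) (x : FGA K r) :
    w_mulLeft K c x = MonoidAlgebra.of K _ c * x := rfl

/-- The unit of the opposite algebra given by a group element. -/
def w_unit (K : Type*) [Field K] {r : ℕ} (c : FreeGroup (Fin r)) : ((FGA K r)ᵐᵒᵖ)ˣ where
  val := MulOpposite.op (MonoidAlgebra.of K _ c)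
  inv := MulOpposite.op (MonoidAlgebra.of K _ c⁻¹)
  val_inv := by rw [← MulOpposite.op_mul, ← map_mul, inv_mul_cancel, map_one, MulOpposite.op_one]
  inv_val := by rw [← MulOpposite.op_mul, ← map_mul, mul_inv_cancel, map_one, MulOpposite.op_one]

theorem w_isCand {w : FreeGroup (Fin r)} {I : RI K r} {k : ℕ} (c : FreeGroup (Fin r))
    (h : IsCand w I k) :
    IsCand (c * w * c⁻¹) (I.map (w_mulLeft K c).toLinearMap) k := by
  refine ⟨?_, ?_, ?_, ?_⟩
  · intro htop
    apply h.ne_top
    rw [eq_top_iff]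
    intro x _
    have hx : w_mulLeft K c x ∈ I.map (w_mulLeft K c).toLinearMap := by
      rw [htop]; exact Submodule.mem_top
    obtain ⟨y, hy, hyx⟩ := hx
    have : y = x := (w_mulLeft K c).injective hyx
    rwa [← this]
  · obtain ⟨b⟩ := h.rank
    exact ⟨b.map ((w_mulLeft K c).submoduleMap I)⟩
  · refine ⟨wm1 K w * MonoidAlgebra.of K _ c⁻¹, ?_, ?_⟩
    · have := I.smul_mem (MulOpposite.op (MonoidAlgebra.of K _ c⁻¹)) h.mem
      rwa [MulOpposite.smul_eq_mul_unop, MulOpposite.unop_op] at this
    · show MonoidAlgebra.of K _ c * (wm1 K w * MonoidAlgebra.of K _ c⁻¹) = _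
      unfold wm1
      rw [sub_mul, mul_sub, ← map_mul, ← map_mul, one_mul, ← map_mul, mul_inv_cancel, map_one,
        mul_assoc]
  · rintro ⟨ι, b, i, hi⟩
    apply h.imprimitive
    refine ⟨ι, (b.map ((w_mulLeft K c).submoduleMap I).symm).unitsSMul (fun _ => w_unit K c), i, ?_⟩
    rw [Basis.unitsSMul_apply, Basis.map_apply]
    have h1 : (w_mulLeft K c) ((((w_mulLeft K c).submoduleMap I).symm (b i) : I) : FGA K r) =
        ((b i : I.map (w_mulLeft K c).toLinearMap) : FGA K r) := by
      have := congrArg Subtype.val (((w_mulLeft K c).submoduleMap I).apply_symm_apply (b i))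
      exact this
    rw [hi, w_mulLeft_apply] at h1
    show ((((w_mulLeft K c).submoduleMap I).symm (b i) : I) : FGA K r) *
      MonoidAlgebra.of K _ c = wm1 K w
    have h2 : ((((w_mulLeft K c).submoduleMap I).symm (b i) : I) : FGA K r) =
        MonoidAlgebra.of K _ c⁻¹ * wm1 K (c * w * c⁻¹) := by
      rw [← h1, ← mul_assoc, ← map_mul, inv_mul_cancel, map_one, one_mul]
    rw [h2]
    unfold wm1
    rw [mul_sub, sub_mul, ← map_mul, ← map_mul, mul_one, ← map_mul, inv_mul_cancel, map_one]
    congr 2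
    group

/-- Left multiplication by a group element, on right ideals. -/
theorem exists_conj_equiv (w c : FreeGroup (Fin r)) :
    ∃ e : RI K r ≃ RI K r, ∀ I k, IsCand (c * w * c⁻¹) (e I) k ↔ IsCand w I k := by
  have hcomp : ∀ (a b : FreeGroup (Fin r)), a * b = 1 → ∀ I : RI K r,
      (I.map (w_mulLeft K b).toLinearMap).map (w_mulLeft K a).toLinearMap = I := by
    intro a b hab I
    ext x
    simp only [Submodule.mem_map]
    constructor
    · rintro ⟨y, ⟨z, hz, rfl⟩, rfl⟩
      have : (w_mulLeft K a).toLinearMap ((w_mulLeft K b).toLinearMap z) = z := by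
        show MonoidAlgebra.of K _ a * (MonoidAlgebra.of K _ b * z) = z
        rw [← mul_assoc, ← map_mul, hab, map_one, one_mul]
      rw [this]
      exact hz
    · intro hx
      refine ⟨_, ⟨x, hx, rfl⟩, ?_⟩
      show MonoidAlgebra.of K _ a * (MonoidAlgebra.of K _ b * x) = x
      rw [← mul_assoc, ← map_mul, hab, map_one, one_mul]
  refine ⟨⟨fun I => I.map (w_mulLeft K c).toLinearMap, fun I => I.map (w_mulLeft K c⁻¹).toLinearMap,
    fun I => hcomp _ _ (inv_mul_cancel c) I, fun I => hcomp _ _ (mul_inv_cancel c) I⟩, ?_⟩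
  intro I k
  constructor
  · intro h
    have h1 := w_isCand c⁻¹ h
    have h2 : c⁻¹ * (c * w * c⁻¹) * c⁻¹⁻¹ = w := by group
    rw [h2] at h1
    have h3 := hcomp _ _ (inv_mul_cancel c) I
    change IsCand w ((I.map (w_mulLeft K c).toLinearMap).map (w_mulLeft K c⁻¹).toLinearMap) k at h1
    rwa [h3] at h1
  · intro h
    exact w_isCand c h

end Pool.Agent.GLFix
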