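import Pool.Agent.GLFix.Main
import Pool.Agent.GLFix.Dictionary
import Pool.Agent.GLFix.WordSide

/-!
# MP_ce340f_al, module Z

The final theorem.
-/

open scoped Classical
open Module Filter Asymptotics

set_option linter.unusedSectionVars false

noncomputable section

namespace Pool.Agent.GLFix

variable {K : Type*} [Field K] {r : ℕ}

theorem final_isCand_one : IsCand (1 : FreeGroup (Fin r)) (⊥ : RI K r) 0 := by
  refine ⟨bot_ne_top, ⟨Basis.empty _⟩, ?_, ?_⟩
  · unfold wm1
    rw [map_one, sub_self]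
    exact Submodule.zero_mem _
  · rintro ⟨ι, b, i, -⟩
    have h1 : b i = 0 := Subsingleton.elim _ _
    exact b.ne_zero i h1

theorem final_isPiq_conj {w c : FreeGroup (Fin r)} {k : ℕ} :
    IsPiq K (c * w * c⁻¹) k ↔ IsPiq K w k := by
  obtain ⟨e, he⟩ := exists_conj_equiv (K := K) w c
  unfold IsPiq
  have : {k : ℕ | ∃ I : RI K r, IsCand (c * w * c⁻¹) I k} =
      {k : ℕ | ∃ I : RI K r, IsCand w I k} := by
    ext k
    constructor
    · rintro ⟨I, hI⟩
      refine ⟨e.symm I, ?_⟩
      rw [← he, e.apply_symm_apply]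
      exact hI
    · rintro ⟨I, hI⟩
      exact ⟨e I, (he I k).mpr hI⟩
  rw [this]

theorem final_crit_conj (w c : FreeGroup (Fin r)) (k : ℕ) :
    (Crit K (c * w * c⁻¹) k).ncard = (Crit K w k).ncard := by
  obtain ⟨e, he⟩ := exists_conj_equiv (K := K) w c
  have : Crit K (c * w * c⁻¹) k = e '' Crit K w k := by
    ext I
    constructor
    · intro hI
      refine ⟨e.symm I, ?_, e.apply_symm_apply I⟩
      show IsCand w (e.symm I) k
      rw [← he, e.apply_symm_apply]
      exact hI
    · rintro ⟨J, hJ, rfl⟩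
      exact (he J k).mpr hJ
  rw [this, Set.ncard_image_of_injective _ e.injective]

/-- The set of critical ideals is finite (cyclically reduced words). -/
theorem final_crit_finite_word [Finite K] {ℓ : ℕ} [NeZero ℓ] {lab : ZMod ℓ → Fin r}
    {σ : ZMod ℓ → Bool} (hred : Reduced σ (Setoid.ker lab)) {k : ℕ}
    (hk : IsPiq K (word lab σ) k) : (Crit K (word lab σ) k).Finite := by
  have hinj : Set.InjOn (UI (K := K) lab σ) (Crit K (word lab σ) k) := by
    have key : ∀ I ∈ Crit K (word lab σ) k, idl lab σ (TT σ (UI lab σ I)) = I := by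
      intro I hI
      obtain ⟨h1, h2, h3⟩ := isImp_UI hred hI
      obtain ⟨k', hk', hc, -⟩ := isCand_idl hred h1
      have h4 : k ≤ k' := hk.2 ⟨_, hc⟩
      apply h3
      omega
    intro I hI J hJ hIJ
    have h1 := key I hI
    have h2 := key J hJ
    rw [hIJ] at h1
    exact h1.symm.trans h2
  exact Set.Finite.of_finite_image (Set.toFinite _) hinj

theorem final_crit_finite [Finite K] (w : FreeGroup (Fin r)) (k : ℕ) (hk : IsPiq K w k)
    (hk1 : 1 ≤ k) : (Crit K w k).Finite := by
  have hw : w ≠ 1 := by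
    rintro rfl
    have := hk.2 ⟨⊥, final_isCand_one⟩
    omega
  obtain ⟨ℓ, hℓ, lab, σ, c, hred, rfl⟩ := exists_word hw
  rw [final_isPiq_conj] at hk
  have h := final_crit_finite_word hred hk
  obtain ⟨e, he⟩ := exists_conj_equiv (K := K) (word lab σ) c
  have : Crit K (c * word lab σ * c⁻¹) k = e '' Crit K (word lab σ) k := by
    ext I
    constructor
    · intro hI
      refine ⟨e.symm I, ?_, e.apply_symm_apply I⟩
      show IsCand (word lab σ) (e.symm I) k
      rw [← he, e.apply_symm_apply]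
      exact hI
    · rintro ⟨J, hJ, rfl⟩
      exact (he J k).mpr hJ
  rw [this]
  exact h.image _

theorem final [Finite K] (w : FreeGroup (Fin r)) (k : ℕ) (hk : IsPiq K w k) (hk1 : 1 ≤ k) :
    (fun N : ℕ => expFix K w N - 2 - (Crit K w k).ncard / (Nat.card K : ℝ) ^ (N * (k - 1)))
      =O[atTop] fun N : ℕ => 1 / (Nat.card K : ℝ) ^ (N * k) := by
  have hw : w ≠ 1 := by
    rintro rfl
    have := hk.2 ⟨⊥, final_isCand_one⟩
    omega
  obtain ⟨ℓ, hℓ, lab, σ, c, hred, rfl⟩ := exists_word hw
  rw [final_isPiq_conj] at hk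
  rw [final_crit_conj]
  obtain ⟨h1, h2, h3⟩ := crit_eq hred hk
  have hmain := comb_main K hred (k : ℤ) h2 h3
  unfold BigO at hmain
  have hq : (Nat.card K : ℝ) ≠ 0 := by
    exact_mod_cast Nat.card_pos.ne'
  refine (hmain.congr (fun N => ?_) (fun N => ?_))
  · rw [expFix_conj, expFix_word, h1]
    have : xx K N ^ ((k : ℤ) - 1) = 1 / (Nat.card K : ℝ) ^ (N * (k - 1)) := by
      rw [show ((k : ℤ) - 1) = ((k - 1 : ℕ) : ℤ) by omega, zpow_natCast]
      unfold xx
      rw [inv_pow, ← pow_mul, one_div]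
    rw [this]
    ring
  · rw [zpow_natCast]
    unfold xx
    rw [inv_pow, ← pow_mul, one_div]

end Pool.Agent.GLFix
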