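import Pool.Agent.GLFix.Closure

/-!
# MP_ce340f_al, module F1

Foldings and closed subspaces.
-/

open scoped Classical
open Module Filter Asymptotics

set_option linter.unusedSectionVars false

noncomputable section

namespace Pool.Agent.GLFix

section F1

variable {K : Type*} [Field K] {ℓ : ℕ} [NeZero ℓ] {σ : ZMod ℓ → Bool}
  {π τ ρ Γ Γ' : Setoid (ZMod ℓ)}

theorem vert_mono (h : π ≤ τ) : vert σ π ≤ vert σ τ :=
  sInf_le_sInf fun _ hr s ε ε' hε => hr s ε ε' (h hε)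

theorem vert_epos {s : Bool} {ε ε' : ZMod ℓ} (h : π ε ε') :
    vert σ π (epos σ s ε) (epos σ s ε') := vert_rel σ π s h

theorem vert_bot (σ : ZMod ℓ → Bool) : vert σ (⊥ : Setoid (ZMod ℓ)) = ⊥ := by
  refine le_bot_iff.mp (sInf_le ?_)
  intro s ε ε' h
  have h' : ε = ε' := h
  subst h'
  rfl

theorem folded_self (σ : ZMod ℓ → Bool) (τ : Setoid (ZMod ℓ)) : Folded σ τ τ :=
  ⟨le_rfl, fun _ _ _ h _ => h⟩

theorem folded_bot (h : Reduced σ τ) : Folded σ τ ⊥ := by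
  refine ⟨bot_le, fun s ε ε' h1 h2 => ?_⟩
  rw [vert_bot] at h2
  exact epos_inj h h1 h2

theorem Folded.trans (h : Folded σ τ Γ) (h' : Folded σ Γ Γ') : Folded σ τ Γ' :=
  ⟨h'.1.trans h.1, fun s ε ε' h1 h2 => h'.2 s ε ε' (h.2 s ε ε' h1 (vert_mono h'.1 h2)) h2⟩

theorem Folded.of_le (h : Folded σ τ Γ') (hle : Γ' ≤ Γ) (hle' : Γ ≤ τ) : Folded σ Γ Γ' :=
  ⟨hle, fun s ε ε' h1 h2 => h.2 s ε ε' (hle' h1) h2⟩

theorem Folded.inf_right (h : Folded σ τ Γ) (hle : ρ ≤ τ) : Folded σ ρ (Γ ⊓ ρ) :=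
  ⟨inf_le_right, fun s ε ε' h1 h2 => ⟨h.2 s ε ε' (hle h1) (vert_mono inf_le_left h2), h1⟩⟩

theorem folded_fold (h : π ≤ τ) : Folded σ τ (fold σ τ π) := by
  refine ⟨sInf_le ⟨folded_self σ τ, h⟩, fun s ε ε' h1 h2 => ?_⟩
  intro r hr
  exact hr.1.2 s ε ε' h1 (vert_mono (sInf_le hr) h2)

theorem le_fold (σ : ZMod ℓ → Bool) (τ π : Setoid (ZMod ℓ)) : π ≤ fold σ τ π :=
  le_sInf fun _ h => h.2

theorem fold_le (h : Folded σ τ ρ) (hle : π ≤ ρ) : fold σ τ π ≤ ρ :=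
  sInf_le ⟨h, hle⟩

theorem fold_mono (h : π ≤ ρ) : fold σ τ π ≤ fold σ τ ρ :=
  sInf_le_sInf fun _ hr => ⟨hr.1, h.trans hr.2⟩

theorem fold_eq_self (h : Folded σ τ π) : fold σ τ π = π :=
  le_antisymm (fold_le h le_rfl) (le_fold σ τ π)

theorem fold_fold_of_le (hπ : π ≤ ρ) (hρ : ρ ≤ τ) :
    fold σ τ (fold σ ρ π) = fold σ τ π := by
  refine le_antisymm ?_ (fold_mono (le_fold σ ρ π))
  refine fold_le (folded_fold (hπ.trans hρ)) ?_
  exact (fold_le ((folded_fold (hπ.trans hρ)).inf_right hρ)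
    (le_inf (le_fold σ τ π) hπ)).trans inf_le_left

/-- Lemma F. -/
theorem Closed.of_folded {U : Submodule K (ZMod ℓ → K)} (h : Folded σ τ Γ)
    (hU : Closed σ Γ U) : Closed σ τ U := by
  refine ⟨hU.1.mono h.1, fun s ε₀ u hu hpush => ?_⟩
  rw [sum_res Γ u]
  refine Submodule.sum_mem _ fun b _ => ?_
  induction b using Quotient.inductionOn with
  | h ε₁ =>
    rw [← block_eq_mk]
    by_cases h1 : τ ε₁ ε₀
    · refine hU.2 s ε₁ _ (res_mem_On _ _) ?_
      have hT := split_TT (σ := σ) hU.1 (epos σ s ε₁) _ hpush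
      rw [res_push] at hT
      have heq : res {ε | epos σ s ε ∈ block (vert σ Γ) (epos σ s ε₁)} u =
          res (block Γ ε₁) u := by
        funext ε
        rw [res_apply, res_apply]
        by_cases h2 : τ ε ε₀
        · have hiff : (ε ∈ {ε | epos σ s ε ∈ block (vert σ Γ) (epos σ s ε₁)}) ↔
              ε ∈ block Γ ε₁ := by
            constructor
            · intro h3
              exact h.2 s ε ε₁ (τ.trans' h2 (τ.symm' h1)) h3
            · intro h3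
              exact vert_rel σ Γ s h3
          by_cases h4 : ε ∈ block Γ ε₁
          · rw [if_pos (hiff.mpr h4), if_pos h4]
          · rw [if_neg (fun h5 => h4 (hiff.mp h5)), if_neg h4]
        · have h0 : u ε = 0 := hu ε h2
          rw [h0]
          split_ifs <;> rfl
      rw [heq] at hT
      exact hT
    · have h0 : res (block Γ ε₁) u = 0 := by
        refine res_eq_zero hu ?_
        rw [Set.disjoint_left]
        intro ε h2 h3
        exact h1 (τ.trans' (τ.symm' (h.1 h2)) h3)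
      rw [h0]
      exact U.zero_mem

theorem cl_folded_eq {V : Submodule K (ZMod ℓ → K)} (h : Folded σ τ Γ) (hV : Split Γ V) :
    cl σ τ V = cl σ Γ V :=
  le_antisymm (cl_le ((closed_cl σ Γ V).of_folded h) (le_cl σ Γ V))
    (cl_le_of_le h.1 hV (le_cl σ τ V) (closed_cl σ τ V))

/-- Lemma G. -/
theorem comp_cl_le {V : Submodule K (ZMod ℓ → K)} (hV : Split π V) (hle : π ≤ ρ) :
    comp (cl σ ρ V) ≤ fold σ ρ π := by
  rw [cl_folded_eq (folded_fold hle) (hV.mono (le_fold σ ρ π)), comp_le_iff]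
  exact (closed_cl σ (fold σ ρ π) V).1

theorem isT_folded_iff {U : Submodule K (ZMod ℓ → K)} {k : ℤ} (h : Folded σ τ Γ)
    (hU : Split Γ U) : IsT σ τ k U ↔ IsT σ Γ k U := by
  have hcl : cl σ τ (dual σ U) = cl σ Γ (dual σ U) := cl_folded_eq h (split_dual hU)
  constructor
  · intro hT
    refine ⟨⟨hT.closed.of_split h.1 hU, hT.ne_top, ?_⟩, hT.exc_eq, ?_⟩
    · rw [← hcl]; exact hT.imp
    · rw [← hcl]; exact hT.dexc_eq
  · intro hT
    refine ⟨⟨hT.closed.of_folded h, hT.ne_top, ?_⟩, hT.exc_eq, ?_⟩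
    · rw [hcl]; exact hT.imp
    · rw [hcl]; exact hT.dexc_eq

end F1

end Pool.Agent.GLFix
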