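import Pool.Agent.GLFix.AlgDefs

/-!
# MP_ce340f_al, module J1

Extension of homomorphisms.
-/

open scoped Classical
open Module Filter Asymptotics

noncomputable section

namespace Pool.Agent.GLFix

variable {K : Type*} [Field K] {r : ℕ}

/-- A finite set of elements of the free group containing `1` and closed under prefixes. -/
def PrefClosed (T : Finset (FreeGroup (Fin r))) : Prop :=
  1 ∈ T ∧ ∀ t ∈ T, FreeGroup.mk t.toWord.dropLast ∈ T

variable (K) in
/-- The elements supported on `T`. -/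
def KT (T : Finset (FreeGroup (Fin r))) : Submodule K (FGA K r) where
  carrier := {a | ∀ g, g ∉ T → a.coeff g = 0}
  add_mem' {a b} ha hb g hg := by
    simp [MonoidAlgebra.coeff_add, ha g hg, hb g hg]
  zero_mem' g _ := by simp
  smul_mem' c a ha g hg := by
    simp [ha g hg]

/-! ### Auxiliary lemmas -/

variable (K) in
/-- the generator -/
def j1x (i : Fin r) : FGA K r := MonoidAlgebra.of K _ (FreeGroup.of i)

variable (K) in
/-- the inverse of the generator -/
def j1y (i : Fin r) : FGA K r := MonoidAlgebra.of K _ (FreeGroup.of i)⁻¹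

theorem j1_xy (i : Fin r) : j1x K i * j1y K i = 1 := by
  rw [j1x, j1y, ← map_mul, mul_inv_cancel, map_one]

theorem j1_yx (i : Fin r) : j1y K i * j1x K i = 1 := by
  rw [j1x, j1y, ← map_mul, inv_mul_cancel, map_one]

/-- the twisted right multiplication -/
def j1R (c : Fin r → (FGA K r →ₗ[K] FGA K r)) (i : Fin r) :
    Module.End K (FGA K r × FGA K r) where
  toFun p := (p.1 * j1x K i + c i p.2, p.2 * j1x K i)
  map_add' p q := by
    ext1
    · simp only [Prod.fst_add, Prod.snd_add, add_mul, map_add]; abel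
    · simp only [Prod.snd_add, add_mul]
  map_smul' k p := by
    ext1
    · simp only [Prod.smul_fst, Prod.smul_snd, RingHom.id_apply, map_smul, smul_mul_assoc,
        smul_add]
    · simp only [Prod.smul_snd, RingHom.id_apply, smul_mul_assoc]

/-- its inverse -/
def j1R' (c : Fin r → (FGA K r →ₗ[K] FGA K r)) (i : Fin r) :
    Module.End K (FGA K r × FGA K r) where
  toFun p := ((p.1 - c i (p.2 * j1y K i)) * j1y K i, p.2 * j1y K i)
  map_add' p q := by
    ext1
    · simp only [Prod.fst_add, Prod.snd_add, add_mul, map_add, sub_mul]; abel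
    · simp only [Prod.snd_add, add_mul]
  map_smul' k p := by
    ext1
    · simp only [Prod.smul_fst, Prod.smul_snd, RingHom.id_apply, map_smul, smul_mul_assoc,
        sub_mul, smul_sub]
    · simp only [Prod.smul_snd, RingHom.id_apply, smul_mul_assoc]

theorem j1_RR' (c : Fin r → (FGA K r →ₗ[K] FGA K r)) (i : Fin r) : j1R c i * j1R' c i = 1 := by
  refine LinearMap.ext fun p => ?_
  change ((p.1 - c i (p.2 * j1y K i)) * j1y K i * j1x K i + c i (p.2 * j1y K i),
    p.2 * j1y K i * j1x K i) = p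
  rw [mul_assoc, mul_assoc, j1_yx, mul_one, mul_one, sub_add_cancel]

theorem j1_R'R (c : Fin r → (FGA K r →ₗ[K] FGA K r)) (i : Fin r) : j1R' c i * j1R c i = 1 := by
  refine LinearMap.ext fun p => ?_
  change ((p.1 * j1x K i + c i p.2 - c i (p.2 * j1x K i * j1y K i)) * j1y K i,
    p.2 * j1x K i * j1y K i) = p
  rw [mul_assoc p.2, j1_xy, mul_one, add_sub_cancel_right, mul_assoc, j1_xy, mul_one]

/-- the action of the free group -/
def j1U (c : Fin r → (FGA K r →ₗ[K] FGA K r)) :
    FreeGroup (Fin r) →* (Module.End K (FGA K r × FGA K r))ᵐᵒᵖˣ :=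
  FreeGroup.lift fun i =>
    { val := MulOpposite.op (j1R c i)
      inv := MulOpposite.op (j1R' c i)
      val_inv := by rw [← MulOpposite.op_mul, j1_R'R, MulOpposite.op_one]
      inv_val := by rw [← MulOpposite.op_mul, j1_RR', MulOpposite.op_one] }

/-- the action of the group algebra -/
def j1P (c : Fin r → (FGA K r →ₗ[K] FGA K r)) :
    FGA K r →ₐ[K] (Module.End K (FGA K r × FGA K r))ᵐᵒᵖ :=
  MonoidAlgebra.lift K _ _ ((Units.coeHom _).comp (j1U c))

theorem j1_P_x (c : Fin r → (FGA K r →ₗ[K] FGA K r)) (i : Fin r) :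
    (j1P c (j1x K i)).unop = j1R c i := by
  rw [j1P, j1x, MonoidAlgebra.lift_of]
  simp [j1U]

theorem j1_P_y (c : Fin r → (FGA K r →ₗ[K] FGA K r)) (i : Fin r) :
    (j1P c (j1y K i)).unop = j1R' c i := by
  rw [j1P, j1y, MonoidAlgebra.lift_of]
  simp [j1U]

theorem j1_P_mul (c : Fin r → (FGA K r →ₗ[K] FGA K r)) (a b : FGA K r) (p : FGA K r × FGA K r) :
    (j1P c (a * b)).unop p = (j1P c b).unop ((j1P c a).unop p) := by
  rw [map_mul, MulOpposite.unop_mul, Module.End.mul_apply]

theorem j1_P_snd_g (c : Fin r → (FGA K r →ₗ[K] FGA K r)) (g : FreeGroup (Fin r)) :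
    ∀ p : FGA K r × FGA K r,
    ((j1P c (MonoidAlgebra.of K _ g)).unop p).2 = p.2 * MonoidAlgebra.of K _ g := by
  induction g using FreeGroup.induction_on with
  | C1 => intro p; rw [map_one, map_one, mul_one]; rfl
  | of i => intro p; exact congrArg (fun f => (f p).2) (j1_P_x c i)
  | inv_of i _ => intro p; exact congrArg (fun f => (f p).2) (j1_P_y c i)
  | mul g h hg hh => intro p; rw [map_mul, j1_P_mul, hh, hg, mul_assoc]

theorem j1_P_snd (c : Fin r → (FGA K r →ₗ[K] FGA K r)) (a : FGA K r) (p : FGA K r × FGA K r) :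
    ((j1P c a).unop p).2 = p.2 * a := by
  induction a using MonoidAlgebra.induction_on with
  | of g => exact j1_P_snd_g c g p
  | add x y hx hy =>
    rw [map_add, MulOpposite.unop_add, LinearMap.add_apply, Prod.snd_add, hx, hy, mul_add]
  | smul k x hx =>
    rw [map_smul, MulOpposite.unop_smul, LinearMap.smul_apply, Prod.smul_snd, hx,
      mul_smul_comm]

/-- crossed homomorphisms on the free group algebra -/
theorem j1_crossed (c : Fin r → (FGA K r →ₗ[K] FGA K r)) (m : FGA K r) :
    ∃ Θ : FGA K r →ₗ[K] FGA K r, Θ 1 = m ∧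
      ∀ a i, Θ (a * j1x K i) = Θ a * j1x K i + c i a := by
  refine ⟨{ toFun := fun a => ((j1P c a).unop (m, 1)).1
            map_add' := ?_
            map_smul' := ?_ }, ?_, ?_⟩
  · intro a b
    rw [map_add, MulOpposite.unop_add, LinearMap.add_apply, Prod.fst_add]
  · intro k a
    rw [map_smul, MulOpposite.unop_smul, LinearMap.smul_apply, Prod.smul_fst, RingHom.id_apply]
  · change ((j1P c 1).unop (m, 1)).1 = m
    rw [map_one]; rfl
  · intro a i
    change ((j1P c (a * j1x K i)).unop (m, 1)).1 = ((j1P c a).unop (m, 1)).1 * j1x K i + c i a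
    rw [j1_P_mul, j1_P_x]
    change ((j1P c a).unop (m, 1)).1 * j1x K i + c i ((j1P c a).unop (m, 1)).2 = _
    rw [j1_P_snd, one_mul]

/-- the scalar `K`-submodule of `I` -/
def j1IK (I : RI K r) : Submodule K (FGA K r) where
  carrier := {a | a ∈ I}
  add_mem' ha hb := I.add_mem ha hb
  zero_mem' := I.zero_mem
  smul_mem' k a ha := by
    have := I.smul_mem (MulOpposite.op (MonoidAlgebra.single 1 k : FGA K r)) ha
    rw [MulOpposite.smul_eq_mul_unop, MulOpposite.unop_op] at this
    have h2 : k • a = a * MonoidAlgebra.single 1 k := by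
      ext g
      simp [mul_comm]
    show k • a ∈ I
    rw [h2]; exact this

theorem j1_mul_mem (I : RI K r) {u : FGA K r} (hu : u ∈ I) (a : FGA K r) : u * a ∈ I := by
  have := I.smul_mem (MulOpposite.op a) hu
  rwa [MulOpposite.smul_eq_mul_unop, MulOpposite.unop_op] at this

theorem j1_exists_c (I : RI K r) (T : Finset (FreeGroup (Fin r)))
    (φ : FGA K r →ₗ[K] FGA K r)
    (hφ : ∀ i, ∀ u ∈ I, u ∈ KT K T → u * j1x K i ∈ KT K T →
      φ (u * j1x K i) = φ u * j1x K i) (i : Fin r) :
    ∃ c : FGA K r →ₗ[K] FGA K r, (∀ u ∈ I, c u = 0) ∧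
      ∀ v ∈ KT K T, v * j1x K i ∈ KT K T → c v = φ (v * j1x K i) - φ v * j1x K i := by
  set d : FGA K r →ₗ[K] FGA K r :=
    φ ∘ₗ LinearMap.mulRight K (j1x K i) - LinearMap.mulRight K (j1x K i) ∘ₗ φ with hd
  have hdv : ∀ v, d v = φ (v * j1x K i) - φ v * j1x K i := fun v => rfl
  set W : Submodule K (FGA K r) := KT K T ⊓ (KT K T).comap (LinearMap.mulRight K (j1x K i)) with hW
  set f : FGA K r →ₗ.[K] FGA K r := ⟨W, d.domRestrict W⟩ with hf
  set g : FGA K r →ₗ.[K] FGA K r := ⟨j1IK I, 0⟩ with hg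
  have hfg : ∀ (x : f.domain) (y : g.domain), (x : FGA K r) = y → f x = g y := by
    rintro ⟨x, hx⟩ ⟨y, hy⟩ hxy
    change x = y at hxy
    subst hxy
    have h1 : x ∈ KT K T := hx.1
    have h2 : x * j1x K i ∈ KT K T := hx.2
    change d x = 0
    rw [hdv, hφ i x hy h1 h2, sub_self]
  obtain ⟨c, hc⟩ := LinearMap.exists_extend (f.sup g hfg).toFun
  have hc' : ∀ (z : FGA K r) (hz : z ∈ (f.sup g hfg).domain), c z = f.sup g hfg ⟨z, hz⟩ :=
    fun z hz => LinearMap.congr_fun hc ⟨z, hz⟩
  refine ⟨c, ?_, ?_⟩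
  · intro u hu
    have h1 := LinearPMap.right_le_sup f g hfg
    have h2 : u ∈ (f.sup g hfg).domain := h1.1 hu
    rw [hc' u h2, ← h1.2 (x := (⟨u, hu⟩ : g.domain)) (y := ⟨u, h2⟩) rfl]
    rfl
  · intro v hv hv'
    have h1 := LinearPMap.left_le_sup f g hfg
    have hvW : v ∈ W := ⟨hv, hv'⟩
    have h2 : v ∈ (f.sup g hfg).domain := h1.1 hvW
    rw [hc' v h2, ← h1.2 (x := (⟨v, hvW⟩ : f.domain)) (y := ⟨v, h2⟩) rfl]
    rfl

theorem j1_of_mem_KT {T : Finset (FreeGroup (Fin r))} {t : FreeGroup (Fin r)} (ht : t ∈ T) :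
    (MonoidAlgebra.of K _ t : FGA K r) ∈ KT K T := by
  intro g hg
  have : t ≠ g := fun h => hg (h ▸ ht)
  simp [MonoidAlgebra.of, this]

theorem j1_agree_T (T : Finset (FreeGroup (Fin r))) (hT : PrefClosed T)
    (φ Θ : FGA K r →ₗ[K] FGA K r) (c : Fin r → (FGA K r →ₗ[K] FGA K r))
    (hc : ∀ i, ∀ v ∈ KT K T, v * j1x K i ∈ KT K T →
      c i v = φ (v * j1x K i) - φ v * j1x K i)
    (h1 : Θ 1 = φ 1) (hΘ : ∀ a i, Θ (a * j1x K i) = Θ a * j1x K i + c i a) :
    ∀ n : ℕ, ∀ t ∈ T, t.norm ≤ n →
      Θ (MonoidAlgebra.of K _ t) = φ (MonoidAlgebra.of K _ t) := by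
  intro n
  induction n with
  | zero =>
    intro t _ hn
    have : t = 1 := FreeGroup.norm_eq_zero.1 (Nat.le_zero.1 hn)
    rw [this, map_one, h1]
  | succ n ih =>
    intro t ht hn
    by_cases ht1 : t.toWord = []
    · have : t = 1 := FreeGroup.toWord_eq_nil_iff.1 ht1
      rw [this, map_one, h1]
    · set L := t.toWord.dropLast with hL
      set a := t.toWord.getLast ht1 with ha
      have hta : t = FreeGroup.mk L * FreeGroup.mk [a] := by
        rw [FreeGroup.mul_mk, List.dropLast_append_getLast, FreeGroup.mk_toWord]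
      have hLn : (FreeGroup.mk L).norm ≤ n := by
        refine FreeGroup.norm_mk_le.trans ?_
        rw [hL, List.length_dropLast]
        have : t.toWord.length ≤ n + 1 := hn
        omega
      have hLT : FreeGroup.mk L ∈ T := hT.2 t ht
      have hih := ih _ hLT hLn
      obtain ⟨i, b⟩ := a
      cases b with
      | true =>
        have e : t = FreeGroup.mk L * FreeGroup.of i := hta
        have e' : (MonoidAlgebra.of K _ t : FGA K r) =
            MonoidAlgebra.of K _ (FreeGroup.mk L) * j1x K i := by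
          rw [e, map_mul]; rfl
        have hm : (MonoidAlgebra.of K _ (FreeGroup.mk L) : FGA K r) * j1x K i ∈ KT K T := by
          rw [← e']; exact j1_of_mem_KT ht
        rw [e', hΘ, hih, hc i _ (j1_of_mem_KT hLT) hm]
        abel
      | false =>
        have e : t = FreeGroup.mk L * (FreeGroup.of i)⁻¹ := by
          rw [hta]; congr 1
        have e' : (MonoidAlgebra.of K _ t : FGA K r) * j1x K i =
            MonoidAlgebra.of K _ (FreeGroup.mk L) := by
          rw [e, map_mul, mul_assoc]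
          have := j1_yx (K := K) i
          rw [j1y] at this
          rw [this, mul_one]
        have hm : (MonoidAlgebra.of K _ t : FGA K r) * j1x K i ∈ KT K T := by
          rw [e']; exact j1_of_mem_KT hLT
        have k1 := hΘ (MonoidAlgebra.of K _ t) i
        rw [hc i _ (j1_of_mem_KT ht) hm, e', hih] at k1
        have k2 : Θ (MonoidAlgebra.of K _ t) * j1x K i = φ (MonoidAlgebra.of K _ t) * j1x K i := by
          have : Θ (MonoidAlgebra.of K _ t) * j1x K i +
              (φ (MonoidAlgebra.of K _ (FreeGroup.mk L)) - φ (MonoidAlgebra.of K _ t) * j1x K i) -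
              φ (MonoidAlgebra.of K _ (FreeGroup.mk L)) = 0 := by rw [← k1, sub_self]
          rw [← sub_eq_zero]
          rw [← this]; abel
        have k3 := congrArg (· * j1y K i) k2
        simp only [mul_assoc, j1_xy, mul_one] at k3
        exact k3

theorem j1_agree_KT (T : Finset (FreeGroup (Fin r)))
    (φ Θ : FGA K r →ₗ[K] FGA K r)
    (h : ∀ t ∈ T, Θ (MonoidAlgebra.of K _ t) = φ (MonoidAlgebra.of K _ t))
    (u : FGA K r) (hu : u ∈ KT K T) : Θ u = φ u := by
  have h1 : u = ∑ g ∈ T, u.coeff g • (MonoidAlgebra.of K _ g : FGA K r) := by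
    ext g
    rw [MonoidAlgebra.coeff_sum, Finset.sum_apply']
    by_cases hg : g ∈ T
    · rw [Finset.sum_eq_single g]
      · simp [MonoidAlgebra.of]
      · intro b _ hb
        simp [MonoidAlgebra.of, hb]
      · intro h; exact absurd hg h
    · rw [hu g hg]
      symm
      refine Finset.sum_eq_zero fun b hb => ?_
      have : b ≠ g := fun h => hg (h ▸ hb)
      simp [MonoidAlgebra.of, this]
  rw [h1, map_sum, map_sum]
  refine Finset.sum_congr rfl fun g hg => ?_
  rw [map_smul, map_smul, h g hg]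

/-- Extension of `T`-homomorphisms. -/
theorem exists_hom_ext (I : RI K r) (T : Finset (FreeGroup (Fin r))) (hT : PrefClosed T)
    (φ : FGA K r →ₗ[K] FGA K r)
    (hφ : ∀ i, ∀ u ∈ I, u ∈ KT K T →
      u * MonoidAlgebra.of K _ (FreeGroup.of i) ∈ KT K T →
      φ (u * MonoidAlgebra.of K _ (FreeGroup.of i)) =
        φ u * MonoidAlgebra.of K _ (FreeGroup.of i)) :
    ∃ Φ : I →ₗ[(FGA K r)ᵐᵒᵖ] FGA K r, ∀ u (hu : u ∈ I), u ∈ KT K T → Φ ⟨u, hu⟩ = φ u := by
  have hex := fun i => j1_exists_c I T φ hφ i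
  choose c hcI hcT using hex
  obtain ⟨Θ, hΘ1, hΘ⟩ := j1_crossed c (φ 1)
  have hT' := j1_agree_T T hT φ Θ c hcT hΘ1 hΘ
  have hagree := j1_agree_KT T φ Θ (fun t ht => hT' t.norm t ht le_rfl)
  have hg : ∀ (g : FreeGroup (Fin r)), ∀ u ∈ I,
      Θ (u * MonoidAlgebra.of K _ g) = Θ u * MonoidAlgebra.of K _ g := by
    intro g
    induction g using FreeGroup.induction_on with
    | C1 => intro u _; rw [map_one, mul_one, mul_one]
    | of i =>
      intro u hu
      have := hΘ u i
      rw [hcI i u hu, add_zero] at this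
      exact this
    | inv_of i _ =>
      intro u hu
      have hm := j1_mul_mem I hu (j1y K i)
      have := hΘ (u * j1y K i) i
      rw [hcI i _ hm, add_zero, mul_assoc, j1_yx, mul_one] at this
      have k3 := congrArg (· * j1y K i) this
      simp only [mul_assoc, j1_xy, mul_one] at k3
      exact k3.symm
    | mul g h hg hh =>
      intro u hu
      rw [map_mul (MonoidAlgebra.of K (FreeGroup (Fin r))) g h, ← mul_assoc,
        hh _ (j1_mul_mem I hu _), hg u hu, mul_assoc]
  have hmul : ∀ (a : FGA K r), ∀ u ∈ I, Θ (u * a) = Θ u * a := by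
    intro a u hu
    induction a using MonoidAlgebra.induction_on with
    | of g => exact hg g u hu
    | add x y hx hy => rw [mul_add, map_add, hx, hy, mul_add]
    | smul k x hx => rw [mul_smul_comm, map_smul, hx, mul_smul_comm]
  refine ⟨{ toFun := fun u => Θ u
            map_add' := fun u v => by rw [Submodule.coe_add, map_add]
            map_smul' := fun a u => ?_ }, ?_⟩
  · rw [RingHom.id_apply, Submodule.coe_smul, MulOpposite.smul_eq_mul_unop,
      MulOpposite.smul_eq_mul_unop]
    exact hmul _ _ u.2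
  · intro u hu huT
    exact hagree u huT

end Pool.Agent.GLFix
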