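import Pool.Agent.GLFix.Asymp
import Pool.Agent.GLFix.Moebius

/-!
# MP_ce340f_al, module E1

One letter.
-/

open scoped Classical
open Module Filter Asymptotics

noncomputable section

namespace Pool.Agent.GLFix

section E1

variable {K : Type*} [Field K] [Finite K] {T : Type*} [Finite T]

/-- Functions on `T` supported on `B`. -/
def OnT (K : Type*) [Field K] {T : Type*} (B : Set T) : Submodule K (T → K) where
  carrier := {u | ∀ x, x ∉ B → u x = 0}
  add_mem' {a b} ha hb x hx := by simp [ha x hx, hb x hx]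
  zero_mem' x _ := rfl
  smul_mem' a u hu x hx := by simp [hu x hx]

/-- `Y` splits along the bipartition `B`, `Bᶜ`. -/
def SplitT (B : Set T) (Y : Submodule K (T → K)) : Prop :=
  ∀ u ∈ Y, (fun x => if x ∈ B then u x else 0) ∈ Y

/-- `Y` does not split along any nontrivial bipartition. -/
def ConnT (Y : Submodule K (T → K)) : Prop := ∀ B : Set T, B ≠ ∅ → B ≠ Set.univ → ¬ SplitT B Y

/-- The local factor of a letter, for the two traces `Y₁` (targets) and `Y₀` (sources). -/
def Xloc (Y₁ Y₀ : Submodule K (T → K)) (N : ℕ) : ℝ :=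
  ∑ ρ : Setoid T, (mob ⊤ ρ : ℝ) * ∏ B : Quotient ρ,
    (if Y₁ ⊓ OnT K {x | Quotient.mk ρ x = B} = Y₀ ⊓ OnT K {x | Quotient.mk ρ x = B}
      then (ind K (Set.ncard {x | Quotient.mk ρ x = B} -
        finrank K (Y₁ ⊓ OnT K {x | Quotient.mk ρ x = B} : Submodule K (T → K))) N)⁻¹
      else 0)

/-- Restriction. -/
def e1_res (K : Type*) [Field K] {T : Type*} (B : Set T) : (T → K) →ₗ[K] (T → K) where
  toFun u x := if x ∈ B then u x else 0
  map_add' u v := by
    funext x
    by_cases h : x ∈ B <;> simp [h]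
  map_smul' a u := by
    funext x
    by_cases h : x ∈ B <;> simp [h]

omit [Finite K] [Finite T] in
theorem e1_split_iff {B : Set T} {Y : Submodule K (T → K)} :
    SplitT B Y ↔ ∀ u ∈ Y, e1_res K B u ∈ Y := Iff.rfl

omit [Finite K] [Finite T] in
theorem e1_res_apply (B : Set T) (u : T → K) (x : T) :
    e1_res K B u x = if x ∈ B then u x else 0 := rfl

omit [Finite K] [Finite T] in
theorem e1_res_mem (B : Set T) (u : T → K) : e1_res K B u ∈ OnT K B := by
  intro x hx
  simp [e1_res_apply, hx]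

omit [Finite K] [Finite T] in
theorem e1_res_eq {B : Set T} {u : T → K} (h : u ∈ OnT K B) : e1_res K B u = u := by
  funext x
  rw [e1_res_apply]
  split_ifs with hx
  · rfl
  · exact (h x hx).symm

omit [Finite K] [Finite T] in
theorem e1_res_add_compl (B : Set T) (u : T → K) : e1_res K B u + e1_res K Bᶜ u = u := by
  funext x
  simp only [Pi.add_apply, e1_res_apply, Set.mem_compl_iff]
  by_cases h : x ∈ B <;> simp [h]

omit [Finite K] [Finite T] in
theorem e1_res_res (B C : Set T) (u : T → K) :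
    e1_res K B (e1_res K C u) = e1_res K (B ∩ C) u := by
  funext x
  simp only [e1_res_apply, Set.mem_inter_iff]
  by_cases h : x ∈ B <;> by_cases h' : x ∈ C <;> simp [h, h']

omit [Finite K] [Finite T] in
theorem e1_OnT_mono {B C : Set T} (h : B ⊆ C) : OnT K B ≤ OnT K C :=
  fun _ hu x hx => hu x fun hB => hx (h hB)

omit [Finite K] [Finite T] in
theorem e1_OnT_empty : OnT K (∅ : Set T) = ⊥ := by
  rw [eq_bot_iff]
  intro u hu
  rw [Submodule.mem_bot]
  funext x
  exact hu x (Set.notMem_empty x)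

omit [Finite K] in
theorem e1_finrank_OnT (c : Set T) : finrank K (OnT K c) = c.ncard := by
  have : Fintype T := Fintype.ofFinite T
  have e : OnT K c ≃ₗ[K] (c → K) :=
    { toFun := fun u ε => u.1 ε.1
      map_add' := fun u v => rfl
      map_smul' := fun a u => rfl
      invFun := fun w => ⟨fun ε => if h : ε ∈ c then w ⟨ε, h⟩ else 0, fun ε hε => by
        simp [hε]⟩
      left_inv := fun u => by
        apply Subtype.ext
        funext ε
        by_cases h : ε ∈ c
        · simp [h]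
        · simp [h, u.2 ε h]
      right_inv := fun w => by
        funext ε
        simp }
  rw [e.finrank_eq, Module.finrank_fintype_fun_eq_card, ← Nat.card_eq_fintype_card,
    Nat.card_coe_set_eq]

/-- The part of `Y` which splits along `ρ`. -/
def e1_U (ρ : Setoid T) (Y : Submodule K (T → K)) : Submodule K (T → K) where
  carrier := {u | ∀ B : Quotient ρ, e1_res K {x | Quotient.mk ρ x = B} u ∈ Y}
  add_mem' {a b} ha hb B := by
    rw [map_add]
    exact Y.add_mem (ha B) (hb B)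
  zero_mem' B := by
    rw [map_zero]
    exact Y.zero_mem
  smul_mem' a u hu B := by
    rw [map_smul]
    exact Y.smul_mem _ (hu B)

omit [Finite K] in
theorem e1_finrank_U (ρ : Setoid T) (Y : Submodule K (T → K)) :
    finrank K (e1_U ρ Y) = ∑ B : Quotient ρ,
      finrank K (Y ⊓ OnT K {x | Quotient.mk ρ x = B} : Submodule K (T → K)) := by
  have e : e1_U ρ Y ≃ₗ[K] ((B : Quotient ρ) →
      (Y ⊓ OnT K {x | Quotient.mk ρ x = B} : Submodule K (T → K))) :=
    { toFun := fun u B => ⟨e1_res K {x | Quotient.mk ρ x = B} u.1, u.2 B, e1_res_mem _ _⟩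
      map_add' := fun u v => by
        funext B
        apply Subtype.ext
        exact map_add (e1_res K {x | Quotient.mk ρ x = B}) u.1 v.1
      map_smul' := fun a u => by
        funext B
        apply Subtype.ext
        exact map_smul (e1_res K {x | Quotient.mk ρ x = B}) a u.1
      invFun := fun f => ⟨fun x => (f (Quotient.mk ρ x)).1 x, fun B => by
        have : e1_res K {x | Quotient.mk ρ x = B} (fun x => (f (Quotient.mk ρ x)).1 x) =
            (f B).1 := by
          funext x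
          rw [e1_res_apply]
          split_ifs with hx
          · have hx' : Quotient.mk ρ x = B := hx
            rw [hx']
          · exact ((f B).2.2 x hx).symm
        rw [this]
        exact (f B).2.1⟩
      left_inv := fun u => by
        apply Subtype.ext
        funext x
        show e1_res K {y | Quotient.mk ρ y = Quotient.mk ρ x} u.1 x = u.1 x
        rw [e1_res_apply, if_pos]
        rfl
      right_inv := fun f => by
        funext B
        apply Subtype.ext
        show e1_res K {x | Quotient.mk ρ x = B} (fun x => (f (Quotient.mk ρ x)).1 x) = (f B).1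
        funext x
        rw [e1_res_apply]
        split_ifs with hx
        · have hx' : Quotient.mk ρ x = B := hx
          rw [hx']
        · exact ((f B).2.2 x hx).symm }
  rw [e.finrank_eq, Module.finrank_pi_fintype]

theorem e1_sum_ncard (ρ : Setoid T) :
    ∑ B : Quotient ρ, Set.ncard {x | Quotient.mk ρ x = B} = Nat.card T := by
  rw [Nat.card_congr (Equiv.sigmaFiberEquiv (Quotient.mk ρ)).symm, Nat.card_sigma]
  refine Finset.sum_congr rfl fun B _ => ?_
  exact (Nat.card_coe_set_eq _).symm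

/-- `ρ` is allowed. -/
def e1_alw (Y₁ Y₀ : Submodule K (T → K)) (ρ : Setoid T) : Prop :=
  ∀ B : Quotient ρ, Y₁ ⊓ OnT K {x | Quotient.mk ρ x = B} = Y₀ ⊓ OnT K {x | Quotient.mk ρ x = B}

/-- The product of a partition. -/
def e1_term (Y₁ Y₀ : Submodule K (T → K)) (ρ : Setoid T) (N : ℕ) : ℝ :=
  ∏ B : Quotient ρ,
    (if Y₁ ⊓ OnT K {x | Quotient.mk ρ x = B} = Y₀ ⊓ OnT K {x | Quotient.mk ρ x = B}
      then (ind K (Set.ncard {x | Quotient.mk ρ x = B} -
        finrank K (Y₁ ⊓ OnT K {x | Quotient.mk ρ x = B} : Submodule K (T → K))) N)⁻¹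
      else 0)

theorem e1_term_lead {Y₁ Y₀ : Submodule K (T → K)} {ρ : Setoid T} (h : e1_alw Y₁ Y₀ ρ) :
    Lead K (e1_term Y₁ Y₀ ρ) 1 ((Nat.card T : ℤ) - finrank K (e1_U ρ Y₁)) := by
  have h1 : e1_term Y₁ Y₀ ρ = fun N => ∏ B : Quotient ρ,
      (ind K (Set.ncard {x | Quotient.mk ρ x = B} -
        finrank K (Y₁ ⊓ OnT K {x | Quotient.mk ρ x = B} : Submodule K (T → K))) N)⁻¹ := by
    funext N
    unfold e1_term
    refine Finset.prod_congr rfl fun B _ => ?_
    rw [if_pos (h B)]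
  rw [h1]
  have h2 : ((Nat.card T : ℤ) - finrank K (e1_U ρ Y₁)) = ∑ B : Quotient ρ,
      ((Set.ncard {x | Quotient.mk ρ x = B} -
        finrank K (Y₁ ⊓ OnT K {x | Quotient.mk ρ x = B} : Submodule K (T → K)) : ℕ) : ℤ) := by
    rw [e1_finrank_U, ← e1_sum_ncard ρ]
    push_cast
    rw [← Finset.sum_sub_distrib]
    refine Finset.sum_congr rfl fun B _ => ?_
    rw [Nat.cast_sub]
    rw [← e1_finrank_OnT (K := K)]
    exact Submodule.finrank_mono inf_le_right
  rw [h2]
  exact Lead.prod_one fun B _ => inv_ind_lead _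

omit [Finite T] in
theorem e1_term_zero {Y₁ Y₀ : Submodule K (T → K)} {ρ : Setoid T} [Finite T]
    (h : ¬ e1_alw Y₁ Y₀ ρ) : e1_term Y₁ Y₀ ρ = fun _ => 0 := by
  unfold e1_alw at h
  push Not at h
  obtain ⟨B, hB⟩ := h
  funext N
  unfold e1_term
  exact Finset.prod_eq_zero (Finset.mem_univ B) (if_neg hB)

theorem e1_Xloc (Y₁ Y₀ : Submodule K (T → K)) :
    Xloc Y₁ Y₀ = fun N => ∑ ρ : Setoid T, (mob ⊤ ρ : ℝ) * e1_term Y₁ Y₀ ρ N := rfl

/-- The general estimate. -/
theorem e1_lead (Y₁ Y₀ : Submodule K (T → K)) (d : ℕ)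
    (h : ∀ ρ, e1_alw Y₁ Y₀ ρ → finrank K (e1_U ρ Y₁) ≤ d) :
    Lead K (Xloc Y₁ Y₀) (∑ ρ : Setoid T,
      (if e1_alw Y₁ Y₀ ρ ∧ finrank K (e1_U ρ Y₁) = d then (mob ⊤ ρ : ℝ) else 0))
      ((Nat.card T : ℤ) - d) := by
  rw [e1_Xloc]
  refine Lead.sum fun ρ _ => ?_
  by_cases h1 : e1_alw Y₁ Y₀ ρ
  · have h2 := (e1_term_lead h1).const_mul (mob ⊤ ρ : ℝ)
    by_cases h3 : finrank K (e1_U ρ Y₁) = d
    · rw [if_pos ⟨h1, h3⟩, ← h3]
      simpa using h2
    · rw [if_neg (fun h => h3 h.2), lead_zero_iff]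
      have h4 := h ρ h1
      refine h2.bigO.mono ?_
      omega
  · rw [if_neg (fun h => h1 h.1), lead_zero_iff, e1_term_zero h1]
    simpa using bigO_zero (K := K) ((Nat.card T : ℤ) - d + 1)

omit [Finite K] [Finite T] in
theorem e1_exists_block {ρ : Setoid T} (h : ρ ≠ ⊤) :
    ∃ B : Quotient ρ, {x | Quotient.mk ρ x = B} ≠ ∅ ∧ {x | Quotient.mk ρ x = B} ≠ Set.univ := by
  by_contra hc
  push Not at hc
  apply h
  ext x y
  simp only [Setoid.top_def, Pi.top_apply, Prop.top_eq_true, iff_true]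
  have h1 := hc (Quotient.mk ρ y) ⟨y, rfl⟩
  have h2 : x ∈ {x | Quotient.mk ρ x = Quotient.mk ρ y} := by
    rw [h1]
    exact Set.mem_univ x
  exact Quotient.exact h2

omit [Finite K] [Finite T] in
theorem e1_U_le {ρ : Setoid T} [Finite T] (Y : Submodule K (T → K)) : e1_U ρ Y ≤ Y := by
  intro u hu
  have h : u = ∑ B : Quotient ρ, e1_res K {x | Quotient.mk ρ x = B} u := by
    funext x
    rw [Finset.sum_apply, Finset.sum_eq_single (Quotient.mk ρ x)]
    · rw [e1_res_apply, if_pos]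
      rfl
    · intro B _ hB
      rw [e1_res_apply, if_neg]
      exact fun h => hB h.symm
    · intro h
      exact absurd (Finset.mem_univ _) h
  rw [h]
  exact Y.sum_mem fun B _ => hu B

omit [Finite K] [Finite T] in
theorem e1_split_U {ρ : Setoid T} (Y : Submodule K (T → K)) (B : Quotient ρ) :
    SplitT {x | Quotient.mk ρ x = B} (e1_U ρ Y) := by
  rw [e1_split_iff]
  intro u hu C
  rw [e1_res_res]
  by_cases h : C = B
  · subst h
    rw [Set.inter_self]
    exact hu C
  · have : {x | Quotient.mk ρ x = C} ∩ {x | Quotient.mk ρ x = B} = ∅ := by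
      ext x
      simp only [Set.mem_inter_iff, Set.mem_empty_iff_false, iff_false, not_and]
      intro h1 h2
      exact h (Eq.trans (Eq.symm h1) h2)
    rw [this]
    have h2 : e1_res K (∅ : Set T) u = 0 := by
      funext x
      simp [e1_res_apply]
    rw [h2]
    exact Y.zero_mem

theorem Xloc_good [Nonempty T] (Y : Submodule K (T → K)) (h : ConnT Y) :
    Lead K (Xloc Y Y) 1 ((Nat.card T : ℤ) - finrank K Y) := by
  have hall : ∀ ρ, e1_alw Y Y ρ := fun ρ B => rfl
  have h1 := e1_lead Y Y (finrank K Y) fun ρ _ => Submodule.finrank_mono (e1_U_le Y)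
  have h2 : (∑ ρ : Setoid T,
      (if e1_alw Y Y ρ ∧ finrank K (e1_U ρ Y) = finrank K Y then (mob ⊤ ρ : ℝ) else 0)) = 1 := by
    rw [Finset.sum_eq_single (⊤ : Setoid T)]
    · rw [if_pos, mob_top, Int.cast_one]
      refine ⟨hall _, ?_⟩
      have : e1_U (⊤ : Setoid T) Y = Y := by
        refine le_antisymm (e1_U_le Y) fun u hu B => ?_
        have : {x | Quotient.mk (⊤ : Setoid T) x = B} = Set.univ := by
          ext x
          simp only [Set.mem_ofPred_eq, Set.mem_univ, iff_true]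
          induction B using Quotient.inductionOn with
          | h y => exact Quotient.sound trivial
        rw [this]
        have h3 : e1_res K (Set.univ : Set T) u = u := by
          funext x
          simp [e1_res_apply]
        rw [h3]
        exact hu
      rw [this]
    · intro ρ _ hρ
      rw [if_neg]
      rintro ⟨-, h3⟩
      have h4 : e1_U ρ Y = Y := Submodule.eq_of_le_of_finrank_eq (e1_U_le Y) h3
      obtain ⟨B, hB1, hB2⟩ := e1_exists_block hρ
      apply h _ hB1 hB2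
      have := e1_split_U (ρ := ρ) Y B
      rwa [h4] at this
    · intro h
      exact absurd (Finset.mem_univ _) h
  rwa [h2] at h1

omit [Finite K] [Finite T] in
theorem e1_alw_iff {Y₁ Y₀ : Submodule K (T → K)} {ρ : Setoid T} :
    e1_alw Y₁ Y₀ ρ ↔ ∀ y, Y₁ ⊓ OnT K {x | ρ x y} = Y₀ ⊓ OnT K {x | ρ x y} := by
  have h : ∀ y, {x | Quotient.mk ρ x = Quotient.mk ρ y} = {x | ρ x y} := by
    intro y
    ext x
    exact Quotient.eq
  constructor
  · intro h1 y
    rw [← h y]
    exact h1 _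
  · intro h1 B
    induction B using Quotient.inductionOn with
    | h y =>
      rw [h y]
      exact h1 y

omit [Finite K] [Finite T] in
theorem e1_mem_U_iff {Y : Submodule K (T → K)} {ρ : Setoid T} {u : T → K} :
    u ∈ e1_U ρ Y ↔ ∀ y, e1_res K {x | ρ x y} u ∈ Y := by
  have h : ∀ y, {x | Quotient.mk ρ x = Quotient.mk ρ y} = {x | ρ x y} := by
    intro y
    ext x
    exact Quotient.eq
  constructor
  · intro h1 y
    rw [← h y]
    exact h1 _
  · intro h1 B
    induction B using Quotient.inductionOn with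
    | h y =>
      rw [h y]
      exact h1 y

omit [Finite K] [Finite T] in
theorem e1_inf_inter {Y : Submodule K (T → K)} {B C : Set T} (h : SplitT B Y) {u : T → K} :
    u ∈ Y ⊓ OnT K C ↔ e1_res K B u ∈ Y ⊓ OnT K (C ∩ B) ∧ e1_res K Bᶜ u ∈ Y ⊓ OnT K (C ∩ Bᶜ) := by
  constructor
  · rintro ⟨h1, h2⟩
    have h3 : e1_res K B u ∈ Y := h u h1
    have h4 : e1_res K Bᶜ u = u - e1_res K B u := by
      rw [eq_sub_iff_add_eq, add_comm]
      exact e1_res_add_compl B u
    refine ⟨⟨h3, ?_⟩, ⟨by rw [h4]; exact Y.sub_mem h1 h3, ?_⟩⟩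
    · intro x hx
      rw [e1_res_apply]
      split_ifs with hB
      · exact h2 x fun hC => hx ⟨hC, hB⟩
      · rfl
    · intro x hx
      rw [e1_res_apply]
      split_ifs with hB
      · exact h2 x fun hC => hx ⟨hC, hB⟩
      · rfl
  · rintro ⟨⟨h1, h2⟩, ⟨h3, h4⟩⟩
    rw [← e1_res_add_compl B u]
    exact ⟨Y.add_mem h1 h3, Submodule.add_mem _ (e1_OnT_mono Set.inter_subset_left h2)
      (e1_OnT_mono Set.inter_subset_left h4)⟩

omit [Finite K] [Finite T] in
theorem e1_eq_inter {Y₁ Y₀ : Submodule K (T → K)} {B C : Set T} (h₁ : SplitT B Y₁)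
    (h₀ : SplitT B Y₀) : Y₁ ⊓ OnT K C = Y₀ ⊓ OnT K C ↔
      Y₁ ⊓ OnT K (C ∩ B) = Y₀ ⊓ OnT K (C ∩ B) ∧
        Y₁ ⊓ OnT K (C ∩ Bᶜ) = Y₀ ⊓ OnT K (C ∩ Bᶜ) := by
  constructor
  · intro h
    have h2 : ∀ D : Set T, D ⊆ C → Y₁ ⊓ OnT K D = Y₀ ⊓ OnT K D := by
      intro D hD
      have h3 : OnT K D = OnT K C ⊓ OnT K D := (inf_eq_right.mpr (e1_OnT_mono hD)).symm
      rw [h3, ← inf_assoc, ← inf_assoc, h]
    exact ⟨h2 _ Set.inter_subset_left, h2 _ Set.inter_subset_left⟩
  · rintro ⟨h1, h2⟩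
    ext u
    rw [e1_inf_inter h₁, e1_inf_inter h₀, h1, h2]

omit [Finite K] [Finite T] in
theorem e1_alw_inf {Y₁ Y₀ : Submodule K (T → K)} {B : Set T} (h₁ : SplitT B Y₁)
    (h₀ : SplitT B Y₀) (ρ : Setoid T) :
    e1_alw Y₁ Y₀ ρ ↔ e1_alw Y₁ Y₀ (ρ ⊓ Setoid.ker (fun x => x ∈ B)) := by
  have hpos : ∀ y ∈ B, {x | (ρ ⊓ Setoid.ker (fun x => x ∈ B)) x y} = {x | ρ x y} ∩ B := by
    intro y hy
    ext x
    simp [Setoid.inf_def, Setoid.ker_def, hy]
  have hneg : ∀ y ∉ B, {x | (ρ ⊓ Setoid.ker (fun x => x ∈ B)) x y} = {x | ρ x y} ∩ Bᶜ := by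
    intro y hy
    ext x
    simp [Setoid.inf_def, Setoid.ker_def, hy]
  rw [e1_alw_iff, e1_alw_iff]
  constructor
  · intro h y
    by_cases hy : y ∈ B
    · rw [hpos y hy]
      exact ((e1_eq_inter h₁ h₀).mp (h y)).1
    · rw [hneg y hy]
      exact ((e1_eq_inter h₁ h₀).mp (h y)).2
  · intro h y
    rw [e1_eq_inter h₁ h₀]
    constructor
    · by_cases he : ∃ z, ρ z y ∧ z ∈ B
      · obtain ⟨z, hz1, hz2⟩ := he
        have h3 : {x | ρ x y} = {x | ρ x z} := by
          ext x
          exact ⟨fun hx => ρ.trans hx (ρ.symm hz1), fun hx => ρ.trans hx hz1⟩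
        have := h z
        rwa [hpos z hz2, ← h3] at this
      · have h3 : {x | ρ x y} ∩ B = ∅ := by
          ext x
          simp only [Set.mem_inter_iff, Set.mem_ofPred_eq, Set.mem_empty_iff_false, iff_false]
          exact fun hx => he ⟨x, hx⟩
        rw [h3, e1_OnT_empty, inf_bot_eq, inf_bot_eq]
    · by_cases he : ∃ z, ρ z y ∧ z ∉ B
      · obtain ⟨z, hz1, hz2⟩ := he
        have h3 : {x | ρ x y} = {x | ρ x z} := by
          ext x
          exact ⟨fun hx => ρ.trans hx (ρ.symm hz1), fun hx => ρ.trans hx hz1⟩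
        have := h z
        rwa [hneg z hz2, ← h3] at this
      · have h3 : {x | ρ x y} ∩ Bᶜ = ∅ := by
          ext x
          simp only [Set.mem_inter_iff, Set.mem_ofPred_eq, Set.mem_empty_iff_false, iff_false,
            Set.mem_compl_iff]
          exact fun hx => he ⟨x, hx⟩
        rw [h3, e1_OnT_empty, inf_bot_eq, inf_bot_eq]

omit [Finite K] [Finite T] in
theorem e1_U_inf {Y : Submodule K (T → K)} {B : Set T} (hY : SplitT B Y) (ρ : Setoid T) :
    e1_U ρ Y = e1_U (ρ ⊓ Setoid.ker (fun x => x ∈ B)) Y := by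
  have hpos : ∀ y ∈ B, {x | (ρ ⊓ Setoid.ker (fun x => x ∈ B)) x y} = B ∩ {x | ρ x y} := by
    intro y hy
    ext x
    simp [Setoid.inf_def, Setoid.ker_def, hy, and_comm]
  have hneg : ∀ y ∉ B, {x | (ρ ⊓ Setoid.ker (fun x => x ∈ B)) x y} = Bᶜ ∩ {x | ρ x y} := by
    intro y hy
    ext x
    simp [Setoid.inf_def, Setoid.ker_def, hy, and_comm]
  have hzero : ∀ (C : Set T) (u : T → K), C = ∅ → e1_res K C u = 0 := by
    rintro C u rfl
    funext x
    simp [e1_res_apply]
  ext u
  rw [e1_mem_U_iff, e1_mem_U_iff]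
  constructor
  · intro h y
    by_cases hy : y ∈ B
    · rw [hpos y hy, ← e1_res_res]
      exact hY _ (h y)
    · rw [hneg y hy, ← e1_res_res]
      have h4 : e1_res K Bᶜ (e1_res K {x | ρ x y} u) =
          e1_res K {x | ρ x y} u - e1_res K B (e1_res K {x | ρ x y} u) := by
        rw [eq_sub_iff_add_eq, add_comm]
        exact e1_res_add_compl B _
      rw [h4]
      exact Y.sub_mem (h y) (hY _ (h y))
  · intro h y
    rw [← e1_res_add_compl B (e1_res K {x | ρ x y} u), e1_res_res, e1_res_res]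
    refine Y.add_mem ?_ ?_
    · by_cases he : ∃ z, ρ z y ∧ z ∈ B
      · obtain ⟨z, hz1, hz2⟩ := he
        have h3 : {x | ρ x y} = {x | ρ x z} := by
          ext x
          exact ⟨fun hx => ρ.trans hx (ρ.symm hz1), fun hx => ρ.trans hx hz1⟩
        have := h z
        rwa [hpos z hz2, ← h3] at this
      · rw [hzero]
        · exact Y.zero_mem
        · ext x
          simp only [Set.mem_inter_iff, Set.mem_ofPred_eq, Set.mem_empty_iff_false, iff_false]
          exact fun hx => he ⟨x, hx.2, hx.1⟩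
    · by_cases he : ∃ z, ρ z y ∧ z ∉ B
      · obtain ⟨z, hz1, hz2⟩ := he
        have h3 : {x | ρ x y} = {x | ρ x z} := by
          ext x
          exact ⟨fun hx => ρ.trans hx (ρ.symm hz1), fun hx => ρ.trans hx hz1⟩
        have := h z
        rwa [hneg z hz2, ← h3] at this
      · rw [hzero]
        · exact Y.zero_mem
        · ext x
          simp only [Set.mem_inter_iff, Set.mem_ofPred_eq, Set.mem_empty_iff_false, iff_false,
            Set.mem_compl_iff]
          exact fun hx => he ⟨x, hx.2, hx.1⟩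

theorem Xloc_bad [Nonempty T] (Y₁ Y₀ : Submodule K (T → K)) (h : ¬ (Y₁ = Y₀ ∧ ConnT Y₁)) :
    ∃ U : Submodule K (T → K), U ≤ Y₁ ∧ U ≤ Y₀ ∧
      (BigO K (Xloc Y₁ Y₀) ((Nat.card T : ℤ) - finrank K U + 1) ∨
        ((∀ B : Set T, B ≠ ∅ → B ≠ Set.univ → ¬ (SplitT B Y₁ ∧ SplitT B Y₀)) ∧
          BigO K (Xloc Y₁ Y₀) ((Nat.card T : ℤ) - finrank K U) ∧ (U ≠ Y₁ ∨ U ≠ Y₀))) := by
  by_cases hex : ∃ ρ, e1_alw Y₁ Y₀ ρ
  · obtain ⟨ρ₀, hρ₀, hmax⟩ : ∃ ρ₀, e1_alw Y₁ Y₀ ρ₀ ∧
        ∀ ρ, e1_alw Y₁ Y₀ ρ → finrank K (e1_U ρ Y₁) ≤ finrank K (e1_U ρ₀ Y₁) := by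
      obtain ⟨ρ₀, h1, h2⟩ := (Finset.univ.filter (fun ρ => e1_alw Y₁ Y₀ ρ)).exists_max_image
        (fun ρ => finrank K (e1_U ρ Y₁)) (by
          obtain ⟨ρ, hρ⟩ := hex
          exact ⟨ρ, by simp [hρ]⟩)
      exact ⟨ρ₀, by simpa using h1, fun ρ hρ => h2 ρ (by simp [hρ])⟩
    have hle0 : e1_U ρ₀ Y₁ ≤ Y₀ := by
      intro u hu
      apply e1_U_le (ρ := ρ₀) Y₀
      intro B
      have h1 : e1_res K {x | Quotient.mk ρ₀ x = B} u ∈
          Y₁ ⊓ OnT K {x | Quotient.mk ρ₀ x = B} := ⟨hu B, e1_res_mem _ _⟩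
      rw [hρ₀ B] at h1
      exact h1.1
    refine ⟨e1_U ρ₀ Y₁, e1_U_le Y₁, hle0, ?_⟩
    have hlead := e1_lead Y₁ Y₀ _ hmax
    by_cases hB : ∃ B : Set T, B ≠ ∅ ∧ B ≠ Set.univ ∧ SplitT B Y₁ ∧ SplitT B Y₀
    · left
      obtain ⟨B, hB1, hB2, hs1, hs0⟩ := hB
      have hβ : Setoid.ker (fun x => x ∈ B) ≠ (⊤ : Setoid T) := by
        intro htop
        obtain ⟨x, hx⟩ := Set.nonempty_iff_ne_empty.mpr hB1
        obtain ⟨y, hy⟩ := (Set.ne_univ_iff_exists_notMem B).mp hB2
        have h1 : (Setoid.ker (fun x => x ∈ B)) x y := by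
          rw [htop]
          trivial
        rw [Setoid.ker_def] at h1
        exact hy (h1 ▸ hx)
      have hw := weisner (⊤ : Setoid T) (Setoid.ker (fun x => x ∈ B)) le_top hβ
        (fun ρ => e1_alw Y₁ Y₀ ρ ∧ finrank K (e1_U ρ Y₁) = finrank K (e1_U ρ₀ Y₁)) (by
          intro ρ _
          show (_ ∧ _) ↔ (_ ∧ _)
          rw [← e1_alw_inf hs1 hs0 ρ, ← e1_U_inf hs1 ρ])
      have hsum : (∑ ρ : Setoid T, (if e1_alw Y₁ Y₀ ρ ∧ finrank K (e1_U ρ Y₁) =
          finrank K (e1_U ρ₀ Y₁) then (mob ⊤ ρ : ℝ) else 0)) = 0 := by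
        rw [← Finset.sum_filter]
        simp only [le_top, true_and] at hw
        exact_mod_cast hw
      rw [hsum, lead_zero_iff] at hlead
      exact hlead
    · right
      push Not at hB
      refine ⟨fun B h1 h2 h3 => hB B (Set.nonempty_iff_ne_empty.mpr h1) h2 h3.1 h3.2,
        hlead.bigO, ?_⟩
      by_contra hc
      push Not at hc
      apply h
      refine ⟨hc.1.symm.trans hc.2,
        fun B h1 h2 h3 => hB B (Set.nonempty_iff_ne_empty.mpr h1) h2 h3 ?_⟩
      rw [← hc.2, hc.1]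
      exact h3
  · refine ⟨⊥, bot_le, bot_le, Or.inl ?_⟩
    push Not at hex
    have h0 : Xloc Y₁ Y₀ = fun _ => 0 := by
      rw [e1_Xloc]
      funext N
      refine Finset.sum_eq_zero fun ρ _ => ?_
      rw [e1_term_zero (hex ρ), mul_zero]
    rw [h0]
    exact bigO_zero _

/-- If `X ≤ Y` has codimension one, `X` splits along `B` and `Y` along `C` (nontrivial), then
one of `B`, `C` splits both. -/
theorem common_split {X Y : Submodule K (T → K)} (hXY : X ≤ Y)
    (hd : finrank K Y = finrank K X + 1) {B C : Set T} (hB : SplitT B X) (hC : SplitT C Y) :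
    SplitT C X ∨ SplitT B Y := by
  by_contra hcon
  push Not at hcon
  obtain ⟨hCX, hBY⟩ := hcon
  have key : ∀ y ∈ Y, (e1_res K B y = y ∨ e1_res K B y = 0) → y ∈ X := by
    intro y hy hres
    by_contra hyX
    apply hBY
    have hle : X ⊔ Submodule.span K {y} ≤ Y := by
      rw [sup_le_iff, Submodule.span_singleton_le_iff_mem]
      exact ⟨hXY, hy⟩
    have hlt : X < X ⊔ Submodule.span K {y} := by
      refine lt_of_le_of_ne le_sup_left fun heq => hyX ?_
      rw [heq]
      exact Submodule.mem_sup_right (Submodule.mem_span_singleton_self y)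
    have h1 := Submodule.finrank_lt_finrank_of_lt hlt
    have h2 := Submodule.finrank_mono hle
    have h3 : X ⊔ Submodule.span K {y} = Y :=
      Submodule.eq_of_le_of_finrank_eq hle (by omega)
    rw [e1_split_iff]
    intro z hz
    rw [← h3, Submodule.mem_sup] at hz
    obtain ⟨x, hx, w, hw, rfl⟩ := hz
    obtain ⟨c, rfl⟩ := Submodule.mem_span_singleton.mp hw
    rw [map_add, map_smul]
    refine Y.add_mem (hXY (hB x hx)) (Y.smul_mem _ ?_)
    rcases hres with h4 | h4
    · rw [h4]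
      exact hy
    · rw [h4]
      exact Y.zero_mem
  apply hCX
  rw [e1_split_iff]
  intro x hx
  rw [← e1_res_add_compl B (e1_res K C x)]
  have hxB : e1_res K B x ∈ X := hB x hx
  have hxBc : e1_res K Bᶜ x ∈ X := by
    have : e1_res K Bᶜ x = x - e1_res K B x := by
      rw [eq_sub_iff_add_eq, add_comm]
      exact e1_res_add_compl B x
    rw [this]
    exact X.sub_mem hx hxB
  refine X.add_mem ?_ ?_
  · apply key
    · rw [e1_res_res, Set.inter_comm, ← e1_res_res]
      exact hC _ (hXY hxB)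
    · left
      rw [e1_res_res, Set.inter_self]
  · apply key
    · rw [e1_res_res, Set.inter_comm, ← e1_res_res]
      exact hC _ (hXY hxBc)
    · right
      rw [e1_res_res, Set.inter_compl_self]
      funext z
      simp [e1_res_apply]

end E1

end Pool.Agent.GLFix
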