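import Pool.Agent.GLFix.Closure
import Pool.Agent.GLFix.KeyIneq
import Pool.Agent.GLFix.Count
import Pool.Agent.GLFix.Moebius
import Pool.Agent.GLFix.Local

/-!
# MP_ce340f_al, module E2

The joint cumulant of a word without cut vertex.
-/

open scoped Classical
open Module Filter Asymptotics

noncomputable section

namespace Pool.Agent.GLFix

section E2a

variable {K : Type*} [Field K] {ℓ : ℕ} [NeZero ℓ] {σ : ZMod ℓ → Bool} {top : Setoid (ZMod ℓ)}

theorem e2_epos_eq {s : Bool} {ε₁ ε : ZMod ℓ} (h : epos σ s ε₁ = ε + 1) :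
    (ε₁ = ε ∧ s = σ ε) ∨ (ε₁ = ε + 1 ∧ s = !σ (ε + 1)) := by
  unfold epos at h
  split_ifs at h with h1
  · left
    have : ε₁ = ε := add_right_cancel h
    subst this
    exact ⟨rfl, h1.symm⟩
  · right
    subst h
    refine ⟨rfl, ?_⟩
    cases hs : s <;> cases hσ : σ (ε + 1) <;> simp_all

theorem e2_singleton_succ (hnc : NoCut σ top) {ε : ZMod ℓ} (h : ∀ ε', top ε' ε → ε' = ε) :
    ∀ ε', top ε' (ε + 1) → ε' = ε + 1 := by
  intro ε' hε'
  by_contra hne
  have h0 : ¬ top ε (ε + 1) := by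
    intro h1
    have h2 : ε + 1 = ε := h _ (top.symm' h1)
    rw [h2] at hε' hne
    exact hne (h _ hε')
  refine hnc (ε + 1) (!σ (ε + 1)) {ε + 1} ⟨?_, ?_, ?_, ?_⟩
  · have key : ∀ s' ε₁ ε₂, top ε₁ ε₂ → ¬ (top ε₁ (ε + 1) ∧ s' = !σ (ε + 1)) →
        epos σ s' ε₁ = ε + 1 → epos σ s' ε₂ = ε + 1 := by
      intro s' ε₁ ε₂ h12 hn h1
      rcases e2_epos_eq h1 with ⟨h2, h3⟩ | ⟨h2, h3⟩
      · subst h2
        rw [h _ (top.symm' h12)]
        exact h1
      · exact absurd ⟨h2 ▸ top.refl' _, h3⟩ hn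
    intro s' ε₁ ε₂ h12 hn
    simp only [Set.mem_singleton_iff]
    refine ⟨key _ _ _ h12 hn, key _ _ _ (top.symm' h12) ?_⟩
    rintro ⟨h3, h4⟩
    exact hn ⟨top.trans' h12 h3, h4⟩
  · intro ε₁ h1 h2
    simp only [Set.mem_singleton_iff, Bool.not_not] at h2
    rcases e2_epos_eq h2 with ⟨h3, h4⟩ | ⟨h3, h4⟩
    · exact h0 (h3 ▸ h1)
    · simp at h4
  · refine ⟨ε + 1, top.refl' _, ?_⟩
    simp [epos]
  · refine ⟨ε', hε', ?_⟩
    simp only [Set.mem_singleton_iff]
    intro h2
    rcases e2_epos_eq h2 with ⟨h3, h4⟩ | ⟨h3, h4⟩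
    · exact h0 (h3 ▸ hε')
    · exact hne h3

end E2a

section E2b

variable {K : Type*} [Field K] {ℓ : ℕ} [NeZero ℓ] {σ : ZMod ℓ → Bool} {top : Setoid (ZMod ℓ)}

/-- The occurrences of a letter. -/
abbrev E2T (top : Setoid (ZMod ℓ)) (b : Quotient top) : Type := {ε : ZMod ℓ // Quotient.mk top ε = b}

/-- Extension by zero. -/
def e2ext (K : Type*) [Field K] (top : Setoid (ZMod ℓ)) (b : Quotient top) :
    (E2T top b → K) →ₗ[K] (ZMod ℓ → K) where
  toFun u ε := if h : Quotient.mk top ε = b then u ⟨ε, h⟩ else 0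
  map_add' u v := by
    funext ε
    by_cases h : Quotient.mk top ε = b <;> simp [h]
  map_smul' a u := by
    funext ε
    by_cases h : Quotient.mk top ε = b <;> simp [h]

/-- Restriction to the occurrences of a letter. -/
def e2rs (K : Type*) [Field K] (top : Setoid (ZMod ℓ)) (b : Quotient top) :
    (ZMod ℓ → K) →ₗ[K] (E2T top b → K) where
  toFun u x := u x.1
  map_add' _ _ := rfl
  map_smul' _ _ := rfl

theorem e2ext_apply (b : Quotient top) (u : E2T top b → K) (ε : ZMod ℓ) :
    e2ext K top b u ε = if h : Quotient.mk top ε = b then u ⟨ε, h⟩ else 0 := rfl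

theorem e2ext_val (b : Quotient top) (u : E2T top b → K) (x : E2T top b) :
    e2ext K top b u x.1 = u x := by
  rw [e2ext_apply, dif_pos x.2]

theorem e2rs_ext (b : Quotient top) (u : E2T top b → K) : e2rs K top b (e2ext K top b u) = u := by
  funext x
  exact e2ext_val b u x

theorem e2ext_inj (b : Quotient top) : Function.Injective (e2ext K top b) := fun u v h => by
  rw [← e2rs_ext b u, ← e2rs_ext b v, h]

theorem e2ext_rs (b : Quotient top) (u : ZMod ℓ → K) :
    e2ext K top b (e2rs K top b u) = res {ε | Quotient.mk top ε = b} u := by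
  funext ε
  rw [e2ext_apply]
  by_cases h : Quotient.mk top ε = b
  · rw [dif_pos h]
    simp [res, h, e2rs]
  · rw [dif_neg h]
    simp [res, h]

theorem e2_mem_On {c : Set (ZMod ℓ)} {u : ZMod ℓ → K} : u ∈ On K c ↔ ∀ ε, ε ∉ c → u ε = 0 :=
  Iff.rfl

theorem e2ext_mem_On (b : Quotient top) (u : E2T top b → K) :
    e2ext K top b u ∈ On K {ε | Quotient.mk top ε = b} := by
  intro ε hε
  rw [e2ext_apply, dif_neg (show ¬ Quotient.mk top ε = b from hε)]

theorem e2ext_rs_of_mem (b : Quotient top) {u : ZMod ℓ → K}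
    (hu : u ∈ On K {ε | Quotient.mk top ε = b}) : e2ext K top b (e2rs K top b u) = u := by
  rw [e2ext_rs]
  exact res_of_mem_On hu

/-- The trace of `S` on the occurrences of a letter, side `s`. -/
def e2Y (σ : ZMod ℓ → Bool) (S : Submodule K (ZMod ℓ → K)) (s : Bool) (b : Quotient top) :
    Submodule K (E2T top b → K) := (S.comap (push σ s)).comap (e2ext K top b)

theorem e2_mem_Y {S : Submodule K (ZMod ℓ → K)} {s : Bool} {b : Quotient top}
    {u : E2T top b → K} : u ∈ e2Y σ S s b ↔ push σ s (e2ext K top b u) ∈ S := Iff.rfl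

theorem e2_mem_DD {s : Bool} {c : Set (ZMod ℓ)} {S : Submodule K (ZMod ℓ → K)}
    {u : ZMod ℓ → K} : u ∈ DD σ s c S ↔ u ∈ On K c ∧ push σ s u ∈ S := Iff.rfl

theorem e2_mem_OnT {T : Type*} {B : Set T} {u : T → K} : u ∈ OnT K B ↔ ∀ x, x ∉ B → u x = 0 :=
  Iff.rfl

theorem e2_DD_image (S : Submodule K (ZMod ℓ → K)) (s : Bool) (b : Quotient top)
    (B : Set (E2T top b)) :
    DD σ s (Subtype.val '' B) S = (e2Y σ S s b ⊓ OnT K B).map (e2ext K top b) := by
  ext u
  rw [e2_mem_DD, Submodule.mem_map]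
  constructor
  · rintro ⟨h1, h2⟩
    have h3 : e2ext K top b (e2rs K top b u) = u := by
      apply e2ext_rs_of_mem
      intro ε hε
      apply h1
      rintro ⟨x, -, rfl⟩
      exact hε x.2
    refine ⟨e2rs K top b u, ⟨?_, ?_⟩, h3⟩
    · rw [SetLike.mem_coe, e2_mem_Y, h3]
      exact h2
    · intro x hx
      apply h1
      rintro ⟨y, hy, hxy⟩
      exact hx (Subtype.ext hxy ▸ hy)
  · rintro ⟨v, ⟨hv1, hv2⟩, rfl⟩
    refine ⟨?_, hv1⟩
    intro ε hε
    rw [e2ext_apply]
    split_ifs with h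
    · apply hv2
      intro hB
      exact hε ⟨_, hB, rfl⟩
    · rfl

theorem e2_DD_class (S : Submodule K (ZMod ℓ → K)) (s : Bool) (b : Quotient top) :
    DD σ s {ε | Quotient.mk top ε = b} S = (e2Y σ S s b).map (e2ext K top b) := by
  have h := e2_DD_image (σ := σ) S s b Set.univ
  have h1 : (OnT K (Set.univ : Set (E2T top b))) = ⊤ := by
    rw [eq_top_iff]
    intro u _ x hx
    exact absurd (Set.mem_univ x) hx
  rw [h1, inf_top_eq, Set.image_univ, Subtype.range_coe_subtype] at h
  exact h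

theorem e2_finrank_map (b : Quotient top) (Y : Submodule K (E2T top b → K)) :
    finrank K (Y.map (e2ext K top b) : Submodule K (ZMod ℓ → K)) = finrank K Y :=
  (Submodule.equivMapOfInjective _ (e2ext_inj b) Y).finrank_eq.symm

theorem e2_finrank_DD (S : Submodule K (ZMod ℓ → K)) (s : Bool) (b : Quotient top) :
    finrank K (DD σ s {ε | Quotient.mk top ε = b} S) = finrank K (e2Y σ S s b) := by
  rw [e2_DD_class, e2_finrank_map]

theorem e2_DD_eq_iff (S : Submodule K (ZMod ℓ → K)) (b : Quotient top) :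
    DD σ true {ε | Quotient.mk top ε = b} S = DD σ false {ε | Quotient.mk top ε = b} S ↔
      e2Y σ S true b = e2Y σ S false b := by
  rw [e2_DD_class, e2_DD_class]
  exact (Submodule.map_injective_of_injective (e2ext_inj b)).eq_iff

theorem e2_split_iff (S : Submodule K (ZMod ℓ → K)) (s : Bool) (b : Quotient top)
    (D : Set (ZMod ℓ)) :
    (∀ u ∈ DD σ s {ε | Quotient.mk top ε = b} S, res D u ∈ DD σ s {ε | Quotient.mk top ε = b} S) ↔
      SplitT {x : E2T top b | x.1 ∈ D} (e2Y σ S s b) := by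
  have key : ∀ v : E2T top b → K,
      e2ext K top b (fun x => if x ∈ {x : E2T top b | x.1 ∈ D} then v x else 0) =
        res D (e2ext K top b v) := by
    intro v
    funext ε
    simp only [e2ext_apply, res, LinearMap.coe_mk, AddHom.coe_mk, Set.mem_ofPred_eq]
    by_cases h : Quotient.mk top ε = b
    · simp only [dif_pos h]
    · simp only [dif_neg h, ite_self]
  constructor
  · intro h v hv
    rw [e2_mem_Y, key]
    exact (h (e2ext K top b v) ⟨e2ext_mem_On b v, hv⟩).2
  · intro h u hu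
    have h3 : e2ext K top b (e2rs K top b u) = u := e2ext_rs_of_mem b hu.1
    have h4 := h (e2rs K top b u) (by rw [e2_mem_Y, h3]; exact hu.2)
    rw [e2_mem_Y, key, h3] at h4
    refine ⟨?_, h4⟩
    intro ε hε
    simp only [res, LinearMap.coe_mk, AddHom.coe_mk]
    rw [hu.1 ε hε, ite_self]

end E2b

section E2c

variable {K : Type*} [Field K] {ℓ : ℕ} [NeZero ℓ] {σ : ZMod ℓ → Bool} {top : Setoid (ZMod ℓ)}

/-- The factor of a block in the exact formula. -/
def e2phi (σ : ZMod ℓ → Bool) (S : Submodule K (ZMod ℓ → K)) (N : ℕ) (c : Set (ZMod ℓ)) : ℝ :=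
  if DD σ true c S = DD σ false c S then
    (ind K (Set.ncard c - finrank K (DD σ true c S)) N)⁻¹ else 0

theorem e2_Xloc (S : Submodule K (ZMod ℓ → K)) (b : Quotient top) (N : ℕ) :
    ∑ ρ : Setoid {ε : ZMod ℓ // Quotient.mk top ε = b},
      (mob ⊤ ρ : ℝ) * ∏ B : Quotient ρ,
        e2phi σ S N (Subtype.val '' {x | Quotient.mk ρ x = B}) =
    Xloc (e2Y σ S true b) (e2Y σ S false b) N := by
  unfold Xloc
  refine Finset.sum_congr rfl fun ρ _ => ?_
  congr 1
  refine Finset.prod_congr rfl fun B _ => ?_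
  unfold e2phi
  rw [e2_DD_image, e2_DD_image, e2_finrank_map,
    Set.ncard_image_of_injective _ Subtype.val_injective]
  exact if_congr (Submodule.map_injective_of_injective (e2ext_inj (K := K) b)).eq_iff rfl rfl

theorem e2_alpha [Finite K] (hred : Reduced σ top) {N : ℕ} (hN : ℓ ≤ N) :
    alpha K σ top N =
      ∑ S ∈ (Finset.univ : Finset (Submodule K (ZMod ℓ → K))).filter (fun S => Free K S),
        ind K (ℓ - finrank K S) N *
          ∏ b : Quotient top, Xloc (e2Y σ S true b) (e2Y σ S false b) N := by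
  unfold alpha
  have h1 : ∀ π ∈ (Finset.univ : Finset (Setoid (ZMod ℓ))).filter (fun π => π ≤ top),
      (mob top π : ℝ) * gfun K σ π N =
      ∑ S ∈ (Finset.univ : Finset (Submodule K (ZMod ℓ → K))).filter (fun S => Free K S),
        ind K (ℓ - finrank K S) N * ((mob top π : ℝ) *
          ∏ B : Quotient π, e2phi σ S N {ε | Quotient.mk π ε = B}) := by
    intro π hπ
    rw [gfun_formula K (hred.mono (Finset.mem_filter.1 hπ).2) hN, Finset.mul_sum]
    refine Finset.sum_congr rfl fun S _ => ?_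
    unfold e2phi
    ring
  rw [Finset.sum_congr rfl h1, Finset.sum_comm]
  refine Finset.sum_congr rfl fun S _ => ?_
  rw [← Finset.mul_sum, mob_prod top (e2phi σ S N)]
  congr 1
  exact Finset.prod_congr rfl fun b _ => e2_Xloc S b N

end E2c

section E2d

variable {K : Type*} [Field K] {ℓ : ℕ} [NeZero ℓ] {σ : ZMod ℓ → Bool} {top : Setoid (ZMod ℓ)}
  {S U : Submodule K (ZMod ℓ → K)}

theorem e2_block (ε₀ : ZMod ℓ) :
    block top ε₀ = {ε | Quotient.mk top ε = Quotient.mk top ε₀} := by
  ext ε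
  exact Quotient.eq.symm

theorem e2_res_apply (c : Set (ZMod ℓ)) (u : ZMod ℓ → K) (ε : ZMod ℓ) :
    res c u ε = if ε ∈ c then u ε else 0 := rfl

theorem e2_res_class (b b' : Quotient top) {u : ZMod ℓ → K}
    (hu : u ∈ On K {ε | Quotient.mk top ε = b}) :
    res {ε | Quotient.mk top ε = b'} u = if b' = b then u else 0 := by
  split_ifs with h
  · subst h
    exact res_of_mem_On hu
  · funext ε
    rw [e2_res_apply]
    split_ifs with h2
    · apply hu
      intro h3
      exact h ((show Quotient.mk top ε = b' from h2).symm.trans h3)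
    · rfl

/-- The edge space of `S`. -/
def e2U (σ : ZMod ℓ → Bool) (top : Setoid (ZMod ℓ)) (S : Submodule K (ZMod ℓ → K)) :
    Submodule K (ZMod ℓ → K) :=
  ⨅ b : Quotient top, (S.comap (push σ true)).comap (res {ε | Quotient.mk top ε = b})

theorem e2_mem_U {u : ZMod ℓ → K} : u ∈ e2U σ top S ↔
    ∀ b : Quotient top, push σ true (res {ε | Quotient.mk top ε = b} u) ∈ S := by
  simp only [e2U, Submodule.mem_iInf, Submodule.mem_comap]

theorem e2_mem_U_class {b : Quotient top} {u : ZMod ℓ → K}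
    (hu : u ∈ On K {ε | Quotient.mk top ε = b}) : u ∈ e2U σ top S ↔ push σ true u ∈ S := by
  rw [e2_mem_U]
  constructor
  · intro h
    have := h b
    rwa [e2_res_class b b hu, if_pos rfl] at this
  · intro h b'
    rw [e2_res_class b b' hu]
    split_ifs
    · exact h
    · rw [map_zero]
      exact S.zero_mem

theorem e2_res_mem_U {u : ZMod ℓ → K} (hu : u ∈ e2U σ top S) (b : Quotient top) :
    res {ε | Quotient.mk top ε = b} u ∈ e2U σ top S :=
  (e2_mem_U_class (res_mem_On _ _)).2 (e2_mem_U.1 hu b)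

theorem e2_split_U : Split top (e2U σ top S) := by
  intro ε₀ u hu
  rw [e2_block]
  exact e2_res_mem_U hu _

theorem e2_ext_mem_U {b : Quotient top} {u : E2T top b → K} :
    e2ext K top b u ∈ e2U σ top S ↔ u ∈ e2Y σ S true b :=
  e2_mem_U_class (e2ext_mem_On b u)

theorem e2_rs_mem_Y {u : ZMod ℓ → K} (hu : u ∈ e2U σ top S) (b : Quotient top) :
    e2rs K top b u ∈ e2Y σ S true b := by
  rw [e2_mem_Y, e2ext_rs]
  exact e2_mem_U.1 hu b

/-- `e2U` is the direct sum of the traces. -/
def e2equiv (σ : ZMod ℓ → Bool) (top : Setoid (ZMod ℓ)) (S : Submodule K (ZMod ℓ → K)) :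
    e2U σ top S ≃ₗ[K] (∀ b : Quotient top, e2Y σ S true b) where
  toFun u b := ⟨e2rs K top b u.1, e2_rs_mem_Y u.2 b⟩
  map_add' _ _ := rfl
  map_smul' _ _ := rfl
  invFun f := ⟨fun ε => (f (Quotient.mk top ε)).1 ⟨ε, rfl⟩, by
    rw [e2_mem_U]
    intro b
    have h : e2rs K top b (fun ε => (f (Quotient.mk top ε)).1 ⟨ε, rfl⟩) = (f b).1 := by
      funext x
      obtain ⟨ε, rfl⟩ := x
      rfl
    rw [← e2ext_rs, h]
    exact (f b).2⟩
  left_inv u := rfl
  right_inv f := by
    funext b
    apply Subtype.ext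
    funext x
    obtain ⟨ε, rfl⟩ := x
    rfl

theorem e2_finrank_U : finrank K (e2U σ top S) = ∑ b : Quotient top, finrank K (e2Y σ S true b) := by
  rw [(e2equiv σ top S).finrank_eq, Module.finrank_pi_fintype]

/-- All letters are good. -/
structure E2Good (σ : ZMod ℓ → Bool) (top : Setoid (ZMod ℓ)) (S : Submodule K (ZMod ℓ → K)) :
    Prop where
  eq : ∀ b : Quotient top, e2Y σ S true b = e2Y σ S false b
  conn : ∀ b : Quotient top, ConnT (e2Y σ S true b)

theorem E2Good.push_mem (h : E2Good σ top S) {u : ZMod ℓ → K} (hu : u ∈ e2U σ top S) (s : Bool) :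
    push σ s u ∈ S := by
  rw [sum_res top u, map_sum]
  refine Submodule.sum_mem _ fun b _ => ?_
  cases s
  · have h1 := e2_rs_mem_Y hu b
    rw [h.eq, e2_mem_Y, e2ext_rs] at h1
    exact h1
  · exact e2_mem_U.1 hu b

theorem E2Good.TT_le (h : E2Good σ top S) : TT σ (e2U σ top S) ≤ S :=
  TT_le_iff.2 fun s _ hu => h.push_mem hu s

theorem e2ext_ite (b : Quotient top) (D : Set (ZMod ℓ)) (v : E2T top b → K) :
    e2ext K top b (fun x => if x ∈ {x : E2T top b | x.1 ∈ D} then v x else 0) =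
      res D (e2ext K top b v) := by
  funext ε
  simp only [e2ext_apply, res, LinearMap.coe_mk, AddHom.coe_mk, Set.mem_ofPred_eq]
  by_cases h : Quotient.mk top ε = b
  · simp only [dif_pos h]
  · simp only [dif_neg h, ite_self]

theorem E2Good.comp_eq (h : E2Good σ top S) : comp (e2U σ top S) = top := by
  refine le_antisymm (comp_le_iff.2 e2_split_U) ?_
  intro ε ε' hεε'
  by_contra hn
  set ρ := comp (e2U σ top S) with hρ
  refine h.conn (Quotient.mk top ε) {x | x.1 ∈ block ρ ε} ?_ ?_ ?_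
  · intro h0
    have : (⟨ε, rfl⟩ : E2T top (Quotient.mk top ε)) ∈
        {x : E2T top (Quotient.mk top ε) | x.1 ∈ block ρ ε} := ρ.refl' ε
    rw [h0] at this
    exact this
  · intro h0
    have : (⟨ε', Quotient.sound (top.symm' hεε')⟩ : E2T top (Quotient.mk top ε)) ∈
        {x : E2T top (Quotient.mk top ε) | x.1 ∈ block ρ ε} := by
      rw [h0]
      trivial
    exact hn (ρ.symm' this)
  · intro u hu
    rw [← e2_ext_mem_U, e2ext_ite]
    exact split_comp (e2U σ top S) ε _ (e2_ext_mem_U.2 hu)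

theorem E2Good.closed (h : E2Good σ top S) (hT : TT σ (e2U σ top S) = S) :
    Closed σ top (e2U σ top S) := by
  refine ⟨e2_split_U, ?_⟩
  intro s ε₀ u hu hp
  rw [hT] at hp
  rw [e2_block] at hu
  rw [e2_mem_U_class hu]
  have h1 : e2rs K top _ u ∈ e2Y σ S s (Quotient.mk top ε₀) := by
    rw [e2_mem_Y, e2ext_rs_of_mem _ hu]
    exact hp
  have h2 : e2rs K top _ u ∈ e2Y σ S true (Quotient.mk top ε₀) := by
    cases s
    · rw [h.eq]
      exact h1
    · exact h1
  rw [e2_mem_Y, e2ext_rs_of_mem _ hu] at h2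
  exact h2

/-- The exponent of `S`. -/
def e2exp (σ : ZMod ℓ → Bool) (top : Setoid (ZMod ℓ)) (S : Submodule K (ZMod ℓ → K)) : ℤ :=
  (finrank K S : ℤ) - ∑ b : Quotient top, (finrank K (e2Y σ S true b) : ℤ)

theorem e2_exp_eq : e2exp σ top S = (finrank K S : ℤ) - finrank K (e2U σ top S) := by
  rw [e2exp, e2_finrank_U]
  push_cast
  rfl

theorem E2Good.exc_le (h : E2Good σ top S) : exc σ (e2U σ top S) ≤ e2exp σ top S := by
  rw [e2_exp_eq, exc]
  have := Submodule.finrank_mono h.TT_le
  omega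

theorem E2Good.le_exp (h : E2Good σ top S) (hred : Reduced σ top) (hnc : NoCut σ top) :
    rk σ top - 1 ≤ e2exp σ top S :=
  (rk_le_of_comp_eq hred hnc h.comp_eq).trans h.exc_le

theorem E2Good.TT_eq (h : E2Good σ top S) (hred : Reduced σ top) (hnc : NoCut σ top)
    (he : e2exp σ top S = rk σ top - 1) : TT σ (e2U σ top S) = S := by
  refine Submodule.eq_of_le_of_finrank_le h.TT_le ?_
  have h1 := rk_le_of_comp_eq hred hnc h.comp_eq
  rw [← he, e2_exp_eq, exc] at h1
  omega

theorem e2_U_TT (hU : Closed σ top U) : e2U σ top (TT σ U) = U := by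
  have key : ∀ (b : Quotient top) (u : ZMod ℓ → K), u ∈ On K {ε | Quotient.mk top ε = b} →
      push σ true u ∈ TT σ U → u ∈ U := by
    intro b
    induction b using Quotient.inductionOn with
    | h ε₀ =>
      intro u hu hp
      exact hU.2 true ε₀ u (by rw [e2_block]; exact hu) hp
  apply le_antisymm
  · intro u hu
    rw [sum_res top u]
    exact Submodule.sum_mem _ fun b _ => key b _ (res_mem_On _ _) (e2_mem_U.1 hu b)
  · intro u hu
    rw [e2_mem_U]
    intro b
    induction b using Quotient.inductionOn with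
    | h ε₀ =>
      rw [← e2_block]
      exact push_mem_TT true (hU.1 ε₀ u hu)

theorem e2_Y_TT (hU : Closed σ top U) (s : Bool) (b : Quotient top) :
    e2Y σ (TT σ U) s b = U.comap (e2ext K top b) := by
  induction b using Quotient.inductionOn with
  | h ε₀ =>
    ext u
    rw [e2_mem_Y, Submodule.mem_comap]
    constructor
    · intro h
      exact hU.2 s ε₀ _ (by rw [e2_block]; exact e2ext_mem_On _ u) h
    · intro h
      exact push_mem_TT s h

theorem e2_good_TT (hU : Closed σ top U) (hc : comp U = top) : E2Good σ top (TT σ U) := by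
  refine ⟨fun b => by rw [e2_Y_TT hU, e2_Y_TT hU], ?_⟩
  intro b
  rw [e2_Y_TT hU]
  intro B hB1 hB2 hs
  -- `U` splits along `top ⊓ ker (· ∈ val '' B)`
  set D : Set (ZMod ℓ) := Subtype.val '' B with hD
  have hBD : B = {x : E2T top b | x.1 ∈ D} := by
    ext x
    constructor
    · intro hx
      exact ⟨x, hx, rfl⟩
    · rintro ⟨y, hy, hxy⟩
      exact Subtype.ext hxy ▸ hy
  have hDb : ∀ ε ∈ D, Quotient.mk top ε = b := by
    rintro ε ⟨x, -, rfl⟩
    exact x.2
  have hres : ∀ u ∈ U, res D u ∈ U := by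
    intro u hu
    have h1 : res {ε | Quotient.mk top ε = b} u ∈ U := by
      induction b using Quotient.inductionOn with
      | h ε₀ =>
        rw [← e2_block]
        exact hU.1 ε₀ u hu
    have h2 := hs (e2rs K top b u) (by rw [Submodule.mem_comap, e2ext_rs]; exact h1)
    rw [Submodule.mem_comap] at h2
    have h3 : (fun x => if x ∈ B then e2rs K top b u x else 0) =
        fun x => if x ∈ {x : E2T top b | x.1 ∈ D} then e2rs K top b u x else 0 := by
      funext x
      exact if_congr (by rw [← hBD]) rfl rfl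
    rw [h3, e2ext_ite, e2ext_rs, res_res] at h2
    rwa [Set.inter_eq_self_of_subset_left
      (show D ⊆ {ε | Quotient.mk top ε = b} from fun ε hε => hDb ε hε)] at h2
  have hsplit : Split (top ⊓ Setoid.ker (fun ε => ε ∈ D)) U := by
    apply hU.1.inf_setoid
    intro ε₀ u hu
    by_cases h : ε₀ ∈ D
    · have : block (Setoid.ker (fun ε => ε ∈ D)) ε₀ = D := by
        ext ε
        show ((ε ∈ D) = (ε₀ ∈ D)) ↔ _
        simp [h]
      rw [this]
      exact hres u hu
    · have : res (block (Setoid.ker (fun ε => ε ∈ D)) ε₀) u = u - res D u := by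
        funext ε
        have h1 : ε ∈ block (Setoid.ker (fun ε => ε ∈ D)) ε₀ ↔ ε ∉ D := by
          show ((ε ∈ D) = (ε₀ ∈ D)) ↔ _
          simp [h]
        rw [Pi.sub_apply, e2_res_apply, e2_res_apply]
        by_cases h2 : ε ∈ D
        · rw [if_neg (by rw [h1]; exact not_not.2 h2), if_pos h2, sub_self]
        · rw [if_pos (h1.2 h2), if_neg h2, sub_zero]
      rw [this]
      exact U.sub_mem hu (hres u hu)
  have hle := comp_le_iff.2 hsplit
  rw [hc] at hle
  obtain ⟨x, hx⟩ := Set.nonempty_iff_ne_empty.2 hB1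
  obtain ⟨y, hy⟩ := (Set.ne_univ_iff_exists_notMem B).1 hB2
  have h1 : top x.1 y.1 := Quotient.exact (x.2.trans y.2.symm)
  have h2 := (hle h1).2
  have h3 : (x.1 ∈ D) = (y.1 ∈ D) := h2
  have h4 : x.1 ∈ D := ⟨x, hx, rfl⟩
  rw [h3] at h4
  rw [hBD] at hy
  exact hy h4

theorem e2_free_TT [Finite K] (hU : Closed σ top U) (hc : comp U = top) (htop : top ≠ ⊥) :
    Free K (TT σ U) := by
  intro p hp
  have h1 := hU.eq_top hp
  apply htop
  rw [← hc, eq_bot_iff, comp_le_iff, h1]
  intro ε₀ u _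
  trivial

/-- The summands which contribute to the coefficient. -/
def e2equivCC [Finite K] (hred : Reduced σ top) (hnc : NoCut σ top) (htop : top ≠ ⊥) :
    {S : Submodule K (ZMod ℓ → K) // Free K S ∧ E2Good σ top S ∧ e2exp σ top S = rk σ top - 1} ≃
    {U : Submodule K (ZMod ℓ → K) // Closed σ top U ∧ comp U = top ∧ exc σ U = rk σ top - 1} where
  toFun S := ⟨e2U σ top S.1, S.2.2.1.closed (S.2.2.1.TT_eq hred hnc S.2.2.2), S.2.2.1.comp_eq,
    (show exc σ (e2U σ top S.1) = e2exp σ top S.1 by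
      rw [e2_exp_eq, exc, S.2.2.1.TT_eq hred hnc S.2.2.2]).trans S.2.2.2⟩
  invFun U := ⟨TT σ U.1, e2_free_TT U.2.1 U.2.2.1 htop, e2_good_TT U.2.1 U.2.2.1,
    (show e2exp σ top (TT σ U.1) = exc σ U.1 by
      rw [e2_exp_eq, e2_U_TT U.2.1, exc]).trans U.2.2.2⟩
  left_inv S := Subtype.ext (S.2.2.1.TT_eq hred hnc S.2.2.2)
  right_inv U := Subtype.ext (e2_U_TT U.2.1)

theorem e2_card_cc [Finite K] (hred : Reduced σ top) (hnc : NoCut σ top) (htop : top ≠ ⊥) :
    ((Finset.univ : Finset (Submodule K (ZMod ℓ → K))).filter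
      (fun S => Free K S ∧ E2Good σ top S ∧ e2exp σ top S = rk σ top - 1)).card =
      cc K σ top := by
  rw [cc, ← Nat.card_congr (e2equivCC hred hnc htop), Nat.card_eq_fintype_card,
    Fintype.card_subtype]

end E2d

section E2e

variable {K : Type*} [Field K] [Finite K] {T : Type*} [Finite T]

/-- The data of one letter. -/
structure E2Dat (Y1 Y0 U : Submodule K (T → K)) (δ : ℕ) : Prop where
  le1 : U ≤ Y1
  le0 : U ≤ Y0
  bigO : BigO K (Xloc Y1 Y0) ((Nat.card T : ℤ) - finrank K U + δ)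
  alt : δ = 1 ∨
    ((∀ B : Set T, B ≠ ∅ → B ≠ Set.univ → ¬ (SplitT B Y1 ∧ SplitT B Y0)) ∧ (U ≠ Y1 ∨ U ≠ Y0)) ∨
    (Y1 = Y0 ∧ ConnT Y1 ∧ U = Y1)

theorem e2_exists_dat [Nonempty T] (Y1 Y0 : Submodule K (T → K)) :
    ∃ (U : Submodule K (T → K)) (δ : ℕ), E2Dat Y1 Y0 U δ := by
  by_cases h : Y1 = Y0 ∧ ConnT Y1
  · obtain ⟨rfl, hc⟩ := h
    exact ⟨Y1, 0, le_rfl, le_rfl, by simpa using (Xloc_good Y1 hc).bigO,
      Or.inr (Or.inr ⟨rfl, hc, rfl⟩)⟩
  · obtain ⟨U, h1, h0, h2 | ⟨h2, h3, h4⟩⟩ := Xloc_bad Y1 Y0 h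
    · exact ⟨U, 1, h1, h0, by simpa using h2, Or.inl rfl⟩
    · exact ⟨U, 0, h1, h0, by simpa using h3, Or.inr (Or.inl ⟨h2, h4⟩)⟩

theorem e2_lt_of_ne {U Y : Submodule K (T → K)} (h : U ≤ Y) (hne : U ≠ Y) :
    finrank K U + 1 ≤ finrank K Y :=
  Submodule.finrank_lt_finrank_of_lt (lt_of_le_of_ne h hne)

theorem e2_letter {Y1 Y0 U : Submodule K (T → K)} {δ : ℕ} (hd : E2Dat Y1 Y0 U δ)
    (f1 f0 : Prop) [Decidable f1] [Decidable f0] (D1 D0 : Set T) (hD1 : ¬ f1 → D1 ≠ ∅ ∧ D1 ≠ Set.univ)
    (hD0 : ¬ f0 → D0 ≠ ∅ ∧ D0 ≠ Set.univ) :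
    2 * finrank K U + 2 ≤ (finrank K Y1 + finrank K Y0) +
      ((if ¬ f1 then (if SplitT D1 Y1 then 0 else 1) else 0) +
        (if ¬ f0 then (if SplitT D0 Y0 then 0 else 1) else 0)) + 2 * δ +
      ((if f1 then 1 else 0) + (if f0 then 1 else 0)) := by
  have h1 := Submodule.finrank_mono hd.le1
  have h0 := Submodule.finrank_mono hd.le0
  rcases hd.alt with h | ⟨h2, h3⟩ | ⟨h2, h3, h4⟩
  · omega
  · by_cases hU1 : U = Y1
    · have hU0 : U ≠ Y0 := by
        rcases h3 with h3 | h3
        · exact absurd hU1 h3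
        · exact h3
      have h5 := e2_lt_of_ne hd.le0 hU0
      by_cases hf1 : f1
      · rw [if_pos hf1]
        omega
      · by_cases hf0 : f0
        · rw [if_pos hf0]
          omega
        · rw [if_pos hf1, if_pos hf0, if_neg hf1, if_neg hf0]
          by_cases h6 : finrank K Y0 = finrank K Y1 + 1
          · have h7 : ¬ (SplitT D1 Y1 ∧ SplitT D0 Y0) := by
              rintro ⟨h8, h9⟩
              have hle : Y1 ≤ Y0 := hU1 ▸ hd.le0
              rcases common_split hle h6 h8 h9 with h10 | h10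
              · exact h2 D0 (hD0 hf0).1 (hD0 hf0).2 ⟨h10, h9⟩
              · exact h2 D1 (hD1 hf1).1 (hD1 hf1).2 ⟨h8, h10⟩
            by_cases h8 : SplitT D1 Y1
            · rw [if_pos h8, if_neg (fun h9 => h7 ⟨h8, h9⟩)]
              omega
            · rw [if_neg h8]
              omega
          · rw [hU1] at h5 ⊢
            omega
    · by_cases hU0 : U = Y0
      · have h5 := e2_lt_of_ne hd.le1 hU1
        by_cases hf1 : f1
        · rw [if_pos hf1]
          omega
        · by_cases hf0 : f0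
          · rw [if_pos hf0]
            omega
          · rw [if_pos hf1, if_pos hf0, if_neg hf1, if_neg hf0]
            by_cases h6 : finrank K Y1 = finrank K Y0 + 1
            · have h7 : ¬ (SplitT D1 Y1 ∧ SplitT D0 Y0) := by
                rintro ⟨h8, h9⟩
                have hle : Y0 ≤ Y1 := hU0 ▸ hd.le1
                rcases common_split hle h6 h9 h8 with h10 | h10
                · exact h2 D1 (hD1 hf1).1 (hD1 hf1).2 ⟨h8, h10⟩
                · exact h2 D0 (hD0 hf0).1 (hD0 hf0).2 ⟨h10, h9⟩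
              by_cases h8 : SplitT D1 Y1
              · rw [if_pos h8, if_neg (fun h9 => h7 ⟨h8, h9⟩)]
                omega
              · rw [if_neg h8]
                omega
            · rw [hU0] at h5 ⊢
              omega
      · have h5 := e2_lt_of_ne hd.le1 hU1
        have h6 := e2_lt_of_ne hd.le0 hU0
        omega
  · have h5 : ¬ f1 → ¬ SplitT D1 Y1 := fun hf => h3 D1 (hD1 hf).1 (hD1 hf).2
    have h6 : ¬ f0 → ¬ SplitT D0 Y0 := fun hf => by
      rw [← h2]
      exact h3 D0 (hD0 hf).1 (hD0 hf).2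
    by_cases hf1 : f1
    · rw [if_neg (not_not.2 hf1), if_pos hf1]
      by_cases hf0 : f0
      · rw [if_neg (not_not.2 hf0), if_pos hf0]
        omega
      · rw [if_pos hf0, if_neg (h6 hf0)]
        omega
    · rw [if_pos hf1, if_neg (h5 hf1)]
      by_cases hf0 : f0
      · rw [if_neg (not_not.2 hf0), if_pos hf0]
        omega
      · rw [if_pos hf0, if_neg (h6 hf0)]
        omega

theorem e2_letter_bad {Y1 Y0 U : Submodule K (T → K)} {δ : ℕ} (hd : E2Dat Y1 Y0 U δ)
    (hb : ¬ (Y1 = Y0 ∧ ConnT Y1)) :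
    2 * finrank K U + 1 ≤ (finrank K Y1 + finrank K Y0) + 2 * δ := by
  have h1 := Submodule.finrank_mono hd.le1
  have h0 := Submodule.finrank_mono hd.le0
  rcases hd.alt with h | ⟨h2, h3⟩ | ⟨h2, h3, h4⟩
  · omega
  · rcases h3 with h3 | h3
    · have h5 := e2_lt_of_ne hd.le1 h3
      omega
    · have h5 := e2_lt_of_ne hd.le0 h3
      omega
  · exact absurd ⟨h2, h3⟩ hb

end E2e

section E2f

variable {K : Type*} [Field K] [Finite K] {ℓ : ℕ} [NeZero ℓ] {σ : ZMod ℓ → Bool}
  {top : Setoid (ZMod ℓ)}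

instance e2_nonempty (b : Quotient top) : Nonempty (E2T top b) := by
  induction b using Quotient.inductionOn with
  | h ε => exact ⟨⟨ε, rfl⟩⟩

theorem e2_sum_card : ∑ b : Quotient top, Nat.card (E2T top b) = ℓ := by
  rw [← Nat.card_sigma, Nat.card_congr (Equiv.sigmaFiberEquiv (Quotient.mk top)), Nat.card_zmod]

theorem e2_bad_ineq (hred : Reduced σ top) (hnc : NoCut σ top) (S : Submodule K (ZMod ℓ → K))
    (U : ∀ b : Quotient top, Submodule K (E2T top b → K)) (δ : Quotient top → ℕ)
    (hd : ∀ b, E2Dat (e2Y σ S true b) (e2Y σ S false b) (U b) (δ b)) (b₀ : Quotient top)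
    (hb : ¬ (e2Y σ S true b₀ = e2Y σ S false b₀ ∧ ConnT (e2Y σ S true b₀))) :
    2 * (∑ b, finrank K (U b)) + 2 * Nat.card (Quotient top) + 1 ≤
      2 * finrank K S + 2 * (∑ b, δ b) + 2 * Nat.card (Quotient (vert σ top)) := by
  obtain ⟨F, D, hF1, hF0, hFc, hD, hkey⟩ := key_inequality K hred hnc b₀ true
  have hk := hkey (fun x => DD σ x.2 {ε | Quotient.mk top ε = x.1} S)
    (fun x => inf_le_left)
  have hsup : (⨆ x : Quotient top × Bool,
      (DD σ x.2 {ε | Quotient.mk top ε = x.1} S).map (push σ x.2)) ≤ S := by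
    refine iSup_le fun x => ?_
    rw [Submodule.map_le_iff_le_comap]
    exact inf_le_right
  have hsup' := Submodule.finrank_mono hsup
  -- per letter
  have hlet : ∀ b : Quotient top, 2 * finrank K (U b) + 2 + (if b = b₀ then 1 else 0) ≤
      (∑ s : Bool, finrank K (DD σ s {ε | Quotient.mk top ε = b} S)) +
      (∑ s : Bool, if (b, s) ∉ F then
        (if ∀ u ∈ DD σ s {ε | Quotient.mk top ε = b} S,
          res (D (b, s)) u ∈ DD σ s {ε | Quotient.mk top ε = b} S then 0 else 1) else 0) +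
      2 * δ b + (∑ s : Bool, if (b, s) ∈ F then 1 else 0) := by
    intro b
    simp only [Fintype.sum_bool, e2_finrank_DD, e2_split_iff]
    by_cases h0 : b = b₀
    · subst h0
      have := e2_letter_bad (hd b) hb
      rw [if_pos rfl, if_pos hF1, if_pos hF0, if_neg (not_not.2 hF1), if_neg (not_not.2 hF0)]
      omega
    · rw [if_neg h0, add_zero]
      have hnt : ∀ s : Bool, (b, s) ∉ F → ({x : E2T top b | x.1 ∈ D (b, s)} ≠ ∅ ∧
          {x : E2T top b | x.1 ∈ D (b, s)} ≠ Set.univ) := by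
        intro s hs
        obtain ⟨⟨ε, h1, h2⟩, ⟨ε', h3, h4⟩⟩ := hD _ hs
        constructor
        · intro h5
          have h6 : (⟨ε, h1⟩ : E2T top b) ∈ {x : E2T top b | x.1 ∈ D (b, s)} := h2
          rw [h5] at h6
          exact h6
        · intro h5
          have h6 : (⟨ε', h3⟩ : E2T top b) ∈ {x : E2T top b | x.1 ∈ D (b, s)} := by
            rw [h5]
            trivial
          exact h4 h6
      exact e2_letter (hd b) ((b, true) ∈ F) ((b, false) ∈ F) {x | x.1 ∈ D (b, true)}
        {x | x.1 ∈ D (b, false)} (hnt true) (hnt false)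
  have hsum := Finset.sum_le_sum (s := Finset.univ) (fun b _ => hlet b)
  rw [Finset.sum_filter, Fintype.sum_prod_type, Fintype.sum_prod_type] at hk
  have hFsum : ∑ b : Quotient top, ∑ s : Bool, (if (b, s) ∈ F then 1 else 0) = F.card := by
    rw [← Fintype.sum_prod_type (fun x : Quotient top × Bool => if x ∈ F then 1 else 0)]
    simp
  simp only [Finset.sum_add_distrib, ← Finset.mul_sum, hFsum, Finset.sum_ite_eq',
    Finset.mem_univ, if_true, Finset.sum_const, Finset.card_univ, smul_eq_mul] at hsum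
  rw [← Nat.card_eq_fintype_card] at hsum
  simp only at hk
  rw [hFc] at hsum
  omega

end E2f

section E2g

variable {K : Type*} [Field K] [Finite K] {ℓ : ℕ} [NeZero ℓ] {σ : ZMod ℓ → Bool}
  {top : Setoid (ZMod ℓ)} {S : Submodule K (ZMod ℓ → K)}

theorem e2_finrank_fun : finrank K (ZMod ℓ → K) = ℓ := by
  rw [Module.finrank_fintype_fun_eq_card, ZMod.card]

theorem e2_sum_exp (d : Quotient top → ℤ) :
    (-((ℓ - finrank K S : ℕ) : ℤ)) +
      ∑ b : Quotient top, ((Nat.card (E2T top b) : ℤ) - d b) = finrank K S - ∑ b, d b := by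
  have h3 : finrank K S ≤ ℓ := by
    have := Submodule.finrank_le S
    rwa [e2_finrank_fun] at this
  have h4 : (∑ b : Quotient top, (Nat.card (E2T top b) : ℤ)) = ℓ := by
    exact_mod_cast e2_sum_card
  rw [Finset.sum_sub_distrib, h4]
  push_cast [h3]
  ring

theorem e2_term_bad (hred : Reduced σ top) (hnc : NoCut σ top) (h : ¬ E2Good σ top S) :
    BigO K (fun N => ind K (ℓ - finrank K S) N *
      ∏ b : Quotient top, Xloc (e2Y σ S true b) (e2Y σ S false b) N) (rk σ top) := by
  have hex : ∀ b : Quotient top, ∃ (U : Submodule K (E2T top b → K)) (δ : ℕ),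
      E2Dat (e2Y σ S true b) (e2Y σ S false b) U δ := fun b => e2_exists_dat _ _
  choose U δ hd using hex
  obtain ⟨b₀, hb⟩ : ∃ b₀ : Quotient top,
      ¬ (e2Y σ S true b₀ = e2Y σ S false b₀ ∧ ConnT (e2Y σ S true b₀)) := by
    by_contra hcon
    push Not at hcon
    exact h ⟨fun b => (hcon b).1, fun b => (hcon b).2⟩
  have hin := e2_bad_ineq hred hnc S U δ hd b₀ hb
  have h1 := (ind_lead (K := K) (ℓ - finrank K S)).bigO.mul
    (BigO.prod (s := Finset.univ) (fun b _ => (hd b).bigO))
  refine h1.mono ?_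
  have h2 := e2_sum_exp (S := S) (top := top) (fun b => (finrank K (U b) : ℤ) - δ b)
  simp only [sub_sub_eq_add_sub, Finset.sum_sub_distrib] at h2
  have h3 : ∀ b : Quotient top, (Nat.card (E2T top b) : ℤ) - finrank K (U b) + δ b =
    (Nat.card (E2T top b) : ℤ) + δ b - finrank K (U b) := fun b => by ring
  simp only [h3]
  rw [Finset.sum_sub_distrib]
  rw [h2, rk]
  have h4 : (∑ b, (finrank K (U b) : ℤ)) = ((∑ b, finrank K (U b) : ℕ) : ℤ) := by push_cast; rfl
  have h5 : (∑ b, (δ b : ℤ)) = ((∑ b, δ b : ℕ) : ℤ) := by push_cast; rfl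
  rw [h4, h5]
  omega

theorem e2_term_good (h : E2Good σ top S) :
    Lead K (fun N => ind K (ℓ - finrank K S) N *
      ∏ b : Quotient top, Xloc (e2Y σ S true b) (e2Y σ S false b) N) 1 (e2exp σ top S) := by
  have h1 : ∀ b ∈ (Finset.univ : Finset (Quotient top)),
      Lead K (Xloc (e2Y σ S true b) (e2Y σ S false b)) 1
        ((Nat.card (E2T top b) : ℤ) - finrank K (e2Y σ S true b)) := fun b _ => by
    rw [← h.eq b]
    exact Xloc_good _ (h.conn b)
  have h2 := (ind_lead (K := K) (ℓ - finrank K S)).mul (Lead.prod_one h1)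
  rw [e2_sum_exp, one_mul] at h2
  exact h2

end E2g

section E2h

variable {K : Type*} [Field K] {ℓ : ℕ} [NeZero ℓ] {σ : ZMod ℓ → Bool}
  {τ top : Setoid (ZMod ℓ)}

/-- Sums over the classes of `τ`. -/
def e2sum (K : Type*) [Field K] (τ : Setoid (ZMod ℓ)) : (ZMod ℓ → K) →ₗ[K] (Quotient τ → K) where
  toFun u b := ∑ ε, if Quotient.mk τ ε = b then u ε else 0
  map_add' u v := by
    funext b
    simp only [Pi.add_apply, ← Finset.sum_add_distrib]
    refine Finset.sum_congr rfl fun ε _ => ?_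
    split_ifs <;> simp
  map_smul' c u := by
    funext b
    simp only [Pi.smul_apply, smul_eq_mul, RingHom.id_apply, Finset.mul_sum]
    refine Finset.sum_congr rfl fun ε _ => ?_
    split_ifs <;> simp

theorem e2sum_apply (u : ZMod ℓ → K) (b : Quotient τ) :
    e2sum K τ u b = ∑ ε, if Quotient.mk τ ε = b then u ε else 0 := rfl

/-- The functions with zero sum on each class of `τ`. -/
def e2Z (K : Type*) [Field K] (τ : Setoid (ZMod ℓ)) : Submodule K (ZMod ℓ → K) :=
  LinearMap.ker (e2sum K τ)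

theorem e2_mem_Z {u : ZMod ℓ → K} :
    u ∈ e2Z K τ ↔ ∀ b : Quotient τ, (∑ ε, if Quotient.mk τ ε = b then u ε else 0) = 0 := by
  rw [e2Z, LinearMap.mem_ker]
  exact funext_iff

theorem e2_sum_surj : Function.Surjective (e2sum K τ) := by
  intro f
  refine ⟨fun ε => if ε = (Quotient.mk τ ε).out then f (Quotient.mk τ ε) else 0, ?_⟩
  funext b
  rw [e2sum_apply, Finset.sum_eq_single b.out]
  · have h : Quotient.mk τ b.out = b := Quotient.out_eq b
    rw [if_pos h, h, if_pos rfl]
  · intro ε _ hε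
    split_ifs with h1 h2
    · exact absurd (h1 ▸ h2) hε
    · rfl
    · rfl
  · intro h
    exact absurd (Finset.mem_univ _) h

theorem e2_finrank_Z : (finrank K (e2Z K τ) : ℤ) = ℓ - Nat.card (Quotient τ) := by
  have h := LinearMap.finrank_range_add_finrank_ker (e2sum K τ)
  rw [LinearMap.range_eq_top.2 e2_sum_surj, finrank_top, Module.finrank_fintype_fun_eq_card,
    Module.finrank_fintype_fun_eq_card, ZMod.card, ← Nat.card_eq_fintype_card] at h
  rw [e2Z]
  omega

theorem e2_Z_sum_mul {u : ZMod ℓ → K} (hu : u ∈ e2Z K τ) (h : ZMod ℓ → K)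
    (hh : ∀ ε ε', τ ε ε' → h ε = h ε') : ∑ ε, u ε * h ε = 0 := by
  have h1 : ∀ ε, u ε * h ε = ∑ b : Quotient τ, (if Quotient.mk τ ε = b then u ε else 0) * h b.out := by
    intro ε
    rw [Finset.sum_eq_single (Quotient.mk τ ε)]
    · rw [if_pos rfl, hh ε (Quotient.mk τ ε).out
        (τ.symm' (Quotient.exact (Quotient.out_eq (Quotient.mk τ ε))))]
    · intro b _ hb
      rw [if_neg (Ne.symm hb), zero_mul]
    · intro h
      exact absurd (Finset.mem_univ _) h
  simp only [h1]
  rw [Finset.sum_comm]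
  refine Finset.sum_eq_zero fun b _ => ?_
  rw [← Finset.sum_mul, e2_mem_Z.1 hu b, zero_mul]

theorem e2_single_mem_Z {p q : ZMod ℓ} (h : τ p q) :
    (Pi.single p 1 - Pi.single q 1 : ZMod ℓ → K) ∈ e2Z K τ := by
  rw [e2_mem_Z]
  intro b
  have h1 : ∀ ε, (if Quotient.mk τ ε = b then (Pi.single p 1 - Pi.single q 1 : ZMod ℓ → K) ε else 0) =
      (if ε = p then (if Quotient.mk τ p = b then 1 else 0) else 0) -
      (if ε = q then (if Quotient.mk τ q = b then 1 else 0) else 0) := by
    intro ε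
    simp only [Pi.sub_apply, Pi.single_apply]
    by_cases h2 : ε = p <;> by_cases h3 : ε = q <;> by_cases h4 : Quotient.mk τ ε = b <;>
      simp_all
  simp only [h1]
  rw [Finset.sum_sub_distrib, Finset.sum_ite_eq', Finset.sum_ite_eq']
  have h5 : Quotient.mk τ p = Quotient.mk τ q := Quotient.sound h
  simp [h5]

theorem e2_Z_le {W : Submodule K (ZMod ℓ → K)}
    (hW : ∀ p q, τ p q → (Pi.single p 1 - Pi.single q 1 : ZMod ℓ → K) ∈ W) : e2Z K τ ≤ W := by
  intro z hz
  have h1 : z = ∑ p, z p • (Pi.single p 1 - Pi.single (Quotient.mk τ p).out 1 : ZMod ℓ → K) := by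
    simp only [smul_sub]
    rw [Finset.sum_sub_distrib]
    have h2 : ∑ p, z p • (Pi.single p 1 : ZMod ℓ → K) = z := by
      funext q
      simp [Finset.sum_apply, Pi.single_apply]
    have h3 : ∑ p, z p • (Pi.single (Quotient.mk τ p).out 1 : ZMod ℓ → K) = 0 := by
      funext q
      rw [Finset.sum_apply]
      simp only [Pi.smul_apply, smul_eq_mul, Pi.zero_apply]
      apply e2_Z_sum_mul hz
      intro ε ε' h
      rw [show Quotient.mk τ ε = Quotient.mk τ ε' from Quotient.sound h]
    rw [h2, h3, sub_zero]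
  rw [h1]
  refine Submodule.sum_mem _ fun p _ => Submodule.smul_mem _ _ (hW _ _ ?_)
  exact τ.symm' (Quotient.exact (Quotient.out_eq (Quotient.mk τ p)))

theorem e2_vert_epos {s : Bool} {ε ε' : ZMod ℓ} (h : top ε ε') :
    vert σ top (epos σ s ε) (epos σ s ε') := fun _ hτ => hτ s ε ε' h

theorem e2_push_sum (s : Bool) (u : ZMod ℓ → K) (c : Quotient (vert σ top)) :
    (∑ p, if Quotient.mk (vert σ top) p = c then push σ s u p else 0) =
      ∑ ε, u ε * (if Quotient.mk (vert σ top) (epos σ s ε) = c then 1 else 0) := by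
  rw [← sum_push_mul σ s u (fun p => if Quotient.mk (vert σ top) p = c then 1 else 0)]
  refine Finset.sum_congr rfl fun p _ => ?_
  split_ifs <;> simp

theorem e2_TT_Z : TT σ (e2Z K top) = e2Z K (vert σ top) := by
  apply le_antisymm
  · rw [TT_le_iff]
    intro s u hu
    rw [e2_mem_Z]
    intro c
    rw [e2_push_sum]
    apply e2_Z_sum_mul hu
    intro ε ε' h
    rw [show Quotient.mk (vert σ top) (epos σ s ε) = Quotient.mk (vert σ top) (epos σ s ε') from
      Quotient.sound (e2_vert_epos h)]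
  · apply e2_Z_le
    let r : Setoid (ZMod ℓ) :=
      { r := fun p q => (Pi.single p 1 - Pi.single q 1 : ZMod ℓ → K) ∈ TT σ (e2Z K top)
        iseqv := ⟨fun p => by rw [sub_self]; exact Submodule.zero_mem _,
          fun {p q} h => by
            rw [← neg_sub]
            exact Submodule.neg_mem _ h,
          fun {p q t} h h' => by
            rw [← sub_add_sub_cancel _ (Pi.single q 1 : ZMod ℓ → K)]
            exact Submodule.add_mem _ h h'⟩ }
    have hle : vert σ top ≤ r := by
      apply sInf_le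
      intro s ε ε' h
      show (Pi.single (epos σ s ε) 1 - Pi.single (epos σ s ε') 1 : ZMod ℓ → K) ∈ TT σ (e2Z K top)
      rw [← push_single, ← push_single, ← map_sub]
      exact push_mem_TT s (e2_single_mem_Z h)
    intro p q h
    exact hle h

theorem e2_closed_Z (σ : ZMod ℓ → Bool) : Closed σ top (e2Z K top) := by
  refine ⟨?_, ?_⟩
  · intro ε₀ u hu
    rw [e2_mem_Z]
    intro b
    rw [e2_block]
    by_cases h : b = Quotient.mk top ε₀
    · refine Eq.trans (Finset.sum_congr rfl fun ε _ => ?_) (e2_mem_Z.1 hu b)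
      rw [e2_res_apply]
      by_cases h1 : Quotient.mk top ε = b
      · rw [if_pos h1, if_pos h1, if_pos
          (show ε ∈ {ε | Quotient.mk top ε = Quotient.mk top ε₀} from h1.trans h)]
      · rw [if_neg h1, if_neg h1]
    · refine Finset.sum_eq_zero fun ε _ => ?_
      rw [e2_res_apply]
      by_cases h1 : Quotient.mk top ε = b
      · rw [if_pos h1, if_neg (show ε ∉ {ε | Quotient.mk top ε = Quotient.mk top ε₀} from
          fun h2 => h (h1.symm.trans h2))]
      · rw [if_neg h1]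
  · intro s ε₀ u hu hp
    rw [e2_TT_Z, e2_mem_Z] at hp
    have h1 := hp (Quotient.mk _ (epos σ s ε₀))
    rw [e2_push_sum] at h1
    have h2 : ∑ ε, u ε = 0 := by
      rw [← h1]
      refine Finset.sum_congr rfl fun ε _ => ?_
      by_cases h3 : ε ∈ block top ε₀
      · rw [if_pos (Quotient.sound (e2_vert_epos h3)), mul_one]
      · rw [hu ε h3, zero_mul]
    rw [e2_mem_Z]
    intro b
    by_cases h : b = Quotient.mk top ε₀
    · refine Eq.trans (Finset.sum_congr rfl fun ε _ => ?_) h2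
      by_cases h3 : ε ∈ block top ε₀
      · rw [if_pos]
        rw [h]
        exact Quotient.sound h3
      · rw [hu ε h3, ite_self]
    · refine Finset.sum_eq_zero fun ε _ => ?_
      by_cases h1 : Quotient.mk top ε = b
      · rw [if_pos h1]
        apply hu
        intro h3
        exact h (h1.symm.trans (Quotient.sound h3))
      · rw [if_neg h1]

theorem e2_comp_Z : comp (e2Z K top) = top := by
  refine le_antisymm (comp_le_iff.2 (e2_closed_Z (fun _ => true)).1) ?_
  intro ε ε' h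
  by_contra hn
  have h1 := split_comp (e2Z K top) ε _ (e2_single_mem_Z h)
  have h2 : res (block (comp (e2Z K top)) ε) (Pi.single ε 1 - Pi.single ε' 1 : ZMod ℓ → K) =
      Pi.single ε 1 := by
    funext x
    rw [e2_res_apply]
    by_cases hx : x ∈ block (comp (e2Z K top)) ε
    · rw [if_pos hx, Pi.sub_apply, Pi.single_apply, Pi.single_apply,
        if_neg (c := x = ε') (fun h3 => hn ((comp (e2Z K top)).symm' (h3 ▸ hx))), sub_zero]
    · rw [if_neg hx, Pi.single_apply, if_neg]
      intro h3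
      exact hx (h3 ▸ (comp (e2Z K top)).refl' _)
  rw [h2, e2_mem_Z] at h1
  have h3 := h1 (Quotient.mk top ε)
  rw [Finset.sum_eq_single ε] at h3
  · simp at h3
  · intro x _ hx
    rw [Pi.single_apply, if_neg hx, ite_self]
  · intro h
    exact absurd (Finset.mem_univ _) h

theorem e2_exc_Z : exc σ (e2Z K top) = rk σ top - 1 := by
  rw [exc, e2_TT_Z, e2_finrank_Z, e2_finrank_Z, rk]
  ring

end E2h

section E2

variable (K : Type*) [Field K] [Finite K] {ℓ : ℕ} [NeZero ℓ] {σ : ZMod ℓ → Bool}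
  {top : Setoid (ZMod ℓ)}

/-- If there is no cut vertex and some letter occurs twice, every letter occurs twice. -/
theorem two_le_block (hnc : NoCut σ top) (htop : top ≠ ⊥) (ε : ZMod ℓ) :
    ∃ ε', ε' ≠ ε ∧ top ε' ε := by
  by_contra hcon
  push Not at hcon
  have h0 : ∀ ε', top ε' ε → ε' = ε := fun ε' h => by
    by_contra h1
    exact hcon ε' h1 h
  have h1 : ∀ n : ℕ, ∀ ε', top ε' (ε + n) → ε' = ε + n := by
    intro n
    induction n with
    | zero => simpa using h0
    | succ n ih =>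
      have := e2_singleton_succ hnc ih
      push_cast
      rw [← add_assoc]
      exact this
  apply htop
  rw [eq_bot_iff]
  intro a b hab
  have h2 := h1 (b - ε).val a
  rw [ZMod.natCast_zmod_val, add_sub_cancel] at h2
  exact h2 hab

theorem thmK (hred : Reduced σ top) (hnc : NoCut σ top) (htop : top ≠ ⊥) :
    Lead K (alpha K σ top) (cc K σ top) (rk σ top - 1) := by
  have hterm : ∀ S ∈ (Finset.univ : Finset (Submodule K (ZMod ℓ → K))).filter
      (fun S => Free K S), Lead K (fun N => ind K (ℓ - finrank K S) N *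
        ∏ b : Quotient top, Xloc (e2Y σ S true b) (e2Y σ S false b) N)
        (if E2Good σ top S ∧ e2exp σ top S = rk σ top - 1 then 1 else 0) (rk σ top - 1) := by
    intro S _
    by_cases hg : E2Good σ top S
    · by_cases he : e2exp σ top S = rk σ top - 1
      · rw [if_pos ⟨hg, he⟩, ← he]
        exact e2_term_good hg
      · rw [if_neg (fun h => he h.2), lead_zero_iff]
        exact (e2_term_good hg).bigO.mono (by have := hg.le_exp hred hnc; omega)
    · rw [if_neg (fun h => hg h.1), lead_zero_iff]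
      exact (e2_term_bad hred hnc hg).mono (by omega)
  have hsum := Lead.sum hterm
  have hc : (∑ S ∈ (Finset.univ : Finset (Submodule K (ZMod ℓ → K))).filter
      (fun S => Free K S),
      (if E2Good σ top S ∧ e2exp σ top S = rk σ top - 1 then (1 : ℝ) else 0)) =
      cc K σ top := by
    rw [← Finset.sum_filter, Finset.filter_filter, Finset.sum_const, nsmul_eq_mul, mul_one,
      e2_card_cc hred hnc htop]
  rw [hc] at hsum
  refine hsum.congr' ?_
  filter_upwards [eventually_ge_atTop ℓ] with N hN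
  exact (e2_alpha hred hN).symm

theorem cc_pos (hred : Reduced σ top) : 0 < cc K σ top := by
  have : Finite {U : Submodule K (ZMod ℓ → K) //
      Closed σ top U ∧ comp U = top ∧ exc σ U = rk σ top - 1} := Subtype.finite
  exact Nat.card_pos_iff.2 ⟨⟨e2Z K top, e2_closed_Z σ, e2_comp_Z, e2_exc_Z⟩, this⟩

end E2

end Pool.Agent.GLFix
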