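import Pool.Agent.GLFix.Aex
import Pool.Agent.GLFix.TheoremK
import Pool.Agent.GLFix.Galois
import Pool.Agent.GLFix.AlphaBeta

/-!
# MP_ce340f_al, module I

The final induction.
-/

open scoped Classical
open Module Filter Asymptotics

set_option linter.unusedSectionVars false

noncomputable section

namespace Pool.Agent.GLFix

variable (K : Type*) [Field K] [Finite K] {ℓ : ℕ} [NeZero ℓ] {σ : ZMod ℓ → Bool}
  {top : Setoid (ZMod ℓ)}

theorem main_fold_bot_ne (hred : Reduced σ top) (htop : top ≠ ⊥) :
    fold σ top ⊥ ≠ top := by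
  rw [fold_eq_self (folded_bot hred)]
  exact fun h => htop h.symm

theorem dichotomy (hred : Reduced σ top) (htop : top ≠ ⊥) :
    ((∀ N, beta K σ top N = 0) ∧ ∀ k, aex K σ top k = 0) ∨
      ((∀ k < rk σ top, aex K σ top k = 0) ∧ 0 < aex K σ top (rk σ top) ∧
        Lead K (beta K σ top) (aex K σ top (rk σ top)) (rk σ top - 1)) := by
  induction top using WellFoundedLT.induction with
  | ind top ih =>
    by_cases hnc : NoCut σ top
    · -- no cut vertex
      right
      refine ⟨fun k hk => aex_noCut_lt K hred hnc hk, ?_, ?_⟩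
      · rw [aex_noCut_rk K hred hnc htop]
        exact cc_pos K hred
      · rw [aex_noCut_rk K hred hnc htop]
        obtain ⟨c, hc⟩ := alpha_eq K σ top
        have hbig : BigO K (fun N => -∑ ρ ∈ (Finset.univ : Finset (Setoid (ZMod ℓ))).filter
            (fun ρ => ρ < top ∧ fold σ top ρ = top), (c ρ : ℝ) * beta K σ ρ N)
            (rk σ top - 1 + 1) := by
          have h1 : BigO K (fun N => ∑ ρ ∈ (Finset.univ : Finset (Setoid (ZMod ℓ))).filter
            (fun ρ => ρ < top ∧ fold σ top ρ = top), (c ρ : ℝ) * beta K σ ρ N)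
            (rk σ top - 1 + 1) := by
            refine BigO.sum fun ρ hρ => ?_
            simp only [Finset.mem_filter, Finset.mem_univ, true_and] at hρ
            obtain ⟨hlt, hfold⟩ := hρ
            refine BigO.const_mul ?_ _
            have hne : ρ ≠ ⊥ := by
              rintro rfl
              exact main_fold_bot_ne hred htop hfold
            have hrk := rk_lt_of_noCut hred hnc hlt hfold
            rcases ih ρ hlt (hred.mono hlt.le) hne with h | h
            · have : beta K σ ρ = fun _ => 0 := funext h.1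
              rw [this]
              exact bigO_zero _
            · exact h.2.2.bigO.mono (by omega)
          have := h1.const_mul (-1)
          simpa using this
        have hα := (thmK K hred hnc htop).add_bigO hbig
        refine hα.congr' (Eventually.of_forall fun N => ?_)
        simp only [hc N]
        ring
    · -- a cut vertex
      unfold NoCut at hnc
      push_neg at hnc
      obtain ⟨ε₀, s, A, hcut⟩ := hnc
      by_cases hf : fold σ top (cut σ top ε₀ s A) = top
      · have hne : cut σ top ε₀ s A ≠ ⊥ := by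
          intro h
          rw [h] at hf
          exact main_fold_bot_ne hred htop hf
        have hlt := cut_lt hcut
        have hrk := rk_cut hcut hf
        have haex : ∀ k, aex K σ top k = aex K σ (cut σ top ε₀ s A) k :=
          fun k => aex_cut_eq K hcut hf k
        have hbeta : beta K σ top = beta K σ (cut σ top ε₀ s A) :=
          funext fun N => beta_cut_eq K hcut hf N
        rcases ih _ hlt (hred.mono hlt.le) hne with h | h
        · left
          refine ⟨fun N => ?_, fun k => ?_⟩
          · rw [hbeta]; exact h.1 N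
          · rw [haex]; exact h.2 k
        · right
          rw [hbeta, ← hrk]
          refine ⟨fun k hk => ?_, ?_, ?_⟩
          · rw [haex]; exact h.1 k hk
          · rw [haex]; exact h.2.1
          · rw [haex]; exact h.2.2
      · left
        exact ⟨fun N => beta_cut_zero K hcut hf N, fun k => aex_cut_zero K hcut hf k⟩

variable {K}

theorem main_not_isT_bot {k : ℤ} {U : Submodule K (ZMod ℓ → K)} :
    ¬ IsT σ (⊥ : Setoid (ZMod ℓ)) k U := by
  intro h
  have hU : U = ⊥ := by
    rw [Submodule.eq_bot_iff]
    intro u hu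
    by_contra hne
    obtain ⟨ε, hε⟩ := Function.ne_iff.mp hne
    have h1 := h.closed.1 ε u hu
    have h2 : res (block (⊥ : Setoid (ZMod ℓ)) ε) u = Pi.single ε (u ε) := by
      funext x
      rw [res_apply]
      by_cases hx : x = ε
      · subst hx
        rw [if_pos (show x ∈ block (⊥ : Setoid (ZMod ℓ)) x from rfl)]
        simp
      · rw [if_neg (show ¬ x ∈ block (⊥ : Setoid (ZMod ℓ)) ε from hx),
          Pi.single_eq_of_ne hx]
    rw [h2] at h1
    have h3 : (Pi.single ε 1 : ZMod ℓ → K) ∈ U := by
      have := U.smul_mem (u ε)⁻¹ h1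
      rwa [← Pi.single_smul, smul_eq_mul, inv_mul_cancel₀ hε] at this
    have h4 := push_mem_TT (σ := σ) true h3
    rw [push_single] at h4
    exact h.ne_top (h.closed.eq_top h4)
  apply h.imp
  rw [hU, dual_bot]
  exact top_le_iff.mp (le_cl _ _ _)

/-- Under minimality, imprimitive closed subspaces of minimal rank are in `𝒯_k`. -/
theorem main_isT_of_min {k : ℤ}
    (hmin : ∀ U : Submodule K (ZMod ℓ → K), IsImp σ top U → k - 1 ≤ exc σ U)
    {U : Submodule K (ZMod ℓ → K)} (hU : IsImp σ top U) (he : exc σ U = k - 1) :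
    IsT σ top k U := by
  refine { hU with exc_eq := he, dexc_eq := ?_ }
  have hN : IsImp σ top (cl σ top (dual σ U)) := by
    refine ⟨closed_cl _ _ _, hU.imp, ?_⟩
    intro htop
    apply hU.ne_top
    rw [← top_le_iff, ← htop]
    refine cl_le hU.closed ?_
    have := (dual_le_dual (σ := σ)).mpr (le_cl σ top (dual σ U))
    rwa [dual_dual] at this
  have h1 := hmin _ hN
  have h2 : exc σ (cl σ top (dual σ U)) ≤ exc σ (dual σ U) :=
    exc_cl_le (split_dual hU.closed.1)
  rw [exc_dual] at h2
  omega

theorem main_fiber {k : ℤ} {ρ : Setoid (ZMod ℓ)} (hρ : Folded σ top ρ)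
    (U : Submodule K (ZMod ℓ → K)) :
    (IsT σ top k U ∧ fold σ top (comp U) = ρ) ↔ (IsT σ ρ k U ∧ fold σ ρ (comp U) = ρ) := by
  constructor
  · rintro ⟨hT, hf⟩
    have hle : comp U ≤ ρ := hf ▸ le_fold σ top (comp U)
    have hs : Split ρ U := comp_le_iff.mp hle
    refine ⟨(isT_folded_iff hρ hs).mp hT, ?_⟩
    refine le_antisymm (fold_le (folded_self σ ρ) hle) ?_
    conv_lhs => rw [← hf]
    exact fold_le (hρ.trans (folded_fold hle)) (le_fold σ ρ (comp U))
  · rintro ⟨hT, hf⟩
    have hs : Split ρ U := hT.closed.1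
    have hle : comp U ≤ ρ := comp_le_iff.mpr hs
    refine ⟨(isT_folded_iff hρ hs).mpr hT, ?_⟩
    have h1 : fold σ top (comp U) ≤ ρ := fold_le hρ hle
    refine le_antisymm h1 ?_
    conv_lhs => rw [← hf]
    refine fold_le ?_ (le_fold σ top (comp U))
    exact (folded_fold (hle.trans hρ.1)).of_le h1 hρ.1

theorem main_crit_eq {k : ℤ}
    (hmin : ∀ U : Submodule K (ZMod ℓ → K), IsImp σ top U → k - 1 ≤ exc σ U) :
    crit K σ top k = ∑ ρ ∈ ((Finset.univ : Finset (Setoid (ZMod ℓ))).filter
      (fun ρ => Folded σ top ρ)).erase ⊥, aex K σ ρ k := by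
  have hfib : crit K σ top k = ∑ ρ ∈ (Finset.univ : Finset (Setoid (ZMod ℓ))).filter
      (fun ρ => Folded σ top ρ), aex K σ ρ k := by
    unfold crit
    rw [Nat.card_eq_fintype_card, Fintype.card_subtype]
    rw [Finset.card_eq_sum_card_fiberwise (f := fun U => fold σ top (comp U))
      (t := (Finset.univ : Finset (Setoid (ZMod ℓ))).filter (fun ρ => Folded σ top ρ))]
    · refine Finset.sum_congr rfl fun ρ hρ => ?_
      simp only [Finset.mem_filter, Finset.mem_univ, true_and] at hρ
      unfold aex
      rw [Nat.card_eq_fintype_card, Fintype.card_subtype, Finset.filter_filter]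
      congr 1
      ext U
      simp only [Finset.mem_filter, Finset.mem_univ, true_and]
      rw [← main_fiber hρ U]
      constructor
      · rintro ⟨⟨h1, h2⟩, h3⟩
        exact ⟨main_isT_of_min hmin h1 h2, h3⟩
      · rintro ⟨h1, h3⟩
        exact ⟨⟨h1.toIsImp, h1.exc_eq⟩, h3⟩
    · intro U hU
      simp only [Finset.coe_filter, Finset.mem_univ, true_and, Set.mem_setOf_eq] at hU ⊢
      exact folded_fold (comp_le_iff.mpr hU.1.closed.1)
  rw [hfib]
  symm
  apply Finset.sum_erase
  unfold aex
  have : IsEmpty {U : Submodule K (ZMod ℓ → K) //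
      IsT σ (⊥ : Setoid (ZMod ℓ)) k U ∧ fold σ ⊥ (comp U) = ⊥} :=
    ⟨fun U => main_not_isT_bot U.2.1⟩
  exact Nat.card_of_isEmpty

variable (K)

theorem main_beta_bot {N : ℕ} (hN : 1 ≤ N) : beta K σ (⊥ : Setoid (ZMod ℓ)) N = 1 := by
  have h1 := beta_sum K σ (⊥ : Setoid (ZMod ℓ)) N
  rw [gfun_bot K σ hN] at h1
  have h2 : (Finset.univ : Finset (Setoid (ZMod ℓ))).filter
      (fun ρ => Folded σ (⊥ : Setoid (ZMod ℓ)) ρ) = {⊥} := by
    ext ρ
    simp only [Finset.mem_filter, Finset.mem_univ, true_and, Finset.mem_singleton]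
    constructor
    · intro h
      exact le_bot_iff.mp h.1
    · rintro rfl
      exact folded_self σ ⊥
  rw [h2, Finset.sum_singleton] at h1
  exact h1.symm

theorem comb_main (hred : Reduced σ top) (k : ℤ)
    (hk : ∃ U : Submodule K (ZMod ℓ → K), IsImp σ top U ∧ exc σ U = k - 1)
    (hmin : ∀ U : Submodule K (ZMod ℓ → K), IsImp σ top U → k - 1 ≤ exc σ U) :
    BigO K (fun N => gfun K σ top N - 1 - crit K σ top k * xx K N ^ (k - 1)) k := by
  set S := ((Finset.univ : Finset (Setoid (ZMod ℓ))).filter (fun ρ => Folded σ top ρ)).erase ⊥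
    with hS
  have hlead : ∀ ρ ∈ S, Lead K (beta K σ ρ) (aex K σ ρ k) (k - 1) := by
    intro ρ hρ
    rw [hS, Finset.mem_erase, Finset.mem_filter] at hρ
    obtain ⟨hne, -, hfold⟩ := hρ
    rcases dichotomy K (hred.mono hfold.1) hne with h | h
    · have h1 : beta K σ ρ = fun _ => 0 := funext h.1
      rw [h1, h.2 k, Nat.cast_zero, lead_zero_iff]
      exact bigO_zero _
    · rcases lt_trichotomy k (rk σ ρ) with hlt | heq | hgt
      · rw [h.1 k hlt, Nat.cast_zero, lead_zero_iff]
        exact h.2.2.bigO.mono (by omega)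
      · rw [heq]
        exact h.2.2
      · exfalso
        have hpos := h.2.1
        unfold aex at hpos
        obtain ⟨U, hU, -⟩ := (Nat.card_pos_iff.mp hpos).1
        have hT := (isT_folded_iff hfold hU.closed.1).mpr hU
        have h1 := hmin U hT.toIsImp
        rw [hT.exc_eq] at h1
        omega
  have hsum := Lead.sum hlead
  unfold Lead at hsum
  rw [show k - 1 + 1 = k by ring] at hsum
  refine hsum.congr' ?_
  filter_upwards [eventually_ge_atTop 1] with N hN
  have h1 : gfun K σ top N = 1 + ∑ ρ ∈ S, beta K σ ρ N := by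
    rw [beta_sum K σ top N, hS, ← Finset.add_sum_erase _ _
      (show ⊥ ∈ (Finset.univ : Finset (Setoid (ZMod ℓ))).filter (fun ρ => Folded σ top ρ) by
        simp only [Finset.mem_filter, Finset.mem_univ, true_and]
        exact folded_bot hred), main_beta_bot K hN]
  rw [h1, main_crit_eq hmin]
  push_cast
  ring

end Pool.Agent.GLFix
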